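import Pool.Agent.H738R2.PI.Defs

open Complex Set Filter Topology Polynomial

namespace H738PI

/-- the algebraic core: leading terms -/
lemma ALG_core (n M L : ℕ) (hn : 1 ≤ n) (hL : 1 ≤ L) (gc : ℕ → ℂ) (hg : gc (n - 1) = 0)
    (P : ℂ[X]) (hP : P.natDegree = M + L)
    (hid : (X * derivative P - C (M : ℂ) * P) ^ n =
      ∑ k ∈ Finset.range (n + 1), C (gc k) * P ^ k * X ^ (M * (n - k))) :
    (L : ℂ) ^ n = gc n ∧ ∀ i, M < i + L → i ≠ M + L → P.coeff i = 0 := by
  set R : ℂ[X] := X * derivative P - C (M : ℂ) * P with hR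
  have hP0 : P ≠ 0 := by
    intro h
    rw [h, natDegree_zero] at hP
    omega
  set p : ℂ := P.coeff (M + L) with hp
  have hp0 : p ≠ 0 := by
    rw [hp, ← hP]
    exact (leadingCoeff_ne_zero).2 hP0
  have hRc : ∀ i, R.coeff i = ((i : ℂ) - M) * P.coeff i := by
    intro i
    rw [hR, coeff_sub, coeff_C_mul]
    rcases i with _ | i
    · simp
    · rw [coeff_X_mul, coeff_derivative]
      push_cast
      ring
  have hRd : R.natDegree ≤ M + L := by
    rw [natDegree_le_iff_coeff_eq_zero]
    intro i hi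
    rw [hRc, coeff_eq_zero_of_natDegree_lt (by omega), mul_zero]
  have hRl : R.coeff (M + L) = L * p := by
    rw [hRc, ← hp]
    push_cast
    ring
  have hPd : P.natDegree ≤ M + L := hP.le
  -- coefficient at the top
  have hterm : ∀ k, k < n → (C (gc k) * P ^ k * X ^ (M * (n - k))).natDegree ≤
      n * (M + L) - (n - k) * L := by
    intro k hk
    have h1 : (P ^ k).natDegree ≤ k * (M + L) := natDegree_pow_le_of_le k hPd
    have h2 : (C (gc k) * P ^ k).natDegree ≤ k * (M + L) :=
      (natDegree_C_mul_le _ _).trans h1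
    have h3 := natDegree_mul_le_of_le h2 (natDegree_X_pow_le (R := ℂ) (M * (n - k)))
    refine h3.trans ?_
    obtain ⟨d, rfl⟩ := Nat.exists_eq_add_of_lt hk
    have e1 : k + d + 1 - k = d + 1 := by omega
    rw [e1]
    apply Nat.le_sub_of_add_le
    apply le_of_eq
    ring
  have hnL : ∀ k, k < n → L ≤ (n - k) * L := by
    intro k hk
    exact Nat.le_mul_of_pos_left L (by omega)
  have hLn : ∀ k, (n - k) * L ≤ n * (M + L) := by
    intro k
    exact Nat.mul_le_mul (Nat.sub_le _ _) (Nat.le_add_left _ _)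
  have htop : (L * p) ^ n = gc n * p ^ n := by
    have h1 : (R ^ n).coeff (n * (M + L)) = (L * p) ^ n := by
      rw [coeff_pow_of_natDegree_le hRd, hRl]
    rw [← h1, hid, finsetSum_coeff, Finset.sum_range_succ]
    rw [Finset.sum_eq_zero, zero_add, Nat.sub_self, mul_zero, pow_zero, mul_one, coeff_C_mul,
      coeff_pow_of_natDegree_le hPd]
    intro k hk
    rw [Finset.mem_range] at hk
    apply coeff_eq_zero_of_natDegree_lt
    refine lt_of_le_of_lt (hterm k hk) ?_
    have := hnL k hk
    have := hLn k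
    omega
  have hLg : (L : ℂ) ^ n = gc n := by
    rw [mul_pow] at htop
    exact mul_right_cancel₀ (pow_ne_zero n hp0) htop
  refine ⟨hLg, ?_⟩
  set S : ℂ[X] := R - C (L : ℂ) * P with hS
  set E : ℂ[X] := ∑ i ∈ Finset.range n, R ^ i * (C (L : ℂ) * P) ^ (n - 1 - i) with hE
  have hSE : S * E = R ^ n - (C (L : ℂ) * P) ^ n := by
    rw [hS, hE, mul_comm]
    exact (Commute.all _ _).geom_sum₂_mul n
  have hLP : (C (L : ℂ) * P).natDegree ≤ M + L := (natDegree_C_mul_le _ _).trans hPd
  have hEc : E.coeff ((n - 1) * (M + L)) = n * (L * p) ^ (n - 1) := by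
    rw [hE, finsetSum_coeff]
    have : ∀ i ∈ Finset.range n, (R ^ i * (C (L : ℂ) * P) ^ (n - 1 - i)).coeff
        ((n - 1) * (M + L)) = (L * p) ^ (n - 1) := by
      intro i hi
      rw [Finset.mem_range] at hi
      have e1 : (n - 1) * (M + L) = i * (M + L) + (n - 1 - i) * (M + L) := by
        rw [← add_mul]; congr 1; omega
      rw [e1, coeff_mul_add_eq_of_natDegree_le (natDegree_pow_le_of_le i hRd)
        (natDegree_pow_le_of_le (n - 1 - i) hLP), coeff_pow_of_natDegree_le hRd,
        coeff_pow_of_natDegree_le hLP, hRl, coeff_C_mul, ← hp, ← pow_add]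
      congr 1
      omega
    rw [Finset.sum_congr rfl this]
    simp
  have hEne : E.coeff ((n - 1) * (M + L)) ≠ 0 := by
    rw [hEc]
    have : (n : ℂ) ≠ 0 := by exact_mod_cast (by omega : n ≠ 0)
    have hL' : (L : ℂ) ≠ 0 := by exact_mod_cast (by omega : L ≠ 0)
    exact mul_ne_zero this (pow_ne_zero _ (mul_ne_zero hL' hp0))
  have hE0 : E ≠ 0 := by
    intro h
    rw [h, coeff_zero] at hEne
    exact hEne rfl
  have hEd : (n - 1) * (M + L) ≤ E.natDegree := le_natDegree_of_ne_zero hEne
  have hSEd : S * E = ∑ k ∈ Finset.range (n - 1), C (gc k) * P ^ k * X ^ (M * (n - k)) := by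
    rw [hSE, hid, Finset.sum_range_succ, Nat.sub_self, mul_zero, pow_zero, mul_one, mul_pow,
      ← C_pow, hLg, add_sub_cancel_right]
    obtain ⟨m, rfl⟩ : ∃ m, n = m + 1 := ⟨n - 1, by omega⟩
    rw [Finset.sum_range_succ]
    simp only [Nat.add_sub_cancel] at hg ⊢
    rw [hg]
    simp
  intro i hi hiM
  have hScoeff : S.coeff i = ((i : ℂ) - M - L) * P.coeff i := by
    rw [hS, coeff_sub, hRc, coeff_C_mul]; ring
  have hSi : S.coeff i = 0 := by
    by_cases hS0 : S = 0
    · rw [hS0, coeff_zero]
    · by_cases hn1 : n = 1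
      · exfalso
        subst hn1
        rw [Nat.sub_self, Finset.sum_range_zero] at hSEd
        exact (mul_ne_zero hS0 hE0) hSEd
      · apply coeff_eq_zero_of_natDegree_lt
        have h1 : (S * E).natDegree ≤ n * (M + L) - 2 * L := by
          rw [hSEd]
          apply natDegree_sum_le_of_forall_le
          intro k hk
          rw [Finset.mem_range] at hk
          refine (hterm k (by omega)).trans ?_
          apply Nat.sub_le_sub_left
          exact Nat.mul_le_mul_right L (by omega)
        rw [natDegree_mul hS0 hE0] at h1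
        have h2 : n * (M + L) = (n - 1) * (M + L) + (M + L) := by
          obtain ⟨m, rfl⟩ : ∃ m, n = m + 1 := ⟨n - 1, by omega⟩
          simp [add_mul]
        have h3 : 2 * L ≤ n * (M + L) := Nat.mul_le_mul (by omega) (by omega)
        omega
  rw [hScoeff] at hSi
  rcases mul_eq_zero.1 hSi with h | h
  · exfalso
    apply hiM
    have : (i : ℂ) = ((M + L : ℕ) : ℂ) := by
      push_cast
      linear_combination h
    exact_mod_cast this
  · exact h

/-- from the function to the polynomial identity -/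
lemma ALG_ident (n M : ℕ) (gc : ℕ → ℂ) (P : ℂ[X]) (f f' : ℝ → ℂ)
    (hrep : ∀ x : ℝ, P.eval (cexp (x * I)) = cexp (x * I) ^ M * f x)
    (hd : ∀ x, HasDerivAt f (f' x) x)
    (heq : ∀ x, (f' x) ^ n = I ^ n * ∑ k ∈ Finset.range (n + 1), gc k * (f x) ^ k) :
    (X * derivative P - C (M : ℂ) * P) ^ n =
      ∑ k ∈ Finset.range (n + 1), C (gc k) * P ^ k * X ^ (M * (n - k)) := by
  apply Polynomial.eq_of_infinite_eval_eq
  have hsub : (Set.range fun x : ℝ => cexp (x * I)) ⊆ {q | eval q ((X * derivative P -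
      C (M : ℂ) * P) ^ n) = eval q (∑ k ∈ Finset.range (n + 1),
        C (gc k) * P ^ k * X ^ (M * (n - k)))} := by
    rintro _ ⟨x, rfl⟩
    simp only [Set.mem_ofPred_eq]
    set q : ℂ := cexp (x * I) with hq
    have hq0 : q ≠ 0 := Complex.exp_ne_zero _
    have hqd : HasDerivAt (fun t : ℝ => cexp (t * I)) (q * I) x := by
      have h1 : HasDerivAt (fun t : ℝ => (t : ℂ) * I) (1 * I) x :=
        (HasDerivAt.ofReal_comp (hasDerivAt_id x)).mul_const I
      have h2 := h1.cexp
      rw [one_mul] at h2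
      exact h2
    have hPd : HasDerivAt (fun t : ℝ => P.eval (cexp (t * I)))
        ((derivative P).eval q * (q * I)) x :=
      HasDerivAt.comp (h := fun t : ℝ => cexp (t * I)) (h₂ := fun z : ℂ => P.eval z) x
        (P.hasDerivAt _) hqd
    have hfd : HasDerivAt (fun t : ℝ => cexp (t * I) ^ M * f t)
        ((M : ℂ) * q ^ (M - 1) * (q * I) * f x + q ^ M * f' x) x :=
      (hqd.pow M).mul (hd x)
    have hfun : (fun t : ℝ => P.eval (cexp (t * I))) = fun t : ℝ => cexp (t * I) ^ M * f t :=
      funext hrep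
    rw [hfun] at hPd
    have hu := hPd.unique hfd
    have hM : (M : ℂ) * q ^ (M - 1) * (q * I) = M * q ^ M * I := by
      rcases M with _ | m
      · simp
      · simp only [Nat.add_sub_cancel, pow_succ]; ring
    rw [hM] at hu
    have hR : eval q (X * derivative P - C (M : ℂ) * P) * I = q ^ M * f' x := by
      rw [eval_sub, eval_mul, eval_mul, eval_X, eval_C, hrep x, ← hq]
      linear_combination hu
    have hI : I ^ n ≠ 0 := pow_ne_zero _ I_ne_zero
    apply mul_right_cancel₀ hI
    rw [eval_pow, ← mul_pow, hR, mul_pow, heq x, eval_finsetSum, Finset.sum_mul,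
      Finset.mul_sum, Finset.mul_sum]
    refine Finset.sum_congr rfl fun k hk => ?_
    rw [Finset.mem_range] at hk
    rw [eval_mul, eval_mul, eval_pow, eval_pow, eval_X, eval_C, hrep x, ← hq, mul_pow]
    have : (q ^ M) ^ n = (q ^ M) ^ k * q ^ (M * (n - k)) := by
      rw [← pow_mul, ← pow_mul, ← pow_add, ← Nat.mul_add]
      congr 2
      omega
    rw [this]
    ring
  refine Set.Infinite.mono hsub ?_
  have hinj : Set.InjOn (fun x : ℝ => cexp (x * I)) (Set.Ioo 0 1) := by
    intro x hx y hy hxy
    simp only at hxy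
    rw [Complex.exp_eq_exp_iff_exists_int] at hxy
    obtain ⟨m, hm⟩ := hxy
    have h1 : (x : ℂ) = y + m * (2 * Real.pi) := by
      have : ((x : ℂ) - (y + m * (2 * Real.pi))) * I = 0 := by linear_combination hm
      rcases mul_eq_zero.1 this with h | h
      · linear_combination h
      · exact absurd h I_ne_zero
    have h2 : x = y + m * (2 * Real.pi) := by exact_mod_cast h1
    have hpi := Real.pi_gt_three
    have hm0 : m = 0 := by
      by_contra hne
      have : (1 : ℝ) ≤ |(m : ℝ)| := by
        rw [← Int.cast_abs]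
        exact_mod_cast Int.one_le_abs hne
      have h3 : |x - y| < 1 := by
        rw [abs_lt]
        constructor <;> linarith [hx.1, hx.2, hy.1, hy.2]
      have h4 : |x - y| = |(m : ℝ)| * (2 * Real.pi) := by
        rw [h2, add_sub_cancel_left, abs_mul, abs_of_pos (by positivity : (0:ℝ) < 2 * Real.pi)]
      nlinarith
    rw [hm0] at h2
    simpa using h2
  refine Set.Infinite.mono (Set.image_subset_range _ (Set.Ioo (0:ℝ) 1)) ?_
  exact (Set.Ioo_infinite one_pos).image hinj

/-- one-sided conclusion: the top exponent is positive -/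
lemma ALG_side (n M : ℕ) (hn : 1 ≤ n) (gc : ℕ → ℂ) (hg : gc (n - 1) = 0) (P : ℂ[X])
    (f f' : ℝ → ℂ) (hPd : P.natDegree ≤ 2 * M) (hPM : M < P.natDegree)
    (hrep : ∀ x : ℝ, P.eval (cexp (x * I)) = cexp (x * I) ^ M * f x)
    (hrep' : ∀ x : ℝ, (reflect (2 * M) P).eval (cexp (x * I)) = cexp (x * I) ^ M * f (-x))
    (hd : ∀ x, HasDerivAt f (f' x) x)
    (heq : ∀ x, (f' x) ^ n = I ^ n * ∑ k ∈ Finset.range (n + 1), gc k * (f x) ^ k) :
    ∃ (A B : ℂ) (L : ℤ), L ≠ 0 ∧ ∀ x : ℝ, f x = A * cexp (L * x * I) + B * cexp (-(L * x * I)) := by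
  obtain ⟨L, hL⟩ : ∃ L, P.natDegree = M + L := ⟨P.natDegree - M, by omega⟩
  have hL1 : 1 ≤ L := by omega
  have hid := ALG_ident n M gc P f f' hrep hd heq
  obtain ⟨hLg, hPc⟩ := ALG_core n M L hn hL1 gc hg P hL hid
  -- the reflected data
  have hd' : ∀ x : ℝ, HasDerivAt (fun t : ℝ => f (-t)) (-f' (-x)) x := by
    intro x
    have h1 := (hd (-x)).scomp x (hasDerivAt_neg x)
    simpa [Function.comp_def] using h1
  have heq' : ∀ x : ℝ, (-f' (-x)) ^ n = I ^ n * ∑ k ∈ Finset.range (n + 1),
      ((-1) ^ n * gc k) * (f (-x)) ^ k := by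
    intro x
    rw [neg_pow, heq (-x), Finset.mul_sum, Finset.mul_sum, Finset.mul_sum]
    refine Finset.sum_congr rfl fun k _ => ?_
    ring
  have hid' := ALG_ident n M (fun k => (-1) ^ n * gc k) (reflect (2 * M) P) (fun t => f (-t))
    (fun t => -f' (-t)) hrep' hd' heq'
  have hcr : ∀ i, i ≤ 2 * M → (reflect (2 * M) P).coeff i = P.coeff (2 * M - i) := by
    intro i hi
    rw [coeff_reflect, revAt_le hi]
  have hcr' : ∀ i, 2 * M < i → (reflect (2 * M) P).coeff i = 0 := by
    intro i hi
    rw [coeff_reflect, revAt_eq_self_of_lt hi]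
    exact coeff_eq_zero_of_natDegree_lt (by omega)
  -- all coefficients except two vanish
  have hall : ∀ i, i ≠ M + L → i + L ≠ M → P.coeff i = 0 := by
    intro i h1 h2
    by_cases h3 : M < i + L
    · exact hPc i h3 h1
    · by_contra hne
      have hiM : i + L < M := by omega
      -- reflected degree
      have hdeg : M < (reflect (2 * M) P).natDegree := by
        have : (reflect (2 * M) P).coeff (2 * M - i) ≠ 0 := by
          rw [hcr _ (by omega), Nat.sub_sub_self (by omega)]
          exact hne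
        have := le_natDegree_of_ne_zero this
        omega
      obtain ⟨L', hL'⟩ : ∃ L', (reflect (2 * M) P).natDegree = M + L' :=
        ⟨(reflect (2 * M) P).natDegree - M, by omega⟩
      obtain ⟨hLg', -⟩ := ALG_core n M L' hn (by omega) (fun k => (-1) ^ n * gc k)
        (by simp only [hg, mul_zero]) (reflect (2 * M) P) hL' hid'
      have hLL : L = L' := by
        have h5 : ‖(L : ℂ) ^ n‖ = ‖(L' : ℂ) ^ n‖ := by
          rw [hLg, hLg']
          simp
        rw [norm_pow, norm_pow, Complex.norm_natCast, Complex.norm_natCast] at h5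
        have h6 : L ^ n = L' ^ n := by exact_mod_cast h5
        exact Nat.pow_left_injective (by omega) h6
      have h7 : (reflect (2 * M) P).coeff (2 * M - i) = 0 := by
        apply coeff_eq_zero_of_natDegree_lt
        omega
      rw [hcr _ (by omega), Nat.sub_sub_self (by omega)] at h7
      exact hne h7
  have hLM : L ≤ M := by omega
  refine ⟨P.coeff (M + L), P.coeff (M - L), L, by exact_mod_cast (by omega : L ≠ 0), ?_⟩
  intro x
  set q : ℂ := cexp (x * I) with hq
  have hq0 : q ≠ 0 := Complex.exp_ne_zero _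
  have hPe : P.eval q = P.coeff (M + L) * q ^ (M + L) + P.coeff (M - L) * q ^ (M - L) := by
    rw [eval_eq_sum_range' (n := 2 * M + 1) (by omega)]
    rw [← Finset.sum_subset (s₁ := {M + L, M - L})]
    · rw [Finset.sum_pair (by omega)]
    · intro i hi
      simp only [Finset.mem_insert, Finset.mem_singleton] at hi
      rw [Finset.mem_range]
      omega
    · intro i _ hi
      simp only [Finset.mem_insert, Finset.mem_singleton, not_or] at hi
      rw [hall i hi.1 (by omega), zero_mul]
  have h1 := hrep x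
  rw [← hq, hPe] at h1
  have e1 : cexp (((L : ℤ) : ℂ) * x * I) = q ^ L := by
    rw [hq, ← Complex.exp_nat_mul]
    congr 1
    push_cast
    ring
  have e2 : cexp (-(((L : ℤ) : ℂ) * x * I)) = (q ^ L)⁻¹ := by
    rw [Complex.exp_neg, e1]
  rw [e1, e2]
  have hqM : q ^ M ≠ 0 := pow_ne_zero _ hq0
  apply mul_left_cancel₀ hqM
  rw [← h1]
  have e3 : q ^ (M - L) = q ^ M * (q ^ L)⁻¹ := by
    rw [eq_mul_inv_iff_mul_eq₀ (pow_ne_zero _ hq0), ← pow_add]
    congr 1
    omega
  rw [e3, pow_add]
  ring

/-- translation of the Laurent sum into a polynomial -/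
lemma ALG_rep (M : ℕ) (c : ℤ → ℂ) (x : ℝ) :
    (∑ i ∈ Finset.range (2 * M + 1), C (c ((i : ℤ) - M)) * X ^ i : ℂ[X]).eval (cexp (x * I)) =
      cexp (x * I) ^ M * ∑ j ∈ Finset.Icc (-(M : ℤ)) M, c j * cexp (j * x * I) := by
  rw [eval_finsetSum, Finset.mul_sum]
  refine Finset.sum_bij' (fun i _ => (i : ℤ) - M) (fun j _ => (j + M).toNat) ?_ ?_ ?_ ?_ ?_
  · intro i hi
    rw [Finset.mem_range] at hi
    rw [Finset.mem_Icc]
    omega
  · intro j hj
    rw [Finset.mem_Icc] at hj
    rw [Finset.mem_range]
    omega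
  · intro i hi
    simp
  · intro j hj
    rw [Finset.mem_Icc] at hj
    omega
  · intro i hi
    rw [eval_mul, eval_C, eval_pow, eval_X]
    have : cexp (x * I) ^ i = cexp (x * I) ^ M * cexp ((((i : ℤ) - M : ℤ) : ℂ) * x * I) := by
      rw [← Complex.exp_nat_mul, ← Complex.exp_nat_mul, ← Complex.exp_add]
      congr 1
      push_cast
      ring
    rw [this]
    ring

theorem tALG : StALG := by
  intro n g f f' M c hn hg hf hd heq ⟨x0, y0, hxy⟩
  have hgn : g.coeff n ≠ 0 := by
    rw [← hg]
    apply leadingCoeff_ne_zero.2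
    intro h
    rw [h, natDegree_zero] at hg
    omega
  have hn0 : (n : ℂ) ≠ 0 := by exact_mod_cast (by omega : n ≠ 0)
  set c0 : ℂ := -g.coeff (n - 1) / (n * g.coeff n) with hc0
  set gt : ℂ[X] := taylor c0 g with hgt
  have hgtd : gt.natDegree = n := by rw [hgt, natDegree_taylor, hg]
  have hgt1 : gt.coeff (n - 1) = 0 := by
    rw [hgt, taylor_coeff]
    have h1 : (hasseDeriv (n - 1) g).natDegree < 2 := by
      have := natDegree_hasseDeriv_le g (n - 1)
      omega
    rw [eval_eq_sum_range' h1, Finset.sum_range_succ, Finset.sum_range_one, hasseDeriv_coeff,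
      hasseDeriv_coeff]
    have e1 : 1 + (n - 1) = n := by omega
    have e2 : (0 : ℕ) + (n - 1) = n - 1 := by omega
    rw [e1, e2, Nat.choose_self]
    have e3 : n.choose (n - 1) = n := by
      rw [Nat.choose_symm_of_eq_add (a := n - 1) (b := 1) (by omega), Nat.choose_one_right]
    rw [e3, hc0]
    field_simp
    simp
  -- the polynomial
  set P : ℂ[X] := (∑ i ∈ Finset.range (2 * M + 1), C (c ((i : ℤ) - M)) * X ^ i) -
    C c0 * X ^ M with hP
  have hPd : P.natDegree ≤ 2 * M := by
    rw [hP]
    refine (natDegree_sub_le _ _).trans (max_le ?_ ?_)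
    · apply natDegree_sum_le_of_forall_le
      intro i hi
      rw [Finset.mem_range] at hi
      exact (natDegree_C_mul_X_pow_le _ _).trans (by omega)
    · exact (natDegree_C_mul_X_pow_le _ _).trans (by omega)
  set F : ℝ → ℂ := fun x => f x - c0 with hF
  have hrep : ∀ x : ℝ, P.eval (cexp (x * I)) = cexp (x * I) ^ M * F x := by
    intro x
    rw [hP, eval_sub, ALG_rep, eval_mul, eval_C, eval_pow, eval_X, hF]
    simp only
    rw [hf x]
    ring
  have hFd : ∀ x, HasDerivAt F (f' x) x := fun x => (hd x).sub_const c0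
  have hFe : ∀ x, (f' x) ^ n = I ^ n * ∑ k ∈ Finset.range (n + 1), gt.coeff k * (F x) ^ k := by
    intro x
    rw [heq x]
    congr 1
    have h1 : gt.eval (F x) = g.eval (f x) := by
      rw [hgt, taylor_eval, hF]
      simp only
      congr 1
      ring
    rw [← h1, eval_eq_sum_range' (n := n + 1) (by omega)]
  have hrefl : ∀ x : ℝ, (reflect (2 * M) P).eval (cexp (x * I)) = cexp (x * I) ^ M * F (-x) := by
    intro x
    set q : ℂ := cexp (x * I) with hq
    have hq0 : q ≠ 0 := Complex.exp_ne_zero _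
    have h1 := hrep (-x)
    have e1 : cexp (((-x : ℝ) : ℂ) * I) = q⁻¹ := by
      rw [hq, ← Complex.exp_neg]
      congr 1
      push_cast
      ring
    rw [e1] at h1
    have : Invertible q⁻¹ := invertibleOfNonzero (inv_ne_zero hq0)
    have h2 := eval₂_reflect_mul_pow (RingHom.id ℂ) q⁻¹ (2 * M) P hPd
    rw [invOf_eq_inv, inv_inv] at h2
    change eval q (reflect (2 * M) P) * _ = eval q⁻¹ P at h2
    rw [h1] at h2
    have h3 : q⁻¹ ^ (2 * M) ≠ 0 := pow_ne_zero _ (inv_ne_zero hq0)
    apply mul_right_cancel₀ h3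
    rw [h2]
    have e2 : q ^ M * q⁻¹ ^ (2 * M) = q⁻¹ ^ M := by
      rw [two_mul, pow_add, ← mul_assoc, ← mul_pow, mul_inv_cancel₀ hq0, one_pow, one_mul]
    linear_combination (-(F (-x))) * e2
  by_cases hcase : M < P.natDegree
  · obtain ⟨A, B, L, hL, h⟩ := ALG_side n M hn gt.coeff hgt1 P F f' hPd hcase hrep hrefl hFd hFe
    refine ⟨c0, A, B, L, hL, fun x => ?_⟩
    have := h x
    simp only [hF] at this
    linear_combination this
  · by_cases hcase' : M < (reflect (2 * M) P).natDegree
    · have hPd' : (reflect (2 * M) P).natDegree ≤ 2 * M := by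
        rw [natDegree_le_iff_coeff_eq_zero]
        intro i hi
        rw [coeff_reflect, revAt_eq_self_of_lt hi]
        exact coeff_eq_zero_of_natDegree_lt (by omega)
      have hd' : ∀ x : ℝ, HasDerivAt (fun t : ℝ => F (-t)) (-f' (-x)) x := by
        intro x
        have h1 := (hFd (-x)).scomp x (hasDerivAt_neg x)
        simpa [Function.comp_def] using h1
      have heq' : ∀ x : ℝ, (-f' (-x)) ^ n = I ^ n * ∑ k ∈ Finset.range (n + 1),
          ((-1) ^ n * gt.coeff k) * (F (-x)) ^ k := by
        intro x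
        rw [neg_pow, hFe (-x), Finset.mul_sum, Finset.mul_sum, Finset.mul_sum]
        refine Finset.sum_congr rfl fun k _ => ?_
        ring
      have hrr : reflect (2 * M) (reflect (2 * M) P) = P := by
        ext i
        rw [coeff_reflect, coeff_reflect, revAt_invol]
      obtain ⟨A, B, L, hL, h⟩ := ALG_side n M hn (fun k => (-1) ^ n * gt.coeff k)
        (by simp only [hgt1, mul_zero]) (reflect (2 * M) P) (fun t => F (-t)) (fun t => -f' (-t))
        hPd' hcase' hrefl (fun x => by rw [hrr, neg_neg]; exact hrep x) hd' heq'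
      refine ⟨c0, B, A, L, hL, fun x => ?_⟩
      have := h (-x)
      simp only [hF, neg_neg] at this
      have e1 : cexp ((L : ℂ) * ((-x : ℝ) : ℂ) * I) = cexp (-((L : ℂ) * x * I)) := by
        congr 1; push_cast; ring
      have e2 : cexp (-((L : ℂ) * ((-x : ℝ) : ℂ) * I)) = cexp ((L : ℂ) * x * I) := by
        congr 1; push_cast; ring
      rw [e1, e2] at this
      linear_combination this
    · exfalso
      have hc : ∀ i, i ≠ M → P.coeff i = 0 := by
        intro i hi
        rcases lt_or_gt_of_ne hi with h | h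
        · have h1 : (reflect (2 * M) P).coeff (2 * M - i) = 0 :=
            coeff_eq_zero_of_natDegree_lt (by omega)
          rw [coeff_reflect, revAt_le (by omega), Nat.sub_sub_self (by omega)] at h1
          exact h1
        · exact coeff_eq_zero_of_natDegree_lt (by omega)
      have hPX : P = C (P.coeff M) * X ^ M := by
        ext i
        rw [coeff_C_mul_X_pow]
        split_ifs with h
        · rw [h]
        · exact hc i h
      apply hxy
      have hconst : ∀ x, F x = P.coeff M := by
        intro x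
        have h1 := hrep x
        rw [hPX, eval_mul, eval_C, eval_pow, eval_X] at h1
        have hq0 : cexp (x * I) ^ M ≠ 0 := pow_ne_zero _ (Complex.exp_ne_zero _)
        apply mul_left_cancel₀ hq0
        rw [← h1, mul_comm]
      have h1 := hconst x0
      have h2 := hconst y0
      simp only [hF] at h1 h2
      linear_combination h1 - h2

end H738PI
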