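import Pool.Agent.H738R2.PI.Defs

open Complex Set Filter Topology Polynomial

namespace H738PI

theorem AN_re (z : ℂ) (φ : ℝ) :
    (z * cexp (-(φ * I))).re = z.re * Real.cos φ + z.im * Real.sin φ := by
  have : -((φ : ℂ) * I) = ((-φ : ℝ) : ℂ) * I := by push_cast; ring
  rw [this, Complex.mul_re, Complex.exp_ofReal_mul_I_re, Complex.exp_ofReal_mul_I_im,
    Real.cos_neg, Real.sin_neg]
  ring

theorem AN_analytic (a : ℕ → ℝ → ℝ) (ha : ∀ j, AnalyticOnNhd ℝ (a j) Set.univ) (N : ℕ) (z : ℂ)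
    (u : ℝ → ℝ) (hu : AnalyticOnNhd ℝ u Set.univ) :
    AnalyticOnNhd ℝ (fun δ => Kf a N z (u δ)) Set.univ := by
  intro x _
  unfold Kf
  simp only [AN_re]
  have hux := hu x (mem_univ x)
  refine Finset.analyticAt_fun_sum _ fun j _ => ?_
  refine AnalyticAt.mul ?_ (AnalyticAt.pow ?_ j)
  · exact (ha j (u x) (mem_univ _)).comp hux
  · refine AnalyticAt.add ?_ ?_
    · exact analyticAt_const.mul ((Real.analyticAt_cos (x := u x)).comp hux)
    · exact analyticAt_const.mul ((Real.analyticAt_sin (x := u x)).comp hux)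

theorem tAN : StAN := by
  intro γ a N ha hnear s δ hδ hδ'
  obtain ⟨ε, hε, h⟩ := hnear s
  set F : ℝ → ℝ := fun d => Kf a N (γ s) (s + d) - Kf a N (γ s) (s - d) with hF
  have hFa : AnalyticOnNhd ℝ F Set.univ := by
    intro x hx
    refine AnalyticAt.sub ?_ ?_
    · exact AN_analytic a ha N (γ s) (fun d => s + d)
        (fun y _ => analyticAt_const.add analyticAt_id) x hx
    · exact AN_analytic a ha N (γ s) (fun d => s - d)
        (fun y _ => analyticAt_const.sub analyticAt_id) x hx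
  have hev : F =ᶠ[𝓝 (ε / 2)] 0 := by
    have : Set.Ioo 0 ε ∈ 𝓝 (ε / 2) := Ioo_mem_nhds (by linarith) (by linarith)
    filter_upwards [this] with d hd
    simp only [hF, Pi.zero_apply]
    rw [h d hd.1 hd.2, sub_self]
  have hz := hFa.eqOn_zero_of_preconnected_of_eventuallyEq_zero isPreconnected_univ
    (mem_univ _) hev
  have := hz (mem_univ δ)
  simp only [hF, Pi.zero_apply] at this
  linarith

end H738PI
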