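import Pool.Agent.H738R2.PI.Defs

/-! Task BAD of the project H738PI (helper338). -/

open Complex Set Filter Topology Polynomial

namespace H738PI

theorem BAD_prim (n P : ℕ) (hn : 1 ≤ n) (hP1 : 1 ≤ P) (z0 : ℂ) (r0 : ℝ) (hr0 : 0 < r0)
    (Q : ℂ → ℂ) (hQd : DifferentiableOn ℂ Q (Metric.ball z0 r0))
    (hQ0 : ∀ x ∈ Metric.ball z0 r0, Q x ≠ 0) :
    ∃ r1 > 0, (∀ x ∈ Metric.ball (0 : ℂ) r1, z0 + x ^ n ∈ Metric.ball z0 r0) ∧
      ∃ U : ℂ → ℂ, U 0 = 0 ∧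
        (∀ x ∈ Metric.ball (0 : ℂ) r1, HasDerivAt U (x ^ (P - 1) * (n / Q (z0 + x ^ n))) x) ∧
        (∃ V : ℂ → ℂ, AnalyticAt ℂ V 0 ∧ V 0 ≠ 0 ∧ ∀ᶠ x in 𝓝 (0 : ℂ), U x = x ^ P * V x) ∧
        (∀ θ : ℂ, θ ^ n = 1 → ∀ x ∈ Metric.ball (0 : ℂ) r1, U (θ * x) = θ ^ P * U x) := by
  have hr1 : 0 < min 1 r0 := lt_min one_pos hr0
  have hmap : ∀ x ∈ Metric.ball (0 : ℂ) (min 1 r0), z0 + x ^ n ∈ Metric.ball z0 r0 := by
    intro x hx
    rw [Metric.mem_ball, dist_zero_right] at hx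
    rw [Metric.mem_ball, dist_eq_norm, add_sub_cancel_left, norm_pow]
    have h1 : ‖x‖ ≤ 1 := hx.le.trans (min_le_left _ _)
    calc ‖x‖ ^ n ≤ ‖x‖ := pow_le_of_le_one (norm_nonneg _) h1 (by omega)
      _ < r0 := hx.trans_le (min_le_right _ _)
  set r1 := min 1 r0 with hr1def
  have hhd : DifferentiableOn ℂ (fun x : ℂ => (n : ℂ) / Q (z0 + x ^ n)) (Metric.ball 0 r1) := by
    refine DifferentiableOn.div (differentiableOn_const _) ?_ (fun x hx => hQ0 _ (hmap x hx))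
    exact hQd.comp (by fun_prop) hmap
  have hfd : DifferentiableOn ℂ (fun x : ℂ => x ^ (P - 1) * ((n : ℂ) / Q (z0 + x ^ n)))
      (Metric.ball 0 r1) := DifferentiableOn.mul (by fun_prop) hhd
  obtain ⟨U, hU0, hU⟩ := hfd.isExactOn_ball.with_val_at 0 0
  have hUd : DifferentiableOn ℂ U (Metric.ball 0 r1) := fun x hx =>
    (hU x hx).differentiableAt.differentiableWithinAt
  have h0mem : (0 : ℂ) ∈ Metric.ball (0 : ℂ) r1 := Metric.mem_ball_self hr1
  have hball : Metric.ball (0 : ℂ) r1 ∈ 𝓝 (0 : ℂ) := Metric.isOpen_ball.mem_nhds h0mem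
  refine ⟨r1, hr1, hmap, U, hU0, hU, ?_, ?_⟩
  · have hUa : AnalyticAt ℂ U 0 := hUd.analyticAt hball
    have hha : AnalyticAt ℂ (fun x : ℂ => (n : ℂ) / Q (z0 + x ^ n)) 0 := hhd.analyticAt hball
    have ho : analyticOrderAt (deriv U) 0 = ((P - 1 : ℕ) : ℕ∞) := by
      rw [hUa.deriv.analyticOrderAt_eq_natCast]
      refine ⟨_, hha, ?_, ?_⟩
      · exact div_ne_zero (by exact_mod_cast (by omega : n ≠ 0)) (hQ0 _ (hmap 0 h0mem))
      · filter_upwards [hball] with x hx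
        rw [(hU x hx).deriv, sub_zero, smul_eq_mul]
    have ho2 := hUa.analyticOrderAt_deriv_add_one
    rw [ho, hU0] at ho2
    have ho3 : analyticOrderAt U 0 = (P : ℕ∞) := by
      have : (fun x => U x - 0) = U := by funext x; simp
      rw [this] at ho2
      rw [← ho2]
      have : (((P - 1 : ℕ) : ℕ∞) + 1) = ((P - 1 + 1 : ℕ) : ℕ∞) := by push_cast; rfl
      rw [this, Nat.sub_add_cancel hP1]
    rw [hUa.analyticOrderAt_eq_natCast] at ho3
    obtain ⟨V, hV, hV0, hUV⟩ := ho3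
    refine ⟨V, hV, hV0, ?_⟩
    filter_upwards [hUV] with x hx
    rw [hx, sub_zero, smul_eq_mul]
  · intro θ hθ x hx
    have hθn : ‖θ‖ = 1 := norm_eq_one_of_pow_eq_one hθ (by omega)
    have hin : ∀ y ∈ Metric.ball (0 : ℂ) r1, θ * y ∈ Metric.ball (0 : ℂ) r1 := by
      intro y hy
      rw [Metric.mem_ball, dist_zero_right] at hy ⊢
      rw [norm_mul, hθn, one_mul]; exact hy
    have hD : ∀ y ∈ Metric.ball (0 : ℂ) r1,
        HasDerivAt (fun y => U (θ * y) - θ ^ P * U y) 0 y := by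
      intro y hy
      have h1 : HasDerivAt (fun y => U (θ * y))
          ((θ * y) ^ (P - 1) * (n / Q (z0 + (θ * y) ^ n)) * θ) y :=
        (hU _ (hin y hy)).comp y (by simpa using (hasDerivAt_id y).const_mul θ)
      have h2 := (hU y hy).const_mul (θ ^ P)
      have h3 := h1.sub h2
      have h4 : (θ * y) ^ (P - 1) * (n / Q (z0 + (θ * y) ^ n)) * θ -
          θ ^ P * (y ^ (P - 1) * (n / Q (z0 + y ^ n))) = 0 := by
        have : θ ^ P = θ ^ (P - 1) * θ := by rw [← pow_succ, Nat.sub_add_cancel hP1]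
        rw [mul_pow, mul_pow, hθ, this, one_mul]
        ring
      rw [h4] at h3
      exact h3
    have hc := Metric.isOpen_ball.is_const_of_deriv_eq_zero
      (convex_ball (0 : ℂ) r1).isPreconnected
      (fun y hy => (hD y hy).differentiableAt.differentiableWithinAt)
      (fun y hy => (hD y hy).deriv) hx h0mem
    simp only [mul_zero, hU0, sub_zero] at hc
    exact sub_eq_zero.1 hc

theorem tBAD (hRF : StRF) (hLU : StLU) (hBADX : StBADX) : StBAD := by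
  intro n g e z0 hn hg hk hnd R hR
  obtain ⟨r0, hr0, Q, hQd, hQ⟩ := hRF n g z0 hn hg
  have hk1 : 1 ≤ g.rootMultiplicity z0 := by
    by_contra h
    have : g.rootMultiplicity z0 = 0 := by omega
    rw [this] at hnd
    simp at hnd
  have hroot : g.eval z0 = 0 := (Polynomial.rootMultiplicity_pos hg).1 (by omega)
  generalize hkk : g.rootMultiplicity z0 = k at *
  obtain ⟨P, hP⟩ : ∃ P, k + P = n := ⟨n - k, by omega⟩
  have hP1 : 1 ≤ P := by omega
  have hPn : ¬ P ∣ n := by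
    have : n - k = P := by omega
    rwa [this] at hnd
  obtain ⟨r1, hr1, hmap, U, hU0, hU, ⟨V, hVa, hV0, hUV⟩, hUθ⟩ :=
    BAD_prim n P hn hP1 z0 r0 hr0 Q hQd (fun x hx => (hQ x hx).1)
  have h0r1 : (0 : ℂ) ∈ Metric.ball (0 : ℂ) r1 := Metric.mem_ball_self hr1
  have hUcont : ContinuousAt U 0 := (hU 0 h0r1).continuousAt
  obtain ⟨r2, hr2, hr21, hUb⟩ : ∃ r2 > 0, r2 ≤ r1 ∧
      ∀ x ∈ Metric.ball (0 : ℂ) r2, ‖U x‖ < R / 2 := by
    obtain ⟨d, hd, h⟩ := Metric.continuousAt_iff.1 hUcont (R / 2) (by positivity)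
    refine ⟨min d r1, lt_min hd hr1, min_le_right _ _, fun x hx => ?_⟩
    have h1 := h (x := x) ((Metric.mem_ball.1 hx).trans_le (min_le_left _ _))
    simpa [hU0, dist_zero_right] using h1
  refine ⟨r2 ^ n, by positivity, ?_⟩
  intro u1 z w hz hgz hze hw hw2 hid
  obtain ⟨x1, hx1⟩ := IsAlgClosed.exists_pow_nat_eq (z u1 - z0) (by omega : 0 < n)
  have hx1r : ‖x1‖ < r2 := by
    have : ‖x1‖ ^ n < r2 ^ n := by rw [← norm_pow, hx1]; exact hze
    exact lt_of_pow_lt_pow_left₀ n hr2.le this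
  have hx1b2 : x1 ∈ Metric.ball (0 : ℂ) r2 := by
    rw [Metric.mem_ball, dist_zero_right]; exact hx1r
  have hsub : Metric.ball (0 : ℂ) r2 ⊆ Metric.ball (0 : ℂ) r1 := Metric.ball_subset_ball hr21
  have hx1b := hsub hx1b2
  have hz1 : z u1 = z0 + x1 ^ n := by rw [hx1]; ring
  have hx10 : x1 ≠ 0 := by
    rintro rfl
    apply hgz
    rw [hz1, zero_pow (by omega), add_zero]
    exact hroot
  have hQ1 := hQ _ (hmap x1 hx1b)
  have hq1 : x1 ^ k * Q (z0 + x1 ^ n) ≠ 0 := mul_ne_zero (pow_ne_zero _ hx10) hQ1.1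
  have hd1 : (deriv z u1) ^ n = (x1 ^ k * Q (z0 + x1 ^ n)) ^ n := by
    rw [hz.self_of_nhds.2, hz1, hQ1.2, add_sub_cancel_left, mul_pow, ← pow_mul, ← pow_mul,
      mul_comm n k]
  obtain ⟨ω, hωdef⟩ : ∃ ω, ω = deriv z u1 / (x1 ^ k * Q (z0 + x1 ^ n)) := ⟨_, rfl⟩
  have hω : ω ^ n = 1 := by rw [hωdef, div_pow, hd1, div_self (pow_ne_zero _ hq1)]
  have hωn : ‖ω‖ = 1 := norm_eq_one_of_pow_eq_one hω (by omega)
  have hω0 : ω ≠ 0 := by
    intro h; rw [h, norm_zero] at hωn; exact zero_ne_one hωn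
  have hωq : ω * (x1 ^ k * Q (z0 + x1 ^ n)) = deriv z u1 := by
    rw [hωdef, div_mul_cancel₀ _ hq1]
  have hn0 : (n : ℂ) ≠ 0 := by exact_mod_cast (by omega : n ≠ 0)
  -- the uniformising map
  let Ut : ℂ → ℂ := fun x => u1 + ω⁻¹ * (U x - U x1)
  have hUt1 : Ut x1 = u1 := by simp [Ut]
  have hUt : ∀ x ∈ Metric.ball (0 : ℂ) r1,
      HasDerivAt Ut (ω⁻¹ * (x ^ (P - 1) * (n / Q (z0 + x ^ n)))) x := by
    intro x hx
    exact (((hU x hx).sub_const (U x1)).const_mul ω⁻¹).const_add u1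
  have hUtd : DifferentiableOn ℂ Ut (Metric.ball 0 r1) := fun x hx =>
    (hUt x hx).differentiableAt.differentiableWithinAt
  have hUtne : ∀ x ∈ Metric.ball (0 : ℂ) r1, x ≠ 0 →
      ω⁻¹ * (x ^ (P - 1) * (n / Q (z0 + x ^ n))) ≠ 0 := by
    intro x hx hx0
    exact mul_ne_zero (inv_ne_zero hω0) (mul_ne_zero (pow_ne_zero _ hx0)
      (div_ne_zero hn0 (hQ _ (hmap x hx)).1))
  have hstr : HasStrictDerivAt Ut (ω⁻¹ * (x1 ^ (P - 1) * (n / Q (z0 + x1 ^ n)))) x1 := by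
    have ha : AnalyticAt ℂ Ut x1 := hUtd.analyticAt (Metric.isOpen_ball.mem_nhds hx1b)
    have := ha.hasStrictDerivAt
    rwa [(hUt x1 hx1b).deriv] at this
  let φ := (hstr.hasStrictFDerivAt_equiv (hUtne x1 hx1b hx10)).toOpenPartialHomeomorph Ut
  have hφs : x1 ∈ φ.source :=
    (hstr.hasStrictFDerivAt_equiv (hUtne x1 hx1b hx10)).mem_toOpenPartialHomeomorph_source
  have hφc : ∀ x, φ x = Ut x := fun x => rfl
  have hu1t : u1 ∈ φ.target := by
    have := φ.map_source hφs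
    rwa [hφc, hUt1] at this
  have hsy1 : φ.symm u1 = x1 := by
    have := φ.left_inv hφs
    rwa [hφc, hUt1] at this
  have hsyc : ContinuousAt φ.symm u1 := φ.symm.continuousAt hu1t
  have hN : ∀ᶠ u in 𝓝 u1, u ∈ φ.target ∧ φ.symm u ∈ Metric.ball (0 : ℂ) r1 ∧ φ.symm u ≠ 0 := by
    refine Filter.Eventually.and (φ.open_target.mem_nhds hu1t) ?_
    have h1 : Metric.ball (0 : ℂ) r1 ∩ {0}ᶜ ∈ 𝓝 (φ.symm u1) := by
      rw [hsy1]
      exact inter_mem (Metric.isOpen_ball.mem_nhds hx1b) (isOpen_compl_singleton.mem_nhds hx10)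
    filter_upwards [hsyc h1] with u hu
    exact ⟨hu.1, hu.2⟩
  have hzt : ∀ u, u ∈ φ.target → φ.symm u ∈ Metric.ball (0 : ℂ) r1 → φ.symm u ≠ 0 →
      HasDerivAt (fun u => z0 + (φ.symm u) ^ n)
        (ω * ((φ.symm u) ^ k * Q (z0 + (φ.symm u) ^ n))) u := by
    intro u hut hub hu0
    have h1 : HasDerivAt φ.symm (ω⁻¹ * ((φ.symm u) ^ (P - 1) *
        (n / Q (z0 + (φ.symm u) ^ n))))⁻¹ u :=
      φ.hasDerivAt_symm hut (hUtne _ hub hu0) (hUt _ hub)
    have h2 := (h1.pow n).const_add z0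
    have h3 : (n : ℂ) * (φ.symm u) ^ (n - 1) * (ω⁻¹ * ((φ.symm u) ^ (P - 1) *
        (n / Q (z0 + (φ.symm u) ^ n))))⁻¹ = ω * ((φ.symm u) ^ k * Q (z0 + (φ.symm u) ^ n)) := by
      have hQu := (hQ _ (hmap _ hub)).1
      have hn1 : n - 1 = k + (P - 1) := by omega
      rw [hn1, pow_add]
      have hxp : (φ.symm u) ^ (P - 1) ≠ 0 := pow_ne_zero _ hu0
      field_simp
    rw [← h3]
    exact h2
  have hzz := hLU n g u1 z (fun u => z0 + (φ.symm u) ^ n) hn hz (by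
      filter_upwards [hN] with u hu
      have h := hzt u hu.1 hu.2.1 hu.2.2
      refine ⟨h.differentiableAt, ?_⟩
      rw [h.deriv, (hQ _ (hmap _ hu.2.1)).2, add_sub_cancel_left, mul_pow, mul_pow, hω, one_mul,
        ← pow_mul, ← pow_mul, mul_comm n k]) (by
      show z u1 = z0 + (φ.symm u1) ^ n
      rw [hsy1, hz1]) (by
      have h := hzt u1 hu1t (by rw [hsy1]; exact hx1b) (by rw [hsy1]; exact hx10)
      rw [h.deriv, hsy1, hωq]) hgz
  have hzzd : deriv z =ᶠ[𝓝 u1] deriv (fun u => z0 + (φ.symm u) ^ n) := hzz.deriv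
  -- the identity near x1
  have hUttend : Tendsto Ut (𝓝 x1) (𝓝 u1) := by
    have := (hUt x1 hx1b).continuousAt.tendsto
    rwa [hUt1] at this
  have hmaps : ∀ x ∈ Metric.ball (0 : ℂ) r2, Ut x ∈ Metric.ball u1 R := by
    intro x hx
    rw [Metric.mem_ball, dist_eq_norm]
    show ‖u1 + ω⁻¹ * (U x - U x1) - u1‖ < R
    rw [add_sub_cancel_left, norm_mul, norm_inv, hωn, inv_one, one_mul]
    have h1 := hUb x hx
    have h2 := hUb x1 hx1b2
    calc ‖U x - U x1‖ ≤ ‖U x‖ + ‖U x1‖ := norm_sub_le _ _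
      _ < R := by linarith
  let LL : ℂ → ℂ := fun x => (cpol g).eval (w (Ut x)) *
    (w (Ut x) * (derivative g).eval (z0 + x ^ n) + e.eval (z0 + x ^ n)) *
      (ω * (x ^ k * Q (z0 + x ^ n))) ^ 2
  let RR : ℂ → ℂ := fun x => g.eval (z0 + x ^ n) *
    ((z0 + x ^ n) * (derivative (cpol g)).eval (w (Ut x)) + (cpol e).eval (w (Ut x))) *
      (deriv w (Ut x)) ^ 2
  have hnear : LL =ᶠ[𝓝 x1] RR := by
    filter_upwards [hUttend.eventually hid, hUttend.eventually hzz, hUttend.eventually hzzd,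
      hUttend.eventually hN, φ.open_source.mem_nhds hφs] with x h1 h2 h3 h4 h5
    have hsx : φ.symm (Ut x) = x := by
      have := φ.left_inv h5
      rwa [hφc] at this
    have h6 := hzt (Ut x) h4.1 h4.2.1 h4.2.2
    rw [hsx] at h6
    unfold Id2 at h1
    rw [h3, h6.deriv, h2] at h1
    simp only [hsx] at h1
    exact h1
  have hwU : DifferentiableOn ℂ (fun x => w (Ut x)) (Metric.ball 0 r2) :=
    hw.comp (hUtd.mono hsub) hmaps
  have hdw : DifferentiableOn ℂ (fun x => deriv w (Ut x)) (Metric.ball 0 r2) :=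
    (hw.deriv Metric.isOpen_ball).comp (hUtd.mono hsub) hmaps
  have hQc : DifferentiableOn ℂ (fun x : ℂ => Q (z0 + x ^ n)) (Metric.ball 0 r2) :=
    hQd.comp (by fun_prop) (fun x hx => hmap x (hsub hx))
  have hpe : ∀ (p : ℂ[X]) (f : ℂ → ℂ), DifferentiableOn ℂ f (Metric.ball 0 r2) →
      DifferentiableOn ℂ (fun x => p.eval (f x)) (Metric.ball 0 r2) := fun p f hf =>
    p.differentiable.comp_differentiableOn hf
  have hxn : DifferentiableOn ℂ (fun x : ℂ => z0 + x ^ n) (Metric.ball 0 r2) := by fun_prop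
  have hLd : DifferentiableOn ℂ LL (Metric.ball 0 r2) := by
    refine DifferentiableOn.mul (DifferentiableOn.mul (hpe _ _ hwU) ?_) ?_
    · exact (hwU.mul (hpe _ _ hxn)).add (hpe _ _ hxn)
    · refine DifferentiableOn.pow ?_ 2
      refine DifferentiableOn.const_mul ?_ ω
      exact DifferentiableOn.mul (by fun_prop) hQc
  have hRd : DifferentiableOn ℂ RR (Metric.ball 0 r2) := by
    refine DifferentiableOn.mul (DifferentiableOn.mul (hpe _ _ hxn) ?_) (hdw.pow 2)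
    exact (hxn.mul (hpe _ _ hwU)).add (hpe _ _ hwU)
  have heq : EqOn LL RR (Metric.ball 0 r2) :=
    (hLd.analyticOnNhd Metric.isOpen_ball).eqOn_of_preconnected_of_eventuallyEq
      (hRd.analyticOnNhd Metric.isOpen_ball) (convex_ball (0 : ℂ) r2).isPreconnected hx1b2 hnear
  -- the function W
  let W : ℂ → ℂ := fun s => w (Ut 0 + ω⁻¹ * s)
  have hUtU : ∀ x, Ut x = Ut 0 + ω⁻¹ * U x := by
    intro x
    show u1 + ω⁻¹ * (U x - U x1) = u1 + ω⁻¹ * (U 0 - U x1) + ω⁻¹ * U x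
    rw [hU0]; ring
  have h0r2 : (0 : ℂ) ∈ Metric.ball (0 : ℂ) r2 := Metric.mem_ball_self hr2
  have hwAt : ∀ x ∈ Metric.ball (0 : ℂ) r2, HasDerivAt w (deriv w (Ut x)) (Ut x) := fun x hx =>
    (hw.differentiableAt (Metric.isOpen_ball.mem_nhds (hmaps x hx))).hasDerivAt
  have hWd : ∀ x ∈ Metric.ball (0 : ℂ) r2, deriv W (U x) = deriv w (Ut x) * ω⁻¹ := by
    intro x hx
    have h1 : HasDerivAt (fun s : ℂ => Ut 0 + ω⁻¹ * s) ω⁻¹ (U x) := by
      simpa using ((hasDerivAt_id (U x)).const_mul ω⁻¹).const_add (Ut 0)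
    have h2 : HasDerivAt w (deriv w (Ut x)) (Ut 0 + ω⁻¹ * U x) := by
      rw [← hUtU]; exact hwAt x hx
    exact (h2.comp (U x) h1).deriv
  have hWU : ∀ x, W (U x) = w (Ut x) := by
    intro x
    show w (Ut 0 + ω⁻¹ * U x) = w (Ut x)
    rw [← hUtU]
  have hWa : AnalyticAt ℂ W 0 := by
    have h1 : AnalyticAt ℂ w (Ut 0 + ω⁻¹ * 0) := by
      rw [mul_zero, add_zero]
      exact hw.analyticAt (Metric.isOpen_ball.mem_nhds (hmaps 0 h0r2))
    exact h1.comp (f := fun s : ℂ => Ut 0 + ω⁻¹ * s) (by fun_prop)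
  have hb2 : Metric.ball (0 : ℂ) r2 ∈ 𝓝 (0 : ℂ) := Metric.isOpen_ball.mem_nhds h0r2
  refine hBADX n k P g e z0 U V (fun x => (Q (z0 + x ^ n)) ^ 2) W hP hk1 hP1 hPn hg hkk hVa hV0 hUV
    ?_ ?_ ?_ ?_ hWa ?_ ?_ ?_
  · intro θ hθ
    filter_upwards [Metric.isOpen_ball.mem_nhds h0r1] with x hx
    exact hUθ θ hθ x hx
  · exact ((hQc.differentiableAt hb2).continuousAt).pow 2
  · exact pow_ne_zero _ (hQ _ (hmap 0 h0r1)).1
  · intro θ hθ
    filter_upwards with x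
    rw [mul_pow, hθ, one_mul]
  · have h1 := (hw2 _ (hmaps 0 h0r2)).1
    have h2 := hWU 0
    rw [hU0] at h2
    rw [h2]; exact h1
  · have h1 := hWd 0 h0r2
    rw [hU0] at h1
    rw [h1]
    exact mul_ne_zero (hw2 _ (hmaps 0 h0r2)).2 (inv_ne_zero hω0)
  · filter_upwards [hb2] with x hx
    have h1 := heq hx
    simp only [LL, RR] at h1
    rw [hWU, hWd x hx]
    have hω2 : ω ^ 2 ≠ 0 := pow_ne_zero _ hω0
    apply mul_left_cancel₀ hω2
    have h3 : ω ^ 2 * (deriv w (Ut x) * ω⁻¹) ^ 2 = (deriv w (Ut x)) ^ 2 := by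
      field_simp
    calc _ = (cpol g).eval (w (Ut x)) *
          (w (Ut x) * (derivative g).eval (z0 + x ^ n) + e.eval (z0 + x ^ n)) *
          (ω * (x ^ k * Q (z0 + x ^ n))) ^ 2 := by rw [mul_comm 2 k, pow_mul]; ring
      _ = _ := h1
      _ = _ := by rw [← h3]; ring

end H738PI
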