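import Pool.Agent.H738R2.PI.Defs

open Complex Set Filter Topology Polynomial

namespace H738PI

lemma BADX_taylor (J : ℕ) : ∀ f : ℂ → ℂ, AnalyticAt ℂ f 0 → ∃ (c : ℕ → ℂ) (r : ℂ → ℂ),
    AnalyticAt ℂ r 0 ∧ ∀ s, f s = ∑ j ∈ Finset.range J, c j * s ^ j + s ^ J * r s := by
  induction J with
  | zero => intro f hf; exact ⟨fun _ => 0, f, hf, fun s => by simp⟩
  | succ J ih =>
    intro f hf
    have hd : AnalyticAt ℂ (dslope f 0) 0 := by
      obtain ⟨p, hp⟩ := hf
      exact ⟨p.fslope, hp.has_fpower_series_dslope_fslope⟩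
    obtain ⟨c, r, hr, h⟩ := ih _ hd
    refine ⟨fun j => if j = 0 then f 0 else c (j - 1), r, hr, fun s => ?_⟩
    have h1 : f s = f 0 + s * dslope f 0 s := by
      have := sub_smul_dslope f 0 s
      simp only [sub_zero, smul_eq_mul] at this
      rw [this]; ring
    rw [h1, h s, Finset.sum_range_succ']
    simp only [Nat.add_eq_zero_iff, one_ne_zero, and_false, if_false, Nat.add_sub_cancel, if_true,
      pow_zero, mul_one]
    rw [mul_add, Finset.mul_sum]
    have : ∀ j ∈ Finset.range J, s * (c j * s ^ j) = c j * s ^ (j + 1) := by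
      intro j _; ring
    rw [Finset.sum_congr rfl this]
    ring

lemma BADX_geom (n : ℕ) (hn : 1 ≤ n) (ζ : ℂ) (hζ : IsPrimitiveRoot ζ n) (a : ℕ) (ha : ¬ n ∣ a) :
    ∑ i ∈ Finset.range n, ζ ^ (i * a) = 0 := by
  have h1 : ζ ^ a ≠ 1 := fun h => ha (hζ.dvd_of_pow_eq_one a h)
  have h2 : (ζ ^ a) ^ n = 1 := by rw [← pow_mul, mul_comm, pow_mul, hζ.pow_eq_one, one_pow]
  have h3 := geom_sum_mul (ζ ^ a) n
  rw [h2, sub_self] at h3
  have h4 : ∑ i ∈ Finset.range n, (ζ ^ a) ^ i = 0 := by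
    rcases mul_eq_zero.mp h3 with h | h
    · exact h
    · exact absurd (sub_eq_zero.mp h) h1
  rw [← h4]
  refine Finset.sum_congr rfl fun i _ => ?_
  rw [← pow_mul, mul_comm]

/-- averaging over the roots of unity -/
lemma BADX_avg (n : ℕ) (hn : 1 ≤ n) (ζ : ℂ) (hζ : IsPrimitiveRoot ζ n) (P m J : ℕ)
    (f : ℂ → ℂ) (c : ℕ → ℂ) (r : ℂ → ℂ) (hr : AnalyticAt ℂ r 0)
    (hf : ∀ s, f s = ∑ j ∈ Finset.range J, c j * s ^ j + s ^ J * r s)
    (hm : ∀ j, j < J → ¬ n ∣ m + P * j) :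
    ∀ s, ∑ i ∈ Finset.range n, ζ ^ (i * m) * f (ζ ^ (i * P) * s)
      = s ^ J * ∑ i ∈ Finset.range n, ζ ^ (i * (m + P * J)) * r (ζ ^ (i * P) * s) := by
  intro s
  have h1 : ∀ i ∈ Finset.range n, ζ ^ (i * m) * f (ζ ^ (i * P) * s)
      = ∑ j ∈ Finset.range J, c j * s ^ j * ζ ^ (i * (m + P * j))
        + s ^ J * (ζ ^ (i * (m + P * J)) * r (ζ ^ (i * P) * s)) := by
    intro i _
    rw [hf, mul_add, Finset.mul_sum]
    congr 1
    · refine Finset.sum_congr rfl fun j _ => ?_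
      rw [mul_pow, ← pow_mul]
      have : ζ ^ (i * (m + P * j)) = ζ ^ (i * m) * ζ ^ (i * P * j) := by
        rw [← pow_add]; congr 1; ring
      rw [this]; ring
    · rw [mul_pow, ← pow_mul]
      have : ζ ^ (i * (m + P * J)) = ζ ^ (i * m) * ζ ^ (i * P * J) := by
        rw [← pow_add]; congr 1; ring
      rw [this]; ring
  rw [Finset.sum_congr rfl h1, Finset.sum_add_distrib, Finset.sum_comm, ← Finset.mul_sum]
  have h2 : ∑ j ∈ Finset.range J, ∑ i ∈ Finset.range n, c j * s ^ j * ζ ^ (i * (m + P * j)) = 0 := by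
    refine Finset.sum_eq_zero fun j hj => ?_
    rw [← Finset.mul_sum, BADX_geom n hn ζ hζ _ (hm j (Finset.mem_range.mp hj)), mul_zero]
  rw [h2, zero_add]

lemma BADX_cont (n : ℕ) (ζ : ℂ) (P b : ℕ) (r : ℂ → ℂ) (hr : AnalyticAt ℂ r 0) :
    ContinuousAt (fun s => ∑ i ∈ Finset.range n, ζ ^ (i * b) * r (ζ ^ (i * P) * s)) 0 := by
  refine tendsto_finsetSum _ fun i _ => ?_
  refine Tendsto.mul tendsto_const_nhds ?_
  have h1 : ContinuousAt (fun s : ℂ => ζ ^ (i * P) * s) 0 := by fun_prop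
  have h2 : ContinuousAt r (ζ ^ (i * P) * 0) := by rw [mul_zero]; exact hr.continuousAt
  have h3 := ContinuousAt.comp (f := fun s : ℂ => ζ ^ (i * P) * s) (g := r) (x := 0) h2 h1
  exact h3

theorem tBADX : StBADX := by
  intro n k P g e z0 U V T W hkP hk hP hPn hg hmult hV hV0 hU hUθ hT hT0 hTθ hW hW0 hW1 hid
  have hn : 1 ≤ n := by omega
  have hn0 : n ≠ 0 := by omega
  set ζ : ℂ := cexp (2 * Real.pi * I / n) with hζdef
  have hζ : IsPrimitiveRoot ζ n := Complex.isPrimitiveRoot_exp n hn0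
  have hζn : ζ ^ n = 1 := hζ.pow_eq_one
  -- the exponent J
  set J : ℕ := (2 * n - 1) / P with hJdef
  have hJ1 : P * J ≤ 2 * n - 1 := Nat.mul_div_le _ _
  have hJ2 : 2 * n ≤ P * (J + 1) := by
    have := Nat.lt_mul_div_succ (2 * n - 1) (by omega : 0 < P)
    have h' : 2 * n - 1 < P * (J + 1) := this
    omega
  have hmJ : ∀ j, j < J → ¬ n ∣ P + P * j := by
    intro j hj hdvd
    have h1 : P + P * j ≤ P * J := by
      have : P * (j + 1) ≤ P * J := Nat.mul_le_mul_left _ hj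
      linarith [this, mul_add P j 1]
    have h2 : P + P * j < 2 * n := by omega
    obtain ⟨c, hc⟩ := hdvd
    have hc1 : c = 1 := by
      have hc0 : c ≠ 0 := by rintro rfl; omega
      have : c < 2 := by
        by_contra hcon
        have : n * 2 ≤ n * c := Nat.mul_le_mul_left _ (by omega)
        omega
      omega
    rw [hc1, mul_one] at hc
    exact hPn ⟨1 + j, by rw [← hc]; ring⟩
  -- U is continuous at 0, U 0 = 0
  have hUc : Tendsto U (𝓝 0) (𝓝 0) := by
    have h1 : Tendsto (fun x : ℂ => x ^ P * V x) (𝓝 0) (𝓝 (0 ^ P * V 0)) :=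
      ((continuousAt_id.pow P).mul hV.continuousAt)
    rw [zero_pow (by omega : P ≠ 0), zero_mul] at h1
    exact h1.congr' (by filter_upwards [hU] with x hx using hx.symm)
  -- the functions A and B
  set gs := cpol g with hgs
  set es := cpol e with hes
  have hWc : ContinuousAt W 0 := hW.continuousAt
  have hW' : AnalyticAt ℂ (deriv W) 0 := hW.deriv
  have hpolA : ∀ q : ℂ[X], AnalyticAt ℂ (fun s => q.eval (W s)) 0 := by
    intro q
    have h := (AnalyticAt.aeval_polynomial hW q)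
    simpa [Polynomial.coe_aeval_eq_eval] using h
  set A : ℂ → ℂ := fun s => es.eval (W s) * (deriv W s) ^ 2 / gs.eval (W s) with hA
  set B : ℂ → ℂ := fun s => (derivative gs).eval (W s) * (deriv W s) ^ 2 / gs.eval (W s) with hB
  have hAa : AnalyticAt ℂ A 0 := ((hpolA es).mul (hW'.pow 2)).div (hpolA gs) hW0
  have hBa : AnalyticAt ℂ B 0 := ((hpolA (derivative gs)).mul (hW'.pow 2)).div (hpolA gs) hW0
  obtain ⟨cA, rA, hrA, hfA⟩ := BADX_taylor J A hAa
  obtain ⟨cB, rB, hrB, hfB⟩ := BADX_taylor J B hBa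
  -- W
  have hdW : AnalyticAt ℂ (dslope W 0) 0 := by
    obtain ⟨p, hp⟩ := hW
    exact ⟨p.fslope, hp.has_fpower_series_dslope_fslope⟩
  have hfW : ∀ s, W s = ∑ j ∈ Finset.range 1, (fun _ => W 0) j * s ^ j + s ^ 1 * dslope W 0 s := by
    intro s
    have := sub_smul_dslope W 0 s
    simp only [sub_zero, smul_eq_mul] at this
    simp only [Finset.range_one, Finset.sum_singleton, pow_zero, mul_one, pow_one, this]
    ring
  have havA := BADX_avg n hn ζ hζ P P J A cA rA hrA hfA hmJ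
  have havB := BADX_avg n hn ζ hζ P P J B cB rB hrB hfB hmJ
  have hkn : ∀ j, j < 1 → ¬ n ∣ k + P * j := by
    intro j hj hdvd
    have : j = 0 := by omega
    subst this
    have := Nat.le_of_dvd (by omega) hdvd
    omega
  have havW := BADX_avg n hn ζ hζ P k 1 W _ _ hdW hfW hkn
  set GW : ℂ → ℂ := fun s => ∑ i ∈ Finset.range n, ζ ^ (i * (k + P * 1)) * dslope W 0 (ζ ^ (i * P) * s)
    with hGW
  set GA : ℂ → ℂ := fun s => ∑ i ∈ Finset.range n, ζ ^ (i * (P + P * J)) * rA (ζ ^ (i * P) * s)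
    with hGA
  set GB : ℂ → ℂ := fun s => ∑ i ∈ Finset.range n, ζ ^ (i * (P + P * J)) * rB (ζ ^ (i * P) * s)
    with hGB
  have hGWc : ContinuousAt GW 0 := BADX_cont n ζ P _ _ hdW
  have hGAc : ContinuousAt GA 0 := BADX_cont n ζ P _ _ hrA
  have hGBc : ContinuousAt GB 0 := BADX_cont n ζ P _ _ hrB
  have hGW0 : GW 0 = n * deriv W 0 := by
    simp only [hGW, mul_zero, mul_one]
    have : ∀ i ∈ Finset.range n, ζ ^ (i * (k + P)) * dslope W 0 0 = deriv W 0 := by
      intro i _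
      rw [hkP, mul_comm i n, pow_mul, hζn, one_pow, one_mul, dslope_same]
    rw [Finset.sum_congr rfl this]; simp
  -- factor g
  obtain ⟨g1, hg1, hg1n⟩ := Polynomial.exists_eq_pow_rootMultiplicity_mul_and_not_dvd g hg z0
  rw [hmult] at hg1
  have hg1z : g1.eval z0 ≠ 0 := by
    intro h
    exact hg1n (Polynomial.dvd_iff_isRoot.mpr h)
  have hgev : ∀ x : ℂ, g.eval (z0 + x ^ n) = x ^ (n * k) * g1.eval (z0 + x ^ n) := by
    intro x
    rw [hg1]
    simp only [eval_mul, eval_pow, eval_sub, eval_X, eval_C, add_sub_cancel_left]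
    rw [← pow_mul]
  have hg'ev : ∀ x : ℂ, (derivative g).eval (z0 + x ^ n) = x ^ (n * (k - 1)) *
      (k * g1.eval (z0 + x ^ n) + x ^ n * (derivative g1).eval (z0 + x ^ n)) := by
    intro x
    have hk1 : k = (k - 1) + 1 := by omega
    conv_lhs => rw [hg1]
    rw [derivative_mul, derivative_pow]
    simp only [eval_add, eval_mul, eval_pow, eval_sub, eval_X, eval_C, add_sub_cancel_left,
      derivative_sub, derivative_X, derivative_C, sub_zero, eval_natCast, eval_one, mul_one]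
    have : (x ^ n) ^ k = (x ^ n) ^ (k - 1) * x ^ n := by
      conv_lhs => rw [hk1, pow_succ]
    rw [this, ← pow_mul]
    ring
  -- the summed identity
  have hev : ∀ i ∈ Finset.range n, ∀ᶠ x in 𝓝 (0 : ℂ),
      ζ ^ (i * k) * (W (ζ ^ (i * P) * U x) * (derivative g).eval (z0 + x ^ n)
        + e.eval (z0 + x ^ n)) * (x ^ (2 * k) * T x)
      = g.eval (z0 + x ^ n) * ((z0 + x ^ n) * (ζ ^ (i * P) * B (ζ ^ (i * P) * U x))
        + ζ ^ (i * P) * A (ζ ^ (i * P) * U x)) := by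
    intro i _
    set θ : ℂ := ζ ^ i with hθ
    have hθn : θ ^ n = 1 := by rw [hθ, ← pow_mul, mul_comm, pow_mul, hζn, one_pow]
    have hθ0 : θ ≠ 0 := by
      intro h; rw [h, zero_pow hn0] at hθn; exact zero_ne_one hθn
    have htend : Tendsto (fun x : ℂ => θ * x) (𝓝 0) (𝓝 0) := by
      have : Tendsto (fun x : ℂ => θ * x) (𝓝 0) (𝓝 (θ * 0)) := by
        exact (continuous_const.mul continuous_id).continuousAt
      simpa using this
    have h1 := htend.eventually hid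
    have h2 := hUθ θ hθn
    have h3 := hTθ θ hθn
    have h4 : ∀ᶠ x in 𝓝 (0 : ℂ), gs.eval (W (θ ^ P * U x)) ≠ 0 := by
      have hc : Tendsto (fun x => gs.eval (W (θ ^ P * U x))) (𝓝 0) (𝓝 (gs.eval (W 0))) := by
        have ha : Tendsto (fun x => θ ^ P * U x) (𝓝 0) (𝓝 0) := by
          simpa using hUc.const_mul (θ ^ P)
        exact ((gs.continuous.continuousAt).tendsto.comp (hWc.tendsto.comp ha))
      exact hc.eventually_ne hW0
    filter_upwards [h1, h2, h3, h4] with x e1 e2 e3 e4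
    rw [e2, e3] at e1
    have hxn : (θ * x) ^ n = x ^ n := by rw [mul_pow, hθn, one_mul]
    have hx2k : (θ * x) ^ (2 * k) = θ ^ (2 * k) * x ^ (2 * k) := by rw [mul_pow]
    rw [hxn, hx2k] at e1
    have hiP : ζ ^ (i * P) = θ ^ P := by rw [hθ, ← pow_mul]
    have hik : ζ ^ (i * k) = θ ^ k := by rw [hθ, ← pow_mul]
    rw [hiP, hik]
    have hkk : θ ^ k = θ ^ P * θ ^ (2 * k) := by
      rw [← pow_add]
      have : P + 2 * k = n + k := by omega
      rw [this, pow_add, hθn, one_mul]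
    simp only [hA, hB]
    rw [hkk]
    field_simp
    linear_combination e1
  have hsum : ∀ᶠ x in 𝓝 (0 : ℂ), (derivative g).eval (z0 + x ^ n) * (x ^ (2 * k) * T x) *
      (U x * GW (U x)) = g.eval (z0 + x ^ n) * ((z0 + x ^ n) * ((U x) ^ J * GB (U x))
        + (U x) ^ J * GA (U x)) := by
    have hall := (Filter.eventually_all_finset (Finset.range n)).mpr hev
    filter_upwards [hall] with x hx
    have hs := Finset.sum_congr (rfl : Finset.range n = Finset.range n) hx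
    have hW2 := havW (U x)
    have hA2 := havA (U x)
    have hB2 := havB (U x)
    have hek : ∑ i ∈ Finset.range n, ζ ^ (i * k) = 0 := BADX_geom n hn ζ hζ k (by
      have := hkn 0 (by norm_num); simpa using this)
    have hL : ∑ i ∈ Finset.range n, ζ ^ (i * k) * (W (ζ ^ (i * P) * U x) *
        (derivative g).eval (z0 + x ^ n) + e.eval (z0 + x ^ n)) * (x ^ (2 * k) * T x)
        = (derivative g).eval (z0 + x ^ n) * (x ^ (2 * k) * T x) *
          ∑ i ∈ Finset.range n, ζ ^ (i * k) * W (ζ ^ (i * P) * U x)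
          + e.eval (z0 + x ^ n) * (x ^ (2 * k) * T x) * ∑ i ∈ Finset.range n, ζ ^ (i * k) := by
      rw [Finset.mul_sum, Finset.mul_sum, ← Finset.sum_add_distrib]
      refine Finset.sum_congr rfl fun i _ => ?_
      ring
    have hR : ∑ i ∈ Finset.range n, g.eval (z0 + x ^ n) * ((z0 + x ^ n) *
        (ζ ^ (i * P) * B (ζ ^ (i * P) * U x)) + ζ ^ (i * P) * A (ζ ^ (i * P) * U x))
        = g.eval (z0 + x ^ n) * ((z0 + x ^ n) *
          (∑ i ∈ Finset.range n, ζ ^ (i * P) * B (ζ ^ (i * P) * U x))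
          + ∑ i ∈ Finset.range n, ζ ^ (i * P) * A (ζ ^ (i * P) * U x)) := by
      rw [Finset.mul_sum, ← Finset.sum_add_distrib, Finset.mul_sum]
    rw [hL, hR, hek, mul_zero, add_zero, hW2, hA2, hB2, pow_one] at hs
    exact hs
  -- divide by the power of x
  have hPJ : n + k ≤ P * J := by
    have : P * (J + 1) = P * J + P := by ring
    omega
  obtain ⟨d, hd⟩ : ∃ d, P * J = k + (d + 1) := ⟨P * J - k - 1, by omega⟩
  have hfin : ∀ᶠ x in 𝓝[≠] (0 : ℂ), (k * g1.eval (z0 + x ^ n) + x ^ n *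
      (derivative g1).eval (z0 + x ^ n)) * T x * V x * GW (U x)
      = x ^ (d + 1) * (g1.eval (z0 + x ^ n) * (V x) ^ J * ((z0 + x ^ n) * GB (U x) + GA (U x))) := by
    have h1 : ∀ᶠ x in 𝓝[≠] (0 : ℂ), _ := hsum.filter_mono nhdsWithin_le_nhds
    have h2 : ∀ᶠ x in 𝓝[≠] (0 : ℂ), _ := hU.filter_mono nhdsWithin_le_nhds
    filter_upwards [h1, h2, self_mem_nhdsWithin] with x e1 e2 hx
    have hx0 : x ≠ 0 := hx
    rw [hgev, hg'ev] at e1
    have e1' := e1
    have hpow : x ^ (n * (k - 1)) * x ^ (2 * k) * x ^ P = x ^ (n * k + k) := by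
      rw [← pow_add, ← pow_add]
      congr 1
      have hk1 : n * (k - 1) + n = n * k := by
        have : k - 1 + 1 = k := by omega
        calc n * (k - 1) + n = n * (k - 1 + 1) := by ring
          _ = n * k := by rw [this]
      omega
    have hUx : (U x) ^ J = x ^ (P * J) * (V x) ^ J := by rw [e2, mul_pow, ← pow_mul]
    have hfac : x ^ (n * k + k) ≠ 0 := pow_ne_zero _ hx0
    apply mul_left_cancel₀ hfac
    have hGWx : GW (U x) = GW (U x) := rfl
    calc x ^ (n * k + k) * ((k * g1.eval (z0 + x ^ n) + x ^ n *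
      (derivative g1).eval (z0 + x ^ n)) * T x * V x * GW (U x))
        = (x ^ (n * (k - 1)) * (k * g1.eval (z0 + x ^ n) + x ^ n *
      (derivative g1).eval (z0 + x ^ n))) * (x ^ (2 * k) * T x) * ((x ^ P * V x) * GW (U x)) := by
          rw [← hpow]; ring
      _ = (x ^ (n * (k - 1)) * (k * g1.eval (z0 + x ^ n) + x ^ n *
      (derivative g1).eval (z0 + x ^ n))) * (x ^ (2 * k) * T x) * (U x * GW (U x)) := by
          rw [← e2]
      _ = _ := by
          rw [e1, hUx, hd]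
          ring
  -- limits
  have hUc' : Tendsto U (𝓝[≠] 0) (𝓝 0) := hUc.mono_left nhdsWithin_le_nhds
  have hzc : Tendsto (fun x : ℂ => z0 + x ^ n) (𝓝[≠] 0) (𝓝 z0) := by
    have : Tendsto (fun x : ℂ => z0 + x ^ n) (𝓝 0) (𝓝 (z0 + 0 ^ n)) := by
      exact (continuous_const.add (continuous_id.pow n)).continuousAt
    rw [zero_pow hn0, add_zero] at this
    exact this.mono_left nhdsWithin_le_nhds
  have hxn : ∀ m : ℕ, m ≠ 0 → Tendsto (fun x : ℂ => x ^ m) (𝓝[≠] 0) (𝓝 0) := by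
    intro m hm
    have : Tendsto (fun x : ℂ => x ^ m) (𝓝 0) (𝓝 (0 ^ m)) := (continuous_id.pow m).continuousAt
    rw [zero_pow hm] at this
    exact this.mono_left nhdsWithin_le_nhds
  have hp : ∀ q : ℂ[X], Tendsto (fun x : ℂ => q.eval (z0 + x ^ n)) (𝓝[≠] 0) (𝓝 (q.eval z0)) :=
    fun q => (q.continuous.continuousAt.tendsto).comp hzc
  have hVt : Tendsto V (𝓝[≠] 0) (𝓝 (V 0)) := hV.continuousAt.tendsto.mono_left nhdsWithin_le_nhds
  have hTt : Tendsto T (𝓝[≠] 0) (𝓝 (T 0)) := hT.tendsto.mono_left nhdsWithin_le_nhds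
  have hGWt : Tendsto (fun x => GW (U x)) (𝓝[≠] 0) (𝓝 (GW 0)) := hGWc.tendsto.comp hUc'
  have hGAt : Tendsto (fun x => GA (U x)) (𝓝[≠] 0) (𝓝 (GA 0)) := hGAc.tendsto.comp hUc'
  have hGBt : Tendsto (fun x => GB (U x)) (𝓝[≠] 0) (𝓝 (GB 0)) := hGBc.tendsto.comp hUc'
  have hLlim : Tendsto (fun x : ℂ => (k * g1.eval (z0 + x ^ n) + x ^ n *
      (derivative g1).eval (z0 + x ^ n)) * T x * V x * GW (U x)) (𝓝[≠] 0)
      (𝓝 ((k * g1.eval z0 + 0 * (derivative g1).eval z0) * T 0 * V 0 * GW 0)) :=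
    (((((hp g1).const_mul (k : ℂ)).add ((hxn n hn0).mul (hp _))).mul hTt).mul hVt).mul hGWt
  have hRlim : Tendsto (fun x : ℂ => x ^ (d + 1) * (g1.eval (z0 + x ^ n) * (V x) ^ J *
      ((z0 + x ^ n) * GB (U x) + GA (U x)))) (𝓝[≠] 0)
      (𝓝 (0 * (g1.eval z0 * (V 0) ^ J * (z0 * GB 0 + GA 0)))) :=
    (hxn (d + 1) (by omega)).mul (((hp g1).mul (hVt.pow J)).mul ((hzc.mul hGBt).add hGAt))
  have hEq := tendsto_nhds_unique (hLlim.congr' hfin) hRlim
  rw [zero_mul, zero_mul, add_zero, hGW0] at hEq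
  have hkC : (k : ℂ) ≠ 0 := by exact_mod_cast (by omega : k ≠ 0)
  have hnC : (n : ℂ) ≠ 0 := by exact_mod_cast hn0
  have : (k : ℂ) * g1.eval z0 * T 0 * V 0 * (n * deriv W 0) ≠ 0 :=
    mul_ne_zero (mul_ne_zero (mul_ne_zero (mul_ne_zero hkC hg1z) hT0) hV0) (mul_ne_zero hnC hW1)
  exact this hEq

end H738PI
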