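import Pool.Agent.H738R2.PI.Defs

open Complex Set Filter Topology Polynomial

namespace H738PI

theorem BR_convex {γ : ℝ → ℂ} {ζ ζ0 x : ℂ} (h : Ins γ ζ) (h0 : Ins γ ζ0) (t : ℝ) (ht : 0 ≤ t)
    (hx : x - ζ = -(t : ℂ) * (x - ζ0)) : Ins γ x := by
  intro s
  have h1 := h s
  have h2 := h0 s
  have e : (1 + (t : ℂ)) * ((γ s - x) * cexp (-(s * I))) =
      (γ s - ζ) * cexp (-(s * I)) + (t : ℂ) * ((γ s - ζ0) * cexp (-(s * I))) := by
    have : (1 + (t : ℂ)) * (γ s - x) = (γ s - ζ) + (t : ℂ) * (γ s - ζ0) := by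
      linear_combination (-1 : ℂ) * hx
    calc (1 + (t : ℂ)) * ((γ s - x) * cexp (-(s * I)))
        = ((1 + (t : ℂ)) * (γ s - x)) * cexp (-(s * I)) := by ring
      _ = _ := by rw [this]; ring
  have e2 : (1 + t) * ((γ s - x) * cexp (-(s * I))).re =
      ((γ s - ζ) * cexp (-(s * I))).re + t * ((γ s - ζ0) * cexp (-(s * I))).re := by
    have := congrArg Complex.re e
    rw [Complex.add_re, Complex.re_ofReal_mul] at this
    rw [← this]
    have h3 : (1 + (t : ℂ)) = ((1 + t : ℝ) : ℂ) := by push_cast; ring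
    rw [h3, Complex.re_ofReal_mul]
  have h4 : 0 < (1 + t) * ((γ s - x) * cexp (-(s * I))).re := by
    rw [e2]
    have := mul_nonneg ht h2.le
    linarith
  exact pos_of_mul_pos_of_pos_left' h4 (by linarith)
where
  pos_of_mul_pos_of_pos_left' {a b : ℝ} (h : 0 < a * b) (ha : 0 < a) : 0 < b := by
    by_contra hb
    have : a * b ≤ 0 := mul_nonpos_of_nonneg_of_nonpos ha.le (not_lt.mp hb)
    linarith

theorem BR_slit {γ : ℝ → ℂ} {ζ ζ0 x : ℂ} (h : Ins γ ζ) (h0 : Ins γ ζ0) (hx : ¬ Ins γ x) :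
    (x - ζ) / (x - ζ0) ∈ slitPlane := by
  have hne : x - ζ0 ≠ 0 := by
    intro h1
    have : x = ζ0 := sub_eq_zero.mp h1
    exact hx (this ▸ h0)
  by_contra hc
  rw [Complex.mem_slitPlane_iff] at hc
  push Not at hc
  obtain ⟨hre, him⟩ := hc
  set w := (x - ζ) / (x - ζ0) with hw
  have hwr : w = ((w.re : ℝ) : ℂ) := by
    apply Complex.ext <;> simp [him]
  have hxw : x - ζ = w * (x - ζ0) := by
    rw [hw]; field_simp
  apply hx
  refine BR_convex h h0 (-w.re) (by linarith) ?_
  rw [hxw]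
  conv_lhs => rw [hwr]
  push_cast
  ring

theorem BR_contProd (U : Set ℂ) (f : ℂ → ℂ → ℂ) (m : Multiset ℂ)
    (h : ∀ ζ ∈ m, ContinuousOn (f ζ) U) : ContinuousOn (fun x => (m.map (fun ζ => f ζ x)).prod) U := by
  induction m using Multiset.induction_on with
  | empty => simpa using continuousOn_const
  | cons a s ih =>
    simp only [Multiset.map_cons, Multiset.prod_cons]
    exact (h a (Multiset.mem_cons_self a s)).mul
      (ih fun ζ hζ => h ζ (Multiset.mem_cons_of_mem hζ))

theorem BR_powProd (n : ℕ) (f : ℂ → ℂ) (m : Multiset ℂ) :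
    ((m.map f).prod) ^ n = (m.map (fun ζ => f ζ ^ n)).prod := by
  induction m using Multiset.induction_on with
  | empty => simp
  | cons a s ih => simp [mul_pow, ih]

theorem BR_divProd (m : Multiset ℂ) (x y : ℂ) (hy : y ≠ 0) :
    y ^ (Multiset.card m) * (m.map (fun ζ => (x - ζ) / y)).prod = (m.map (fun ζ => x - ζ)).prod := by
  induction m using Multiset.induction_on with
  | empty => simp
  | cons a s ih =>
    simp only [Multiset.card_cons, Multiset.map_cons, Multiset.prod_cons]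
    rw [← ih]
    field_simp
    ring

theorem BR_not_ins (γ : ℝ → ℂ) (s : ℝ) : ¬ Ins γ (γ s) := by
  intro h
  have := h s
  simp at this

theorem tBR : StBR := by
  intro γ ρ n g e hD
  have hn0 : n ≠ 0 := by have := hD.hn; omega
  have hnC : (n : ℂ) ≠ 0 := Nat.cast_ne_zero.mpr hn0
  have hg0 : g ≠ 0 := by
    intro h
    have := hD.pos 0
    simp [h] at this
  have hspl : g.Splits := IsAlgClosed.splits g
  have hcard : Multiset.card g.roots = n := by
    rw [← hD.deg]; exact (splits_iff_card_roots.mp hspl)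
  have hroots : ∀ ζ ∈ g.roots, Ins γ ζ := fun ζ hζ => hD.ins ζ ((mem_roots hg0).mp hζ)
  obtain ⟨ζ0, hζ0⟩ : ∃ ζ0, ζ0 ∈ g.roots := by
    apply Multiset.card_pos_iff_exists_mem.mp
    rw [hcard]; exact hD.hn
  have hI0 : Ins γ ζ0 := hroots ζ0 hζ0
  obtain ⟨L, hL⟩ : ∃ L : ℂ, L ^ n = I ^ n * g.leadingCoeff :=
    IsAlgClosed.exists_pow_nat_eq _ (Nat.pos_of_ne_zero hn0)
  set U : Set ℂ := {x | ¬ Ins γ x} with hU
  have hne : ∀ x ∈ U, x - ζ0 ≠ 0 := by
    intro x hx h1
    have : x = ζ0 := sub_eq_zero.mp h1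
    exact hx (this ▸ hI0)
  let Φ : ℂ → ℂ := fun x => L * ((x - ζ0) *
    (g.roots.map (fun ζ => ((x - ζ) / (x - ζ0)) ^ (1 / (n : ℂ)))).prod)
  have hΦc : ContinuousOn Φ U := by
    refine continuousOn_const.mul ((continuousOn_id.sub continuousOn_const).mul ?_)
    refine BR_contProd U (fun ζ x => ((x - ζ) / (x - ζ0)) ^ (1 / (n : ℂ))) g.roots ?_
    intro ζ hζ
    have h1 : ContinuousOn (fun x : ℂ => (x - ζ) / (x - ζ0)) U :=
      (continuousOn_id.sub continuousOn_const).div (continuousOn_id.sub continuousOn_const) hne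
    exact h1.cpow continuousOn_const fun x hx => BR_slit (hroots ζ hζ) hI0 hx
  have hΦn : ∀ x ∈ U, (Φ x) ^ n = I ^ n * g.eval x := by
    intro x hx
    have h1 : g.eval x = g.leadingCoeff * (g.roots.map (fun ζ => x - ζ)).prod :=
      hspl.eval_eq_prod_roots x
    simp only [Φ]
    rw [mul_pow, mul_pow, BR_powProd, hL, h1]
    have h2 : (g.roots.map (fun ζ => (((x - ζ) / (x - ζ0)) ^ (1 / (n : ℂ))) ^ n)).prod =
        (g.roots.map (fun ζ => (x - ζ) / (x - ζ0))).prod := by
      refine congrArg Multiset.prod (Multiset.map_congr rfl fun ζ _ => ?_)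
      rw [one_div]
      exact Complex.cpow_nat_inv_pow _ hn0
    rw [h2]
    have h3 := BR_divProd g.roots x (x - ζ0) (hne x hx)
    rw [hcard] at h3
    rw [h3]
    ring
  -- the curve
  have hγc : Continuous γ := continuous_iff_continuousAt.mpr fun s => (hD.ov.der s).continuousAt
  have hgγ : ∀ s : ℝ, g.eval (γ s) ≠ 0 := by
    intro s h
    have := hD.pos s
    simp [h] at this
  have hreal : ∀ s : ℝ, g.eval (γ s) = cexp (n * s * I) * ((‖g.eval (γ s)‖ : ℝ) : ℂ) := by
    intro s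
    set w := cexp (-(n * s * I)) * g.eval (γ s) with hw
    have h1 : w = ((w.re : ℝ) : ℂ) := by
      apply Complex.ext
      · simp
      · rw [Complex.ofReal_im]; exact hD.p1 s
    have h2 : ‖w‖ = w.re := by
      rw [h1, Complex.norm_real, Real.norm_eq_abs, abs_of_pos]
      · simp
      · exact hD.pos s
    have h3 : ‖w‖ = ‖g.eval (γ s)‖ := by
      rw [hw, norm_mul]
      have : ‖cexp (-(n * s * I))‖ = 1 := by
        have : -((n : ℂ) * s * I) = ((-(n * s) : ℝ) : ℂ) * I := by push_cast; ring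
        rw [this, Complex.norm_exp_ofReal_mul_I]
      rw [this, one_mul]
    rw [← h3, h2, ← h1, hw, ← mul_assoc, ← Complex.exp_add]
    simp
  let d : ℝ → ℂ := fun s => I * cexp (s * I) * ((‖g.eval (γ s)‖ ^ (1 / (n : ℝ)) : ℝ) : ℂ)
  have hd0 : ∀ s, d s ≠ 0 := by
    intro s
    have h1 : (0 : ℝ) < ‖g.eval (γ s)‖ ^ (1 / (n : ℝ)) :=
      Real.rpow_pos_of_pos (norm_pos_iff.mpr (hgγ s)) _
    simp only [d]
    exact mul_ne_zero (mul_ne_zero I_ne_zero (Complex.exp_ne_zero _))
      (Complex.ofReal_ne_zero.mpr h1.ne')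
  have hdn : ∀ s, d s ^ n = I ^ n * g.eval (γ s) := by
    intro s
    simp only [d]
    rw [mul_pow, mul_pow, ← Complex.exp_nat_mul, ← Complex.ofReal_pow]
    have h1 : (‖g.eval (γ s)‖ ^ (1 / (n : ℝ))) ^ n = ‖g.eval (γ s)‖ := by
      rw [one_div]
      exact Real.rpow_inv_natCast_pow (norm_nonneg _) hn0
    rw [h1, mul_assoc]
    congr 1
    conv_rhs => rw [hreal s]
    congr 2
    ring
  have hdc : Continuous d := by
    have h1 : Continuous fun s : ℝ => ‖g.eval (γ s)‖ := (g.continuous.comp hγc).norm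
    have h2 : Continuous fun s : ℝ => ‖g.eval (γ s)‖ ^ (1 / (n : ℝ)) :=
      h1.rpow_const fun s => Or.inr (by positivity)
    exact (continuous_const.mul (Complex.continuous_exp.comp
      (Complex.continuous_ofReal.mul continuous_const))).mul (Complex.continuous_ofReal.comp h2)
  let q : ℝ → ℂ := fun s => Φ (γ s) / d s
  have hqc : Continuous q := by
    refine Continuous.div ?_ hdc hd0
    exact hΦc.comp_continuous hγc fun s => BR_not_ins γ s
  have hqn : ∀ s, q s ^ n = 1 := by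
    intro s
    simp only [q]
    rw [div_pow, hΦn _ (BR_not_ins γ s), hdn s]
    exact div_self (mul_ne_zero (pow_ne_zero _ I_ne_zero) (hgγ s))
  have hconst : ∀ s, q s = q 0 := by
    intro s
    have hT : ((Polynomial.nthRoots n (1 : ℂ)).toFinset : Set ℂ).Finite := Finset.finite_toSet _
    refine (isPreconnected_univ (α := ℝ)).constant_of_mapsTo
      (T := ((Polynomial.nthRoots n (1 : ℂ)).toFinset : Set ℂ)) hT.isDiscrete hqc.continuousOn ?_
      (mem_univ s) (mem_univ 0)
    intro t _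
    rw [Finset.mem_coe, Multiset.mem_toFinset, mem_nthRoots (Nat.pos_of_ne_zero hn0)]
    exact hqn t
  have hq0 : q 0 ≠ 0 := by
    intro h
    have := hqn 0
    rw [h, zero_pow hn0] at this
    exact zero_ne_one this
  refine ⟨fun x => Φ x / q 0, hΦc.div_const _, ?_, ?_⟩
  · intro x hx
    show (Φ x / q 0) ^ n = _
    rw [div_pow, hqn 0, div_one]
    exact hΦn x hx
  · intro s
    show Φ (γ s) / q 0 = d s
    rw [← hconst s]
    have h1 : Φ (γ s) ≠ 0 := by
      intro h
      have := hΦn _ (BR_not_ins γ s)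
      rw [h, zero_pow hn0] at this
      exact mul_ne_zero (pow_ne_zero _ I_ne_zero) (hgγ s) this.symm
    simp only [q]
    have := hd0 s
    field_simp

end H738PI
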