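import Pool.Agent.H738R2.PI.Defs

open Complex Set Filter Topology Polynomial

namespace H738PI

theorem CH_dep (N : ℕ) (P : ℕ → ℕ → ℕ → ℂ) : ∃ B : ℂ[X], B ≠ 0 ∧
    B.natDegree < (N + 1) * (N + 1) + 1 ∧
    ∀ i j, i < N + 1 → j < N + 1 → ∑ k ∈ Finset.range ((N + 1) * (N + 1) + 1),
      B.coeff k * P k i j = 0 := by
  classical
  set D := (N + 1) * (N + 1) with hD
  let v : Fin (D + 1) → (Fin (N + 1) × Fin (N + 1) → ℂ) := fun k p => P k p.1 p.2
  have hnot : ¬ LinearIndependent ℂ v := by
    intro hli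
    have := hli.fintype_card_le_finrank
    rw [Fintype.card_fin, Module.finrank_fintype_fun_eq_card, Fintype.card_prod,
      Fintype.card_fin] at this
    omega
  rw [Fintype.not_linearIndependent_iff] at hnot
  obtain ⟨β, hβ, k0, hk0⟩ := hnot
  set B : ℂ[X] := ∑ k : Fin (D + 1), C (β k) * X ^ (k : ℕ) with hB
  have hcoeff : ∀ k : Fin (D + 1), B.coeff k = β k := by
    intro k
    rw [hB, Polynomial.finsetSum_coeff]
    simp only [Polynomial.coeff_C_mul_X_pow]
    rw [Finset.sum_eq_single k]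
    · simp
    · intro b _ hb
      rw [if_neg]
      intro h
      exact hb (Fin.ext h.symm)
    · intro h; exact absurd (Finset.mem_univ k) h
  refine ⟨B, ?_, ?_, ?_⟩
  · intro h0
    apply hk0
    rw [← hcoeff k0, h0, Polynomial.coeff_zero]
  · have h1 : B.degree < ((D + 1 : ℕ) : WithBot ℕ) := Polynomial.degree_sum_fin_lt β
    rcases eq_or_ne B 0 with h0 | h0
    · rw [h0, Polynomial.natDegree_zero]; omega
    · exact (Polynomial.natDegree_lt_iff_degree_lt h0).2 h1
  · intro i j hi hj
    have h1 := congrFun hβ (⟨i, hi⟩, ⟨j, hj⟩)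
    simp only [Finset.sum_apply, Pi.smul_apply, smul_eq_mul, Pi.zero_apply, v] at h1
    rw [Finset.sum_range]
    rw [← h1]
    exact Finset.sum_congr rfl fun k _ => by rw [hcoeff]

theorem CH_cont {γ : ℝ → ℂ} {ρ : ℝ → ℝ} (h : Oval γ ρ) (C : ℕ → ℕ → ℂ) (N : ℕ) :
    Continuous fun s => pol C N (γ s) := by
  have hγ : Continuous γ := continuous_iff_continuousAt.2 fun s => (h.der s).continuousAt
  unfold pol
  refine continuous_finsetSum _ fun i _ => continuous_finsetSum _ fun j _ => ?_
  exact (continuous_const.mul (hγ.pow i)).mul ((Complex.continuous_conj.comp hγ).pow j)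

theorem tCH : StCH := by
  intro γ ρ hov N P hP s0
  obtain ⟨B, hB0, hBdeg, hB⟩ := CH_dep N P
  by_contra hne
  have hcont := CH_cont hov (P 0) N
  -- the polynomial vanishes near `s0`
  have hkey : ∀ s : ℝ, pol (P 0) N (γ s) ≠ 0 →
      ∑ k ∈ Finset.range ((N + 1) * (N + 1) + 1), B.coeff k * cexp (-(2 * k * s * I)) = 0 := by
    intro s hs
    have h1 : ∑ k ∈ Finset.range ((N + 1) * (N + 1) + 1), B.coeff k * pol (P k) N (γ s) = 0 := by
      unfold pol
      simp only [Finset.mul_sum]
      rw [Finset.sum_comm]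
      refine Finset.sum_eq_zero fun i hi => ?_
      rw [Finset.sum_comm]
      refine Finset.sum_eq_zero fun j hj => ?_
      rw [Finset.mem_range] at hi hj
      have := hB i j hi hj
      calc ∑ k ∈ Finset.range ((N + 1) * (N + 1) + 1),
            B.coeff k * (P k i j * γ s ^ i * (starRingEnd ℂ (γ s)) ^ j)
          = (∑ k ∈ Finset.range ((N + 1) * (N + 1) + 1), B.coeff k * P k i j) *
              (γ s ^ i * (starRingEnd ℂ (γ s)) ^ j) := by
            rw [Finset.sum_mul]
            exact Finset.sum_congr rfl fun k _ => by ring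
        _ = 0 := by rw [this, zero_mul]
    have h2 : (∑ k ∈ Finset.range ((N + 1) * (N + 1) + 1), B.coeff k * cexp (-(2 * k * s * I))) *
        pol (P 0) N (γ s) = 0 := by
      rw [Finset.sum_mul, ← h1]
      refine Finset.sum_congr rfl fun k _ => ?_
      rw [hP k s]; ring
    exact (mul_eq_zero.1 h2).resolve_right hs
  have hroot : ∀ s : ℝ, pol (P 0) N (γ s) ≠ 0 → B.IsRoot (cexp (-(2 * s * I))) := by
    intro s hs
    rw [Polynomial.IsRoot.def, Polynomial.eval_eq_sum_range' hBdeg, ← hkey s hs]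
    refine Finset.sum_congr rfl fun k _ => ?_
    rw [← Complex.exp_nat_mul]
    congr 2
    ring
  have hnhd : ∀ᶠ s in 𝓝 s0, pol (P 0) N (γ s) ≠ 0 := hcont.continuousAt.eventually_ne hne
  obtain ⟨ε, hε, hball⟩ := Metric.eventually_nhds_iff.1 hnhd
  set η := min ε Real.pi with hη
  have hηpos : 0 < η := lt_min hε Real.pi_pos
  apply hB0
  refine Polynomial.eq_zero_of_infinite_isRoot B ?_
  refine Set.Infinite.mono (s := (fun s : ℝ => cexp (-(2 * s * I))) '' Set.Ioo s0 (s0 + η)) ?_ ?_
  · rintro _ ⟨s, hs, rfl⟩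
    refine hroot s (hball ?_)
    rw [Real.dist_eq, abs_of_pos (by linarith [hs.1])]
    have := min_le_left ε Real.pi
    linarith [hs.2]
  · refine Set.Infinite.image ?_ (Set.Ioo_infinite (by linarith))
    intro s hs t ht hst
    simp only at hst
    rw [Complex.exp_eq_exp_iff_exists_int] at hst
    obtain ⟨m, hm⟩ := hst
    have hI : (I : ℂ) ≠ 0 := Complex.I_ne_zero
    have h1 : ((s : ℂ) - t) = -(m : ℂ) * Real.pi := by
      have h2 : (2 * I) * ((s : ℂ) - t) = (2 * I) * (-(m : ℂ) * Real.pi) := by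
        linear_combination -hm
      exact mul_left_cancel₀ (mul_ne_zero two_ne_zero hI) h2
    have h3 : s - t = -(m : ℝ) * Real.pi := by exact_mod_cast h1
    have h4 : |s - t| < Real.pi := by
      rw [abs_lt]
      have := min_le_right ε Real.pi
      constructor <;> linarith [hs.1, hs.2, ht.1, ht.2]
    have h5 : m = 0 := by
      by_contra hm0
      have h6 : (1 : ℝ) ≤ |(m : ℝ)| := by exact_mod_cast Int.one_le_abs hm0
      rw [h3, abs_mul, abs_neg, abs_of_pos Real.pi_pos] at h4
      nlinarith [Real.pi_pos]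
    rw [h5] at h3
    simp at h3
    linarith

end H738PI
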