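import Pool.Agent.H738R2.PI.Defs

/-! CIRC (helper477): the case of a zero of multiplicity `n`. -/

open Complex Set Filter Topology Polynomial

namespace H738PI

theorem CIRC_fac (g : ℂ[X]) (n : ℕ) (ζ : ℂ) (hg : g ≠ 0) (hd : g.natDegree = n)
    (h : g.rootMultiplicity ζ = n) : ∃ c : ℂ, ∀ x, g.eval x = c * (x - ζ) ^ n := by
  obtain ⟨q, hq⟩ := pow_rootMultiplicity_dvd g ζ
  rw [h] at hq
  have hq0 : q ≠ 0 := by
    rintro rfl
    rw [mul_zero] at hq
    exact hg hq
  have h1 : ((X - C ζ) ^ n : ℂ[X]) ≠ 0 := pow_ne_zero _ (X_sub_C_ne_zero ζ)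
  have h2 : q.natDegree = 0 := by
    have h3 := congrArg natDegree hq
    rw [natDegree_mul h1 hq0, natDegree_pow, natDegree_X_sub_C, hd] at h3
    omega
  obtain ⟨c, hc⟩ := natDegree_eq_zero.1 h2
  refine ⟨c, fun x => ?_⟩
  rw [hq, ← hc]
  simp [mul_comm]

theorem CIRC_re {f : ℝ → ℂ} {f' : ℂ} {s : ℝ} (h : HasDerivAt f f' s) :
    HasDerivAt (fun t => (f t).re) f'.re s := by
  exact reCLM.hasFDerivAt.comp_hasDerivAt s h

theorem CIRC_im {f : ℝ → ℂ} {f' : ℂ} {s : ℝ} (h : HasDerivAt f f' s) :
    HasDerivAt (fun t => (f t).im) f'.im s := by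
  exact imCLM.hasFDerivAt.comp_hasDerivAt s h

theorem tCIRC : StCIRC := by
  intro γ ρ n g e hD ⟨ζ, hζ⟩
  have hn := hD.hn
  have hn0 : (n : ℂ) ≠ 0 := by
    have : n ≠ 0 := by omega
    exact_mod_cast this
  have hg0 : g ≠ 0 := by
    rintro rfl
    have := hD.deg
    rw [natDegree_zero] at this
    omega
  have hroot : g.IsRoot ζ := (rootMultiplicity_pos hg0).1 (by omega)
  have hins := hD.ins ζ hroot
  obtain ⟨c, hc⟩ := CIRC_fac g n ζ hg0 hD.deg hζ
  set y : ℝ → ℂ := fun s => (γ s - ζ) * cexp (-(s * I)) with hydef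
  have hy : ∀ s, HasDerivAt y (ρ s * I - y s * I) s := by
    intro s
    have h1 : HasDerivAt (fun t : ℝ => γ t - ζ) ((ρ s : ℂ) * I * cexp (s * I)) s :=
      (hD.ov.der s).sub_const ζ
    have h2 : HasDerivAt (fun t : ℝ => cexp (-((t : ℂ) * I))) (cexp (-(s * I)) * (-(1 * I))) s := by
      have h3 : HasDerivAt (fun t : ℝ => -((t : ℂ) * I)) (-(1 * I)) s :=
        ((hasDerivAt_id s).ofReal_comp.mul_const I).neg
      exact h3.cexp
    have h4 := h1.mul h2
    refine h4.congr_deriv ?_
    have h5 : cexp (s * I) * cexp (-(s * I)) = 1 := by rw [← Complex.exp_add]; simp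
    rw [hydef]
    simp only
    linear_combination (ρ s * I) * h5
  have hre : ∀ s, 0 < (y s).re := hins
  -- `f = c y^n` is real and positive
  have hf : ∀ s : ℝ, cexp (-(n * s * I)) * g.eval (γ s) = c * (y s) ^ n := by
    intro s
    rw [hc, hydef]
    simp only
    rw [mul_pow, ← Complex.exp_nat_mul]
    have : (n : ℂ) * -((s : ℂ) * I) = -(n * s * I) := by ring
    rw [this]
    ring
  have hfim : ∀ s : ℝ, (c * (y s) ^ n).im = 0 := by
    intro s
    rw [← hf]
    exact hD.p1 s
  have hfre : ∀ s : ℝ, 0 < (c * (y s) ^ n).re := by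
    intro s
    rw [← hf]
    exact hD.pos s
  have hfd : ∀ s : ℝ, (c * (n * (y s) ^ (n - 1) * (ρ s * I - y s * I))).im = 0 := by
    intro s
    have h1 : HasDerivAt (fun t => c * (y t) ^ n)
        (c * (n * (y s) ^ (n - 1) * (ρ s * I - y s * I))) s := ((hy s).pow n).const_mul c
    have h2 := CIRC_im h1
    have h3 : (fun t => (c * (y t) ^ n).im) = fun _ => 0 := funext hfim
    rw [h3] at h2
    exact h2.unique (hasDerivAt_const s 0)
  -- the logarithmic derivative of `y` is real
  have hq : ∀ s : ℝ, ∃ q : ℝ, (ρ s * I - y s * I : ℂ) = q * y s := by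
    intro s
    set a := (c * (n * (y s) ^ (n - 1) * (ρ s * I - y s * I))).re with ha
    set b := (c * (y s) ^ n).re with hb
    have e1 : c * (n * (y s) ^ (n - 1) * (ρ s * I - y s * I)) = (a : ℂ) := by
      apply Complex.ext
      · simp [ha]
      · rw [hfd, ofReal_im]
    have e2 : c * (y s) ^ n = (b : ℂ) := by
      apply Complex.ext
      · simp [hb]
      · rw [hfim, ofReal_im]
    have hb0 : (b : ℂ) ≠ 0 := by
      have := (hfre s).ne'
      exact_mod_cast this
    refine ⟨a / (n * b), ?_⟩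
    have e3 : (y s) ^ n = (y s) ^ (n - 1) * y s := by
      rw [← pow_succ]
      congr 1
      omega
    have e4 : (n * b : ℂ) * (ρ s * I - y s * I) = a * y s := by
      rw [← e1, ← e2, e3]
      ring
    push_cast
    rw [div_mul_eq_mul_div, eq_div_iff (mul_ne_zero hn0 hb0), ← e4]
    ring
  have hIm : ∀ s : ℝ, HasDerivAt (fun t => (y t).im) (ρ s - (y s).re) s := by
    intro s
    have := CIRC_im (hy s)
    refine this.congr_deriv ?_
    simp
  have hRe : ∀ s : ℝ, HasDerivAt (fun t => (y t).re) (y s).im s := by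
    intro s
    have := CIRC_re (hy s)
    refine this.congr_deriv ?_
    simp
  have hqq : ∀ s : ℝ, (ρ s - (y s).re) * (y s).re = (y s).im * (y s).im := by
    intro s
    obtain ⟨q, hq⟩ := hq s
    have e1 := congrArg Complex.re hq
    have e2 := congrArg Complex.im hq
    simp only [sub_re, mul_re, ofReal_re, I_re, mul_zero, ofReal_im, I_im, mul_one, sub_self,
      zero_sub, sub_neg_eq_add, zero_mul, sub_zero, sub_im, mul_im, add_zero, zero_add] at e1 e2
    rw [e2, show (y s).im = q * (y s).re by linarith]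
    ring
  have hconst : ∀ s t : ℝ, (y s).im / (y s).re = (y t).im / (y t).re := by
    apply is_const_of_deriv_eq_zero
    · intro s
      exact ((hIm s).div (hRe s) (hre s).ne').differentiableAt
    · intro s
      have h1 := ((hIm s).div (hRe s) (hre s).ne').deriv
      have h2 : (fun s => (y s).im / (y s).re) = ((fun t => (y t).im) / fun t => (y t).re) := rfl
      rw [h2, h1, hqq]
      simp
  set q0 := (y 0).im / (y 0).re with hq0
  have him : ∀ s : ℝ, (y s).im = q0 * (y s).re := by
    intro s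
    rw [hq0, ← hconst s 0, div_mul_cancel₀ _ (hre s).ne']
  have hexp : ∀ s t : ℝ, (y s).re * Real.exp (-(q0 * s)) = (y t).re * Real.exp (-(q0 * t)) := by
    have hd : ∀ s : ℝ, HasDerivAt (fun s => (y s).re * Real.exp (-(q0 * s))) 0 s := by
      intro s
      have h1 : HasDerivAt (fun t : ℝ => Real.exp (-(q0 * t))) (Real.exp (-(q0 * s)) * (-(q0 * 1))) s :=
        (((hasDerivAt_id s).const_mul q0).neg).exp
      have h2 := (hRe s).mul h1
      refine h2.congr_deriv ?_
      rw [him s]
      ring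
    apply is_const_of_deriv_eq_zero
    · intro s
      exact (hd s).differentiableAt
    · intro s
      exact (hd s).deriv
  have hper : y (2 * Real.pi) = y 0 := by
    rw [hydef]
    simp only
    have h1 : γ (2 * Real.pi) = γ 0 := by
      have := hD.ov.per 0
      rwa [zero_add] at this
    have h2 : cexp (-(((2 * Real.pi : ℝ) : ℂ) * I)) = 1 := by
      rw [Complex.exp_neg]
      push_cast
      rw [Complex.exp_two_pi_mul_I, inv_one]
    rw [h1, h2]
    simp
  have hq00 : q0 = 0 := by
    have h1 := hexp (2 * Real.pi) 0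
    rw [hper, mul_zero, neg_zero, Real.exp_zero] at h1
    have h2 := mul_left_cancel₀ (hre 0).ne' h1
    rw [Real.exp_eq_one_iff] at h2
    have h3 : q0 * (2 * Real.pi) = 0 := by linarith
    rcases mul_eq_zero.1 h3 with h | h
    · exact h
    · have := Real.pi_pos
      linarith
  set r := (y 0).re with hr
  have hyr : ∀ s : ℝ, y s = (r : ℂ) := by
    intro s
    apply Complex.ext
    · have h1 := hexp s 0
      rw [hq00] at h1
      simp only [zero_mul, neg_zero, Real.exp_zero, mul_one] at h1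
      rw [h1, ofReal_re]
    · rw [him s, hq00, zero_mul, ofReal_im]
  have hγ : ∀ s : ℝ, γ s = ζ + r * cexp (s * I) := by
    intro s
    have h1 := hyr s
    have h5 : cexp (-(s * I)) * cexp (s * I) = 1 := by rw [← Complex.exp_add]; simp
    rw [← h1, hydef]
    simp only
    linear_combination -(γ s - ζ) * h5
  refine ⟨ζ, r, 0, fun x => ⟨?_, ?_⟩⟩
  · rintro ⟨s, rfl⟩
    refine ⟨cexp (s * I), Complex.norm_exp_ofReal_mul_I s, ?_⟩
    rw [hγ, zero_mul, add_zero]
  · rintro ⟨ω, hω, rfl⟩
    refine ⟨ω.arg, ?_⟩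
    rw [hγ, zero_mul, add_zero]
    congr 2
    have := Complex.norm_mul_exp_arg_mul_I ω
    rw [hω, ofReal_one, one_mul] at this
    exact this

end H738PI
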