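import Pool.Agent.H738R2.PI.Defs

/-!
# DOWN: continuation to arbitrarily deep strips below
-/

open Complex Set Filter Topology Polynomial

namespace H738PI

theorem DOWN_isOpen_strip (a b : ℝ) : IsOpen (strip a b) := by
  have h1 : IsOpen {u : ℂ | a < u.im} := isOpen_lt continuous_const Complex.continuous_im
  have h2 : IsOpen {u : ℂ | u.im < b} := isOpen_lt Complex.continuous_im continuous_const
  exact h1.inter h2

theorem DOWN_convex_strip (a b : ℝ) : Convex ℝ (strip a b) := by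
  have h1 : Convex ℝ {u : ℂ | a < u.im} := convex_halfSpace_im_gt a
  have h2 : Convex ℝ {u : ℂ | u.im < b} := convex_halfSpace_im_lt b
  exact h1.inter h2

theorem DOWN_mono {n : ℕ} {g : ℂ[X]} {z : ℂ → ℂ} {S T : Set ℂ} (h : Sol n g z T)
    (hST : S ⊆ T) : Sol n g z S :=
  ⟨h.1.mono hST, fun u hu => h.2 u (hST hu)⟩

/-- two holomorphic functions on a strip around the real line which agree on the real line agree
on the strip -/
theorem DOWN_ident {a b : ℝ} (ha : a < 0) (hb : 0 < b) {y z : ℂ → ℂ}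
    (hy : DifferentiableOn ℂ y (strip a b)) (hz : DifferentiableOn ℂ z (strip a b))
    (h : ∀ x : ℝ, y x = z x) : EqOn y z (strip a b) := by
  have hy' := hy.analyticOnNhd (DOWN_isOpen_strip a b)
  have hz' := hz.analyticOnNhd (DOWN_isOpen_strip a b)
  have h0 : (0 : ℂ) ∈ strip a b := by simp [strip, ha, hb]
  refine hy'.eqOn_of_preconnected_of_frequently_eq hz'
    (DOWN_convex_strip a b).isPreconnected h0 ?_
  rw [frequently_iff]
  intro U hU
  rw [mem_nhdsWithin] at hU
  obtain ⟨V, hV, h0V, hVU⟩ := hU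
  obtain ⟨ε, hε, hball⟩ := Metric.isOpen_iff.1 hV 0 h0V
  refine ⟨((ε / 2 : ℝ) : ℂ), hVU ⟨hball ?_, ?_⟩, h _⟩
  · rw [Metric.mem_ball, dist_zero_right, Complex.norm_real, Real.norm_eq_abs,
      abs_of_pos (by positivity)]
    linarith
  · simp only [mem_compl_iff, mem_singleton_iff, Complex.ofReal_eq_zero]
    positivity

/-- `γ` is bounded -/
theorem DOWN_bdd {γ : ℝ → ℂ} {ρ : ℝ → ℝ} (h : Oval γ ρ) : ∃ S : ℝ, 0 ≤ S ∧ ∀ s, ‖γ s‖ ≤ S := by
  have hc : Continuous γ := continuous_iff_continuousAt.2 fun s => (h.der s).continuousAt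
  obtain ⟨S, hS⟩ := (isCompact_Icc (a := (0:ℝ)) (b := 0 + 2 * Real.pi)).exists_bound_of_continuousOn
    hc.continuousOn
  refine ⟨S, ?_, ?_⟩
  · exact (norm_nonneg _).trans (hS 0 ⟨le_refl _, by positivity⟩)
  · intro s
    have hper : Function.Periodic γ (2 * Real.pi) := h.per
    obtain ⟨t, ht, hts⟩ := hper.exists_mem_Ico (by positivity : (0:ℝ) < 2 * Real.pi) s 0
    rw [hts]
    exact hS t ⟨ht.1, ht.2.le⟩

theorem tDOWN (hSTRIP : StSTRIP) (hUNIF : StUNIF) (hGEO : StGEO) (hSTAY : StSTAY)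
    (hGROW : StGROW) (hEXT : StEXT) (hGLUD : StGLUD) (hSOLX : StSOLX) : StDOWN := by
  intro γ ρ n g e σ hD hP
  obtain ⟨c, hc, z0, hz0, hz0γ, hz0g⟩ := hSTRIP γ ρ n g e σ hD hP
  obtain ⟨-, -, -, hOI, -, -, -, hcl, -⟩ := hGEO γ ρ hD.ov
  have hn := hD.hn
  have hg0 : g ≠ 0 := by
    intro h0
    have := hD.deg
    rw [h0, natDegree_zero] at this
    omega
  obtain ⟨S, hS0, hS⟩ := DOWN_bdd hD.ov
  obtain ⟨A, hA, hgrow⟩ := hGROW n g hn (by rw [hD.deg])
  refine ⟨c, hc, fun D hDpos => ?_⟩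
  -- the compact set
  set B : ℝ := (S + 1) * Real.exp (A * D) with hB
  set K : Set ℂ := Metric.closedBall 0 B ∩ {x : ℂ | ¬ Ins γ x} with hK
  have hKc : IsCompact K := (isCompact_closedBall (0 : ℂ) B).inter_right hcl
  have hKr : ∀ z1 ∈ K, g.rootMultiplicity z1 < n ∧ (n - g.rootMultiplicity z1) ∣ n := by
    intro z1 hz1
    have hr : ¬ g.IsRoot z1 := fun hr => hz1.2 (hD.ins z1 hr)
    have h0 : g.rootMultiplicity z1 = 0 := rootMultiplicity_eq_zero hr
    rw [h0]
    exact ⟨by omega, by simp⟩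
  obtain ⟨r0, hr0, hunif0⟩ := hUNIF n g K hn hg0 hKc hKr
  -- shrink the radius
  set r : ℝ := min r0 c with hr
  have hrpos : 0 < r := lt_min hr0 hc
  have hrc : r ≤ c := min_le_right _ _
  have hunif : ∀ (u1 z1 d1 : ℂ), z1 ∈ K → g.eval z1 ≠ 0 → d1 ^ n = I ^ n * g.eval z1 →
      ∃ z : ℂ → ℂ, Sol n g z (Metric.ball u1 r) ∧ z u1 = z1 ∧ deriv z u1 = d1 := by
    intro u1 z1 d1 h1 h2 h3
    obtain ⟨z, hz, hz1, hz2⟩ := hunif0 u1 z1 d1 h1 h2 h3
    exact ⟨z, DOWN_mono hz (Metric.ball_subset_ball (min_le_left _ _)), hz1, hz2⟩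
  -- one step
  have step : ∀ b : ℝ, c ≤ b → b ≤ D →
      (∃ z : ℂ → ℂ, Sol n g z (strip (-b) c) ∧ ∀ x : ℝ, z x = γ (σ x)) →
      ∃ z : ℂ → ℂ, Sol n g z (strip (-(b + 3 * r / 4)) c) ∧ ∀ x : ℝ, z x = γ (σ x) := by
    rintro b hcb hbD ⟨z, hz, hzγ⟩
    have hbpos : 0 < b := lt_of_lt_of_le hc hcb
    have key : ∀ x : ℝ, ∃ E : ℂ → ℂ,
        DifferentiableOn ℂ E (Metric.ball ((x : ℂ) + ((-b : ℝ) : ℂ) * I) (3 * r / 4)) ∧
        ∀ u ∈ Metric.ball ((x : ℂ) + ((-b : ℝ) : ℂ) * I) (3 * r / 4), u ∈ strip (-b) c →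
          E u = z u := by
      intro x
      set u1 : ℂ := (x : ℂ) + ((-(b - r / 4) : ℝ) : ℂ) * I with hu1
      have him : u1.im = -(b - r / 4) := by simp [hu1]
      have hre : u1.re = x := by simp [hu1]
      have him0 : u1.im < 0 := by rw [him]; linarith
      have him1 : -b < u1.im := by rw [him]; linarith
      have hmem : u1 ∈ strip (-b) c := ⟨him1, by linarith⟩
      have hout : Out γ (z u1) := hSTAY γ ρ n g e σ b c z hD hP hbpos hc hz hzγ u1 him1 him0
      have hnins : ¬ Ins γ (z u1) := hOI _ hout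
      have hgz : g.eval (z u1) ≠ 0 := fun h0 => hnins (hD.ins _ h0)
      have hzK : z u1 ∈ K := by
        refine ⟨?_, hnins⟩
        rw [Metric.mem_closedBall, dist_zero_right]
        have h1 := hgrow (-b) c z (by linarith) hc hz u1 hmem
        rw [hre, hzγ x] at h1
        have habs : |u1.im| ≤ D := by
          rw [him, abs_neg, abs_of_nonneg (by linarith)]
          linarith
        have h2 : Real.exp (A * |u1.im|) ≤ Real.exp (A * D) :=
          Real.exp_le_exp.2 (mul_le_mul_of_nonneg_left habs hA.le)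
        have h3 : (‖γ (σ x)‖ + 1) * Real.exp (A * |u1.im|) ≤ (S + 1) * Real.exp (A * D) := by
          have := hS (σ x)
          exact mul_le_mul (by linarith) h2 (Real.exp_pos _).le (by linarith)
        rw [hB]
        linarith
      obtain ⟨E, hE, hE1, hE2⟩ := hunif u1 (z u1) (deriv z u1) hzK hgz (hz.2 u1 hmem)
      have hext := hEXT n g u1 z E (-b) c r hn hrpos hz hmem hgz hE hE1 hE2
      have hsub : Metric.ball ((x : ℂ) + ((-b : ℝ) : ℂ) * I) (3 * r / 4) ⊆ Metric.ball u1 r := by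
        apply Metric.ball_subset_ball'
        have hd : dist ((x : ℂ) + ((-b : ℝ) : ℂ) * I) u1 = r / 4 := by
          rw [Complex.dist_eq]
          have : ((x : ℂ) + ((-b : ℝ) : ℂ) * I) - u1 = ((-(r / 4) : ℝ) : ℂ) * I := by
            rw [hu1]
            push_cast
            ring
          rw [this, norm_mul, Complex.norm_I, mul_one, Complex.norm_real, Real.norm_eq_abs, abs_neg,
            abs_of_pos (by positivity)]
        rw [hd]
        linarith
      exact ⟨E, hE.1.mono hsub, fun u hu hu' => hext u (hsub hu) hu'⟩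
    obtain ⟨y, hy, hyz⟩ := hGLUD (-b) c (3 * r / 4) z (by linarith) (by positivity) hz.1 key
    have hsolb : Sol n g y (strip (-b) c) := by
      refine ⟨hz.1.congr hyz, fun u hu => ?_⟩
      have hev : y =ᶠ[𝓝 u] z :=
        Filter.eventuallyEq_of_mem ((DOWN_isOpen_strip (-b) c).mem_nhds hu) hyz
      rw [hev.deriv_eq, hyz hu]
      exact hz.2 u hu
    have hsol : Sol n g y (strip (-b - 3 * r / 4) c) :=
      hSOLX n g y (-b - 3 * r / 4) c (-b) c (by linarith) (by linarith) le_rfl hy hsolb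
    refine ⟨y, ?_, ?_⟩
    · have : -(b + 3 * r / 4) = -b - 3 * r / 4 := by ring
      rw [this]
      exact hsol
    · intro x
      have hx : (x : ℂ) ∈ strip (-b) c := by
        constructor
        · simp only [Complex.ofReal_im]; linarith
        · simpa using hc
      rw [hyz hx, hzγ x]
  -- iteration
  have iter : ∀ k : ℕ, ∃ b : ℝ, c ≤ b ∧ (c + k * (3 * r / 4) ≤ b ∨ D < b) ∧
      ∃ z : ℂ → ℂ, Sol n g z (strip (-b) c) ∧ ∀ x : ℝ, z x = γ (σ x) := by
    intro k
    induction k with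
    | zero => exact ⟨c, le_rfl, Or.inl (by simp), z0, hz0, hz0γ⟩
    | succ k ih =>
      obtain ⟨b, hcb, hb, hz⟩ := ih
      by_cases hbD : D < b
      · exact ⟨b, hcb, Or.inr hbD, hz⟩
      · push Not at hbD
        rcases hb with hb | hb
        · refine ⟨b + 3 * r / 4, by linarith, Or.inl ?_, step b hcb hbD hz⟩
          push_cast
          linarith
        · exact absurd hb (not_lt.2 hbD)
  obtain ⟨k, hk⟩ := exists_nat_gt (D / (3 * r / 4))
  obtain ⟨b, hcb, hb, z, hz, hzγ⟩ := iter k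
  have hDb : D ≤ b := by
    rcases hb with hb | hb
    · rw [div_lt_iff₀ (by positivity)] at hk
      linarith
    · exact hb.le
  have hbpos : 0 < b := lt_of_lt_of_le hc hcb
  refine ⟨z, DOWN_mono hz ?_, hzγ, ?_⟩
  · intro u hu
    exact ⟨by linarith [hu.1], hu.2⟩
  · intro u hu
    by_cases him : u.im < 0
    · have hout : Out γ (z u) :=
        hSTAY γ ρ n g e σ b c z hD hP hbpos hc hz hzγ u (by linarith [hu.1]) him
      exact fun h0 => hOI _ hout (hD.ins _ h0)
    · push Not at him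
      have hu' : u ∈ strip (-c) c := ⟨by linarith, hu.2⟩
      have hsub : strip (-c) c ⊆ strip (-b) c := fun v hv => ⟨by linarith [hv.1], hv.2⟩
      have heq : EqOn z z0 (strip (-c) c) :=
        DOWN_ident (by linarith) hc (hz.1.mono hsub) hz0.1 (fun x => by rw [hzγ x, hz0γ x])
      rw [heq hu']
      exact hz0g u hu'

end H738PI
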