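import Pool.Agent.H738R2.PI.Defs

open Complex Set Filter Topology Polynomial

namespace H738PI

/-- the derivative of the integrand -/
noncomputable def DV_d (a : ℕ → ℝ → ℝ) (N : ℕ) (z z' : ℂ) (φ : ℝ) : ℝ :=
  Kf (da a) N z φ * (z' * cexp (-(φ * I))).re

theorem DV_hasDeriv (a : ℕ → ℝ → ℝ) (N : ℕ) (c c' : ℝ → ℂ) (φ : ℝ) (t : ℝ)
    (hc : HasDerivAt c (c' t) t) :
    HasDerivAt (fun t => Kf a (N + 1) (c t) φ) (DV_d a N (c t) (c' t) φ) t := by
  have h1 : HasDerivAt (fun t => (c t * cexp (-(φ * I))).re) ((c' t * cexp (-(φ * I))).re) t := by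
    have h2 := hc.mul_const (cexp (-(φ * I)))
    have h3 := Complex.reCLM.hasFDerivAt.comp_hasDerivAt t h2
    exact h3
  have h4 : HasDerivAt (fun t => Kf a (N + 1) (c t) φ)
      (∑ j ∈ Finset.range (N + 1 + 1), a j φ * ((j : ℝ) * ((c t * cexp (-(φ * I))).re) ^ (j - 1) *
        (c' t * cexp (-(φ * I))).re)) t := by
    unfold Kf
    refine HasDerivAt.fun_sum fun j _ => ?_
    exact (h1.pow j).const_mul (a j φ)
  refine h4.congr_deriv ?_
  rw [Finset.sum_range_succ']
  unfold DV_d Kf da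
  rw [Finset.sum_mul]
  simp only [Nat.cast_zero, zero_mul, mul_zero, add_zero, Nat.add_sub_cancel]
  refine Finset.sum_congr rfl fun j _ => ?_
  push_cast
  ring

theorem DV_eq (a : ℕ → ℝ → ℝ) (N : ℕ) (m : ℤ) (z z' : ℂ) (φ : ℝ) :
    (DV_d a N z z' φ : ℂ) * cexp (-(m * φ * I)) =
      z' / 2 * ((Kf (da a) N z φ : ℂ) * cexp (-(((m + 1 : ℤ) : ℂ) * φ * I))) +
      starRingEnd ℂ z' / 2 * ((Kf (da a) N z φ : ℂ) * cexp (-(((m - 1 : ℤ) : ℂ) * φ * I))) := by
  unfold DV_d
  rw [Complex.ofReal_mul, Complex.re_eq_add_conj, map_mul, ← Complex.exp_conj]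
  have h1 : (starRingEnd ℂ) (-((φ : ℂ) * I)) = φ * I := by
    rw [map_neg, map_mul, Complex.conj_ofReal, Complex.conj_I]
    ring
  rw [h1]
  have h2 : cexp (-(((m + 1 : ℤ) : ℂ) * φ * I)) = cexp (-(φ * I)) * cexp (-(m * φ * I)) := by
    rw [← Complex.exp_add]
    congr 1
    push_cast
    ring
  have h3 : cexp (-(((m - 1 : ℤ) : ℂ) * φ * I)) = cexp (φ * I) * cexp (-(m * φ * I)) := by
    rw [← Complex.exp_add]
    congr 1
    push_cast
    ring
  rw [h2, h3]
  ring

theorem DV_contK {a : ℕ → ℝ → ℝ} (N : ℕ) (ha : ∀ j, Continuous (a j)) (c : ℝ → ℂ)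
    (hc : Continuous c) : Continuous fun p : ℝ × ℝ => Kf a N (c p.1) p.2 := by
  unfold Kf
  refine continuous_finsetSum _ fun j _ => ?_
  have h1 : Continuous fun p : ℝ × ℝ => (c p.1 * cexp (-((p.2 : ℂ) * I))).re := by
    have h2 : Continuous fun p : ℝ × ℝ => c p.1 := hc.comp continuous_fst
    have h3 : Continuous fun p : ℝ × ℝ => cexp (-((p.2 : ℂ) * I)) := by fun_prop
    exact Complex.continuous_re.comp (h2.mul h3)
  exact ((ha j).comp continuous_snd).mul (h1.pow j)

/-- DV -/
theorem tDV : StDV := by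
  intro a N ha c c' hc' hder m s
  have hc : Continuous c := continuous_iff_continuousAt.mpr fun t => (hder t).continuousAt
  have hda : ∀ j, Continuous (da a j) := by
    intro j
    unfold da
    exact (continuous_const).mul (ha.cont (j + 1))
  set F : ℝ → ℝ → ℂ := fun t φ => (Kf a (N + 1) (c t) φ : ℂ) * cexp (-(m * φ * I)) with hF
  set F' : ℝ → ℝ → ℂ := fun t φ => (DV_d a N (c t) (c' t) φ : ℂ) * cexp (-(m * φ * I)) with hF'
  have hFc : Continuous fun p : ℝ × ℝ => F p.1 p.2 := by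
    have h1 := DV_contK (N + 1) ha.cont c hc
    have h3 : Continuous fun p : ℝ × ℝ => cexp (-((m : ℂ) * (p.2 : ℂ) * I)) := by fun_prop
    exact (Complex.continuous_ofReal.comp h1).mul h3
  have hF'c : Continuous fun p : ℝ × ℝ => F' p.1 p.2 := by
    have h1 := DV_contK N hda c hc
    have h2 : Continuous fun p : ℝ × ℝ => (c' p.1 * cexp (-((p.2 : ℂ) * I))).re := by
      have h2 : Continuous fun p : ℝ × ℝ => c' p.1 := hc'.comp continuous_fst
      have h3 : Continuous fun p : ℝ × ℝ => cexp (-((p.2 : ℂ) * I)) := by fun_prop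
      exact Complex.continuous_re.comp (h2.mul h3)
    have h3 : Continuous fun p : ℝ × ℝ => cexp (-((m : ℂ) * (p.2 : ℂ) * I)) := by fun_prop
    exact (Complex.continuous_ofReal.comp (h1.mul h2)).mul h3
  have hFt : ∀ t, Continuous (F t) := fun t => hFc.comp (Continuous.prodMk_right t)
  have hF't : ∀ t, Continuous (F' t) := fun t => hF'c.comp (Continuous.prodMk_right t)
  obtain ⟨C, hC⟩ := (isCompact_Icc (a := s - 1) (b := s + 1)).prod
    (isCompact_Icc (a := (0:ℝ)) (b := 2 * Real.pi)) |>.exists_bound_of_continuousOn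
    hF'c.continuousOn
  have hmain := intervalIntegral.hasDerivAt_integral_of_dominated_loc_of_deriv_le
    (μ := MeasureTheory.volume) (F := F) (F' := F') (x₀ := s) (a := 0) (b := 2 * Real.pi)
    (s := Set.Icc (s - 1) (s + 1)) (bound := fun _ => C)
    (Icc_mem_nhds (by linarith) (by linarith))
    (Eventually.of_forall fun t => (hFt t).aestronglyMeasurable)
    ((hFt s).intervalIntegrable _ _) ((hF't s).aestronglyMeasurable)
    (Eventually.of_forall fun φ hφ t ht => by
      rw [Set.uIoc_of_le (by positivity)] at hφ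
      exact hC (t, φ) ⟨ht, hφ.1.le, hφ.2⟩)
    intervalIntegrable_const
    (Eventually.of_forall fun φ _ t _ => by
      have h1 := DV_hasDeriv a N c c' φ t (hder t)
      have h2 := h1.ofReal_comp.mul_const (cexp (-(m * φ * I)))
      exact h2)
  have h5 : ∫ φ in (0:ℝ)..(2 * Real.pi), F' s φ =
      (c' s * Fm (da a) N (m + 1) (c s) + starRingEnd ℂ (c' s) * Fm (da a) N (m - 1) (c s)) / 2 := by
    have hcont : ∀ n : ℤ, Continuous fun φ : ℝ =>
        (Kf (da a) N (c s) φ : ℂ) * cexp (-((n : ℂ) * φ * I)) := by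
      intro n
      have h1 : Continuous fun φ : ℝ => Kf (da a) N (c s) φ :=
        (DV_contK N hda c hc).comp (Continuous.prodMk_right s)
      have h3 : Continuous fun φ : ℝ => cexp (-((n : ℂ) * φ * I)) := by fun_prop
      exact (Complex.continuous_ofReal.comp h1).mul h3
    have h6 : F' s = fun φ : ℝ =>
        c' s / 2 * ((Kf (da a) N (c s) φ : ℂ) * cexp (-(((m + 1 : ℤ) : ℂ) * φ * I))) +
        starRingEnd ℂ (c' s) / 2 *
          ((Kf (da a) N (c s) φ : ℂ) * cexp (-(((m - 1 : ℤ) : ℂ) * φ * I))) := by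
      funext φ
      exact DV_eq a N m (c s) (c' s) φ
    rw [h6, intervalIntegral.integral_add, intervalIntegral.integral_const_mul,
      intervalIntegral.integral_const_mul]
    · unfold Fm
      ring
    · exact ((continuous_const).mul (hcont (m + 1))).intervalIntegrable _ _
    · exact ((continuous_const).mul (hcont (m - 1))).intervalIntegrable _ _
  rw [← h5]
  exact hmain.2

end H738PI
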