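import Mathlib

/-!
# Billiard integrals that are polynomial in the position: definitions and statements

Everything here is a definition or a `Prop`; no proofs.  `H738PI`.
-/

open Complex Set Filter Topology Polynomial

namespace H738PI

/-- A closed plane curve parametrised by its normal angle, with positive continuous radius of
curvature `ρ`: `γ'(s) = ρ(s) i e^{is}`.  (Outer unit normal at `γ s` is `e^{is}`.) -/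
structure Oval (γ : ℝ → ℂ) (ρ : ℝ → ℝ) : Prop where
  per : ∀ s, γ (s + 2 * Real.pi) = γ s
  cont : Continuous ρ
  pos : ∀ s, 0 < ρ s
  der : ∀ s : ℝ, HasDerivAt γ ((ρ s : ℂ) * I * cexp (s * I)) s

/-- The value of `K(p, φ) = ∑_{j ≤ N} a_j(φ) p^j` at the oriented line through the point `z` with
normal angle `φ` (so `p = Re (z e^{-iφ})`). -/
noncomputable def Kf (a : ℕ → ℝ → ℝ) (N : ℕ) (z : ℂ) (φ : ℝ) : ℝ :=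
  ∑ j ∈ Finset.range (N + 1), a j φ * ((z * cexp (-(φ * I))).re) ^ j

/-- Fourier modes in the direction (without the factor `1/2π`). -/
noncomputable def Fm (a : ℕ → ℝ → ℝ) (N : ℕ) (m : ℤ) (z : ℂ) : ℂ :=
  ∫ φ in (0:ℝ)..(2 * Real.pi), (Kf a N z φ : ℂ) * cexp (-(m * φ * I))

/-- coefficients of `∂K/∂p` -/
def da (a : ℕ → ℝ → ℝ) : ℕ → ℝ → ℝ := fun j φ => (j + 1) * a (j + 1) φ

/-- continuous and `2π`-periodic coefficients -/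
structure Coef (a : ℕ → ℝ → ℝ) : Prop where
  cont : ∀ j, Continuous (a j)
  per : ∀ j s, a j (s + 2 * Real.pi) = a j s

/-- a polynomial in `z` and `conj z` -/
noncomputable def pol (C : ℕ → ℕ → ℂ) (N : ℕ) (z : ℂ) : ℂ :=
  ∑ i ∈ Finset.range (N + 1), ∑ j ∈ Finset.range (N + 1),
    C i j * z ^ i * (starRingEnd ℂ z) ^ j

/-- invariance of `K` under the billiard reflection in `γ` (whole phase space) -/
def Inv (γ : ℝ → ℂ) (a : ℕ → ℝ → ℝ) (N : ℕ) : Prop :=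
  ∀ s δ : ℝ, 0 < δ → δ < Real.pi → Kf a N (γ s) (s + δ) = Kf a N (γ s) (s - δ)

/-- `K` is not constant -/
def NonConst (a : ℕ → ℝ → ℝ) (N : ℕ) : Prop :=
  ¬ ∃ c : ℝ, ∀ (z : ℂ) (φ : ℝ), Kf a N z φ = c

/-- first reality condition -/
def P1 (γ : ℝ → ℂ) (n : ℕ) (g : ℂ[X]) : Prop :=
  ∀ s : ℝ, (cexp (-(n * s * I)) * g.eval (γ s)).im = 0

/-- second reality condition -/
def P2 (γ : ℝ → ℂ) (n : ℕ) (g e : ℂ[X]) : Prop :=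
  ∀ s : ℝ, (cexp (-(((n : ℂ) - 2) * s * I)) *
    (starRingEnd ℂ (γ s) * (derivative g).eval (γ s) + e.eval (γ s))).im = 0

/-- `ζ` lies strictly inside the oval -/
def Ins (γ : ℝ → ℂ) (ζ : ℂ) : Prop := ∀ s : ℝ, 0 < ((γ s - ζ) * cexp (-(s * I))).re

/-- `ζ` lies strictly outside the oval -/
def Out (γ : ℝ → ℂ) (ζ : ℂ) : Prop := ∃ s : ℝ, ((γ s - ζ) * cexp (-(s * I))).re < 0

/-- normalised data -/
structure Dat (γ : ℝ → ℂ) (ρ : ℝ → ℝ) (n : ℕ) (g e : ℂ[X]) : Prop where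
  ov : Oval γ ρ
  hn : 1 ≤ n
  deg : g.natDegree = n
  ins : ∀ ζ, g.IsRoot ζ → Ins γ ζ
  pos : ∀ s : ℝ, 0 < (cexp (-(n * s * I)) * g.eval (γ s)).re
  p1 : P1 γ n g
  p2 : P2 γ n g e
  len : ∫ s in (0:ℝ)..(2 * Real.pi), ρ s * ‖g.eval (γ s)‖ ^ (-(1 / (n : ℝ))) = 2 * Real.pi

/-- a solution of `z'^n = i^n g(z)` on the set `S` (always used for open `S`) -/
def Sol (n : ℕ) (g : ℂ[X]) (z : ℂ → ℂ) (S : Set ℂ) : Prop :=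
  DifferentiableOn ℂ z S ∧ ∀ u ∈ S, (deriv z u) ^ n = I ^ n * g.eval (z u)

/-- `σ` is the uniformising parameter: `z = γ ∘ σ` satisfies `z' = i e^{iσ} |g(z)|^{1/n}`. -/
structure Par (γ : ℝ → ℂ) (n : ℕ) (g : ℂ[X]) (σ : ℝ → ℝ) : Prop where
  cont : Continuous σ
  per : ∀ x, σ (x + 2 * Real.pi) = σ x + 2 * Real.pi
  der : ∀ x : ℝ, HasDerivAt (fun t : ℝ => γ (σ t))
    (I * cexp (σ x * I) * ((‖g.eval (γ (σ x))‖ ^ (1 / (n : ℝ)) : ℝ) : ℂ)) x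

/-- horizontal strip `a < Im u < b` -/
def strip (a b : ℝ) : Set ℂ := {u : ℂ | a < u.im ∧ u.im < b}

/-- complex conjugate polynomial -/
noncomputable def cpol (g : ℂ[X]) : ℂ[X] := g.map (starRingEnd ℂ)

/-- reflected function `w(u) = conj (z (conj u))` -/
noncomputable def refl (z : ℂ → ℂ) : ℂ → ℂ := fun u => starRingEnd ℂ (z (starRingEnd ℂ u))

/-- the second identity, `g*(w)(w g'(z)+e(z)) z'^2 = g(z)(z g*'(w)+e*(w)) w'^2`, at the point `u` -/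
def Id2 (g e : ℂ[X]) (z w : ℂ → ℂ) (u : ℂ) : Prop :=
  (cpol g).eval (w u) * (w u * (derivative g).eval (z u) + e.eval (z u)) * (deriv z u) ^ 2
    = g.eval (z u) * (z u * (derivative (cpol g)).eval (w u) + (cpol e).eval (w u))
      * (deriv w u) ^ 2

/-- the curve is an ellipse, in parametric form -/
def EllP (γ : ℝ → ℂ) : Prop :=
  ∃ c A B : ℂ, ∀ x : ℂ, x ∈ Set.range γ ↔ ∃ ζ : ℂ, ‖ζ‖ = 1 ∧ x = c + A * ζ + B * ζ⁻¹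

/-- the curve is an ellipse, in implicit form (as in the frozen statement `S02713`) -/
def EllQ (γ : ℝ → ℂ) : Prop :=
  ∃ (c : ℂ) (a b d : ℝ), 0 < a ∧ 0 < a * d - b ^ 2 ∧
    Set.range γ = {x : ℂ | a * (x.re - c.re) ^ 2 + 2 * b * (x.re - c.re) * (x.im - c.im)
      + d * (x.im - c.im) ^ 2 = 1}

/-! ## Statements, part A: from the integral to `P1`, `P2` -/

/-- EV: every mode is real on the curve after rotation. -/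
def StEV : Prop := ∀ (γ : ℝ → ℂ) (ρ : ℝ → ℝ) (a : ℕ → ℝ → ℝ) (N : ℕ),
  Oval γ ρ → Coef a → Inv γ a N →
    ∀ (m : ℤ) (s : ℝ), (cexp (m * s * I) * Fm a N m (γ s)).im = 0

/-- DV: derivative of a mode along a curve. -/
def StDV : Prop := ∀ (a : ℕ → ℝ → ℝ) (N : ℕ), Coef a →
  ∀ (c c' : ℝ → ℂ), Continuous c' → (∀ s, HasDerivAt c (c' s) s) →
    ∀ (m : ℤ) (s : ℝ), HasDerivAt (fun t => Fm a (N + 1) m (c t))
      ((c' s * Fm (da a) N (m + 1) (c s) + starRingEnd ℂ (c' s) * Fm (da a) N (m - 1) (c s)) / 2) s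

/-- SP: a mode is a polynomial in `z`, `conj z` with the coefficients given by the Fourier
coefficients of the `a_j`. -/
def StSP : Prop := ∀ (a : ℕ → ℝ → ℝ) (N : ℕ), Coef a → ∀ (m : ℤ) (z : ℂ),
  Fm a N m z = ∑ j ∈ Finset.range (N + 1), ∑ l ∈ Finset.range (j + 1),
    (1 / 2 : ℂ) ^ j * (j.choose l : ℂ) * z ^ l * (starRingEnd ℂ z) ^ (j - l) *
      ∫ φ in (0:ℝ)..(2 * Real.pi), (a j φ : ℂ) * cexp (-((m + 2 * l - j) * φ * I))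

/-- NET: for large `|m|` the reality condition forces a polynomial to vanish on the curve. -/
def StNET : Prop := ∀ (γ : ℝ → ℂ) (ρ : ℝ → ℝ), Oval γ ρ → ∀ N : ℕ, ∃ M : ℕ, ∀ m : ℤ,
  (M : ℤ) ≤ |m| → ∀ C : ℕ → ℕ → ℂ,
    (∀ s : ℝ, (cexp (m * s * I) * pol C N (γ s)).im = 0) → ∀ s, pol C N (γ s) = 0

/-- CH: an infinite chain of rotated polynomials vanishes on the curve. -/
def StCH : Prop := ∀ (γ : ℝ → ℂ) (ρ : ℝ → ℝ), Oval γ ρ → ∀ (N : ℕ) (P : ℕ → ℕ → ℕ → ℂ),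
  (∀ (k : ℕ) (s : ℝ), pol (P k) N (γ s) = cexp (-(2 * k * s * I)) * pol (P 0) N (γ s)) →
    ∀ s, pol (P 0) N (γ s) = 0

/-- IND: if all high modes vanish on the curve they vanish identically. -/
def StIND : Prop := ∀ (γ : ℝ → ℂ) (ρ : ℝ → ℝ), Oval γ ρ → ∀ (N : ℕ) (a : ℕ → ℝ → ℝ), Coef a →
  ∀ M : ℤ, (∀ m : ℤ, M < m → ∀ s, Fm a N m (γ s) = 0) → ∀ m : ℤ, M < m → ∀ z, Fm a N m z = 0

/-- SUP: if the modes with `|m| > n` vanish identically then the `j`-th coefficient has no Fourier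
modes with `|k| > n - j`. -/
def StSUP : Prop := ∀ (N : ℕ) (a : ℕ → ℝ → ℝ), Coef a → ∀ n : ℤ,
  (∀ m : ℤ, n < |m| → ∀ z, Fm a N m z = 0) → ∀ j : ℕ, j ≤ N → ∀ k : ℤ, n - j < |k| →
    ∫ φ in (0:ℝ)..(2 * Real.pi), (a j φ : ℂ) * cexp (-(k * φ * I)) = 0

/-- MODE: the polynomials `g`, `e`. -/
def StMODE : Prop := ∀ (γ : ℝ → ℂ) (ρ : ℝ → ℝ) (a : ℕ → ℝ → ℝ) (N : ℕ),
  Oval γ ρ → Coef a → NonConst a N →
  (∀ (m : ℤ) (s : ℝ), (cexp (m * s * I) * Fm a N m (γ s)).im = 0) →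
  (∃ M : ℤ, ∀ m : ℤ, M < |m| → ∀ z, Fm a N m z = 0) →
    ∃ (n : ℕ) (g e : ℂ[X]), 1 ≤ n ∧ g ≠ 0 ∧ g.natDegree ≤ n ∧ P1 γ n g ∧ P2 γ n g e

/-- PA: part A. -/
def StPA : Prop := ∀ (γ : ℝ → ℂ) (ρ : ℝ → ℝ) (a : ℕ → ℝ → ℝ) (N : ℕ),
  Oval γ ρ → Coef a → NonConst a N → Inv γ a N →
    ∃ (n : ℕ) (g e : ℂ[X]), 1 ≤ n ∧ g ≠ 0 ∧ g.natDegree ≤ n ∧ P1 γ n g ∧ P2 γ n g e

/-- AN: with analytic coefficients invariance near the boundary is enough. -/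
def StAN : Prop := ∀ (γ : ℝ → ℂ) (a : ℕ → ℝ → ℝ) (N : ℕ),
  (∀ j, AnalyticOnNhd ℝ (a j) Set.univ) →
  (∀ s : ℝ, ∃ ε > 0, ∀ δ : ℝ, 0 < δ → δ < ε → Kf a N (γ s) (s + δ) = Kf a N (γ s) (s - δ)) →
    Inv γ a N

/-! ## Part B: zeros of `g` -/

/-- GEO: elementary support properties of an oval. -/
def StGEO : Prop := ∀ (γ : ℝ → ℂ) (ρ : ℝ → ℝ), Oval γ ρ →
  (∀ s t : ℝ, ((γ t - γ s) * cexp (-(s * I))).re ≤ 0) ∧
  (∀ s t : ℝ, (¬ ∃ k : ℤ, t = s + k * (2 * Real.pi)) →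
    ((γ t - γ s) * cexp (-(s * I))).re < 0) ∧
  (∀ ζ, ¬ Ins γ ζ → ¬ Out γ ζ → ∃ s : ℝ, ζ = γ s) ∧
  (∀ ζ, Out γ ζ → ¬ Ins γ ζ) ∧
  (∀ ζ, Out γ ζ → ∃ s : ℝ, ∀ t : ℝ, 0 < ((ζ - γ t) * cexp (-(s * I))).re) ∧
  (∀ s, ¬ Ins γ (γ s)) ∧ (∀ s, ¬ Out γ (γ s)) ∧
  IsClosed {x : ℂ | ¬ Ins γ x} ∧ IsOpen {x : ℂ | Out γ x}

/-- RAL: chord formula, `γ t - γ s = 2 i sin((t-s)/2) e^{i(t+s)/2} r(t)` with `Re r > 0`. -/
def StRAL : Prop := ∀ (γ : ℝ → ℂ) (ρ : ℝ → ℝ), Oval γ ρ → ∀ s : ℝ, ∃ r : ℝ → ℂ, Continuous r ∧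
  (∀ t, r (t + 2 * Real.pi) = r t) ∧ (∀ t, 0 < (r t).re) ∧
  ∀ t : ℝ, γ t - γ s = 2 * I * (Real.sin ((t - s) / 2) : ℂ) * cexp ((t + s) / 2 * I) * r t

/-- ROOT: `g` has degree exactly `n` and all its zeros are inside the oval. -/
def StROOT : Prop := ∀ (γ : ℝ → ℂ) (ρ : ℝ → ℝ), Oval γ ρ → ∀ (n : ℕ) (g : ℂ[X]), 1 ≤ n →
  g ≠ 0 → g.natDegree ≤ n → P1 γ n g → g.natDegree = n ∧ ∀ ζ, g.IsRoot ζ → Ins γ ζ

/-- NORM: normalisation of sign and scale. -/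
def StNORM : Prop := ∀ (γ : ℝ → ℂ) (ρ : ℝ → ℝ), Oval γ ρ → ∀ (n : ℕ) (g e : ℂ[X]), 1 ≤ n →
  g.natDegree = n → (∀ ζ, g.IsRoot ζ → Ins γ ζ) → P1 γ n g → P2 γ n g e →
    ∃ t : ℝ, t ≠ 0 ∧ Dat γ ρ n (C (t : ℂ) * g) (C (t : ℂ) * e)

/-- PAR: existence of the uniformising parameter. -/
def StPAR : Prop := ∀ (γ : ℝ → ℂ) (ρ : ℝ → ℝ) (n : ℕ) (g e : ℂ[X]), Dat γ ρ n g e →
  ∃ σ : ℝ → ℝ, Par γ n g σ

/-- CIRC: the case of a zero of multiplicity `n`. -/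
def StCIRC : Prop := ∀ (γ : ℝ → ℂ) (ρ : ℝ → ℝ) (n : ℕ) (g e : ℂ[X]), Dat γ ρ n g e →
  (∃ ζ, g.rootMultiplicity ζ = n) → EllP γ

/-! ## Part C: local and global continuation -/

/-- RF: a local `n`-th root of the regular part of `i^n g`. -/
def StRF : Prop := ∀ (n : ℕ) (g : ℂ[X]) (z0 : ℂ), 1 ≤ n → g ≠ 0 → ∃ r > 0, ∃ R : ℂ → ℂ,
  DifferentiableOn ℂ R (Metric.ball z0 r) ∧ ∀ x ∈ Metric.ball z0 r, R x ≠ 0 ∧
    I ^ n * g.eval x = (x - z0) ^ (g.rootMultiplicity z0) * (R x) ^ n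

/-- INV: quantitative holomorphic inverse function theorem. -/
def StINV : Prop := ∀ (U : ℂ → ℂ) (r : ℝ), 0 < r → DifferentiableOn ℂ U (Metric.ball 0 r) →
  deriv U 0 ≠ 0 → ∃ r1 > 0, ∃ r2 > 0, r2 ≤ r ∧ ∃ Y : ℂ → ℂ,
    DifferentiableOn ℂ Y (Metric.ball (U 0) r1) ∧
    (∀ v ∈ Metric.ball (U 0) r1, Y v ∈ Metric.ball 0 r ∧ U (Y v) = v) ∧
    (∀ y ∈ Metric.ball (0 : ℂ) r2, U y ∈ Metric.ball (U 0) r1 ∧ Y (U y) = y)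

/-- LE: local existence (uniform radius) near a point `z0` with `n - k ∣ n`, `k` the multiplicity
of `z0` as a zero of `g` (`k = 0` allowed). -/
def StLE : Prop := ∀ (n : ℕ) (g : ℂ[X]) (z0 : ℂ), 1 ≤ n → g ≠ 0 → g.rootMultiplicity z0 < n →
  (n - g.rootMultiplicity z0) ∣ n → ∃ r > 0, ∀ (u1 z1 d1 : ℂ), ‖z1 - z0‖ < r → g.eval z1 ≠ 0 →
    d1 ^ n = I ^ n * g.eval z1 →
      ∃ z : ℂ → ℂ, Sol n g z (Metric.ball u1 r) ∧ z u1 = z1 ∧ deriv z u1 = d1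

/-- LU: local uniqueness, complex variable. -/
def StLU : Prop := ∀ (n : ℕ) (g : ℂ[X]) (u1 : ℂ) (z y : ℂ → ℂ), 1 ≤ n →
  (∀ᶠ u in 𝓝 u1, DifferentiableAt ℂ z u ∧ (deriv z u) ^ n = I ^ n * g.eval (z u)) →
  (∀ᶠ u in 𝓝 u1, DifferentiableAt ℂ y u ∧ (deriv y u) ^ n = I ^ n * g.eval (y u)) →
  z u1 = y u1 → deriv z u1 = deriv y u1 → g.eval (z u1) ≠ 0 → z =ᶠ[𝓝 u1] y

/-- LUR: local uniqueness, real variable. -/
def StLUR : Prop := ∀ (n : ℕ) (g : ℂ[X]) (x1 : ℝ) (z y z' y' : ℝ → ℂ), 1 ≤ n →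
  (∀ᶠ x in 𝓝 x1, HasDerivAt z (z' x) x ∧ (z' x) ^ n = I ^ n * g.eval (z x)) →
  (∀ᶠ x in 𝓝 x1, HasDerivAt y (y' x) x ∧ (y' x) ^ n = I ^ n * g.eval (y x)) →
  ContinuousAt z' x1 → ContinuousAt y' x1 →
  z x1 = y x1 → z' x1 = y' x1 → g.eval (z x1) ≠ 0 → z =ᶠ[𝓝 x1] y

/-- EXT: a local solution with the same initial data extends the given one. -/
def StEXT : Prop := ∀ (n : ℕ) (g : ℂ[X]) (u1 : ℂ) (z y : ℂ → ℂ) (a b r : ℝ), 1 ≤ n → 0 < r →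
  Sol n g z (strip a b) → u1 ∈ strip a b → g.eval (z u1) ≠ 0 → Sol n g y (Metric.ball u1 r) →
  y u1 = z u1 → deriv y u1 = deriv z u1 → ∀ u ∈ Metric.ball u1 r, u ∈ strip a b → y u = z u

/-- SOLX: the differential equation propagates (identity theorem). -/
def StSOLX : Prop := ∀ (n : ℕ) (g : ℂ[X]) (z : ℂ → ℂ) (a b a' b' : ℝ), a ≤ a' → a' < b' → b' ≤ b →
  DifferentiableOn ℂ z (strip a b) → Sol n g z (strip a' b') → Sol n g z (strip a b)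

/-- UNIF: uniform local existence over a compact set of good points. -/
def StUNIF : Prop := ∀ (n : ℕ) (g : ℂ[X]) (K : Set ℂ), 1 ≤ n → g ≠ 0 → IsCompact K →
  (∀ z0 ∈ K, g.rootMultiplicity z0 < n ∧ (n - g.rootMultiplicity z0) ∣ n) →
  ∃ r > 0, ∀ (u1 z1 d1 : ℂ), z1 ∈ K → g.eval z1 ≠ 0 → d1 ^ n = I ^ n * g.eval z1 →
      ∃ z : ℂ → ℂ, Sol n g z (Metric.ball u1 r) ∧ z u1 = z1 ∧ deriv z u1 = d1

/-- GLUE: gluing along the upper boundary line of a strip. -/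
def StGLUE : Prop := ∀ (a b r : ℝ) (z : ℂ → ℂ), a < b → 0 < r →
  DifferentiableOn ℂ z (strip a b) →
  (∀ x : ℝ, ∃ E : ℂ → ℂ, DifferentiableOn ℂ E (Metric.ball (x + b * I) r) ∧
    ∀ u ∈ Metric.ball ((x : ℂ) + b * I) r, u ∈ strip a b → E u = z u) →
  ∃ y : ℂ → ℂ, DifferentiableOn ℂ y (strip a (b + r)) ∧ EqOn y z (strip a b)

/-- GLUD: the same along the lower boundary line. -/
def StGLUD : Prop := ∀ (a b r : ℝ) (z : ℂ → ℂ), a < b → 0 < r →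
  DifferentiableOn ℂ z (strip a b) →
  (∀ x : ℝ, ∃ E : ℂ → ℂ, DifferentiableOn ℂ E (Metric.ball (x + a * I) r) ∧
    ∀ u ∈ Metric.ball ((x : ℂ) + a * I) r, u ∈ strip a b → E u = z u) →
  ∃ y : ℂ → ℂ, DifferentiableOn ℂ y (strip (a - r) b) ∧ EqOn y z (strip a b)

/-- STRIP: the curve extends to a solution on a thin strip, without zeros of `g`. -/
def StSTRIP : Prop := ∀ (γ : ℝ → ℂ) (ρ : ℝ → ℝ) (n : ℕ) (g e : ℂ[X]) (σ : ℝ → ℝ),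
  Dat γ ρ n g e → Par γ n g σ → ∃ c > 0, ∃ z : ℂ → ℂ, Sol n g z (strip (-c) c) ∧
    (∀ x : ℝ, z x = γ (σ x)) ∧ ∀ u ∈ strip (-c) c, g.eval (z u) ≠ 0

/-- GROW: exponential growth of solutions. -/
def StGROW : Prop := ∀ (n : ℕ) (g : ℂ[X]), 1 ≤ n → g.natDegree ≤ n → ∃ A > 0,
  ∀ (a b : ℝ) (z : ℂ → ℂ), a < 0 → 0 < b → Sol n g z (strip a b) →
    ∀ u ∈ strip a b, ‖z u‖ + 1 ≤ (‖z (u.re : ℂ)‖ + 1) * Real.exp (A * |u.im|)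

/-- BR: a continuous branch of `(i^n g)^{1/n}` outside the oval. -/
def StBR : Prop := ∀ (γ : ℝ → ℂ) (ρ : ℝ → ℝ) (n : ℕ) (g e : ℂ[X]), Dat γ ρ n g e →
  ∃ Φ : ℂ → ℂ, ContinuousOn Φ {x | ¬ Ins γ x} ∧
    (∀ x, ¬ Ins γ x → (Φ x) ^ n = I ^ n * g.eval x) ∧
    ∀ s : ℝ, Φ (γ s) = I * cexp (s * I) * ((‖g.eval (γ s)‖ ^ (1 / (n : ℝ)) : ℝ) : ℂ)

/-- STAY: below the real line the solution stays strictly outside. -/
def StSTAY : Prop := ∀ (γ : ℝ → ℂ) (ρ : ℝ → ℝ) (n : ℕ) (g e : ℂ[X]) (σ : ℝ → ℝ) (c c' : ℝ)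
  (z : ℂ → ℂ), Dat γ ρ n g e → Par γ n g σ → 0 < c → 0 < c' → Sol n g z (strip (-c) c') →
  (∀ x : ℝ, z x = γ (σ x)) → ∀ u : ℂ, -c < u.im → u.im < 0 → Out γ (z u)

/-- DOWN: continuation to arbitrarily deep strips below. -/
def StDOWN : Prop := ∀ (γ : ℝ → ℂ) (ρ : ℝ → ℝ) (n : ℕ) (g e : ℂ[X]) (σ : ℝ → ℝ),
  Dat γ ρ n g e → Par γ n g σ → ∃ c > 0, ∀ D > 0, ∃ z : ℂ → ℂ, Sol n g z (strip (-D) c) ∧
    (∀ x : ℝ, z x = γ (σ x)) ∧ (∀ u ∈ strip (-D) c, g.eval (z u) ≠ 0)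

/-- BADX: the local computation excluding bad zeros (in the uniformising coordinate `x`,
`z = z0 + x^n`, `u - u0 = U x`, `P = n - k`). -/
def StBADX : Prop := ∀ (n k P : ℕ) (g e : ℂ[X]) (z0 : ℂ) (U V T W : ℂ → ℂ),
  k + P = n → 1 ≤ k → 1 ≤ P → ¬ P ∣ n → g ≠ 0 → g.rootMultiplicity z0 = k →
  AnalyticAt ℂ V 0 → V 0 ≠ 0 → (∀ᶠ x in 𝓝 (0 : ℂ), U x = x ^ P * V x) →
  (∀ θ : ℂ, θ ^ n = 1 → ∀ᶠ x in 𝓝 (0 : ℂ), U (θ * x) = θ ^ P * U x) →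
  ContinuousAt T 0 → T 0 ≠ 0 →
  (∀ θ : ℂ, θ ^ n = 1 → ∀ᶠ x in 𝓝 (0 : ℂ), T (θ * x) = T x) →
  AnalyticAt ℂ W 0 → (cpol g).eval (W 0) ≠ 0 → deriv W 0 ≠ 0 →
  (∀ᶠ x in 𝓝 (0 : ℂ), (cpol g).eval (W (U x)) *
      (W (U x) * (derivative g).eval (z0 + x ^ n) + e.eval (z0 + x ^ n)) * (x ^ (2 * k) * T x)
    = g.eval (z0 + x ^ n) * ((z0 + x ^ n) * (derivative (cpol g)).eval (W (U x))
      + (cpol e).eval (W (U x))) * (deriv W (U x)) ^ 2) → False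

/-- BAD: a zero `z0` of multiplicity `k < n` with `n - k ∤ n` is never approached at a place where
`w` is regular. -/
def StBAD : Prop := ∀ (n : ℕ) (g e : ℂ[X]) (z0 : ℂ), 1 ≤ n → g ≠ 0 →
  g.rootMultiplicity z0 < n → ¬ (n - g.rootMultiplicity z0) ∣ n → ∀ R > 0, ∃ ε > 0,
  ∀ (u1 : ℂ) (z w : ℂ → ℂ),
    (∀ᶠ u in 𝓝 u1, DifferentiableAt ℂ z u ∧ (deriv z u) ^ n = I ^ n * g.eval (z u)) →
    g.eval (z u1) ≠ 0 → ‖z u1 - z0‖ < ε →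
    DifferentiableOn ℂ w (Metric.ball u1 R) →
    (∀ u ∈ Metric.ball u1 R, (cpol g).eval (w u) ≠ 0 ∧ deriv w u ≠ 0) →
    (∀ᶠ u in 𝓝 u1, Id2 g e z w u) → False

/-- IDE: the second identity on the common domain. -/
def StIDE : Prop := ∀ (γ : ℝ → ℂ) (ρ : ℝ → ℝ) (n : ℕ) (g e : ℂ[X]) (σ : ℝ → ℝ) (c b D : ℝ)
  (z y : ℂ → ℂ), Dat γ ρ n g e → Par γ n g σ → 0 < c → 0 < b → b ≤ D →
  Sol n g z (strip (-c) b) → Sol n g y (strip (-D) c) →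
  (∀ x : ℝ, z x = γ (σ x)) → (∀ x : ℝ, y x = γ (σ x)) →
    ∀ u ∈ strip (-c) b, Id2 g e z (refl y) u

/-- UP: continuation to arbitrarily wide strips. -/
def StUP : Prop := ∀ (γ : ℝ → ℂ) (ρ : ℝ → ℝ) (n : ℕ) (g e : ℂ[X]) (σ : ℝ → ℝ),
  Dat γ ρ n g e → Par γ n g σ → (∀ ζ, g.rootMultiplicity ζ < n) → ∀ D > 0, ∃ z : ℂ → ℂ,
    Sol n g z (strip (-D) D) ∧ ∀ x : ℝ, z x = γ (σ x)

/-! ## Part D: conclusion -/

/-- FOUR: bounded exponential growth gives a trigonometric polynomial. -/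
def StFOUR : Prop := ∀ (f : ℝ → ℂ) (A B : ℝ), Continuous f → (∀ x, f (x + 2 * Real.pi) = f x) →
  (∀ D > 0, ∃ z : ℂ → ℂ, DifferentiableOn ℂ z (strip (-D) D) ∧ (∀ x : ℝ, z x = f x) ∧
    ∀ u ∈ strip (-D) D, ‖z u‖ ≤ B * Real.exp (A * |u.im|)) →
  ∃ (M : ℕ) (c : ℤ → ℂ), ∀ x : ℝ, f x = ∑ j ∈ Finset.Icc (-(M : ℤ)) M, c j * cexp (j * x * I)

/-- ALG: trigonometric polynomial solutions of `z'^n = i^n g(z)`, `deg g = n`. -/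
def StALG : Prop := ∀ (n : ℕ) (g : ℂ[X]) (f f' : ℝ → ℂ) (M : ℕ) (c : ℤ → ℂ), 1 ≤ n →
  g.natDegree = n → (∀ x : ℝ, f x = ∑ j ∈ Finset.Icc (-(M : ℤ)) M, c j * cexp (j * x * I)) →
  (∀ x, HasDerivAt f (f' x) x) → (∀ x, (f' x) ^ n = I ^ n * g.eval (f x)) →
  (∃ x y, f x ≠ f y) →
  ∃ (c0 A B : ℂ) (L : ℤ), L ≠ 0 ∧ ∀ x : ℝ, f x = c0 + A * cexp (L * x * I) + B * cexp (-(L * x * I))

/-- ELL: parametric form implies implicit form. -/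
def StELL : Prop := ∀ (γ : ℝ → ℂ) (ρ : ℝ → ℝ), Oval γ ρ → EllP γ → EllQ γ

/-- PB: part B-D together. -/
def StPB : Prop := ∀ (γ : ℝ → ℂ) (ρ : ℝ → ℝ) (n : ℕ) (g e : ℂ[X]), Oval γ ρ → 1 ≤ n → g ≠ 0 →
  g.natDegree ≤ n → P1 γ n g → P2 γ n g e → EllP γ

/-- final theorem, near the boundary, analytic coefficients -/
def StMainNear : Prop := ∀ (γ : ℝ → ℂ) (ρ : ℝ → ℝ) (a : ℕ → ℝ → ℝ) (N : ℕ),
  Oval γ ρ → Coef a → (∀ j, AnalyticOnNhd ℝ (a j) Set.univ) → NonConst a N →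
  (∀ s : ℝ, ∃ ε > 0, ∀ δ : ℝ, 0 < δ → δ < ε → Kf a N (γ s) (s + δ) = Kf a N (γ s) (s - δ)) →
    EllQ γ

/-- final theorem, whole phase space -/
def StMain : Prop := ∀ (γ : ℝ → ℂ) (ρ : ℝ → ℝ) (a : ℕ → ℝ → ℝ) (N : ℕ),
  Oval γ ρ → Coef a → NonConst a N → Inv γ a N → EllQ γ

end H738PI
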