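import Pool.Agent.H738R2.PI.Defs

open Complex Set Filter Topology Polynomial

namespace H738PI

lemma ELL_inv (ζ : ℂ) (h : ‖ζ‖ = 1) : ζ⁻¹ = starRingEnd ℂ ζ := by
  have h1 : ζ * starRingEnd ℂ ζ = 1 := by
    rw [Complex.mul_conj, Complex.normSq_eq_norm_sq, h]; norm_num
  exact inv_eq_of_mul_eq_one_right h1

lemma ELL_deg (A B : ℂ) (h : ‖A‖ = ‖B‖) :
    ∃ w : ℂ, w ≠ 0 ∧ ∀ ζ : ℂ, ‖ζ‖ = 1 → ((A * ζ + B * ζ⁻¹) * starRingEnd ℂ w).im = 0 := by
  by_cases hA : A = 0
  · subst hA
    have hB : B = 0 := by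
      rw [norm_zero] at h
      exact norm_eq_zero.mp h.symm
    subst hB
    exact ⟨1, one_ne_zero, fun ζ _ => by simp⟩
  · have hA' : starRingEnd ℂ A ≠ 0 := by simpa using hA
    have hB : B ≠ 0 := by
      intro hB
      rw [hB, norm_zero] at h
      exact hA (norm_eq_zero.mp h)
    obtain ⟨w, hw⟩ := IsAlgClosed.exists_pow_nat_eq (B / starRingEnd ℂ A) (n := 2) (by norm_num)
    have hwn : ‖w‖ = 1 := by
      have h1 : ‖w‖ ^ 2 = 1 := by
        rw [← norm_pow, hw, norm_div, RCLike.norm_conj, h]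
        exact div_self (by rw [Ne, norm_eq_zero]; exact hB)
      have h2 : 0 ≤ ‖w‖ := norm_nonneg w
      nlinarith
    have hww : w * starRingEnd ℂ w = 1 := by
      rw [Complex.mul_conj, Complex.normSq_eq_norm_sq, hwn]; norm_num
    have hBw : B * starRingEnd ℂ w = starRingEnd ℂ A * w := by
      have h1 : B = starRingEnd ℂ A * w ^ 2 := by
        rw [hw]; field_simp
      rw [h1]
      calc starRingEnd ℂ A * w ^ 2 * starRingEnd ℂ w
          = starRingEnd ℂ A * w * (w * starRingEnd ℂ w) := by ring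
        _ = _ := by rw [hww, mul_one]
    refine ⟨w, ?_, ?_⟩
    · intro h0
      rw [h0, norm_zero] at hwn
      exact zero_ne_one hwn
    · intro ζ hζ
      have h1 : (A * ζ + B * ζ⁻¹) * starRingEnd ℂ w =
          A * starRingEnd ℂ w * ζ + starRingEnd ℂ (A * starRingEnd ℂ w * ζ) := by
        rw [ELL_inv ζ hζ]
        simp only [map_mul, Complex.conj_conj]
        linear_combination (starRingEnd ℂ ζ) * hBw
      rw [h1, Complex.add_conj]
      simp

lemma ELL_ne (γ : ℝ → ℂ) (ρ : ℝ → ℝ) (hO : Oval γ ρ) (c w : ℂ) (hw : w ≠ 0)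
    (h : ∀ s, ((γ s - c) * starRingEnd ℂ w).im = 0) : False := by
  have key : ∀ s : ℝ, ((ρ s : ℂ) * I * cexp (s * I) * starRingEnd ℂ w).im = 0 := by
    intro s
    have h1 : HasDerivAt (fun t => (γ t - c) * starRingEnd ℂ w)
        ((ρ s : ℂ) * I * cexp (s * I) * starRingEnd ℂ w) s :=
      ((hO.der s).sub_const c).mul_const _
    have h2 : HasDerivAt (fun t => ((γ t - c) * starRingEnd ℂ w).im)
        ((ρ s : ℂ) * I * cexp (s * I) * starRingEnd ℂ w).im s :=
      Complex.imCLM.hasFDerivAt.comp_hasDerivAt s h1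
    have h3 : (fun t => ((γ t - c) * starRingEnd ℂ w).im) = fun _ => 0 := funext h
    rw [h3] at h2
    exact h2.unique (hasDerivAt_const s (0:ℝ))
  have k0 := key 0
  have k1 := key (Real.pi / 2)
  have p0 := hO.pos 0
  have p1 := hO.pos (Real.pi / 2)
  have e0 : cexp (((0:ℝ) : ℂ) * I) = 1 := by simp
  have e1 : cexp (((Real.pi / 2 : ℝ) : ℂ) * I) = I := by
    push_cast
    exact Complex.exp_pi_div_two_mul_I
  rw [e0] at k0
  rw [e1] at k1
  simp at k0 k1
  have r0 : w.re = 0 := by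
    rcases k0 with h | h
    · linarith
    · exact h
  have r1 : w.im = 0 := by
    rcases k1 with h | h
    · linarith
    · exact h
  exact hw (Complex.ext r0 r1)

theorem tELL : StELL := by
  intro γ ρ hO ⟨c, A, B, hAB⟩
  have hne : ‖A‖ ≠ ‖B‖ := by
    intro h
    obtain ⟨w, hw, hz⟩ := ELL_deg A B h
    refine ELL_ne γ ρ hO c w hw fun s => ?_
    obtain ⟨ζ, hζ, hx⟩ := (hAB (γ s)).1 ⟨s, rfl⟩
    rw [hx, show c + A * ζ + B * ζ⁻¹ - c = A * ζ + B * ζ⁻¹ by ring]
    exact hz ζ hζ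
  set S : ℝ := ‖A‖ ^ 2 + ‖B‖ ^ 2 with hS
  set T : ℝ := ‖A‖ ^ 2 - ‖B‖ ^ 2 with hT
  have hT0 : T ≠ 0 := by
    intro h
    apply hne
    have : ‖A‖ ^ 2 = ‖B‖ ^ 2 := by linarith
    exact (sq_eq_sq₀ (norm_nonneg _) (norm_nonneg _)).1 this
  have hD : 0 < T ^ 2 := by positivity
  have hA2 : ‖A‖ ^ 2 = A.re ^ 2 + A.im ^ 2 := by
    rw [← Complex.normSq_eq_norm_sq, Complex.normSq_apply]; ring
  have hB2 : ‖B‖ ^ 2 = B.re ^ 2 + B.im ^ 2 := by
    rw [← Complex.normSq_eq_norm_sq, Complex.normSq_apply]; ring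
  have hmain : ∀ x : ℂ, (∃ ζ : ℂ, ‖ζ‖ = 1 ∧ x = c + A * ζ + B * ζ⁻¹) ↔
      (S - 2 * (A * B).re) * (x.re - c.re) ^ 2 - 4 * (A * B).im * (x.re - c.re) * (x.im - c.im)
        + (S + 2 * (A * B).re) * (x.im - c.im) ^ 2 = T ^ 2 := by
    intro x
    set y : ℂ := x - c with hy
    have hyr : x.re - c.re = y.re := by simp [hy]
    have hyi : x.im - c.im = y.im := by simp [hy]
    rw [hyr, hyi]
    have hn : ‖starRingEnd ℂ A * y - B * starRingEnd ℂ y‖ ^ 2 =
        (S - 2 * (A * B).re) * y.re ^ 2 - 4 * (A * B).im * y.re * y.im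
        + (S + 2 * (A * B).re) * y.im ^ 2 := by
      rw [← Complex.normSq_eq_norm_sq, Complex.normSq_apply, hS, hA2, hB2]
      simp
      ring
    rw [← hn]
    constructor
    · rintro ⟨ζ, hζ, hx⟩
      have h1 : starRingEnd ℂ A * y - B * starRingEnd ℂ y = (T : ℂ) * ζ := by
        have hyy : y = A * ζ + B * starRingEnd ℂ ζ := by
          rw [hy, hx, ELL_inv ζ hζ]; ring
        have hTc : (T : ℂ) = A * starRingEnd ℂ A - B * starRingEnd ℂ B := by
          rw [Complex.mul_conj, Complex.mul_conj, Complex.normSq_eq_norm_sq,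
            Complex.normSq_eq_norm_sq, hT]
          push_cast; ring
        rw [hyy, hTc]
        simp only [map_add, map_mul, Complex.conj_conj]
        ring
      rw [h1, norm_mul, hζ, mul_one, Complex.norm_real, Real.norm_eq_abs, sq_abs]
    · intro h
      refine ⟨(starRingEnd ℂ A * y - B * starRingEnd ℂ y) / (T : ℂ), ?_, ?_⟩
      · rw [norm_div, Complex.norm_real, Real.norm_eq_abs]
        have h2 : ‖starRingEnd ℂ A * y - B * starRingEnd ℂ y‖ = |T| := by
          rw [← abs_of_nonneg (norm_nonneg (starRingEnd ℂ A * y - B * starRingEnd ℂ y))]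
          exact (sq_eq_sq_iff_abs_eq_abs _ _).1 h
        rw [h2]
        exact div_self (abs_ne_zero.2 hT0)
      · have hT0' : (T : ℂ) ≠ 0 := by exact_mod_cast hT0
        have hTc : (T : ℂ) = A * starRingEnd ℂ A - B * starRingEnd ℂ B := by
          rw [Complex.mul_conj, Complex.mul_conj, Complex.normSq_eq_norm_sq,
            Complex.normSq_eq_norm_sq, hT]
          push_cast; ring
        rw [ELL_inv]
        · simp only [map_sub, map_mul, map_div₀, Complex.conj_conj, Complex.conj_ofReal]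
          field_simp
          rw [hTc]
          have : x = y + c := by rw [hy]; ring
          rw [this]
          ring
        · rw [norm_div, Complex.norm_real, Real.norm_eq_abs]
          have h2 : ‖starRingEnd ℂ A * y - B * starRingEnd ℂ y‖ = |T| := by
            rw [← abs_of_nonneg (norm_nonneg (starRingEnd ℂ A * y - B * starRingEnd ℂ y))]
            exact (sq_eq_sq_iff_abs_eq_abs _ _).1 h
          rw [h2]
          exact div_self (abs_ne_zero.2 hT0)
  have hab : (A * B).re ^ 2 + (A * B).im ^ 2 = ‖A‖ ^ 2 * ‖B‖ ^ 2 := by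
    have : ‖A * B‖ ^ 2 = (A * B).re ^ 2 + (A * B).im ^ 2 := by
      rw [← Complex.normSq_eq_norm_sq, Complex.normSq_apply]; ring
    rw [← this, norm_mul]; ring
  have hdet : S ^ 2 - 4 * ((A * B).re ^ 2 + (A * B).im ^ 2) = T ^ 2 := by
    rw [hab, hS, hT]; ring
  refine ⟨c, (S - 2 * (A * B).re) / T ^ 2, -2 * (A * B).im / T ^ 2,
    (S + 2 * (A * B).re) / T ^ 2, ?_, ?_, ?_⟩
  · apply div_pos _ hD
    have h1 : 0 < (S - 2 * (A * B).re) * (S + 2 * (A * B).re) := by
      nlinarith [sq_nonneg (A * B).im]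
    have h2 : 0 ≤ S := by rw [hS]; positivity
    by_contra hcon
    push Not at hcon
    nlinarith
  · have : (S - 2 * (A * B).re) / T ^ 2 * ((S + 2 * (A * B).re) / T ^ 2) -
        (-2 * (A * B).im / T ^ 2) ^ 2 = T ^ 2 / (T ^ 2 * T ^ 2) := by
      field_simp
      linarith
    rw [this]
    positivity
  · ext x
    rw [hAB x, hmain x, Set.mem_ofPred_eq]
    constructor
    · intro h
      field_simp
      linarith
    · intro h
      field_simp at h
      linarith

end H738PI
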