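import Pool.Agent.H738R2.PI.Defs

open Complex Set Filter Topology Polynomial

namespace H738PI

theorem EV_cont {a : ℕ → ℝ → ℝ} {N : ℕ} (ha : Coef a) (z : ℂ) : Continuous (Kf a N z) := by
  unfold Kf
  refine continuous_finsetSum _ fun j _ => ?_
  have h1 : Continuous fun φ : ℝ => (z * cexp (-(φ * I))).re := by fun_prop
  exact (ha.cont j).mul (h1.pow j)

theorem EV_per {a : ℕ → ℝ → ℝ} {N : ℕ} (ha : Coef a) (z : ℂ) (φ : ℝ) :
    Kf a N z (φ + 2 * Real.pi) = Kf a N z φ := by
  unfold Kf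
  have h1 : cexp (-(((φ + 2 * Real.pi : ℝ) : ℂ) * I)) = cexp (-((φ : ℂ) * I)) := by
    have e : -(((φ + 2 * Real.pi : ℝ) : ℂ) * I) = -((φ : ℂ) * I) - 2 * Real.pi * I := by
      push_cast
      ring
    rw [e, Complex.exp_sub, Complex.exp_two_pi_mul_I, div_one]
  refine Finset.sum_congr rfl fun j _ => ?_
  rw [ha.per, h1]

theorem EV_sym {γ : ℝ → ℂ} {a : ℕ → ℝ → ℝ} {N : ℕ} (ha : Coef a) (hI : Inv γ a N) (s d : ℝ)
    (h1 : -Real.pi ≤ d) (h2 : d ≤ Real.pi) :
    Kf a N (γ s) (s + d) = Kf a N (γ s) (s - d) := by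
  have hper : Kf a N (γ s) (s + Real.pi) = Kf a N (γ s) (s - Real.pi) := by
    have h := EV_per (N := N) ha (γ s) (s - Real.pi)
    have e : s - Real.pi + 2 * Real.pi = s + Real.pi := by ring
    rw [e] at h
    exact h
  rcases lt_trichotomy d 0 with hd | hd | hd
  · rcases h1.eq_or_lt with h | h
    · rw [← h]
      have e1 : s + -Real.pi = s - Real.pi := by ring
      have e2 : s - -Real.pi = s + Real.pi := by ring
      rw [e1, e2, hper]
    · have h3 := hI s (-d) (by linarith) (by linarith)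
      have e1 : s + -d = s - d := by ring
      have e2 : s - -d = s + d := by ring
      rw [e1, e2] at h3
      exact h3.symm
  · rw [hd, add_zero, sub_zero]
  · rcases h2.eq_or_lt with h | h
    · rw [h, hper]
    · exact hI s d hd h

theorem EV_im (x y : ℝ) : ((x : ℂ) * cexp (-((y : ℂ) * I))).im = -(x * Real.sin y) := by
  have h : -((y : ℂ) * I) = ((-y : ℝ) : ℂ) * I := by push_cast; ring
  rw [h, Complex.im_ofReal_mul, Complex.exp_ofReal_mul_I_im, Real.sin_neg]
  ring

/-- EV -/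
theorem tEV : StEV := by
  intro γ ρ a N _ ha hI m s
  set k : ℝ → ℝ := Kf a N (γ s) with hk
  have hkc : Continuous k := EV_cont ha (γ s)
  have hkp : ∀ φ, k (φ + 2 * Real.pi) = k φ := EV_per ha (γ s)
  -- the integrand after rotation
  have h1 : cexp (m * s * I) * Fm a N m (γ s) =
      ∫ φ in (0:ℝ)..(2 * Real.pi), (k φ : ℂ) * cexp (-(((m * (φ - s) : ℝ) : ℂ) * I)) := by
    unfold Fm
    rw [← intervalIntegral.integral_const_mul]
    congr 1
    funext φ
    rw [mul_left_comm, ← Complex.exp_add]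
    congr 2
    push_cast
    ring
  have hint : Continuous fun φ : ℝ => (k φ : ℂ) * cexp (-(((m * (φ - s) : ℝ) : ℂ) * I)) := by
    have h2 : Continuous fun φ : ℝ => (k φ : ℂ) := Complex.continuous_ofReal.comp hkc
    have h3 : Continuous fun φ : ℝ => cexp (-(((m * (φ - s) : ℝ) : ℂ) * I)) := by fun_prop
    exact h2.mul h3
  rw [h1]
  have h4 := Complex.imCLM.intervalIntegral_comp_comm (μ := MeasureTheory.volume) (hint.intervalIntegrable 0 (2 * Real.pi))
  have h5 : Complex.imCLM (∫ φ in (0:ℝ)..(2 * Real.pi),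
      (k φ : ℂ) * cexp (-(((m * (φ - s) : ℝ) : ℂ) * I))) =
      (∫ φ in (0:ℝ)..(2 * Real.pi), (k φ : ℂ) * cexp (-(((m * (φ - s) : ℝ) : ℂ) * I))).im := rfl
  rw [← h5, ← h4]
  have h6 : (fun φ : ℝ => Complex.imCLM ((k φ : ℂ) * cexp (-(((m * (φ - s) : ℝ) : ℂ) * I)))) =
      fun φ : ℝ => -(k φ * Real.sin (m * (φ - s))) := by
    funext φ
    exact EV_im _ _
  rw [h6]
  set f : ℝ → ℝ := fun φ => -(k φ * Real.sin (m * (φ - s))) with hf
  have hfp : Function.Periodic f (2 * Real.pi) := by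
    intro φ
    rw [hf]
    show -(k (φ + 2 * Real.pi) * Real.sin (m * (φ + 2 * Real.pi - s))) =
      -(k φ * Real.sin (m * (φ - s)))
    have e : (m : ℝ) * (φ + 2 * Real.pi - s) = m * (φ - s) + m * (2 * Real.pi) := by ring
    rw [hkp, e, Real.sin_add_int_mul_two_pi]
  have h7 : ∫ φ in (0:ℝ)..(2 * Real.pi), f φ = ∫ φ in (s - Real.pi)..(s + Real.pi), f φ := by
    have h8 := hfp.intervalIntegral_add_eq 0 (s - Real.pi)
    rw [zero_add] at h8
    have e : s - Real.pi + 2 * Real.pi = s + Real.pi := by ring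
    rw [e] at h8
    exact h8
  have h9 : ∫ φ in (s - Real.pi)..(s + Real.pi), f φ = ∫ d in (-Real.pi)..Real.pi, f (s + d) := by
    rw [intervalIntegral.integral_comp_add_left]
    congr 1
  rw [h7, h9]
  have hodd : ∀ d ∈ Set.uIcc (-Real.pi) Real.pi, f (s + -d) = -f (s + d) := by
    intro d hd
    rw [Set.uIcc_of_le (by linarith [Real.pi_pos])] at hd
    rw [hf]
    show -(k (s + -d) * Real.sin (m * (s + -d - s))) = - -(k (s + d) * Real.sin (m * (s + d - s)))
    have e1 : (m : ℝ) * (s + -d - s) = -(m * d) := by ring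
    have e2 : (m : ℝ) * (s + d - s) = m * d := by ring
    have e3 : s + -d = s - d := by ring
    rw [e1, e2, e3, Real.sin_neg, hk, ← EV_sym ha hI s d hd.1 hd.2]
    ring
  have h10 : ∫ d in (-Real.pi)..Real.pi, f (s + -d) = ∫ d in (-Real.pi)..Real.pi, f (s + d) := by
    have h11 := intervalIntegral.integral_comp_neg (a := -Real.pi) (b := Real.pi)
      (fun d => f (s + d))
    rw [neg_neg] at h11
    exact h11
  have h12 : ∫ d in (-Real.pi)..Real.pi, f (s + -d) = -∫ d in (-Real.pi)..Real.pi, f (s + d) := by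
    rw [intervalIntegral.integral_congr hodd, intervalIntegral.integral_neg]
  linarith [h10, h12]

end H738PI
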