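import Pool.Agent.H738R2.PI.Defs

open Complex Set Filter Topology Polynomial

namespace H738PI

lemma EXT_open (a b : ℝ) : IsOpen (strip a b) :=
  (isOpen_lt continuous_const Complex.continuous_im).inter
    (isOpen_lt Complex.continuous_im continuous_const)

lemma EXT_convex (a b : ℝ) : Convex ℝ (strip a b) :=
  (convex_halfSpace_im_gt a).inter (convex_halfSpace_im_lt b)

theorem tEXT (hLU : StLU) : StEXT := by
  intro n g u1 z y a b r hn hr hz hu1 hg hy h0 h1
  have hU : IsOpen (Metric.ball u1 r ∩ strip a b) := Metric.isOpen_ball.inter (EXT_open a b)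
  have hpre : IsPreconnected (Metric.ball u1 r ∩ strip a b) :=
    ((convex_ball u1 r).inter (EXT_convex a b)).isPreconnected
  have hzA : AnalyticOnNhd ℂ z (Metric.ball u1 r ∩ strip a b) :=
    (hz.1.mono inter_subset_right).analyticOnNhd hU
  have hyA : AnalyticOnNhd ℂ y (Metric.ball u1 r ∩ strip a b) :=
    (hy.1.mono inter_subset_left).analyticOnNhd hU
  have hmem : u1 ∈ Metric.ball u1 r ∩ strip a b := ⟨Metric.mem_ball_self hr, hu1⟩
  have ez : ∀ᶠ u in 𝓝 u1, DifferentiableAt ℂ z u ∧ (deriv z u) ^ n = I ^ n * g.eval (z u) := by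
    filter_upwards [(EXT_open a b).mem_nhds hu1] with u hu
    exact ⟨hz.1.differentiableAt ((EXT_open a b).mem_nhds hu), hz.2 u hu⟩
  have ey : ∀ᶠ u in 𝓝 u1, DifferentiableAt ℂ y u ∧ (deriv y u) ^ n = I ^ n * g.eval (y u) := by
    filter_upwards [Metric.isOpen_ball.mem_nhds (Metric.mem_ball_self hr)] with u hu
    exact ⟨hy.1.differentiableAt (Metric.isOpen_ball.mem_nhds hu), hy.2 u hu⟩
  have hev : y =ᶠ[𝓝 u1] z := hLU n g u1 y z hn ey ez h0 h1 (by rw [h0]; exact hg)
  have := hyA.eqOn_of_preconnected_of_eventuallyEq hzA hpre hmem hev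
  exact fun u hu hu' => this ⟨hu, hu'⟩

end H738PI
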