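import Pool.Agent.H738R2.PI.Defs

/-!
# FOUR: periodic functions with extension of exponential growth are trigonometric polynomials
-/

open Complex Set Filter Topology Polynomial

namespace H738PI

theorem FOUR_isOpen (a b : ℝ) : IsOpen (strip a b) :=
  (isOpen_lt continuous_const Complex.continuous_im).inter
    (isOpen_lt Complex.continuous_im continuous_const)

theorem FOUR_convex (a b : ℝ) : Convex ℝ (strip a b) :=
  (convex_halfSpace_im_gt a).inter (convex_halfSpace_im_lt b)

/-- periodicity propagates to the strip. -/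
theorem FOUR_per {f : ℝ → ℂ} (hper : ∀ x, f (x + 2 * Real.pi) = f x) {D : ℝ} (hD : 0 < D)
    {z : ℂ → ℂ} (hz : DifferentiableOn ℂ z (strip (-D) D)) (hzf : ∀ x : ℝ, z x = f x) :
    ∀ u ∈ strip (-D) D, z (u + 2 * Real.pi) = z u := by
  have h1 : AnalyticOnNhd ℂ z (strip (-D) D) := hz.analyticOnNhd (FOUR_isOpen _ _)
  have h2 : DifferentiableOn ℂ (fun u => z (u + 2 * Real.pi)) (strip (-D) D) := by
    refine hz.comp (by fun_prop) ?_
    intro u hu
    have him : (u + 2 * Real.pi : ℂ).im = u.im := by simp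
    simp only [strip, Set.mem_ofPred_eq] at hu ⊢
    rw [him]; exact hu
  have h3 := h2.analyticOnNhd (FOUR_isOpen _ _)
  have h0 : (0 : ℂ) ∈ strip (-D) D := by
    simp only [strip, Set.mem_ofPred_eq, Complex.zero_im]
    constructor <;> linarith
  have hfreq : ∃ᶠ u in 𝓝[≠] (0 : ℂ), z (u + 2 * Real.pi) = z u := by
    have hreal : Tendsto (fun t : ℝ => (t : ℂ)) (𝓝[≠] (0 : ℝ)) (𝓝[≠] (0 : ℂ)) := by
      apply tendsto_nhdsWithin_of_tendsto_nhds_of_eventually_within
      · have : Tendsto (fun t : ℝ => (t : ℂ)) (𝓝 (0 : ℝ)) (𝓝 ((0 : ℝ) : ℂ)) :=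
          Complex.continuous_ofReal.tendsto 0
        rw [Complex.ofReal_zero] at this
        exact this.mono_left nhdsWithin_le_nhds
      · filter_upwards [self_mem_nhdsWithin] with t ht
        simpa using ht
    apply hreal.frequently
    apply Filter.Eventually.frequently
    filter_upwards with t
    have e : (t : ℂ) + 2 * Real.pi = ((t + 2 * Real.pi : ℝ) : ℂ) := by push_cast; ring
    rw [e, hzf, hzf, hper]
  exact h3.eqOn_of_preconnected_of_frequently_eq h1 (FOUR_convex _ _).isPreconnected h0 hfreq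

/-- shifting the contour. -/
theorem FOUR_shift {f : ℝ → ℂ} (hper : ∀ x, f (x + 2 * Real.pi) = f x) {D : ℝ} (hD : 0 < D)
    {z : ℂ → ℂ} (hz : DifferentiableOn ℂ z (strip (-D) D)) (hzf : ∀ x : ℝ, z x = f x) (j : ℤ)
    (h : ℝ) (h1 : -D < h) (h2 : h < D) :
    (∫ x in (0:ℝ)..(2 * Real.pi), f x * cexp (-(j * x * I))) =
      ∫ x in (0:ℝ)..(2 * Real.pi), z (x + h * I) * cexp (-(j * (x + h * I) * I)) := by
  set F : ℂ → ℂ := fun u => z u * cexp (-(j * u * I)) with hF
  have hFd : DifferentiableOn ℂ F (strip (-D) D) := by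
    apply hz.mul
    fun_prop
  have hsub : (Set.uIcc (0 : ℂ).re ((2 * Real.pi : ℝ) + h * I : ℂ).re ×ℂ
      Set.uIcc (0 : ℂ).im ((2 * Real.pi : ℝ) + h * I : ℂ).im) ⊆ strip (-D) D := by
    intro u hu
    have him : ((2 * Real.pi : ℝ) + h * I : ℂ).im = h := by simp
    rw [Complex.mem_reProdIm, him, Complex.zero_im] at hu
    have hu2 := hu.2
    simp only [strip, Set.mem_ofPred_eq]
    rcases le_total 0 h with h0 | h0
    · rw [uIcc_of_le h0] at hu2
      constructor
      · linarith [hu2.1]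
      · linarith [hu2.2]
    · rw [uIcc_of_ge h0] at hu2
      constructor
      · linarith [hu2.1]
      · linarith [hu2.2]
  have hC := Complex.integral_boundary_rect_eq_zero_of_differentiableOn F 0
    ((2 * Real.pi : ℝ) + h * I) (hFd.mono hsub)
  have hre : ((2 * Real.pi : ℝ) + h * I : ℂ).re = 2 * Real.pi := by simp
  have him : ((2 * Real.pi : ℝ) + h * I : ℂ).im = h := by simp
  rw [hre, him, Complex.zero_re, Complex.zero_im] at hC
  have hv : (∫ y : ℝ in (0:ℝ)..h, F (((2 * Real.pi : ℝ) : ℂ) + y * I))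
      = ∫ y : ℝ in (0:ℝ)..h, F (((0 : ℝ) : ℂ) + y * I) := by
    apply intervalIntegral.integral_congr
    intro y hy
    have hmem : ((y : ℂ) * I) ∈ strip (-D) D := by
      simp only [strip, Set.mem_ofPred_eq]
      have : ((y : ℂ) * I).im = y := by simp
      rw [this]
      rcases le_total 0 h with h0 | h0
      · rw [uIcc_of_le h0] at hy
        constructor
        · linarith [hy.1]
        · linarith [hy.2]
      · rw [uIcc_of_ge h0] at hy
        constructor
        · linarith [hy.1]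
        · linarith [hy.2]
    have hp := FOUR_per hper hD hz hzf _ hmem
    simp only [hF]
    have e1 : ((2 * Real.pi : ℝ) : ℂ) + y * I = y * I + 2 * Real.pi := by push_cast; ring
    have e2 : ((0 : ℝ) : ℂ) + y * I = y * I := by simp
    rw [e1, e2, hp]
    congr 1
    have e3 : -(j * (y * I + 2 * Real.pi) * I) = -(j * (y * I) * I) + ((-j : ℤ) : ℂ) * (2 * Real.pi * I) := by
      push_cast; ring
    rw [e3, Complex.exp_add, Complex.exp_int_mul_two_pi_mul_I, mul_one]
  rw [hv] at hC
  have hC' : (∫ x : ℝ in (0:ℝ)..(2 * Real.pi), F (x + ((0:ℝ) : ℂ) * I)) =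
      ∫ x : ℝ in (0:ℝ)..(2 * Real.pi), F (x + (h : ℂ) * I) := by
    linear_combination hC
  have e4 : (∫ x in (0:ℝ)..(2 * Real.pi), f x * cexp (-(j * x * I))) =
      ∫ x : ℝ in (0:ℝ)..(2 * Real.pi), F (x + ((0:ℝ) : ℂ) * I) := by
    apply intervalIntegral.integral_congr
    intro x _
    simp only [hF]
    rw [Complex.ofReal_zero, zero_mul, add_zero, hzf]
  rw [e4, hC']

theorem FOUR_bound {f : ℝ → ℂ} (hper : ∀ x, f (x + 2 * Real.pi) = f x) {A B : ℝ}
    (H : ∀ D > 0, ∃ z : ℂ → ℂ, DifferentiableOn ℂ z (strip (-D) D) ∧ (∀ x : ℝ, z x = f x) ∧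
    ∀ u ∈ strip (-D) D, ‖z u‖ ≤ B * Real.exp (A * |u.im|)) (j : ℤ) (h : ℝ) :
    ‖∫ x in (0:ℝ)..(2 * Real.pi), f x * cexp (-(j * x * I))‖ ≤
      B * Real.exp (A * |h|) * Real.exp (j * h) * (2 * Real.pi) := by
  have hpi := Real.pi_pos
  have hD : 0 < |h| + 1 := by positivity
  obtain ⟨z, hz, hzf, hb⟩ := H (|h| + 1) hD
  rw [FOUR_shift hper hD hz hzf j h (by linarith [neg_abs_le h]) (by linarith [le_abs_self h])]
  have key := intervalIntegral.norm_integral_le_of_norm_le_const (a := (0 : ℝ)) (b := 2 * Real.pi)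
    (f := fun x : ℝ => z (x + h * I) * cexp (-(j * (x + h * I) * I)))
    (C := B * Real.exp (A * |h|) * Real.exp (j * h)) ?_
  · rwa [sub_zero, abs_of_pos (show (0:ℝ) < 2 * Real.pi by positivity)] at key
  · intro x _
    rw [norm_mul]
    have hmem : ((x : ℂ) + h * I) ∈ strip (-(|h| + 1)) (|h| + 1) := by
      simp only [strip, Set.mem_ofPred_eq]
      have : ((x : ℂ) + h * I).im = h := by simp
      rw [this]
      constructor
      · linarith [neg_abs_le h]
      · linarith [le_abs_self h]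
    have h1 := hb _ hmem
    have him : ((x : ℂ) + h * I).im = h := by simp
    rw [him] at h1
    have h2 : ‖cexp (-(j * (x + h * I) * I))‖ = Real.exp (j * h) := by
      rw [Complex.norm_exp]
      congr 1
      simp
    rw [h2]
    exact mul_le_mul_of_nonneg_right h1 (Real.exp_pos _).le

theorem FOUR_zero {v : ℝ} {C ε : ℝ} (hε : 0 < ε) (h : ∀ t : ℝ, 0 ≤ t → v ≤ C * Real.exp (-(ε * t))) :
    v ≤ 0 := by
  have h1 : Tendsto (fun t : ℝ => C * Real.exp (-(ε * t))) atTop (𝓝 (C * 0)) := by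
    apply Tendsto.const_mul
    apply Real.tendsto_exp_neg_atTop_nhds_zero.comp
    exact tendsto_id.const_mul_atTop hε
  rw [mul_zero] at h1
  refine ge_of_tendsto h1 ?_
  filter_upwards [eventually_ge_atTop 0] with t ht using h t ht

theorem FOUR_coeff {f : ℝ → ℂ} (hper : ∀ x, f (x + 2 * Real.pi) = f x) {A B : ℝ}
    (H : ∀ D > 0, ∃ z : ℂ → ℂ, DifferentiableOn ℂ z (strip (-D) D) ∧ (∀ x : ℝ, z x = f x) ∧
    ∀ u ∈ strip (-D) D, ‖z u‖ ≤ B * Real.exp (A * |u.im|)) (j : ℤ) (hj : A < |(j : ℝ)|) :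
    ∫ x in (0:ℝ)..(2 * Real.pi), f x * cexp (-(j * x * I)) = 0 := by
  rw [← norm_le_zero_iff]
  refine FOUR_zero (C := B * (2 * Real.pi)) (ε := |(j : ℝ)| - A) (by linarith) ?_
  intro t ht
  rcases le_total 0 (j : ℝ) with hj0 | hj0
  · refine (FOUR_bound hper H j (-t)).trans (le_of_eq ?_)
    rw [abs_neg, abs_of_nonneg ht, abs_of_nonneg hj0]
    rw [mul_assoc B, ← Real.exp_add, mul_right_comm]
    congr 2
    ring
  · refine (FOUR_bound hper H j t).trans (le_of_eq ?_)
    rw [abs_of_nonneg ht, abs_of_nonpos hj0]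
    rw [mul_assoc B, ← Real.exp_add, mul_right_comm]
    congr 2
    ring

theorem tFOUR : StFOUR := by
  intro f A B hf hper H
  obtain ⟨M, hM⟩ := exists_nat_ge A
  have : Fact (0 < 2 * Real.pi) := ⟨by positivity⟩
  have hper' : Function.Periodic f (2 * Real.pi) := hper
  let F : C(AddCircle (2 * Real.pi), ℂ) :=
    ⟨hper'.lift, continuous_coinduced_dom.mpr (by exact hf)⟩
  have hFx : ∀ x : ℝ, F (x : AddCircle (2 * Real.pi)) = f x := fun x => rfl
  have hc : ∀ j : ℤ, fourierCoeff F j = (1 / (2 * Real.pi) : ℝ) •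
      ∫ x in (0:ℝ)..(2 * Real.pi), f x * cexp (-(j * x * I)) := by
    intro j
    rw [fourierCoeff_eq_intervalIntegral _ _ 0, zero_add]
    congr 1
    apply intervalIntegral.integral_congr
    intro x _
    simp only [hFx, fourier_coe_apply, smul_eq_mul]
    rw [mul_comm]
    congr 2
    push_cast
    have : (Real.pi : ℂ) ≠ 0 := by exact_mod_cast Real.pi_ne_zero
    field_simp
  have hzero : ∀ j : ℤ, j ∉ Finset.Icc (-(M : ℤ)) M → fourierCoeff F j = 0 := by
    intro j hj
    rw [hc, FOUR_coeff hper H j, smul_zero]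
    rw [Finset.mem_Icc, not_and_or, not_le, not_le] at hj
    refine lt_of_le_of_lt hM ?_
    rw [lt_abs]
    rcases hj with hj | hj
    · right
      have : (j : ℝ) < -(M : ℝ) := by exact_mod_cast hj
      linarith
    · left
      exact_mod_cast hj
  have hsum : Summable (fourierCoeff F) :=
    summable_of_ne_finset_zero (s := Finset.Icc (-(M : ℤ)) M) hzero
  refine ⟨M, fun j => fourierCoeff F j, ?_⟩
  intro x
  have h1 := has_pointwise_sum_fourier_series_of_summable hsum (x : AddCircle (2 * Real.pi))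
  have h2 : HasSum (fun i => fourierCoeff F i • fourier i (x : AddCircle (2 * Real.pi)))
      (∑ i ∈ Finset.Icc (-(M : ℤ)) M, fourierCoeff F i • fourier i (x : AddCircle (2 * Real.pi))) := by
    apply hasSum_sum_of_ne_finset_zero
    intro b hb
    rw [hzero b hb, zero_smul]
  rw [← hFx x, h1.unique h2]
  apply Finset.sum_congr rfl
  intro j _
  rw [smul_eq_mul, fourier_coe_apply]
  congr 2
  push_cast
  have : (Real.pi : ℂ) ≠ 0 := by exact_mod_cast Real.pi_ne_zero
  field_simp

end H738PI
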