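import Pool.Agent.H738R2.PI.Defs

open Complex Set Filter Topology Polynomial

namespace H738PI

theorem GEO_re_rot (r x : ℝ) : (((r : ℂ) * I * cexp (x * I))).re = - r * Real.sin x := by
  rw [Complex.exp_mul_I]
  simp [Complex.mul_re, Complex.mul_im, Complex.sin_ofReal_re]

theorem GEO_der {γ : ℝ → ℂ} {ρ : ℝ → ℝ} (h : Oval γ ρ) (s : ℝ) (c : ℂ) (t : ℝ) :
    HasDerivAt (fun t : ℝ => ((γ t - c) * cexp (-(s * I))).re) (-(ρ t) * Real.sin (t - s)) t := by
  have h1 : HasDerivAt (fun t : ℝ => (γ t - c) * cexp (-(s * I)))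
      (((ρ t : ℂ) * I * cexp (t * I)) * cexp (-(s * I))) t :=
    ((h.der t).sub_const c).mul_const _
  have h2 := (Complex.reCLM.hasFDerivAt (x := (γ t - c) * cexp (-(s * I)))).comp_hasDerivAt t h1
  have h3 : Complex.reCLM (((ρ t : ℂ) * I * cexp (t * I)) * cexp (-(s * I)))
      = -(ρ t) * Real.sin (t - s) := by
    have : ((ρ t : ℂ) * I * cexp (t * I)) * cexp (-(s * I))
        = (ρ t : ℂ) * I * cexp (((t - s : ℝ) : ℂ) * I) := by
      rw [mul_assoc, ← Complex.exp_add]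
      congr 2
      push_cast
      ring
    rw [this]
    exact GEO_re_rot _ _
  rw [h3] at h2
  exact h2

theorem GEO_exp_per (s : ℝ) : cexp (-(((s + 2 * Real.pi : ℝ) : ℂ) * I)) = cexp (-(s * I)) := by
  have : (-(((s + 2 * Real.pi : ℝ) : ℂ) * I)) = -(s * I) - 2 * Real.pi * I := by
    push_cast; ring
  rw [this, Complex.exp_sub, Complex.exp_two_pi_mul_I, div_one]

theorem GEO_neg {γ : ℝ → ℂ} {ρ : ℝ → ℝ} (h : Oval γ ρ) (s t : ℝ) (h1 : s < t)
    (h2 : t < s + 2 * Real.pi) : ((γ t - γ s) * cexp (-(s * I))).re < 0 := by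
  set f : ℝ → ℝ := fun t => ((γ t - γ s) * cexp (-(s * I))).re with hf
  have hder : ∀ t, HasDerivAt f (-(ρ t) * Real.sin (t - s)) t := fun t => GEO_der h s (γ s) t
  have hcont : Continuous f := continuous_iff_continuousAt.2 fun t => (hder t).continuousAt
  have h0 : f s = 0 := by simp [hf]
  have h0' : f (s + 2 * Real.pi) = 0 := by
    simp only [hf]
    rw [h.per]
    simp
  have hanti : StrictAntiOn f (Icc s (s + Real.pi)) := by
    apply strictAntiOn_of_deriv_neg (convex_Icc _ _) hcont.continuousOn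
    intro x hx
    rw [interior_Icc] at hx
    rw [(hder x).deriv]
    have : 0 < Real.sin (x - s) := Real.sin_pos_of_pos_of_lt_pi (by linarith [hx.1])
      (by linarith [hx.2])
    have := mul_pos (h.pos x) this
    linarith
  have hmono : StrictMonoOn f (Icc (s + Real.pi) (s + 2 * Real.pi)) := by
    apply strictMonoOn_of_deriv_pos (convex_Icc _ _) hcont.continuousOn
    intro x hx
    rw [interior_Icc] at hx
    rw [(hder x).deriv]
    have h3 : Real.sin (x - s) < 0 := by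
      have : Real.sin (x - s) = Real.sin (x - s - 2 * Real.pi) := (Real.sin_sub_two_pi _).symm
      rw [this]
      exact Real.sin_neg_of_neg_of_neg_pi_lt (by linarith [hx.2]) (by linarith [hx.1])
    have := mul_pos (h.pos x) (neg_pos.2 h3)
    linarith
  have hpi := Real.pi_pos
  rcases le_or_gt t (s + Real.pi) with h3 | h3
  · have := hanti (⟨le_refl _, by linarith⟩ : s ∈ Icc s (s + Real.pi))
      (⟨h1.le, h3⟩ : t ∈ Icc s (s + Real.pi)) h1
    rw [h0] at this
    exact this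
  · have := hmono (⟨h3.le, h2.le⟩ : t ∈ Icc (s + Real.pi) (s + 2 * Real.pi))
      (⟨by linarith, le_refl _⟩ : s + 2 * Real.pi ∈ Icc (s + Real.pi) (s + 2 * Real.pi)) h2
    rw [h0'] at this
    exact this

theorem GEO_perZ {γ : ℝ → ℂ} {ρ : ℝ → ℝ} (h : Oval γ ρ) (t : ℝ) (k : ℤ) :
    γ (t + k * (2 * Real.pi)) = γ t := by
  have hp : Function.Periodic γ (2 * Real.pi) := h.per
  exact hp.int_mul k t

theorem GEO_exp_perZ (s : ℝ) (k : ℤ) :
    cexp (-(((s + k * (2 * Real.pi) : ℝ) : ℂ) * I)) = cexp (-(s * I)) := by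
  have hp : Function.Periodic (fun s : ℝ => cexp (-((s : ℂ) * I))) (2 * Real.pi) := GEO_exp_per
  exact hp.int_mul k s

/-- reduction modulo `2π` -/
theorem GEO_red (s t : ℝ) : ∃ k : ℤ, s ≤ t + k * (2 * Real.pi) ∧ t + k * (2 * Real.pi) < s + 2 * Real.pi := by
  have hpi : 0 < 2 * Real.pi := by positivity
  refine ⟨-toIcoDiv hpi s t, ?_⟩
  have h1 := toIcoMod_mem_Ico hpi s t
  have h2 : toIcoMod hpi s t = t + ((-toIcoDiv hpi s t : ℤ) : ℝ) * (2 * Real.pi) := by
    rw [toIcoMod]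
    simp only [zsmul_eq_mul]
    push_cast
    ring
  rw [h2] at h1
  exact h1

theorem GEO_lt {γ : ℝ → ℂ} {ρ : ℝ → ℝ} (h : Oval γ ρ) (s t : ℝ)
    (hst : ¬ ∃ k : ℤ, t = s + k * (2 * Real.pi)) :
    ((γ t - γ s) * cexp (-(s * I))).re < 0 := by
  obtain ⟨k, hk1, hk2⟩ := GEO_red s t
  have hne : s ≠ t + k * (2 * Real.pi) := by
    intro hh
    apply hst
    refine ⟨-k, ?_⟩
    push_cast
    linarith
  have := GEO_neg h s (t + k * (2 * Real.pi)) (lt_of_le_of_ne hk1 hne) hk2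
  rwa [GEO_perZ h] at this

theorem GEO_le {γ : ℝ → ℂ} {ρ : ℝ → ℝ} (h : Oval γ ρ) (s t : ℝ) :
    ((γ t - γ s) * cexp (-(s * I))).re ≤ 0 := by
  by_cases hst : ∃ k : ℤ, t = s + k * (2 * Real.pi)
  · obtain ⟨k, rfl⟩ := hst
    rw [GEO_perZ h]
    simp
  · exact (GEO_lt h s t hst).le

theorem GEO_der2 {γ : ℝ → ℂ} {ρ : ℝ → ℝ} (h : Oval γ ρ) (ζ : ℂ) (t : ℝ) :
    HasDerivAt (fun t : ℝ => ((γ t - ζ) * cexp (-(t * I))).re)
      (((γ t - ζ) * cexp (-(t * I))).im) t := by
  have h0 : HasDerivAt (fun t : ℝ => cexp (-((t : ℂ) * I))) (cexp (-((t : ℂ) * I)) * (-(1 * I))) t := by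
    exact ((Complex.ofRealCLM.hasDerivAt (x := t)).mul_const I).neg.cexp
  have h1 : HasDerivAt (fun t : ℝ => (γ t - ζ) * cexp (-(t * I)))
      (((ρ t : ℂ) * I * cexp (t * I)) * cexp (-(t * I))
        + (γ t - ζ) * (cexp (-((t : ℂ) * I)) * (-(1 * I)))) t :=
    ((h.der t).sub_const ζ).mul h0
  have h2 := (Complex.reCLM.hasFDerivAt (x := (γ t - ζ) * cexp (-(t * I)))).comp_hasDerivAt t h1
  have h3 : Complex.reCLM (((ρ t : ℂ) * I * cexp (t * I)) * cexp (-(t * I))
        + (γ t - ζ) * (cexp (-((t : ℂ) * I)) * (-(1 * I))))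
      = ((γ t - ζ) * cexp (-(t * I))).im := by
    have e1 : ((ρ t : ℂ) * I * cexp (t * I)) * cexp (-(t * I)) = (ρ t : ℂ) * I := by
      rw [mul_assoc, ← Complex.exp_add]
      simp
    have e2 : (γ t - ζ) * (cexp (-((t : ℂ) * I)) * (-(1 * I)))
      = -((((γ t - ζ) * cexp (-(t * I)))) * I) := by ring
    rw [e1, e2]
    simp only [Complex.reCLM_apply, Complex.add_re, Complex.neg_re, Complex.mul_I_re]
    simp
  rw [h3] at h2
  exact h2

theorem GEO_perη {γ : ℝ → ℂ} {ρ : ℝ → ℝ} (h : Oval γ ρ) (ζ : ℂ) (t : ℝ) (k : ℤ) :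
    ((γ (t + k * (2 * Real.pi)) - ζ) * cexp (-(((t + k * (2 * Real.pi) : ℝ) : ℂ) * I)))
      = ((γ t - ζ) * cexp (-(t * I))) := by
  rw [GEO_perZ h, GEO_exp_perZ]

theorem GEO_norm_exp (s : ℝ) : ‖cexp (-((s : ℂ) * I))‖ = 1 := by
  have : (-((s : ℂ) * I)) = ((-s : ℝ) : ℂ) * I := by push_cast; ring
  rw [this, Complex.norm_exp_ofReal_mul_I]

theorem tGEO : StGEO := by
  intro γ ρ h
  refine ⟨GEO_le h, GEO_lt h, ?_, ?_, ?_, ?_, ?_, ?_, ?_⟩
  · intro ζ hI hO
    have hO' : ∀ t : ℝ, 0 ≤ ((γ t - ζ) * cexp (-(t * I))).re := by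
      intro t
      by_contra hc
      exact hO ⟨t, not_le.1 hc⟩
    obtain ⟨s, hs⟩ : ∃ s : ℝ, ((γ s - ζ) * cexp (-(s * I))).re ≤ 0 := by
      by_contra hc
      push Not at hc
      exact hI hc
    have hs0 : ((γ s - ζ) * cexp (-(s * I))).re = 0 := le_antisymm hs (hO' s)
    refine ⟨s, ?_⟩
    have hmin : IsLocalMin (fun t : ℝ => ((γ t - ζ) * cexp (-(t * I))).re) s := by
      apply Filter.Eventually.of_forall
      intro t
      show ((γ s - ζ) * cexp (-(s * I))).re ≤ ((γ t - ζ) * cexp (-(t * I))).re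
      rw [hs0]
      exact hO' t
    have him := hmin.hasDerivAt_eq_zero (GEO_der2 h ζ s)
    have hz : (γ s - ζ) * cexp (-(s * I)) = 0 := Complex.ext (by simpa using hs0) (by simpa using him)
    have := (mul_eq_zero.1 hz).resolve_right (Complex.exp_ne_zero _)
    exact (sub_eq_zero.1 this).symm
  · rintro ζ ⟨s, hs⟩ hI
    exact absurd (hI s) (not_lt.2 hs.le)
  · rintro ζ ⟨s, hs⟩
    refine ⟨s, fun t => ?_⟩
    have h1 := GEO_le h s t
    have e : (ζ - γ t) * cexp (-(s * I)) = -((γ t - γ s) * cexp (-(s * I)))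
      - ((γ s - ζ) * cexp (-(s * I))) := by ring
    rw [e, Complex.sub_re, Complex.neg_re]
    linarith
  · intro s hI
    have := hI s
    simp at this
  · rintro s ⟨t, ht⟩
    have h1 := GEO_le h t s
    have e : (γ t - γ s) * cexp (-(t * I)) = -((γ s - γ t) * cexp (-(t * I))) := by ring
    rw [e, Complex.neg_re] at ht
    linarith
  · rw [← isOpen_compl_iff]
    have hset : {x : ℂ | ¬ Ins γ x}ᶜ = {x | Ins γ x} := by
      ext x; simp
    rw [hset, Metric.isOpen_iff]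
    intro x hx
    have hη : Continuous (fun t : ℝ => ((γ t - x) * cexp (-(t * I))).re) :=
      continuous_iff_continuousAt.2 fun t => (GEO_der2 h x t).continuousAt
    have hpi := Real.pi_pos
    obtain ⟨s0, -, hs0⟩ := isCompact_Icc.exists_isMinOn (s := Icc (0:ℝ) (2 * Real.pi))
      ⟨0, by constructor <;> [exact le_refl _; positivity]⟩ hη.continuousOn
    set m : ℝ := ((γ s0 - x) * cexp (-(s0 * I))).re with hm
    have hmpos : 0 < m := hx s0
    refine ⟨m, hmpos, ?_⟩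
    intro y hy
    have hyx : ‖y - x‖ < m := by rwa [Metric.mem_ball, dist_eq_norm] at hy
    intro s
    obtain ⟨k, hk1, hk2⟩ := GEO_red 0 s
    have h1 : m ≤ ((γ (s + k * (2 * Real.pi)) - x) *
        cexp (-(((s + k * (2 * Real.pi) : ℝ) : ℂ) * I))).re := by
      exact hs0 (⟨hk1, by linarith⟩ : s + k * (2 * Real.pi) ∈ Icc (0:ℝ) (2 * Real.pi))
    rw [GEO_perη h] at h1
    have e : (γ s - y) * cexp (-(s * I)) = (γ s - x) * cexp (-(s * I))
      - (y - x) * cexp (-(s * I)) := by ring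
    rw [e, Complex.sub_re]
    have h2 : ((y - x) * cexp (-(s * I))).re ≤ ‖y - x‖ := by
      refine (Complex.re_le_norm _).trans ?_
      rw [norm_mul, GEO_norm_exp, mul_one]
    linarith
  · have hset : {x : ℂ | Out γ x} = ⋃ s : ℝ, {x : ℂ | ((γ s - x) * cexp (-(s * I))).re < 0} := by
      ext x
      simp [Out]
    rw [hset]
    apply isOpen_iUnion
    intro s
    apply isOpen_lt
    · exact Complex.continuous_re.comp ((continuous_const.sub continuous_id).mul continuous_const)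
    · exact continuous_const

end H738PI
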