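import Pool.Agent.H738R2.PI.Defs

/-!
# GLUE and GLUD: gluing of analytic functions along the boundary line of a strip
-/

open Complex Set Filter Topology Polynomial

namespace H738PI

theorem GLUE_isOpen (a b : ℝ) : IsOpen (strip a b) :=
  (isOpen_lt continuous_const Complex.continuous_im).inter
    (isOpen_lt Complex.continuous_im continuous_const)

theorem GLUE_mem {a b : ℝ} {u : ℂ} : u ∈ strip a b ↔ a < u.im ∧ u.im < b := Iff.rfl

theorem GLUE_proj {x b r : ℝ} {u : ℂ} (hu : u ∈ Metric.ball ((x : ℂ) + b * I) r) :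
    ((u.re : ℂ) + b * I) ∈ Metric.ball ((x : ℂ) + b * I) r := by
  rw [Metric.mem_ball, dist_eq_norm] at hu ⊢
  have h1 : ((u.re : ℂ) + b * I) - ((x : ℂ) + b * I) = ((u.re - x : ℝ) : ℂ) := by
    push_cast; ring
  rw [h1, Complex.norm_real, Real.norm_eq_abs]
  have h2 : |(u - ((x : ℂ) + b * I)).re| ≤ ‖u - ((x : ℂ) + b * I)‖ := Complex.abs_re_le_norm _
  have h3 : (u - ((x : ℂ) + b * I)).re = u.re - x := by simp
  rw [h3] at h2
  exact lt_of_le_of_lt h2 hu

theorem GLUE_vert {x b r : ℝ} {u : ℂ} (hu : u ∈ Metric.ball ((x : ℂ) + b * I) r) :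
    u ∈ Metric.ball ((u.re : ℂ) + b * I) r := by
  rw [Metric.mem_ball, dist_eq_norm] at hu ⊢
  have h1 : u - ((u.re : ℂ) + b * I) = ((u.im - b : ℝ) : ℂ) * I := by
    apply Complex.ext <;> simp
  rw [h1, norm_mul, Complex.norm_real, Complex.norm_I, mul_one, Real.norm_eq_abs]
  have h2 : |(u - ((x : ℂ) + b * I)).im| ≤ ‖u - ((x : ℂ) + b * I)‖ := Complex.abs_im_le_norm _
  have h3 : (u - ((x : ℂ) + b * I)).im = u.im - b := by simp
  rw [h3] at h2
  exact lt_of_le_of_lt h2 hu

theorem GLUE_vert' {b r : ℝ} {u : ℂ} (h1 : b ≤ u.im) (h2 : u.im < b + r) :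
    u ∈ Metric.ball ((u.re : ℂ) + b * I) r := by
  rw [Metric.mem_ball, dist_eq_norm]
  have h3 : u - ((u.re : ℂ) + b * I) = ((u.im - b : ℝ) : ℂ) * I := by
    apply Complex.ext <;> simp
  rw [h3, norm_mul, Complex.norm_real, Complex.norm_I, mul_one, Real.norm_eq_abs,
    abs_of_nonneg (by linarith)]
  linarith

/-- two local extensions agree on the overlap. -/
theorem GLUE_agree {a b r : ℝ} {z : ℂ → ℂ} (hab : a < b) {x x' : ℝ} {E E' : ℂ → ℂ}
    (hE : DifferentiableOn ℂ E (Metric.ball ((x : ℂ) + b * I) r))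
    (hE' : DifferentiableOn ℂ E' (Metric.ball ((x' : ℂ) + b * I) r))
    (hEz : ∀ u ∈ Metric.ball ((x : ℂ) + b * I) r, u ∈ strip a b → E u = z u)
    (hEz' : ∀ u ∈ Metric.ball ((x' : ℂ) + b * I) r, u ∈ strip a b → E' u = z u)
    {u : ℂ} (hu : u ∈ Metric.ball ((x : ℂ) + b * I) r)
    (hu' : u ∈ Metric.ball ((x' : ℂ) + b * I) r) : E u = E' u := by
  set S : Set ℂ := Metric.ball ((x : ℂ) + b * I) r ∩ Metric.ball ((x' : ℂ) + b * I) r with hS
  have hSo : IsOpen S := Metric.isOpen_ball.inter Metric.isOpen_ball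
  have hSc : Convex ℝ S := (convex_ball _ _).inter (convex_ball _ _)
  have h1 : AnalyticOnNhd ℂ E S := (hE.mono inter_subset_left).analyticOnNhd hSo
  have h2 : AnalyticOnNhd ℂ E' S := (hE'.mono inter_subset_right).analyticOnNhd hSo
  set v : ℂ := (u.re : ℂ) + b * I with hv
  have hvS : v ∈ S := ⟨GLUE_proj hu, GLUE_proj hu'⟩
  have hlim : Tendsto (fun t : ℝ => v - t * I) (𝓝[>] (0 : ℝ)) (𝓝[≠] v) := by
    apply tendsto_nhdsWithin_of_tendsto_nhds_of_eventually_within
    · have hc : Continuous (fun t : ℝ => v - t * I) := by fun_prop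
      have := hc.tendsto 0
      simp only [Complex.ofReal_zero, zero_mul, sub_zero] at this
      exact this.mono_left nhdsWithin_le_nhds
    · filter_upwards [self_mem_nhdsWithin] with t ht
      have ht' : (0 : ℝ) < t := ht
      simp only [mem_compl_iff, mem_singleton_iff, sub_eq_self, mul_eq_zero, Complex.ofReal_eq_zero,
        Complex.I_ne_zero, or_false]
      exact ht'.ne'
  have hfreq : ∃ᶠ w in 𝓝[≠] v, E w = E' w := by
    apply hlim.frequently
    apply Filter.Eventually.frequently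
    have hev : ∀ᶠ t : ℝ in 𝓝[>] (0 : ℝ), v - t * I ∈ S :=
      (hlim.mono_right nhdsWithin_le_nhds).eventually (hSo.mem_nhds hvS)
    have hev2 : ∀ᶠ t : ℝ in 𝓝[>] (0 : ℝ), t < b - a := by
      apply nhdsWithin_le_nhds
      exact Iio_mem_nhds (by linarith)
    filter_upwards [hev, hev2, self_mem_nhdsWithin] with t ht ht2 ht3
    have ht3' : (0 : ℝ) < t := ht3
    have hm : v - t * I ∈ strip a b := by
      rw [GLUE_mem]
      have : (v - t * I).im = b - t := by simp [hv]
      rw [this]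
      constructor <;> linarith
    rw [hEz _ ht.1 hm, hEz' _ ht.2 hm]
  exact h1.eqOn_of_preconnected_of_frequently_eq h2 hSc.isPreconnected hvS hfreq ⟨hu, hu'⟩

theorem tGLUE : StGLUE := by
  intro a b r z hab hr hz hex
  choose E hE hEz using hex
  classical
  let y : ℂ → ℂ := fun u => if u.im < b then z u else E u.re u
  have hyz : EqOn y z (strip a b) := by
    intro u hu
    simp only [y]
    rw [if_pos hu.2]
  refine ⟨y, ?_, hyz⟩
  intro u hu
  by_cases hub : u.im < b
  · have h1 : DifferentiableAt ℂ z u :=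
      hz.differentiableAt ((GLUE_isOpen a b).mem_nhds ⟨hu.1, hub⟩)
    have h2 : y =ᶠ[𝓝 u] z := by
      filter_upwards [(GLUE_isOpen a b).mem_nhds (show u ∈ strip a b from ⟨hu.1, hub⟩)] with w hw
      exact hyz hw
    exact (h1.congr_of_eventuallyEq h2).differentiableWithinAt
  · push Not at hub
    have hmem : u ∈ Metric.ball ((u.re : ℂ) + b * I) r := GLUE_vert' hub hu.2
    have h1 : DifferentiableAt ℂ (E u.re) u :=
      (hE u.re).differentiableAt (Metric.isOpen_ball.mem_nhds hmem)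
    have h2 : y =ᶠ[𝓝 u] E u.re := by
      filter_upwards [Metric.isOpen_ball.mem_nhds hmem, (GLUE_isOpen a (b + r)).mem_nhds hu]
        with w hw hw2
      simp only [y]
      split_ifs with hwb
      · exact (hEz u.re w hw ⟨hw2.1, hwb⟩).symm
      · exact GLUE_agree hab (hE w.re) (hE u.re) (hEz w.re) (hEz u.re) (GLUE_vert hw) hw
    exact (h1.congr_of_eventuallyEq h2).differentiableWithinAt

theorem tGLUD : StGLUD := by
  intro a b r z hab hr hz hex
  have hneg : ∀ {x c : ℝ} {u : ℂ}, u ∈ Metric.ball ((x : ℂ) + ((-c : ℝ) : ℂ) * I) r →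
      -u ∈ Metric.ball (((-x : ℝ) : ℂ) + c * I) r := by
    intro x c u hu
    rw [Metric.mem_ball, dist_eq_norm] at hu ⊢
    have : -u - (((-x : ℝ) : ℂ) + c * I) = -(u - ((x : ℂ) + ((-c : ℝ) : ℂ) * I)) := by
      push_cast; ring
    rw [this, norm_neg]; exact hu
  have hstr : ∀ {c d : ℝ} {u : ℂ}, u ∈ strip (-d) (-c) → -u ∈ strip c d := by
    intro c d u hu
    rw [GLUE_mem] at hu ⊢
    rw [Complex.neg_im]
    constructor <;> linarith [hu.1, hu.2]
  obtain ⟨y, hy, hyz⟩ := tGLUE (-b) (-a) r (fun u => z (-u)) (by linarith) hr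
    (hz.comp (by fun_prop) (fun u hu => hstr hu)) (by
      intro x
      obtain ⟨E, hE, hEz⟩ := hex (-x)
      refine ⟨fun u => E (-u), hE.comp (by fun_prop) (fun u hu => hneg hu), ?_⟩
      intro u hu hu2
      exact hEz (-u) (hneg hu) (hstr hu2))
  refine ⟨fun u => y (-u), hy.comp (by fun_prop) ?_, ?_⟩
  · intro u hu
    rw [GLUE_mem] at hu ⊢
    rw [Complex.neg_im]
    constructor <;> linarith [hu.1, hu.2]
  · intro u hu
    have h1 : -u ∈ strip (-b) (-a) := by
      rw [GLUE_mem] at hu ⊢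
      rw [Complex.neg_im]
      constructor <;> linarith [hu.1, hu.2]
    have := hyz h1
    simp only [neg_neg] at this
    exact this

end H738PI
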