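import Pool.Agent.H738R2.PI.Defs

/-! Task GROW: exponential growth of solutions. -/

open Complex Set Filter Topology Polynomial

namespace H738PI

theorem GROW_open (a b : ℝ) : IsOpen (strip a b) := by
  have h1 : IsOpen {u : ℂ | a < u.im} := isOpen_lt continuous_const Complex.continuous_im
  have h2 : IsOpen {u : ℂ | u.im < b} := isOpen_lt Complex.continuous_im continuous_const
  exact h1.inter h2

theorem GROW_poly (n : ℕ) (g : ℂ[X]) (hn : 1 ≤ n) (hg : g.natDegree ≤ n) :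
    ∃ A : ℝ, 0 < A ∧ ∀ x : ℂ, ‖g.eval x‖ ≤ (A * (‖x‖ + 1)) ^ n := by
  set S : ℝ := ∑ i ∈ Finset.range (n + 1), ‖g.coeff i‖ with hS
  have hS0 : 0 ≤ S := Finset.sum_nonneg fun i _ => norm_nonneg _
  refine ⟨1 + S, by linarith, fun x => ?_⟩
  have hx1 : (1:ℝ) ≤ ‖x‖ + 1 := by linarith [norm_nonneg x]
  rw [Polynomial.eval_eq_sum_range' (Nat.lt_succ_of_le hg) x]
  calc ‖∑ i ∈ Finset.range (n + 1), g.coeff i * x ^ i‖
      ≤ ∑ i ∈ Finset.range (n + 1), ‖g.coeff i * x ^ i‖ := norm_sum_le _ _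
    _ ≤ ∑ i ∈ Finset.range (n + 1), ‖g.coeff i‖ * (‖x‖ + 1) ^ n := by
        apply Finset.sum_le_sum
        intro i hi
        rw [norm_mul, norm_pow]
        apply mul_le_mul_of_nonneg_left _ (norm_nonneg _)
        calc ‖x‖ ^ i ≤ (‖x‖ + 1) ^ i :=
              pow_le_pow_left₀ (norm_nonneg _) (by linarith) i
          _ ≤ (‖x‖ + 1) ^ n := pow_le_pow_right₀ hx1 (by
              rw [Finset.mem_range] at hi; omega)
    _ = S * (‖x‖ + 1) ^ n := by rw [hS, Finset.sum_mul]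
    _ ≤ (1 + S) ^ n * (‖x‖ + 1) ^ n := by
        apply mul_le_mul_of_nonneg_right _ (by positivity)
        calc S ≤ 1 + S := by linarith
          _ ≤ (1 + S) ^ n := le_self_pow₀ (by linarith) (by omega)
    _ = ((1 + S) * (‖x‖ + 1)) ^ n := (mul_pow _ _ _).symm

theorem GROW_aux {n : ℕ} {g : ℂ[X]} {A : ℝ} (hn : 1 ≤ n) (hA : 0 < A)
    (hg : ∀ x : ℂ, ‖g.eval x‖ ≤ (A * (‖x‖ + 1)) ^ n) {a b : ℝ} {z : ℂ → ℂ}
    (hz : Sol n g z (strip a b)) (σ : ℂ) (hσ : ‖σ‖ = 1) (x : ℂ) (T : ℝ) (hT : 0 ≤ T)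
    (hmem : ∀ t : ℝ, 0 ≤ t → t ≤ T → x + t * σ ∈ strip a b) :
    ‖z (x + T * σ)‖ + 1 ≤ (‖z x‖ + 1) * Real.exp (A * T) := by
  have hder : ∀ t : ℝ, 0 ≤ t → t ≤ T → HasDerivAt (fun t : ℝ => z (x + t * σ))
      (deriv z (x + t * σ) * σ) t := by
    intro t h0 h1
    have hzd : HasDerivAt z (deriv z (x + t * σ)) (x + t * σ) :=
      (hz.1.differentiableAt ((GROW_open a b).mem_nhds (hmem t h0 h1))).hasDerivAt
    have hin : HasDerivAt (fun t : ℝ => x + (t:ℂ) * σ) σ t := by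
      have h2 : HasDerivAt (fun t : ℝ => (t:ℂ)) 1 t := Complex.ofRealCLM.hasDerivAt
      have h3 := (h2.mul_const σ).const_add x
      simpa using h3
    exact hzd.comp t hin
  have hbound : ∀ t : ℝ, 0 ≤ t → t ≤ T → ‖deriv z (x + t * σ) * σ‖ ≤
      A * ‖z (x + t * σ)‖ + A := by
    intro t h0 h1
    rw [norm_mul, hσ, mul_one]
    have h2 := hz.2 _ (hmem t h0 h1)
    have h3 : ‖deriv z (x + t * σ)‖ ^ n ≤ (A * (‖z (x + t * σ)‖ + 1)) ^ n := by
      rw [← norm_pow, h2, norm_mul, norm_pow, Complex.norm_I, one_pow, one_mul]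
      exact hg _
    have h4 := le_of_pow_le_pow_left₀ (by omega) (by positivity) h3
    linarith
  have hcont : ContinuousOn (fun t : ℝ => z (x + t * σ)) (Icc 0 T) := fun t ht =>
    (hder t ht.1 ht.2).continuousAt.continuousWithinAt
  have hG := norm_le_gronwallBound_of_norm_deriv_right_le
    (f := fun t : ℝ => z (x + t * σ)) (f' := fun t : ℝ => deriv z (x + t * σ) * σ)
    (δ := ‖z x‖) (K := A) (ε := A) (a := 0) (b := T) hcont
    (fun t ht => (hder t ht.1 ht.2.le).hasDerivWithinAt) (by simp)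
    (fun t ht => hbound t ht.1 ht.2.le) T ⟨hT, le_refl _⟩
  rw [gronwallBound_of_K_ne_0 hA.ne', div_self hA.ne', sub_zero] at hG
  simp only at hG
  linarith

theorem tGROW : StGROW := by
  intro n g hn hg
  obtain ⟨A, hA, hgA⟩ := GROW_poly n g hn hg
  refine ⟨A, hA, ?_⟩
  intro a b z ha hb hz u hu
  obtain ⟨hu1, hu2⟩ := hu
  rcases le_total 0 u.im with h | h
  · have h1 := GROW_aux hn hA hgA hz I Complex.norm_I (u.re : ℂ) u.im h (by
      intro t h0 h1
      constructor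
      · simp
        linarith
      · simp
        linarith)
    rw [Complex.re_add_im] at h1
    rw [abs_of_nonneg h]
    exact h1
  · have h1 := GROW_aux hn hA hgA hz (-I) (by simp) (u.re : ℂ) (-u.im) (by linarith) (by
      intro t h0 h1
      constructor
      · simp
        linarith
      · simp
        linarith)
    have e : (u.re : ℂ) + ((-u.im : ℝ) : ℂ) * (-I) = u := by
      push_cast
      rw [neg_mul_neg, Complex.re_add_im]
    rw [e] at h1
    rw [abs_of_nonpos h]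
    exact h1

end H738PI
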