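import Pool.Agent.H738R2.PI.Defs

/-!
Task IND: if all high modes vanish on the curve they vanish identically.
-/

open Complex Set Filter Topology Polynomial

namespace H738PI

lemma IND_coef {a : ℕ → ℝ → ℝ} (ha : Coef a) : Coef (da a) := by
  constructor
  · intro j
    exact continuous_const.mul (ha.cont (j + 1))
  · intro j s
    simp only [da]
    rw [ha.per (j + 1) s]

/-- functions of the form `pol C N` -/
def IND_IsPol (N : ℕ) (f : ℂ → ℂ) : Prop := ∃ C : ℕ → ℕ → ℂ, ∀ z, f z = pol C N z

lemma IND_mono (N i j : ℕ) (hi : i ≤ N) (hj : j ≤ N) (c : ℂ) :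
    IND_IsPol N (fun z => c * z ^ i * (starRingEnd ℂ z) ^ j) := by
  refine ⟨fun i' j' => if i' = i ∧ j' = j then c else 0, fun z => ?_⟩
  unfold pol
  rw [Finset.sum_eq_single i]
  · rw [Finset.sum_eq_single j]
    · beta_reduce
      rw [if_pos ⟨rfl, rfl⟩]
    · intro b _ hb
      beta_reduce
      rw [if_neg (fun h => hb h.2), zero_mul, zero_mul]
    · intro h
      exact absurd (Finset.mem_range.2 (Nat.lt_succ_of_le hj)) h
  · intro b _ hb
    refine Finset.sum_eq_zero fun j' _ => ?_
    beta_reduce
    rw [if_neg (fun h => hb h.1), zero_mul, zero_mul]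
  · intro h
    exact absurd (Finset.mem_range.2 (Nat.lt_succ_of_le hi)) h

lemma IND_zero (N : ℕ) : IND_IsPol N (fun _ => 0) := by
  refine ⟨fun _ _ => 0, fun z => ?_⟩
  simp [pol]

lemma IND_add {N : ℕ} {f g : ℂ → ℂ} (hf : IND_IsPol N f) (hg : IND_IsPol N g) :
    IND_IsPol N (fun z => f z + g z) := by
  obtain ⟨C, hC⟩ := hf
  obtain ⟨D, hD⟩ := hg
  refine ⟨fun i j => C i j + D i j, fun z => ?_⟩
  beta_reduce
  rw [hC z, hD z]
  unfold pol
  rw [← Finset.sum_add_distrib]
  refine Finset.sum_congr rfl fun i _ => ?_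
  rw [← Finset.sum_add_distrib]
  refine Finset.sum_congr rfl fun j _ => ?_
  ring

lemma IND_sum {N : ℕ} {ι : Type} (s : Finset ι) (f : ι → ℂ → ℂ) (h : ∀ i ∈ s, IND_IsPol N (f i)) :
    IND_IsPol N (fun z => ∑ i ∈ s, f i z) := by
  classical
  induction s using Finset.induction_on with
  | empty => simpa using IND_zero N
  | insert a s ha ih =>
    simp only [Finset.sum_insert ha]
    exact IND_add (h a (Finset.mem_insert_self a s))
      (ih fun i hi => h i (Finset.mem_insert_of_mem hi))

lemma IND_isPol (hSP : StSP) {a : ℕ → ℝ → ℝ} (ha : Coef a) (N : ℕ) (m : ℤ) :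
    IND_IsPol N (Fm a N m) := by
  have h1 : IND_IsPol N (fun z => ∑ j ∈ Finset.range (N + 1), ∑ l ∈ Finset.range (j + 1),
    (1 / 2 : ℂ) ^ j * (j.choose l : ℂ) * z ^ l * (starRingEnd ℂ z) ^ (j - l) *
      ∫ φ in (0:ℝ)..(2 * Real.pi), (a j φ : ℂ) * cexp (-((m + 2 * l - j) * φ * I))) := by
    refine IND_sum _ _ fun j hj => IND_sum _ _ fun l hl => ?_
    rw [Finset.mem_range] at hj hl
    obtain ⟨C, hC⟩ := IND_mono N l (j - l) (by omega) (by omega)
      ((1 / 2 : ℂ) ^ j * (j.choose l : ℂ) *
        ∫ φ in (0:ℝ)..(2 * Real.pi), (a j φ : ℂ) * cexp (-((m + 2 * l - j) * φ * I)))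
    refine ⟨C, fun z => ?_⟩
    rw [← hC z]
    ring
  obtain ⟨C, hC⟩ := h1
  exact ⟨C, fun z => (hSP a N ha m z).trans (hC z)⟩

theorem tIND (hDV : StDV) (hSP : StSP) (hCH : StCH) : StIND := by
  intro γ ρ hγ N
  induction N with
  | zero =>
    intro a _ M h m hm z
    have e : Fm a 0 m z = Fm a 0 m (γ 0) := by simp [Fm, Kf]
    rw [e]
    exact h m hm 0
  | succ N ih =>
    intro a ha M h
    have ha' := IND_coef ha
    have hcc : Continuous (fun s : ℝ => (ρ s : ℂ) * I * cexp (s * I)) := by
      have := hγ.cont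
      fun_prop
    -- the recursion on the curve
    have hrec : ∀ m : ℤ, M - 1 < m → ∀ s : ℝ,
        Fm (da a) N (m + 2) (γ s) = cexp (-(2 * s * I)) * Fm (da a) N m (γ s) := by
      intro m hm s
      have h1 := hDV a N ha γ _ hcc hγ.der (m + 1) s
      have h2 : HasDerivAt (fun t => Fm a (N + 1) (m + 1) (γ t)) 0 s := by
        have e : (fun t => Fm a (N + 1) (m + 1) (γ t)) = fun _ => 0 := by
          funext t
          exact h (m + 1) (by omega) t
        rw [e]
        exact hasDerivAt_const s 0
      have h3 := h1.unique h2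
      have e1 : m + 1 + 1 = m + 2 := by ring
      have e2 : m + 1 - 1 = m := by ring
      rw [e1, e2] at h3
      have hρ : (ρ s : ℂ) ≠ 0 := by
        have := (hγ.pos s).ne'
        exact_mod_cast this
      have hconj : starRingEnd ℂ ((ρ s : ℂ) * I * cexp (s * I)) =
          -((ρ s : ℂ) * I * cexp (-(s * I))) := by
        rw [map_mul, map_mul, Complex.conj_ofReal, Complex.conj_I, ← Complex.exp_conj, map_mul,
          Complex.conj_ofReal, Complex.conj_I]
        have : (s : ℂ) * -I = -(s * I) := by ring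
        rw [this]
        ring
      rw [hconj] at h3
      have h4 : (ρ s : ℂ) * I * (cexp (s * I) * Fm (da a) N (m + 2) (γ s) -
          cexp (-(s * I)) * Fm (da a) N m (γ s)) = 0 := by
        have h5 : ((ρ s : ℂ) * I * cexp (s * I) * Fm (da a) N (m + 2) (γ s) +
            -((ρ s : ℂ) * I * cexp (-(s * I))) * Fm (da a) N m (γ s)) = 0 := by
          have h6 := congrArg (fun x => x * 2) h3
          simp only [zero_mul] at h6
          rw [div_mul_cancel₀ _ (two_ne_zero)] at h6
          exact h6
        rw [← h5]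
        ring
      have h7 : cexp (s * I) * Fm (da a) N (m + 2) (γ s) - cexp (-(s * I)) * Fm (da a) N m (γ s)
          = 0 := by
        rcases mul_eq_zero.1 h4 with h8 | h8
        · exfalso
          rcases mul_eq_zero.1 h8 with h9 | h9
          · exact hρ h9
          · exact I_ne_zero h9
        · exact h8
      have h10 : cexp (s * I) * Fm (da a) N (m + 2) (γ s) = cexp (-(s * I)) * Fm (da a) N m (γ s) :=
        sub_eq_zero.1 h7
      have e3 : cexp (-(2 * s * I)) = cexp (-(s * I)) * cexp (-(s * I)) := by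
        rw [← Complex.exp_add]
        congr 1
        ring
      have e4 : cexp (-(s * I)) * cexp (s * I) = 1 := by
        rw [← Complex.exp_add]
        simp
      calc Fm (da a) N (m + 2) (γ s)
          = (cexp (-(s * I)) * cexp (s * I)) * Fm (da a) N (m + 2) (γ s) := by rw [e4, one_mul]
        _ = cexp (-(s * I)) * (cexp (s * I) * Fm (da a) N (m + 2) (γ s)) := by ring
        _ = cexp (-(2 * s * I)) * Fm (da a) N m (γ s) := by rw [h10, e3]; ring
    have hchain : ∀ m : ℤ, M - 1 < m → ∀ (k : ℕ) (s : ℝ),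
        Fm (da a) N (m + 2 * k) (γ s) = cexp (-(2 * k * s * I)) * Fm (da a) N m (γ s) := by
      intro m hm k
      induction k with
      | zero =>
        intro s
        simp
      | succ k ihk =>
        intro s
        have e : m + 2 * ((k + 1 : ℕ) : ℤ) = m + 2 * (k : ℤ) + 2 := by push_cast; ring
        rw [e, hrec (m + 2 * k) (by omega) s, ihk s, ← mul_assoc, ← Complex.exp_add]
        congr 2
        push_cast
        ring
    have hvan : ∀ m : ℤ, M - 1 < m → ∀ s : ℝ, Fm (da a) N m (γ s) = 0 := by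
      intro m hm s
      choose P hP using fun k : ℕ => IND_isPol hSP ha' N (m + 2 * k)
      have h1 := hCH γ ρ hγ N P (by
        intro k t
        rw [← hP k, ← hP 0, hchain m hm k t]
        simp) s
      rw [← hP 0] at h1
      simpa using h1
    have hall := ih (da a) ha' (M - 1) hvan
    intro m hm z
    -- along the segment
    have hseg : ∀ t : ℝ, HasDerivAt (fun t : ℝ => Fm a (N + 1) m (γ 0 + t * (z - γ 0))) 0 t := by
      intro t
      have h1 := hDV a N ha (fun t : ℝ => γ 0 + t * (z - γ 0)) (fun _ => z - γ 0)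
        continuous_const (by
          intro s
          have h2 : HasDerivAt (fun t : ℝ => (t : ℂ)) 1 s := Complex.ofRealCLM.hasDerivAt
          have h3 := (h2.mul_const (z - γ 0)).const_add (γ 0)
          simpa using h3) m t
      have e1 := hall (m + 1) (by omega) (γ 0 + t * (z - γ 0))
      have e2 := hall (m - 1) (by omega) (γ 0 + t * (z - γ 0))
      simp only [e1, e2, mul_zero, add_zero, zero_div] at h1
      exact h1
    have hconst := is_const_of_deriv_eq_zero (𝕜 := ℝ)
      (f := fun t : ℝ => Fm a (N + 1) m (γ 0 + t * (z - γ 0)))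
      (fun t => (hseg t).differentiableAt) (fun t => (hseg t).deriv) 1 0
    simp only [Complex.ofReal_one, one_mul, Complex.ofReal_zero, zero_mul, add_zero,
      add_sub_cancel] at hconst
    rw [hconst]
    exact h m hm 0

end H738PI
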