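import Pool.Agent.H738R2.PI.Defs

/-! Task INV: quantitative holomorphic inverse function theorem. -/

open Complex Set Filter Topology Polynomial

namespace H738PI

theorem tINV : StINV := by
  intro U r hr hU hd
  have hana : ∀ x ∈ Metric.ball (0:ℂ) r, AnalyticAt ℂ U x := fun x hx =>
    hU.analyticAt (Metric.isOpen_ball.mem_nhds hx)
  have h0 : (0:ℂ) ∈ Metric.ball (0:ℂ) r := Metric.mem_ball_self hr
  have hstrict : HasStrictDerivAt U (deriv U 0) 0 := (hana 0 h0).hasStrictDerivAt
  -- the local inverse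
  set e := (hstrict.hasStrictFDerivAt_equiv hd).toOpenPartialHomeomorph U with he
  have hecoe : ∀ x, e x = U x := fun x => rfl
  have h0s : (0:ℂ) ∈ e.source := (hstrict.hasStrictFDerivAt_equiv hd).mem_toOpenPartialHomeomorph_source
  have hU0t : U 0 ∈ e.target := by
    have := e.map_source h0s
    rwa [hecoe] at this
  -- the set where the derivative does not vanish
  have hcont : ContinuousOn (deriv U) (Metric.ball (0:ℂ) r) := fun x hx =>
    ((hana x hx).deriv).continuousAt.continuousWithinAt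
  set S : Set ℂ := Metric.ball (0:ℂ) r ∩ deriv U ⁻¹' {0}ᶜ with hS
  have hSopen : IsOpen S := hcont.isOpen_inter_preimage Metric.isOpen_ball isOpen_compl_singleton
  have h0S : (0:ℂ) ∈ S := ⟨h0, by simpa using hd⟩
  have hTopen : IsOpen (e.target ∩ e.symm ⁻¹' S) := e.symm.isOpen_inter_preimage hSopen
  have hU0T : U 0 ∈ e.target ∩ e.symm ⁻¹' S := by
    refine ⟨hU0t, ?_⟩
    have h1 : e.symm (U 0) = 0 := by
      have := e.left_inv h0s
      rwa [hecoe] at this
    rw [Set.mem_preimage, h1]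
    exact h0S
  obtain ⟨r1, hr1, hb1⟩ := Metric.isOpen_iff.1 hTopen _ hU0T
  -- the second radius
  have hcU : ContinuousAt U 0 := (hana 0 h0).continuousAt
  have hnhds : e.source ∩ U ⁻¹' (Metric.ball (U 0) r1) ∈ 𝓝 (0:ℂ) :=
    inter_mem (e.open_source.mem_nhds h0s) (hcU.preimage_mem_nhds (Metric.ball_mem_nhds _ hr1))
  obtain ⟨r2, hr2, hb2⟩ := Metric.mem_nhds_iff.1 hnhds
  refine ⟨r1, hr1, min r2 r, lt_min hr2 hr, min_le_right _ _, e.symm, ?_, ?_, ?_⟩
  · intro v hv
    obtain ⟨hvt, hvS⟩ := hb1 hv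
    obtain ⟨hvr, hvd⟩ := hvS
    have hne : deriv U (e.symm v) ≠ 0 := by simpa using hvd
    have hder : HasDerivAt e (deriv U (e.symm v)) (e.symm v) :=
      (hana _ hvr).differentiableAt.hasDerivAt
    exact (e.hasDerivAt_symm hvt hne hder).differentiableAt.differentiableWithinAt
  · intro v hv
    obtain ⟨hvt, hvS⟩ := hb1 hv
    refine ⟨hvS.1, ?_⟩
    have := e.right_inv hvt
    rwa [hecoe] at this
  · intro y hy
    have hy2 : y ∈ Metric.ball (0:ℂ) r2 := Metric.ball_subset_ball (min_le_left _ _) hy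
    obtain ⟨h1, h2⟩ := hb2 hy2
    refine ⟨h2, ?_⟩
    have := e.left_inv h1
    rwa [hecoe] at this

end H738PI
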