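import Pool.Agent.H738R2.PI.Defs

/-!
# Task LE: local existence with uniform radius
-/

open Complex Set Filter Topology Polynomial

namespace H738PI

set_option linter.unusedVariables false

theorem tLE (hRF : StRF) (hINV : StINV) : StLE := by
  intro n g z0 hn hg hk hdvd
  obtain ⟨r0, hr0, R, hRd, hR⟩ := hRF n g z0 hn hg
  set k := g.rootMultiplicity z0 with hkdef
  obtain ⟨q, hq⟩ := hdvd
  have hq0 : q ≠ 0 := by
    rintro rfl
    omega
  have hq1 : 1 ≤ q := Nat.one_le_iff_ne_zero.2 hq0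
  have hqk : q * k = (q - 1) * n := by
    obtain ⟨q', rfl⟩ : ∃ q', q = q' + 1 := ⟨q - 1, by omega⟩
    have h1 : n = (n - k) + k := by omega
    have h2 : n = (n - k) * q' + (n - k) := by rw [← Nat.mul_succ]; exact hq
    have h3 : k = (n - k) * q' := by omega
    have h4 : q' + 1 - 1 = q' := by omega
    rw [h4]
    calc (q' + 1) * k = (q' + 1) * ((n - k) * q') := by rw [← h3]
      _ = q' * ((n - k) * (q' + 1)) := by ring
      _ = q' * n := by rw [← hq]
  have hqC : (q : ℂ) ≠ 0 := by exact_mod_cast hq0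
  -- the small radius
  set ρ := min r0 1 with hρdef
  have hρ : 0 < ρ := lt_min hr0 one_pos
  have hmem : ∀ y ∈ Metric.ball (0 : ℂ) ρ, z0 + y ^ q ∈ Metric.ball z0 r0 := by
    intro y hy
    rw [mem_ball_zero_iff] at hy
    rw [Metric.mem_ball, dist_eq_norm, add_sub_cancel_left, norm_pow]
    have h1 : ‖y‖ < 1 := hy.trans_le (min_le_right _ _)
    have h2 : ‖y‖ ^ q ≤ ‖y‖ ^ 1 := pow_le_pow_of_le_one (norm_nonneg _) h1.le hq1
    rw [pow_one] at h2
    exact h2.trans_lt (hy.trans_le (min_le_left _ _))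
  set h : ℂ → ℂ := fun y => R (z0 + y ^ q) / q with hh
  have hne : ∀ y ∈ Metric.ball (0 : ℂ) ρ, h y ≠ 0 := by
    intro y hy
    exact div_ne_zero (hR _ (hmem y hy)).1 hqC
  have hhd : DifferentiableOn ℂ h (Metric.ball 0 ρ) := by
    apply DifferentiableOn.div_const
    apply hRd.comp (by fun_prop)
    intro y hy
    exact hmem y hy
  have hid : DifferentiableOn ℂ (fun y => (h y)⁻¹) (Metric.ball 0 ρ) := hhd.inv hne
  obtain ⟨U, hU⟩ := hid.isExactOn_ball
  have hUd : DifferentiableOn ℂ U (Metric.ball 0 ρ) := fun y hy =>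
    (hU _ hy).differentiableAt.differentiableWithinAt
  have h0mem : (0 : ℂ) ∈ Metric.ball (0 : ℂ) ρ := Metric.mem_ball_self hρ
  have hU0 : deriv U 0 ≠ 0 := by
    rw [(hU _ h0mem).deriv]
    exact inv_ne_zero (hne 0 h0mem)
  obtain ⟨r1, hr1, r2, hr2, hr2ρ, Y, hYd, hY1, hY2⟩ := hINV U ρ hρ hUd hU0
  -- continuity of U at 0
  have hUc : ContinuousAt U 0 := (hU _ h0mem).continuousAt
  obtain ⟨η, hη, hη2⟩ := Metric.continuousAt_iff.1 hUc (r1 / 2) (half_pos hr1)
  set m := min η r2 with hm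
  have hm0 : 0 < m := lt_min hη hr2
  refine ⟨min (r1 / 2) (m ^ q), lt_min (half_pos hr1) (pow_pos hm0 q), ?_⟩
  intro u1 z1 d1 hz1 hgz hd1
  obtain ⟨y1, hy1⟩ := IsAlgClosed.exists_pow_nat_eq (z1 - z0) (Nat.pos_of_ne_zero hq0)
  have hy1n : ‖y1‖ < m := by
    have h1 : ‖y1‖ ^ q < m ^ q := by
      rw [← norm_pow, hy1]
      exact hz1.trans_le (min_le_right _ _)
    exact lt_of_pow_lt_pow_left₀ q hm0.le h1
  have hy1r2 : y1 ∈ Metric.ball (0 : ℂ) r2 := by
    rw [mem_ball_zero_iff]; exact hy1n.trans_le (min_le_right _ _)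
  have hy1ρ : y1 ∈ Metric.ball (0 : ℂ) ρ := Metric.ball_subset_ball hr2ρ hy1r2
  have hUy1 : dist (U y1) (U 0) < r1 / 2 := by
    apply hη2
    rw [dist_zero_right]
    exact hy1n.trans_le (min_le_left _ _)
  have hz1' : z0 + y1 ^ q = z1 := by rw [hy1]; ring
  have hRz1 := hR _ (hmem y1 hy1ρ)
  rw [hz1'] at hRz1
  have key : ∀ y : ℂ, (y ^ (q - 1)) ^ n = (y ^ q) ^ k := by
    intro y
    rw [← pow_mul, ← pow_mul, hqk]
  have hd1n : d1 ^ n ≠ 0 := by
    rw [hd1]
    exact mul_ne_zero (pow_ne_zero _ I_ne_zero) hgz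
  have hden : (y1 ^ (q - 1) * R z1) ^ n = d1 ^ n := by
    rw [mul_pow, key, hd1, hRz1.2, hy1]
  have hn0 : n ≠ 0 := by omega
  have hdenne : y1 ^ (q - 1) * R z1 ≠ 0 := by
    intro h0
    rw [h0, zero_pow hn0] at hden
    exact hd1n hden.symm
  set om : ℂ := d1 / (y1 ^ (q - 1) * R z1) with hom
  have homn : om ^ n = 1 := by
    rw [hom, div_pow, hden, div_self hd1n]
  have homd : om * (y1 ^ (q - 1) * R z1) = d1 := div_mul_cancel₀ _ hdenne
  have homnorm : ‖om‖ = 1 := by
    have h1 : ‖om‖ ^ n = 1 := by rw [← norm_pow, homn, norm_one]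
    exact (pow_eq_one_iff_of_nonneg (norm_nonneg _) hn0).1 h1
  set r := min (r1 / 2) (m ^ q) with hrdef
  have harg : ∀ u ∈ Metric.ball u1 r, om * (u - u1) + U y1 ∈ Metric.ball (U 0) r1 := by
    intro u hu
    rw [Metric.mem_ball, dist_eq_norm] at hu ⊢
    have h1 : ‖om * (u - u1)‖ < r1 / 2 := by
      rw [norm_mul, homnorm, one_mul]
      exact hu.trans_le (min_le_left _ _)
    rw [dist_eq_norm] at hUy1
    have h2 : om * (u - u1) + U y1 - U 0 = om * (u - u1) + (U y1 - U 0) := by ring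
    rw [h2]
    have := norm_add_le (om * (u - u1)) (U y1 - U 0)
    linarith
  -- derivative of the inverse function
  have hYder : ∀ v ∈ Metric.ball (U 0) r1, HasDerivAt Y (h (Y v)) v := by
    intro v hv
    have h1 : DifferentiableAt ℂ Y v := hYd.differentiableAt (Metric.isOpen_ball.mem_nhds hv)
    have h2 := hU _ (hY1 v hv).1
    have h3 := h2.comp v h1.hasDerivAt
    have h4 : (U ∘ Y) =ᶠ[𝓝 v] fun v => v := by
      filter_upwards [Metric.isOpen_ball.mem_nhds hv] with w hw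
      exact (hY1 w hw).2
    have h5 : HasDerivAt (U ∘ Y) 1 v := (hasDerivAt_id v).congr_of_eventuallyEq h4
    have h6 := h3.unique h5
    have h7 : deriv Y v = h (Y v) := by
      have := hne (Y v) (hY1 v hv).1
      field_simp at h6
      exact h6
    rw [← h7]
    exact h1.hasDerivAt
  have hzder : ∀ u ∈ Metric.ball u1 r, HasDerivAt (fun u => z0 + (Y (om * (u - u1) + U y1)) ^ q)
      (om * (Y (om * (u - u1) + U y1) ^ (q - 1) * R (z0 + (Y (om * (u - u1) + U y1)) ^ q))) u := by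
    intro u hu
    have h1 := hYder _ (harg u hu)
    have h2 : HasDerivAt (fun u => om * (u - u1) + U y1) om u := by
      have := ((hasDerivAt_id u).sub_const u1).const_mul om
      simpa using this.add_const (U y1)
    have h3 := (h1.comp u h2).pow q
    have h4 := h3.const_add z0
    refine h4.congr_deriv ?_
    simp only [Function.comp_apply, hh]
    field_simp
  refine ⟨fun u => z0 + (Y (om * (u - u1) + U y1)) ^ q, ⟨?_, ?_⟩, ?_, ?_⟩
  · intro u hu
    exact (hzder u hu).differentiableAt.differentiableWithinAt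
  · intro u hu
    rw [(hzder u hu).deriv]
    have h1 := (hY1 _ (harg u hu)).1
    have h2 := (hR _ (hmem _ h1)).2
    rw [h2, mul_pow, mul_pow, homn, one_mul, key, add_sub_cancel_left]
  · have h1 : om * (u1 - u1) + U y1 = U y1 := by ring
    simp only [h1, (hY2 y1 hy1r2).2, hz1']
  · have hr : 0 < r := lt_min (half_pos hr1) (pow_pos hm0 q)
    rw [(hzder u1 (Metric.mem_ball_self hr)).deriv]
    have h1 : om * (u1 - u1) + U y1 = U y1 := by ring
    rw [h1, (hY2 y1 hy1r2).2, hz1', homd]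

end H738PI
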