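import Pool.Agent.H738R2.PI.Defs

open Complex Set Filter Topology Polynomial

namespace H738PI

/-- two solutions of `q^n = i^n g(p)` near `(p0,q0)`, `q0 ≠ 0`: `q` is a Lipschitz function of `p` -/
lemma LU_lip (n : ℕ) (g : ℂ[X]) (p0 q0 : ℂ) (hn : 1 ≤ n) (hq : q0 ≠ 0) :
    ∃ K : ℝ, ∀ᶠ w : (ℂ × ℂ) × (ℂ × ℂ) in 𝓝 ((p0, p0), (q0, q0)),
      w.2.1 ^ n = I ^ n * g.eval w.1.1 → w.2.2 ^ n = I ^ n * g.eval w.1.2 →
        ‖w.2.1 - w.2.2‖ ≤ K * ‖w.1.1 - w.1.2‖ := by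
  -- local Lipschitz property of `g`
  have hcd : ContDiffAt ℝ 1 (fun x : ℂ => g.eval x) p0 := by
    have h1 : ContDiff ℂ 1 (fun x : ℂ => g.eval x) := by
      simpa using (Polynomial.contDiff_aeval (𝕜 := ℂ) g 1)
    exact (h1.restrict_scalars ℝ).contDiffAt
  obtain ⟨L, t, ht, hL⟩ := hcd.exists_lipschitzOnWith
  -- the geometric sum is bounded below
  set S : ℂ × ℂ → ℂ := fun w => ∑ i ∈ Finset.range n, w.1 ^ i * w.2 ^ (n - 1 - i) with hS
  have hSc : Continuous S := by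
    rw [hS]; fun_prop
  have hS0 : S (q0, q0) = n * q0 ^ (n - 1) := by
    simp only [hS]
    rw [Finset.sum_congr rfl (g := fun _ => q0 ^ (n - 1))]
    · simp
    · intro i hi
      rw [← pow_add]
      congr 1
      have := Finset.mem_range.mp hi
      omega
  have hS0' : S (q0, q0) ≠ 0 := by
    rw [hS0]
    exact mul_ne_zero (by exact_mod_cast (by omega : n ≠ 0)) (pow_ne_zero _ hq)
  set c : ℝ := ‖S (q0, q0)‖ / 2 with hc
  have hcpos : 0 < c := by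
    have : 0 < ‖S (q0, q0)‖ := norm_pos_iff.mpr hS0'
    positivity
  have hSev : ∀ᶠ w : ℂ × ℂ in 𝓝 (q0, q0), c < ‖S w‖ := by
    have h1 : ContinuousAt (fun w => ‖S w‖) (q0, q0) := hSc.norm.continuousAt
    apply h1.eventually_const_lt
    have : 0 < ‖S (q0, q0)‖ := norm_pos_iff.mpr hS0'
    rw [hc]; linarith
  refine ⟨L / c, ?_⟩
  have e1 : ∀ᶠ w : (ℂ × ℂ) × (ℂ × ℂ) in 𝓝 ((p0, p0), (q0, q0)), w.1.1 ∈ t := by
    have : Tendsto (fun w : (ℂ × ℂ) × (ℂ × ℂ) => w.1.1) (𝓝 ((p0, p0), (q0, q0))) (𝓝 p0) :=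
      (continuous_fst.comp continuous_fst).tendsto _
    exact this.eventually ht
  have e2 : ∀ᶠ w : (ℂ × ℂ) × (ℂ × ℂ) in 𝓝 ((p0, p0), (q0, q0)), w.1.2 ∈ t := by
    have : Tendsto (fun w : (ℂ × ℂ) × (ℂ × ℂ) => w.1.2) (𝓝 ((p0, p0), (q0, q0))) (𝓝 p0) :=
      (continuous_snd.comp continuous_fst).tendsto _
    exact this.eventually ht
  have e3 : ∀ᶠ w : (ℂ × ℂ) × (ℂ × ℂ) in 𝓝 ((p0, p0), (q0, q0)), c < ‖S w.2‖ := by
    have : Tendsto (fun w : (ℂ × ℂ) × (ℂ × ℂ) => w.2) (𝓝 ((p0, p0), (q0, q0)))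
        (𝓝 (q0, q0)) := continuous_snd.tendsto _
    exact this.eventually hSev
  filter_upwards [e1, e2, e3] with w h1 h2 h3 k1 k2
  have hg := hL.norm_sub_le h1 h2
  have key : S w.2 * (w.2.1 - w.2.2) = I ^ n * (g.eval w.1.1 - g.eval w.1.2) := by
    have := (Commute.all w.2.1 w.2.2).geom_sum₂_mul n
    simp only [hS]
    rw [this, k1, k2]; ring
  have key2 : ‖S w.2‖ * ‖w.2.1 - w.2.2‖ = ‖g.eval w.1.1 - g.eval w.1.2‖ := by
    rw [← norm_mul, key, norm_mul, norm_pow, norm_I]; simp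
  have h4 : c * ‖w.2.1 - w.2.2‖ ≤ L * ‖w.1.1 - w.1.2‖ := by
    calc c * ‖w.2.1 - w.2.2‖ ≤ ‖S w.2‖ * ‖w.2.1 - w.2.2‖ := by gcongr
      _ = ‖g.eval w.1.1 - g.eval w.1.2‖ := key2
      _ ≤ L * ‖w.1.1 - w.1.2‖ := hg
  rw [div_mul_eq_mul_div, le_div_iff₀ hcpos]
  linarith

theorem tLU : StLU := by
  intro n g u1 z y hn hz hy h0 h1 hg
  have hzA : AnalyticAt ℂ z u1 :=
    Complex.analyticAt_iff_eventually_differentiableAt.mpr (hz.mono fun u hu => hu.1)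
  have hyA : AnalyticAt ℂ y u1 :=
    Complex.analyticAt_iff_eventually_differentiableAt.mpr (hy.mono fun u hu => hu.1)
  have hq : deriv z u1 ≠ 0 := by
    intro h
    have := hz.self_of_nhds.2
    rw [h, zero_pow (by omega)] at this
    exact mul_ne_zero (pow_ne_zero _ I_ne_zero) hg this.symm
  obtain ⟨K, hK⟩ := LU_lip n g (z u1) (deriv z u1) hn hq
  have hT : Tendsto (fun u => (((z u, y u), (deriv z u, deriv y u)) : (ℂ × ℂ) × (ℂ × ℂ))) (𝓝 u1)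
      (𝓝 ((z u1, z u1), (deriv z u1, deriv z u1))) := by
    have a1 : Tendsto z (𝓝 u1) (𝓝 (z u1)) := hzA.continuousAt
    have a2 : Tendsto y (𝓝 u1) (𝓝 (z u1)) := by rw [h0]; exact hyA.continuousAt
    have a3 : Tendsto (deriv z) (𝓝 u1) (𝓝 (deriv z u1)) := hzA.deriv.continuousAt
    have a4 : Tendsto (deriv y) (𝓝 u1) (𝓝 (deriv z u1)) := by
      rw [h1]; exact hyA.deriv.continuousAt
    exact (a1.prodMk_nhds a2).prodMk_nhds (a3.prodMk_nhds a4)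
  have hE := (hT.eventually hK).and (hz.and hy)
  obtain ⟨ε, hε, hball⟩ := Metric.eventually_nhds_iff_ball.mp hE
  apply Metric.eventually_nhds_iff_ball.mpr
  refine ⟨ε, hε, fun u hu => ?_⟩
  have hmem : ∀ t : ℝ, t ∈ Icc (0:ℝ) 1 → u1 + (t : ℂ) * (u - u1) ∈ Metric.ball u1 ε := by
    intro t ht
    rw [Metric.mem_ball, dist_eq_norm] at hu ⊢
    have : u1 + (t : ℂ) * (u - u1) - u1 = (t : ℂ) * (u - u1) := by ring
    rw [this, norm_mul, Complex.norm_real, Real.norm_eq_abs, abs_of_nonneg ht.1]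
    calc t * ‖u - u1‖ ≤ 1 * ‖u - u1‖ := by gcongr; exact ht.2
      _ < ε := by rw [one_mul]; exact hu
  have hder : ∀ t : ℝ, t ∈ Icc (0:ℝ) 1 →
      HasDerivAt (fun t : ℝ => z (u1 + (t : ℂ) * (u - u1)) - y (u1 + (t : ℂ) * (u - u1)))
        ((deriv z (u1 + (t : ℂ) * (u - u1)) - deriv y (u1 + (t : ℂ) * (u - u1))) * (u - u1)) t := by
    intro t ht
    obtain ⟨-, ⟨b1, -⟩, ⟨b2, -⟩⟩ := hball _ (hmem t ht)
    have l1 : HasDerivAt (fun t : ℝ => u1 + (t : ℂ) * (u - u1)) (u - u1) t := by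
      have := ((Complex.ofRealCLM.hasDerivAt (x := t)).mul_const (u - u1)).const_add u1
      simpa using this
    have c1 := b1.hasDerivAt.comp t l1
    have c2 := b2.hasDerivAt.comp t l1
    have := c1.sub c2
    rw [← sub_mul] at this
    exact this
  have hz0 := eq_zero_of_abs_deriv_le_mul_abs_self_of_eq_zero_right
    (f := fun t : ℝ => z (u1 + (t : ℂ) * (u - u1)) - y (u1 + (t : ℂ) * (u - u1)))
    (f' := fun t : ℝ => (deriv z (u1 + (t : ℂ) * (u - u1)) - deriv y (u1 + (t : ℂ) * (u - u1)))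
      * (u - u1)) (K := K * ‖u - u1‖) (a := 0) (b := 1)
    (fun t ht => (hder t ht).continuousAt.continuousWithinAt)
    (fun t ht => (hder t ⟨ht.1, ht.2.le⟩).hasDerivWithinAt)
    (by simp [h0])
    (by
      intro t ht
      obtain ⟨k, ⟨-, k1⟩, ⟨-, k2⟩⟩ := hball _ (hmem t ⟨ht.1, ht.2.le⟩)
      have k3 := k k1 k2
      simp only at k3 ⊢
      rw [norm_mul]
      calc _ ≤ (K * ‖z (u1 + (t : ℂ) * (u - u1)) - y (u1 + (t : ℂ) * (u - u1))‖) * ‖u - u1‖ := by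
            gcongr
        _ = _ := by ring)
    1 ⟨zero_le_one, le_rfl⟩
  have : z u - y u = 0 := by simpa using hz0
  exact sub_eq_zero.mp this

end H738PI
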