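import Pool.Agent.H738R2.PI.Defs

open Complex Set Filter Topology Polynomial

namespace H738PI

/-- two solutions of `q^n = i^n g(p)` near `(p0,q0)`, `q0 ≠ 0`: `q` is a Lipschitz function of `p` -/
lemma LUR_lip (n : ℕ) (g : ℂ[X]) (p0 q0 : ℂ) (hn : 1 ≤ n) (hq : q0 ≠ 0) :
    ∃ K : ℝ, ∀ᶠ w : (ℂ × ℂ) × (ℂ × ℂ) in 𝓝 ((p0, p0), (q0, q0)),
      w.2.1 ^ n = I ^ n * g.eval w.1.1 → w.2.2 ^ n = I ^ n * g.eval w.1.2 →
        ‖w.2.1 - w.2.2‖ ≤ K * ‖w.1.1 - w.1.2‖ := by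
  -- local Lipschitz property of `g`
  have hcd : ContDiffAt ℝ 1 (fun x : ℂ => g.eval x) p0 := by
    have h1 : ContDiff ℂ 1 (fun x : ℂ => g.eval x) := by
      simpa using (Polynomial.contDiff_aeval (𝕜 := ℂ) g 1)
    exact (h1.restrict_scalars ℝ).contDiffAt
  obtain ⟨L, t, ht, hL⟩ := hcd.exists_lipschitzOnWith
  -- the geometric sum is bounded below
  set S : ℂ × ℂ → ℂ := fun w => ∑ i ∈ Finset.range n, w.1 ^ i * w.2 ^ (n - 1 - i) with hS
  have hSc : Continuous S := by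
    rw [hS]; fun_prop
  have hS0 : S (q0, q0) = n * q0 ^ (n - 1) := by
    simp only [hS]
    rw [Finset.sum_congr rfl (g := fun _ => q0 ^ (n - 1))]
    · simp
    · intro i hi
      rw [← pow_add]
      congr 1
      have := Finset.mem_range.mp hi
      omega
  have hS0' : S (q0, q0) ≠ 0 := by
    rw [hS0]
    exact mul_ne_zero (by exact_mod_cast (by omega : n ≠ 0)) (pow_ne_zero _ hq)
  set c : ℝ := ‖S (q0, q0)‖ / 2 with hc
  have hcpos : 0 < c := by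
    have : 0 < ‖S (q0, q0)‖ := norm_pos_iff.mpr hS0'
    positivity
  have hSev : ∀ᶠ w : ℂ × ℂ in 𝓝 (q0, q0), c < ‖S w‖ := by
    have h1 : ContinuousAt (fun w => ‖S w‖) (q0, q0) := hSc.norm.continuousAt
    apply h1.eventually_const_lt
    have : 0 < ‖S (q0, q0)‖ := norm_pos_iff.mpr hS0'
    rw [hc]; linarith
  refine ⟨L / c, ?_⟩
  have e1 : ∀ᶠ w : (ℂ × ℂ) × (ℂ × ℂ) in 𝓝 ((p0, p0), (q0, q0)), w.1.1 ∈ t := by
    have : Tendsto (fun w : (ℂ × ℂ) × (ℂ × ℂ) => w.1.1) (𝓝 ((p0, p0), (q0, q0))) (𝓝 p0) :=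
      (continuous_fst.comp continuous_fst).tendsto _
    exact this.eventually ht
  have e2 : ∀ᶠ w : (ℂ × ℂ) × (ℂ × ℂ) in 𝓝 ((p0, p0), (q0, q0)), w.1.2 ∈ t := by
    have : Tendsto (fun w : (ℂ × ℂ) × (ℂ × ℂ) => w.1.2) (𝓝 ((p0, p0), (q0, q0))) (𝓝 p0) :=
      (continuous_snd.comp continuous_fst).tendsto _
    exact this.eventually ht
  have e3 : ∀ᶠ w : (ℂ × ℂ) × (ℂ × ℂ) in 𝓝 ((p0, p0), (q0, q0)), c < ‖S w.2‖ := by
    have : Tendsto (fun w : (ℂ × ℂ) × (ℂ × ℂ) => w.2) (𝓝 ((p0, p0), (q0, q0)))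
        (𝓝 (q0, q0)) := continuous_snd.tendsto _
    exact this.eventually hSev
  filter_upwards [e1, e2, e3] with w h1 h2 h3 k1 k2
  have hg := hL.norm_sub_le h1 h2
  have key : S w.2 * (w.2.1 - w.2.2) = I ^ n * (g.eval w.1.1 - g.eval w.1.2) := by
    have := (Commute.all w.2.1 w.2.2).geom_sum₂_mul n
    simp only [hS]
    rw [this, k1, k2]; ring
  have key2 : ‖S w.2‖ * ‖w.2.1 - w.2.2‖ = ‖g.eval w.1.1 - g.eval w.1.2‖ := by
    rw [← norm_mul, key, norm_mul, norm_pow, norm_I]; simp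
  have h4 : c * ‖w.2.1 - w.2.2‖ ≤ L * ‖w.1.1 - w.1.2‖ := by
    calc c * ‖w.2.1 - w.2.2‖ ≤ ‖S w.2‖ * ‖w.2.1 - w.2.2‖ := by gcongr
      _ = ‖g.eval w.1.1 - g.eval w.1.2‖ := key2
      _ ≤ L * ‖w.1.1 - w.1.2‖ := hg
  rw [div_mul_eq_mul_div, le_div_iff₀ hcpos]
  linarith

theorem tLUR : StLUR := by
  intro n g x1 z y z' y' hn hz hy hzc hyc h0 h1 hg
  have hq : z' x1 ≠ 0 := by
    intro h
    have := hz.self_of_nhds.2
    rw [h, zero_pow (by omega)] at this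
    exact mul_ne_zero (pow_ne_zero _ I_ne_zero) hg this.symm
  obtain ⟨K, hK⟩ := LUR_lip n g (z x1) (z' x1) hn hq
  have hT : Tendsto (fun u => (((z u, y u), (z' u, y' u)) : (ℂ × ℂ) × (ℂ × ℂ))) (𝓝 x1)
      (𝓝 ((z x1, z x1), (z' x1, z' x1))) := by
    have a1 : Tendsto z (𝓝 x1) (𝓝 (z x1)) := hz.self_of_nhds.1.continuousAt
    have a2 : Tendsto y (𝓝 x1) (𝓝 (z x1)) := by
      rw [h0]; exact hy.self_of_nhds.1.continuousAt
    have a3 : Tendsto z' (𝓝 x1) (𝓝 (z' x1)) := hzc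
    have a4 : Tendsto y' (𝓝 x1) (𝓝 (z' x1)) := by
      rw [h1]; exact hyc
    exact (a1.prodMk_nhds a2).prodMk_nhds (a3.prodMk_nhds a4)
  have hE := (hT.eventually hK).and (hz.and hy)
  obtain ⟨ε, hε, hball⟩ := Metric.eventually_nhds_iff_ball.mp hE
  apply Metric.eventually_nhds_iff_ball.mpr
  refine ⟨ε, hε, fun u hu => ?_⟩
  have hmem : ∀ t : ℝ, t ∈ Icc (0:ℝ) 1 → x1 + t * (u - x1) ∈ Metric.ball x1 ε := by
    intro t ht
    rw [Metric.mem_ball, dist_eq_norm] at hu ⊢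
    have : x1 + t * (u - x1) - x1 = t * (u - x1) := by ring
    rw [this, norm_mul, Real.norm_eq_abs, abs_of_nonneg ht.1]
    calc t * ‖u - x1‖ ≤ 1 * ‖u - x1‖ := by gcongr; exact ht.2
      _ < ε := by rw [one_mul]; exact hu
  have hder : ∀ t : ℝ, t ∈ Icc (0:ℝ) 1 →
      HasDerivAt (fun t : ℝ => z (x1 + t * (u - x1)) - y (x1 + t * (u - x1)))
        (((u - x1 : ℝ) : ℂ) * (z' (x1 + t * (u - x1)) - y' (x1 + t * (u - x1)))) t := by
    intro t ht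
    obtain ⟨-, ⟨b1, -⟩, ⟨b2, -⟩⟩ := hball _ (hmem t ht)
    have l1 : HasDerivAt (fun t : ℝ => x1 + t * (u - x1)) (u - x1) t := by
      have := ((hasDerivAt_id t).mul_const (u - x1)).const_add x1
      simpa using this
    have c1 := b1.scomp t l1
    have c2 := b2.scomp t l1
    have := c1.sub c2
    simp only [Complex.real_smul] at this
    rw [← mul_sub] at this
    exact this
  have hz0 := eq_zero_of_abs_deriv_le_mul_abs_self_of_eq_zero_right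
    (f := fun t : ℝ => z (x1 + t * (u - x1)) - y (x1 + t * (u - x1)))
    (f' := fun t : ℝ => (((u - x1 : ℝ) : ℂ) * (z' (x1 + t * (u - x1)) - y' (x1 + t * (u - x1)))))
    (K := |u - x1| * K) (a := 0) (b := 1)
    (fun t ht => (hder t ht).continuousAt.continuousWithinAt)
    (fun t ht => (hder t ⟨ht.1, ht.2.le⟩).hasDerivWithinAt)
    (by simp [h0])
    (by
      intro t ht
      obtain ⟨k, ⟨-, k1⟩, ⟨-, k2⟩⟩ := hball _ (hmem t ⟨ht.1, ht.2.le⟩)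
      have k3 := k k1 k2
      simp only at k3 ⊢
      rw [norm_mul, Complex.norm_real, Real.norm_eq_abs, mul_assoc]
      gcongr)
    1 ⟨zero_le_one, le_rfl⟩
  have : z u - y u = 0 := by simpa using hz0
  exact sub_eq_zero.mp this

end H738PI
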