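import Pool.Agent.H738R2.PI.Defs

/-!
Task MODE: the polynomials `g` and `e`.
-/

set_option autoImplicit false

open Complex Set Filter Topology Polynomial

namespace H738PI

/-- Fourier coefficient without the factor `1/2π` -/
noncomputable def MODE_al (a : ℝ → ℝ) (k : ℤ) : ℂ :=
  ∫ φ in (0:ℝ)..(2 * Real.pi), (a φ : ℂ) * cexp (-(k * φ * I))

theorem MODE_conj (a : ℕ → ℝ → ℝ) (N : ℕ) (m : ℤ) (z : ℂ) :
    starRingEnd ℂ (Fm a N m z) = Fm a N (-m) z := by
  unfold Fm
  rw [intervalIntegral.integral_of_le (by positivity), intervalIntegral.integral_of_le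
    (by positivity), ← integral_conj]
  refine MeasureTheory.integral_congr_ae (Eventually.of_forall fun φ => ?_)
  simp only [map_mul, conj_ofReal, ← exp_conj, map_neg, conj_I, map_intCast, Int.cast_neg]
  congr 2
  ring

/-- a continuous periodic function with zero Fourier coefficients vanishes -/
theorem MODE_zero (f : ℝ → ℂ) (hf : Continuous f) (hp : ∀ x, f (x + 2 * Real.pi) = f x)
    (h : ∀ k : ℤ, ∫ φ in (0:ℝ)..(2 * Real.pi), f φ * cexp (-(k * φ * I)) = 0) (x : ℝ) :
    f x = 0 := by
  have : Fact (0 < 2 * Real.pi) := ⟨Real.two_pi_pos⟩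
  have hcont : Continuous (AddCircle.liftIco (2 * Real.pi) 0 f) := by
    apply AddCircle.liftIco_continuous
    · rw [hp 0]
    · exact hf.continuousOn
  set F : C(AddCircle (2 * Real.pi), ℂ) := ⟨AddCircle.liftIco (2 * Real.pi) 0 f, hcont⟩ with hF
  have hz : ∀ n : ℤ, fourierCoeff F n = 0 := by
    intro n
    have h1 : fourierCoeff (⇑F) n = fourierCoeff (AddCircle.liftIco (2 * Real.pi) 0 f) n := rfl
    rw [h1, fourierCoeff_liftIco_eq, fourierCoeffOn_eq_integral]
    have h2 := h n
    rw [zero_add] at *
    have h3 : (∫ x in (0:ℝ)..(2 * Real.pi), (fourier (-n)) (x : AddCircle (2 * Real.pi - 0)) • f x)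
        = ∫ φ in (0:ℝ)..(2 * Real.pi), f φ * cexp (-(n * φ * I)) := by
      apply intervalIntegral.integral_congr
      intro t _
      simp only [smul_eq_mul]
      rw [mul_comm, fourier_coe_apply]
      congr 2
      have : (Real.pi : ℂ) ≠ 0 := by exact_mod_cast Real.pi_ne_zero
      push_cast
      field_simp
      ring
    rw [h3, h2, smul_zero]
  have hs : Summable (fourierCoeff F) := by
    have : fourierCoeff F = fun _ => 0 := funext hz
    rw [this]; exact summable_zero
  have h4 := hasSum_fourier_series_of_summable hs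
  have h5 : F = 0 := by
    have : (fun i => fourierCoeff F i • (fourier i : C(AddCircle (2 * Real.pi), ℂ))) = fun _ => 0 := by
      funext i; rw [hz i, zero_smul]
    rw [this] at h4
    exact h4.unique hasSum_zero
  -- evaluate
  have hper : Function.Periodic f (2 * Real.pi) := hp
  obtain ⟨y, hy, hxy⟩ := hper.exists_mem_Ico₀ Real.two_pi_pos x
  rw [hxy]
  have h6 : F (y : AddCircle (2 * Real.pi)) = 0 := by rw [h5]; rfl
  have h7 : F (y : AddCircle (2 * Real.pi)) = f y := by
    show AddCircle.liftIco (2 * Real.pi) 0 f (y : AddCircle (2 * Real.pi)) = f y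
    apply AddCircle.liftIco_coe_apply
    rw [zero_add]; exact hy
  rw [← h7, h6]

theorem MODE_int (k : ℤ) (hk : k ≠ 0) :
    ∫ φ in (0:ℝ)..(2 * Real.pi), cexp (-(k * φ * I)) = 0 := by
  have h1 : ∀ φ : ℝ, cexp (-(k * φ * I)) = cexp ((-(k:ℂ) * I) * φ) := by
    intro φ; congr 1; ring
  simp_rw [h1]
  have hc : (-(k:ℂ) * I) ≠ 0 := by
    apply mul_ne_zero _ I_ne_zero
    exact neg_ne_zero.2 (by exact_mod_cast hk)
  rw [integral_exp_mul_complex hc]
  have h2 : cexp (-(k:ℂ) * I * ((2 * Real.pi : ℝ) : ℂ)) = 1 := by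
    rw [exp_eq_one_iff]
    refine ⟨-k, ?_⟩
    push_cast
    ring
  rw [h2]
  simp

theorem tMODE (hSP : StSP) (hSUP : StSUP) : StMODE := by
  intro γ ρ a N hO hC hNC hre hfin
  obtain ⟨M, hM⟩ := hfin
  have key : ∃ n : ℕ, 1 ≤ n ∧ (∃ z, Fm a N n z ≠ 0) ∧ ∀ m : ℤ, (n : ℤ) < |m| → ∀ z,
      Fm a N m z = 0 := by
    by_contra hcon
    -- all nonzero modes vanish
    have hall : ∀ m : ℤ, 0 < |m| → ∀ z, Fm a N m z = 0 := by
      by_contra h0
      push Not at h0
      obtain ⟨m0, hm0, z0, hz0⟩ := h0
      classical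
      -- set of naturals k with F_k nonzero
      let S : Set ℕ := {k | 1 ≤ k ∧ ∃ z, Fm a N k z ≠ 0}
      have hSne : S.Nonempty := by
        refine ⟨m0.natAbs, ?_, ?_⟩
        · have := Int.natAbs_pos.2 (abs_pos.1 hm0); omega
        · rcases le_or_gt 0 m0 with h | h
          · refine ⟨z0, ?_⟩
            have : ((m0.natAbs : ℕ) : ℤ) = m0 := Int.natAbs_of_nonneg h
            rw [this]; exact hz0
          · refine ⟨z0, ?_⟩
            have : ((m0.natAbs : ℕ) : ℤ) = -m0 := Int.ofNat_natAbs_of_nonpos h.le
            rw [this, ← MODE_conj]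
            intro h1
            exact hz0 ((map_eq_zero _).1 h1)
      have hSb : BddAbove S := by
        refine ⟨M.natAbs, ?_⟩
        rintro k ⟨hk1, z, hz⟩
        by_contra hlt
        push Not at hlt
        apply hz
        apply hM
        rw [abs_of_nonneg (by positivity)]
        have : M ≤ (M.natAbs : ℤ) := Int.le_natAbs
        omega
      have hmem := Nat.sSup_mem hSne hSb
      refine hcon ⟨sSup S, hmem.1, hmem.2, ?_⟩
      intro m hm z
      by_contra hz
      have hin : m.natAbs ∈ S := by
        refine ⟨?_, ?_⟩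
        · have h1 := hmem.1
          have h2 : ((m.natAbs : ℕ) : ℤ) = |m| := Int.natCast_natAbs m
          omega
        · rcases le_or_gt 0 m with h | h
          · refine ⟨z, ?_⟩
            have : ((m.natAbs : ℕ) : ℤ) = m := Int.natAbs_of_nonneg h
            rw [this]; exact hz
          · refine ⟨z, ?_⟩
            have : ((m.natAbs : ℕ) : ℤ) = -m := Int.ofNat_natAbs_of_nonpos h.le
            rw [this, ← MODE_conj]
            intro h1
            exact hz ((map_eq_zero _).1 h1)
      have hle := le_csSup hSb hin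
      have h2 : ((m.natAbs : ℕ) : ℤ) = |m| := Int.natCast_natAbs m
      omega
    have hcoef := hSUP N a hC 0 hall
    -- a_j = 0 for 1 ≤ j ≤ N
    have hj : ∀ j : ℕ, 1 ≤ j → j ≤ N → ∀ φ, a j φ = 0 := by
      intro j hj1 hjN φ
      have h1 := MODE_zero (fun φ => (a j φ : ℂ)) (continuous_ofReal.comp (hC.cont j))
        (fun x => by simp only [hC.per]) (fun k => hcoef j hjN k (by
          have := abs_nonneg k
          have h2 : (0:ℤ) - j < 0 := by omega
          omega)) φ
      exact_mod_cast h1
    -- a_0 is constant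
    have h0 : ∃ c : ℝ, ∀ φ, a 0 φ = c := by
      set I0 : ℝ := ∫ φ in (0:ℝ)..(2 * Real.pi), a 0 φ with hI0
      refine ⟨I0 / (2 * Real.pi), fun φ => ?_⟩
      have h1 := MODE_zero (fun φ => (a 0 φ : ℂ) - ((I0 / (2 * Real.pi) : ℝ) : ℂ))
        ((continuous_ofReal.comp (hC.cont 0)).sub continuous_const)
        (fun x => by simp only [hC.per]) (fun k => ?_) φ
      · have h2 := sub_eq_zero.1 h1
        exact_mod_cast h2
      · simp only [sub_mul]
        rw [intervalIntegral.integral_sub]
        · rcases eq_or_ne k 0 with rfl | hk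
          · simp only [Int.cast_zero, zero_mul, neg_zero, exp_zero, mul_one]
            rw [intervalIntegral.integral_ofReal, intervalIntegral.integral_const, ← hI0]
            simp only [sub_zero, real_smul]
            rw [← ofReal_mul, ← ofReal_sub]
            have : (2 * Real.pi) ≠ 0 := Real.two_pi_pos.ne'
            rw [mul_div_cancel₀ _ this, sub_self, ofReal_zero]
          · rw [hcoef 0 (Nat.zero_le _) k (by simpa using hk), intervalIntegral.integral_const_mul,
              MODE_int k hk]
            simp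
        · apply Continuous.intervalIntegrable
          have := hC.cont 0
          fun_prop
        · apply Continuous.intervalIntegrable
          fun_prop
    obtain ⟨c, hc⟩ := h0
    apply hNC
    refine ⟨c, fun z φ => ?_⟩
    unfold Kf
    rw [Finset.sum_range_succ']
    rw [Finset.sum_eq_zero (fun j hjm => ?_)]
    · simp [hc]
    · rw [hj (j + 1) (by omega) (by rw [Finset.mem_range] at hjm; omega), zero_mul]
  obtain ⟨n, hn, ⟨zn, hzn⟩, hhi⟩ := key
  have hcoef : ∀ j : ℕ, j ≤ N → ∀ k : ℤ, (n : ℤ) - j < |k| → MODE_al (a j) k = 0 := by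
    intro j hj k hk
    exact hSUP N a hC n hhi j hj k hk
  set g : ℂ[X] := ∑ j ∈ Finset.range (N + 1),
    C ((1 / 2 : ℂ) ^ j * MODE_al (a j) (j - n)) * X ^ j with hg
  set e : ℂ[X] := ∑ j ∈ Finset.range (N + 1),
    C ((1 / 2 : ℂ) ^ j * MODE_al (a j) (j - n + 2)) * X ^ j with he
  have hgev : ∀ z, g.eval z = Fm a N (-n) z := by
    intro z
    rw [hSP a N hC, hg, eval_finsetSum]
    refine Finset.sum_congr rfl fun j hj => ?_
    have hjN : j ≤ N := by rw [Finset.mem_range] at hj; omega
    rw [Finset.sum_range_succ, Finset.sum_eq_zero]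
    · simp only [eval_mul, eval_C, eval_pow, eval_X, Nat.choose_self, Nat.cast_one, mul_one,
        Nat.sub_self, pow_zero, zero_add]
      have : (∫ φ in (0:ℝ)..(2 * Real.pi), (a j φ : ℂ) *
          cexp (-((((-n : ℤ) : ℂ) + 2 * j - j) * φ * I))) = MODE_al (a j) (j - n) := by
        unfold MODE_al
        congr 1
        funext φ
        congr 2
        push_cast
        ring
      rw [this]
      ring
    · intro l hl
      rw [Finset.mem_range] at hl
      have h1 := hcoef j hjN (-n + 2 * l - j) (by
        rcases abs_cases (-(n:ℤ) + 2 * l - j) with h | h <;> omega)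
      have : (∫ φ in (0:ℝ)..(2 * Real.pi), (a j φ : ℂ) *
          cexp (-((((-n : ℤ) : ℂ) + 2 * l - j) * φ * I))) = MODE_al (a j) (-n + 2 * l - j) := by
        unfold MODE_al
        congr 1
        funext φ
        congr 2
        push_cast
        ring
      rw [this, h1, mul_zero]
  have hgd : ∀ z, starRingEnd ℂ z * (derivative g).eval z + e.eval z = Fm a N (-n + 2) z := by
    intro z
    rw [hSP a N hC, hg, he, derivative_sum, eval_finsetSum, eval_finsetSum, Finset.mul_sum,
      ← Finset.sum_add_distrib]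
    refine Finset.sum_congr rfl fun j hj => ?_
    have hjN : j ≤ N := by rw [Finset.mem_range] at hj; omega
    have hint : ∀ l : ℕ, (∫ φ in (0:ℝ)..(2 * Real.pi), (a j φ : ℂ) *
        cexp (-((((-n + 2 : ℤ) : ℂ) + 2 * l - j) * φ * I))) = MODE_al (a j) (-n + 2 + 2 * l - j) := by
      intro l
      unfold MODE_al
      congr 1
      funext φ
      congr 2
      push_cast
      ring
    have htop : MODE_al (a j) (-n + 2 + 2 * j - j) = MODE_al (a j) (j - n + 2) := by
      congr 1; ring
    rcases j with _ | i
    · simp only [zero_add, Finset.sum_range_one, hint]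
      simp
    · rw [Finset.sum_range_succ, Finset.sum_range_succ, Finset.sum_eq_zero]
      · rw [hint, hint, htop]
        have hi : MODE_al (a (i + 1)) (-n + 2 + 2 * (i : ℤ) - ((i + 1 : ℕ) : ℤ)) =
            MODE_al (a (i + 1)) (((i + 1 : ℕ) : ℤ) - n) := by
          congr 1; push_cast; ring
        rw [hi]
        simp only [derivative_mul, derivative_C, zero_mul, zero_add, derivative_X_pow, eval_mul,
          eval_C, eval_pow, eval_X, Nat.choose_self, Nat.cast_one, mul_one, Nat.sub_self, pow_zero,
          Nat.add_sub_cancel, Nat.choose_succ_self_right, Nat.add_sub_cancel_left,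
          pow_one]
        ring
      · intro l hl
        rw [Finset.mem_range] at hl
        have h1 := hcoef (i + 1) hjN (-n + 2 + 2 * l - ((i + 1 : ℕ) : ℤ)) (by
          rcases abs_cases (-(n:ℤ) + 2 + 2 * l - ((i + 1 : ℕ) : ℤ)) with h | h <;> push_cast at * <;> omega)
        rw [hint, h1, mul_zero]
  refine ⟨n, g, e, hn, ?_, ?_, ?_, ?_⟩
  · rintro h0
    apply hzn
    have h1 := hgev zn
    rw [h0, eval_zero] at h1
    have h2 := MODE_conj a N (-n) zn
    rw [← h1, map_zero, neg_neg] at h2
    exact h2.symm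
  · rw [hg]
    apply natDegree_sum_le_of_forall_le
    intro j hj
    have hjN : j ≤ N := by rw [Finset.mem_range] at hj; omega
    rcases le_or_gt j n with h | h
    · exact (natDegree_C_mul_X_pow_le _ _).trans h
    · rw [hcoef j hjN (j - n) (by rcases abs_cases ((j:ℤ) - n) with h | h <;> omega)]
      simp
  · intro s
    have h1 := hre (-n) s
    rw [← hgev] at h1
    rw [← h1]
    congr 3
    push_cast
    ring
  · intro s
    have h1 := hre (-n + 2) s
    rw [← hgd] at h1
    rw [← h1]
    congr 3
    push_cast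
    ring

end H738PI
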