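import Pool.Agent.H738R2.PI.Defs

set_option autoImplicit false

open Complex Set Filter Topology Polynomial
open scoped BoundedContinuousFunction

namespace H738PI

/-- bounded coefficients in a finite dimensional space -/
theorem NET_fin {J : Type} [Fintype J] {F : Type} [NormedAddCommGroup F] [NormedSpace ℝ F]
    (E : J → F) : ∃ K : ℝ, 0 ≤ K ∧ ∀ c : J → ℝ, ∃ c' : J → ℝ,
      ∑ j, c' j • E j = ∑ j, c j • E j ∧ ∀ j, |c' j| ≤ K * ‖∑ j, c j • E j‖ := by
  classical
  set T : (J → ℝ) →ₗ[ℝ] F := Fintype.linearCombination ℝ E with hT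
  have hTa : ∀ c, T c = ∑ j, c j • E j := fun c => Fintype.linearCombination_apply ℝ E c
  obtain ⟨S, hS⟩ := T.rangeRestrict.exists_rightInverse_of_surjective T.range_rangeRestrict
  set S' : LinearMap.range T →L[ℝ] (J → ℝ) := LinearMap.toContinuousLinearMap S with hS'
  refine ⟨‖S'‖, norm_nonneg S', fun c => ?_⟩
  set u : LinearMap.range T := T.rangeRestrict c with hu
  refine ⟨S' u, ?_, ?_⟩
  · rw [← hTa, ← hTa]
    have h0 : T.rangeRestrict (S u) = u := LinearMap.congr_fun hS u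
    have h2 : T (S u) = T c := congrArg Subtype.val h0
    exact h2
  · intro j
    have h3 := S'.le_opNorm u
    have h4 : ‖u‖ = ‖T c‖ := by simp [hu]
    rw [h4, hTa] at h3
    exact (norm_le_pi_norm (S' u) j).trans h3

/-- Lipschitz bound in terms of the sup norm, on a finite dimensional space -/
theorem NET_key {J : Type} [Fintype J] (E : J → ℝ →ᵇ ℝ) (D : ℝ)
    (hD : ∀ j x y, |E j x - E j y| ≤ D * |x - y|) : ∃ K : ℝ, 0 < K ∧
    ∀ (c : J → ℝ) (x y : ℝ), |(∑ j, c j • E j) x - (∑ j, c j • E j) y| ≤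
      K * ‖∑ j, c j • E j‖ * |x - y| := by
  obtain ⟨K0, hK0, hfin⟩ := NET_fin E
  refine ⟨(Fintype.card J * (K0 * |D|)) + 1, by positivity, ?_⟩
  intro c x y
  obtain ⟨c', h1, h3⟩ := hfin c
  set U : ℝ →ᵇ ℝ := ∑ j, c j • E j with hU
  rw [← h1]
  have h4 : (∑ j, c' j • E j) x - (∑ j, c' j • E j) y = ∑ j, c' j * (E j x - E j y) := by
    rw [BoundedContinuousFunction.coe_sum, Finset.sum_apply, Finset.sum_apply,
      ← Finset.sum_sub_distrib]
    refine Finset.sum_congr rfl fun j _ => ?_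
    simp only [BoundedContinuousFunction.coe_smul, smul_eq_mul]
    ring
  rw [h4, h1]
  have h5 : |∑ j, c' j * (E j x - E j y)| ≤ ∑ _j : J, (K0 * ‖U‖) * (|D| * |x - y|) := by
    refine (Finset.abs_sum_le_sum_abs _ _).trans (Finset.sum_le_sum fun j _ => ?_)
    rw [abs_mul]
    have a2 : |E j x - E j y| ≤ |D| * |x - y| := (hD j x y).trans
      (mul_le_mul_of_nonneg_right (le_abs_self D) (abs_nonneg _))
    exact mul_le_mul (h3 j) a2 (abs_nonneg _) (by positivity)
  rw [Finset.sum_const, Finset.card_univ, nsmul_eq_mul] at h5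
  refine h5.trans ?_
  have h7 : 0 ≤ ‖U‖ * |x - y| := by positivity
  calc (Fintype.card J : ℝ) * (K0 * ‖U‖ * (|D| * |x - y|))
      = (Fintype.card J * (K0 * |D|)) * (‖U‖ * |x - y|) := by ring
    _ ≤ ((Fintype.card J * (K0 * |D|)) + 1) * (‖U‖ * |x - y|) :=
        mul_le_mul_of_nonneg_right (by linarith) h7
    _ = _ := by ring

/-- dense zeros force the function to vanish -/
theorem NET_zero (u : ℝ →ᵇ ℝ) (K h : ℝ) (hK : 0 < K) (hL : ∀ x y, |u x - u y| ≤ K * ‖u‖ * |x - y|)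
    (hz : ∀ x, ∃ s, |x - s| ≤ h ∧ u s = 0) (hKh : K * h < 1) (hh : 0 ≤ h) : u = 0 := by
  have h1 : ‖u‖ ≤ K * ‖u‖ * h := by
    rw [BoundedContinuousFunction.norm_le (by positivity)]
    intro x
    obtain ⟨s, hs, hus⟩ := hz x
    have := hL x s
    rw [hus, sub_zero] at this
    rw [Real.norm_eq_abs]
    exact this.trans (mul_le_mul_of_nonneg_left hs (by positivity))
  have h2 : ‖u‖ = 0 := by
    by_contra hne
    have h3 : 0 < ‖u‖ := lt_of_le_of_ne (norm_nonneg _) (Ne.symm hne)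
    nlinarith
  exact norm_eq_zero.mp h2

/-- bounded and Lipschitz -/
def NET_BL (f : ℝ → ℂ) : Prop := ∃ B D : ℝ, 0 ≤ B ∧ 0 ≤ D ∧ (∀ x, ‖f x‖ ≤ B) ∧
  ∀ x y, ‖f x - f y‖ ≤ D * |x - y|

theorem NET_mul {f g : ℝ → ℂ} (hf : NET_BL f) (hg : NET_BL g) : NET_BL (fun x => f x * g x) := by
  obtain ⟨B1, D1, b1, d1, hB1, hD1⟩ := hf
  obtain ⟨B2, D2, b2, d2, hB2, hD2⟩ := hg
  refine ⟨B1 * B2, B1 * D2 + D1 * B2, by positivity, by positivity, ?_, ?_⟩
  · intro x
    rw [norm_mul]
    exact mul_le_mul (hB1 x) (hB2 x) (norm_nonneg _) b1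
  · intro x y
    have e : f x * g x - f y * g y = f x * (g x - g y) + (f x - f y) * g y := by ring
    rw [e]
    refine (norm_add_le _ _).trans ?_
    rw [norm_mul, norm_mul]
    have a1 : ‖f x‖ * ‖g x - g y‖ ≤ B1 * (D2 * |x - y|) :=
      mul_le_mul (hB1 x) (hD2 x y) (norm_nonneg _) b1
    have a2 : ‖f x - f y‖ * ‖g y‖ ≤ (D1 * |x - y|) * B2 :=
      mul_le_mul (hD1 x y) (hB2 y) (norm_nonneg _) (by positivity)
    calc _ ≤ B1 * (D2 * |x - y|) + (D1 * |x - y|) * B2 := add_le_add a1 a2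
      _ = _ := by ring

theorem NET_one : NET_BL (fun _ => (1:ℂ)) :=
  ⟨1, 0, zero_le_one, le_rfl, fun _ => by simp, fun x y => by simp⟩

theorem NET_pow {f : ℝ → ℂ} (hf : NET_BL f) (k : ℕ) : NET_BL (fun x => f x ^ k) := by
  induction k with
  | zero => simpa using NET_one
  | succ k ih => simpa only [pow_succ] using NET_mul ih hf

theorem NET_conj {f : ℝ → ℂ} (hf : NET_BL f) : NET_BL (fun x => starRingEnd ℂ (f x)) := by
  obtain ⟨B, D, b, d, hB, hD⟩ := hf
  refine ⟨B, D, b, d, fun x => by rw [RCLike.norm_conj]; exact hB x, fun x y => ?_⟩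
  rw [← map_sub, RCLike.norm_conj]
  exact hD x y

theorem NET_gamma (γ : ℝ → ℂ) (ρ : ℝ → ℝ) (h : Oval γ ρ) : NET_BL γ := by
  have hpi : (0:ℝ) < 2 * Real.pi := by positivity
  have hγc : Continuous γ := continuous_iff_continuousAt.mpr fun s => (h.der s).continuousAt
  have hρp : Function.Periodic ρ (2 * Real.pi) := by
    intro s
    have h1 : HasDerivAt (fun t : ℝ => γ (t + 2 * Real.pi))
        ((ρ (s + 2 * Real.pi) : ℂ) * I * cexp (((s + 2 * Real.pi : ℝ) : ℂ) * I)) s :=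
      (h.der (s + 2 * Real.pi)).comp_add_const s (2 * Real.pi)
    have h2 : (fun t : ℝ => γ (t + 2 * Real.pi)) = γ := funext h.per
    rw [h2] at h1
    have h3 := h1.unique (h.der s)
    have h4 : cexp (((s + 2 * Real.pi : ℝ) : ℂ) * I) = cexp (s * I) := by
      push_cast
      rw [add_mul, Complex.exp_add, Complex.exp_two_pi_mul_I, mul_one]
    rw [h4] at h3
    have h5 := mul_right_cancel₀ (Complex.exp_ne_zero _) h3
    have h6 := mul_right_cancel₀ I_ne_zero h5
    exact_mod_cast h6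
  obtain ⟨B, hB⟩ := (isCompact_Icc (a := (0:ℝ)) (b := 2 * Real.pi)).exists_bound_of_continuousOn
    hγc.continuousOn
  obtain ⟨D, hD⟩ := (isCompact_Icc (a := (0:ℝ)) (b := 2 * Real.pi)).exists_bound_of_continuousOn
    h.cont.continuousOn
  have hB' : ∀ s, ‖γ s‖ ≤ B := by
    intro s
    obtain ⟨y, hy, hy2⟩ := Function.Periodic.exists_mem_Ico₀ (f := γ) h.per hpi s
    rw [hy2]; exact hB y ⟨hy.1, hy.2.le⟩
  have hD' : ∀ s, ‖ρ s‖ ≤ D := by
    intro s
    obtain ⟨y, hy, hy2⟩ := hρp.exists_mem_Ico₀ hpi s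
    rw [hy2]; exact hD y ⟨hy.1, hy.2.le⟩
  refine ⟨B, D, (norm_nonneg _).trans (hB' 0), (norm_nonneg _).trans (hD' 0), hB', ?_⟩
  intro x y
  have := Convex.norm_image_sub_le_of_norm_hasDerivWithin_le (f := γ)
    (f' := fun s => (ρ s : ℂ) * I * cexp (s * I)) (C := D) (s := Set.univ) (x := y) (y := x)
    (fun s _ => (h.der s).hasDerivWithinAt) (fun s _ => by
      rw [norm_mul, norm_mul, Complex.norm_I, mul_one, Complex.norm_exp_ofReal_mul_I, mul_one,
        Complex.norm_real]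
      exact hD' s) convex_univ (Set.mem_univ _) (Set.mem_univ _)
  rwa [Real.norm_eq_abs] at this

theorem NET_reim (x y : ℝ) : ((x : ℂ) + (y : ℂ) * I).re = x ∧ ((x : ℂ) + (y : ℂ) * I).im = y := by
  simp

theorem tNET : StNET := by
  intro γ ρ hov N
  classical
  have hBL := NET_gamma γ ρ hov
  have hw : ∀ i j : ℕ, NET_BL (fun s => γ s ^ i * (starRingEnd ℂ (γ s)) ^ j) := fun i j =>
    NET_mul (NET_pow hBL i) (NET_pow (NET_conj hBL) j)
  have hγc : Continuous γ := continuous_iff_continuousAt.mpr fun s => (hov.der s).continuousAt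
  have hwc : ∀ i j : ℕ, Continuous (fun s => γ s ^ i * (starRingEnd ℂ (γ s)) ^ j) := fun i j =>
    (hγc.pow i).mul ((Complex.continuous_conj.comp hγc).pow j)
  choose Bf Df hBf hDf hB hD using hw
  -- the basis
  set E : (Fin (N + 1) × Fin (N + 1)) × Bool → ℝ →ᵇ ℝ := fun p =>
    if p.2 then BoundedContinuousFunction.ofNormedAddCommGroup
      (fun s => (γ s ^ (p.1.1 : ℕ) * (starRingEnd ℂ (γ s)) ^ (p.1.2 : ℕ)).im)
      (Complex.continuous_im.comp (hwc _ _)) (Bf p.1.1 p.1.2)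
      (fun s => (Complex.abs_im_le_norm _).trans (hB _ _ s))
    else BoundedContinuousFunction.ofNormedAddCommGroup
      (fun s => (γ s ^ (p.1.1 : ℕ) * (starRingEnd ℂ (γ s)) ^ (p.1.2 : ℕ)).re)
      (Complex.continuous_re.comp (hwc _ _)) (Bf p.1.1 p.1.2)
      (fun s => (Complex.abs_re_le_norm _).trans (hB _ _ s)) with hE
  set D : ℝ := ∑ p : Fin (N + 1) × Fin (N + 1), Df p.1 p.2 with hDdef
  have hDp : ∀ p : Fin (N + 1) × Fin (N + 1), Df p.1 p.2 ≤ D := fun p =>
    Finset.single_le_sum (f := fun p : Fin (N + 1) × Fin (N + 1) => Df p.1 p.2)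
      (fun p _ => hDf _ _) (Finset.mem_univ p)
  obtain ⟨K, hK, hkey⟩ := NET_key E D (by
    rintro ⟨p, b⟩ x y
    have hx := hD p.1 p.2 x y
    have h2 : Df p.1 p.2 * |x - y| ≤ D * |x - y| :=
      mul_le_mul_of_nonneg_right (hDp p) (abs_nonneg _)
    cases b
    · simp only [hE, Bool.false_eq_true, if_false,
        BoundedContinuousFunction.coe_ofNormedAddCommGroup]
      rw [← Complex.sub_re]
      exact ((Complex.abs_re_le_norm _).trans hx).trans h2
    · simp only [hE, if_true, BoundedContinuousFunction.coe_ofNormedAddCommGroup]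
      rw [← Complex.sub_im]
      exact ((Complex.abs_im_le_norm _).trans hx).trans h2)
  obtain ⟨M, hM⟩ := exists_nat_gt (K * Real.pi + 1)
  refine ⟨M, ?_⟩
  intro m hm C hreal
  have hm1 : (M : ℝ) ≤ |(m : ℝ)| := by exact_mod_cast hm
  have hKpi : 0 < K * Real.pi := by positivity
  have hmpos : 0 < |(m : ℝ)| := by linarith
  have hm0 : (m : ℝ) ≠ 0 := abs_pos.mp hmpos
  set h : ℝ := Real.pi / m with hh
  have habs : |h| = Real.pi / |(m : ℝ)| := by rw [hh, abs_div, abs_of_pos Real.pi_pos]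
  have hKh : K * |h| < 1 := by
    rw [habs, ← mul_div_assoc, div_lt_one hmpos]; linarith
  have hh0 : h ≠ 0 := div_ne_zero Real.pi_pos.ne' hm0
  -- general: value of the combination
  have hval : ∀ (c : (Fin (N + 1) × Fin (N + 1)) × Bool → ℝ) (s : ℝ),
      (∑ p, c p • E p) s = ∑ p : Fin (N + 1) × Fin (N + 1),
        (c (p, false) * (γ s ^ (p.1 : ℕ) * (starRingEnd ℂ (γ s)) ^ (p.2 : ℕ)).re +
         c (p, true) * (γ s ^ (p.1 : ℕ) * (starRingEnd ℂ (γ s)) ^ (p.2 : ℕ)).im) := by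
    intro c s
    rw [BoundedContinuousFunction.coe_sum, Finset.sum_apply, Fintype.sum_prod_type]
    refine Finset.sum_congr rfl fun p _ => ?_
    rw [Fintype.sum_bool]
    simp only [hE, if_true, Bool.false_eq_true, if_false, BoundedContinuousFunction.coe_smul,
      smul_eq_mul, BoundedContinuousFunction.coe_ofNormedAddCommGroup]
    ring
  have hpol : ∀ s, pol C N (γ s) = ∑ p : Fin (N + 1) × Fin (N + 1),
      C p.1 p.2 * (γ s ^ (p.1 : ℕ) * (starRingEnd ℂ (γ s)) ^ (p.2 : ℕ)) := by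
    intro s
    unfold pol
    rw [Fintype.sum_prod_type, Finset.sum_range]
    refine Finset.sum_congr rfl fun i _ => ?_
    rw [Finset.sum_range]
    refine Finset.sum_congr rfl fun j _ => ?_
    ring
  set cr : (Fin (N + 1) × Fin (N + 1)) × Bool → ℝ := fun p =>
    if p.2 then -(C p.1.1 p.1.2).im else (C p.1.1 p.1.2).re with hcr
  set ci : (Fin (N + 1) × Fin (N + 1)) × Bool → ℝ := fun p =>
    if p.2 then (C p.1.1 p.1.2).re else (C p.1.1 p.1.2).im with hci
  have hre : ∀ s, (∑ p, cr p • E p) s = (pol C N (γ s)).re := by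
    intro s
    rw [hval, hpol, Complex.re_sum]
    refine Finset.sum_congr rfl fun p _ => ?_
    simp only [hcr, Bool.false_eq_true, if_false, if_true]
    generalize (γ s ^ (p.1 : ℕ) * (starRingEnd ℂ (γ s)) ^ (p.2 : ℕ)) = ww
    rw [Complex.mul_re]
    ring
  have him : ∀ s, (∑ p, ci p • E p) s = (pol C N (γ s)).im := by
    intro s
    rw [hval, hpol, Complex.im_sum]
    refine Finset.sum_congr rfl fun p _ => ?_
    simp only [hci, Bool.false_eq_true, if_false, if_true]
    generalize (γ s ^ (p.1 : ℕ) * (starRingEnd ℂ (γ s)) ^ (p.2 : ℕ)) = ww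
    rw [Complex.mul_im]
    ring
  -- the phase
  have hph : ∀ s, ∃ qq : ℝ, (pol C N (γ s)).re = qq * Real.cos (m * s) ∧
      (pol C N (γ s)).im = -(qq * Real.sin (m * s)) := by
    intro s
    have h1 := hreal s
    set w : ℂ := cexp (m * s * I) * pol C N (γ s) with hw
    have hwr : w = ((w.re : ℝ) : ℂ) := by
      apply Complex.ext
      · simp
      · simpa using h1
    have h2 : pol C N (γ s) = cexp (-(m * s * I)) * w := by
      rw [hw, ← mul_assoc, ← Complex.exp_add, neg_add_cancel, Complex.exp_zero, one_mul]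
    have h3 : cexp (-((m : ℂ) * s * I)) = ((Real.cos (m * s) : ℝ) : ℂ) -
        ((Real.sin (m * s) : ℝ) : ℂ) * I := by
      rw [show -((m : ℂ) * s * I) = ((-(m * s) : ℝ) : ℂ) * I by push_cast; ring,
        Complex.exp_mul_I, ← Complex.ofReal_cos, ← Complex.ofReal_sin, Real.cos_neg, Real.sin_neg]
      push_cast; ring
    have h5 : pol C N (γ s) = ((w.re * Real.cos (m * s) : ℝ) : ℂ) +
        ((-(w.re * Real.sin (m * s)) : ℝ) : ℂ) * I := by
      calc pol C N (γ s) = cexp (-(m * s * I)) * w := h2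
        _ = cexp (-(m * s * I)) * ((w.re : ℝ) : ℂ) := by rw [← hwr]
        _ = _ := by rw [h3]; push_cast; ring
    obtain ⟨h6, h7⟩ := NET_reim (w.re * Real.cos (m * s)) (-(w.re * Real.sin (m * s)))
    exact ⟨w.re, by rw [h5, h6], by rw [h5, h7]⟩
  have z1 : (∑ p, cr p • E p) = 0 := by
    refine NET_zero _ K |h| hK (hkey cr) (fun x => ?_) hKh (abs_nonneg _)
    set k : ℤ := round (x / h - 1 / 2) with hk
    refine ⟨(k + 1 / 2) * h, ?_, ?_⟩
    · have h1 := abs_sub_round (x / h - 1 / 2)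
      rw [← hk] at h1
      have h2 : x - (k + 1 / 2) * h = (x / h - 1 / 2 - k) * h := by
        rw [sub_mul, sub_mul, div_mul_cancel₀ x hh0]; ring
      rw [h2, abs_mul]
      nlinarith [abs_nonneg h]
    · rw [hre]
      obtain ⟨qq, hq, _⟩ := hph ((k + 1 / 2) * h)
      rw [hq]
      have h3 : (m : ℝ) * ((k + 1 / 2) * h) = k * Real.pi + Real.pi / 2 := by
        rw [hh]; field_simp
      rw [h3, Real.cos_add_pi_div_two, Real.sin_int_mul_pi]
      ring
  have z2 : (∑ p, ci p • E p) = 0 := by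
    refine NET_zero _ K |h| hK (hkey ci) (fun x => ?_) hKh (abs_nonneg _)
    set k : ℤ := round (x / h) with hk
    refine ⟨k * h, ?_, ?_⟩
    · have h1 := abs_sub_round (x / h)
      rw [← hk] at h1
      have h2 : x - k * h = (x / h - k) * h := by
        rw [sub_mul, div_mul_cancel₀ x hh0]
      rw [h2, abs_mul]
      nlinarith [abs_nonneg h]
    · rw [him]
      obtain ⟨qq, _, hq⟩ := hph (k * h)
      rw [hq]
      have h3 : (m : ℝ) * (k * h) = k * Real.pi := by
        rw [hh]; field_simp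
      rw [h3, Real.sin_int_mul_pi]
      ring
  intro s
  apply Complex.ext
  · rw [← hre s, z1]; simp
  · rw [← him s, z2]; simp

end H738PI
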