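import Pool.Agent.H738R2.PI.Defs

open Complex Set Filter Topology Polynomial

namespace H738PI

/-- a continuous function without zeros has constant sign -/
theorem NORM_sign (G : ℝ → ℝ) (hG : Continuous G) (h0 : ∀ s, G s ≠ 0) :
    (∀ s, 0 < G s) ∨ ∀ s, G s < 0 := by
  by_contra hcon
  rw [not_or] at hcon
  obtain ⟨h1, h2⟩ := hcon
  push Not at h1 h2
  obtain ⟨a, ha⟩ := h1
  obtain ⟨b, hb⟩ := h2
  obtain ⟨x, hx⟩ := mem_range_of_exists_le_of_exists_ge hG ⟨a, ha⟩ ⟨b, hb⟩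
  exact h0 x hx

/-- NORM -/
theorem tNORM (hGEO : StGEO) : StNORM := by
  intro γ ρ hov n g e hn hdeg hins hp1 hp2
  obtain ⟨-, -, -, -, -, hnotIns, -, -, -⟩ := hGEO γ ρ hov
  have hγc : Continuous γ := continuous_iff_continuousAt.mpr fun t => (hov.der t).continuousAt
  have hgne : ∀ s, g.eval (γ s) ≠ 0 := fun s h => hnotIns s (hins _ h)
  have hn0 : (n : ℝ) ≠ 0 := by
    have : (n : ℝ) ≠ 0 := by exact_mod_cast (by omega : n ≠ 0)
    exact this
  -- the sign
  set G : ℝ → ℝ := fun s => (cexp (-(n * s * I)) * g.eval (γ s)).re with hG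
  have hgc : Continuous fun s => g.eval (γ s) := g.continuous.comp hγc
  have hGc : Continuous G := by
    have h3 : Continuous fun s : ℝ => cexp (-((n : ℂ) * (s : ℂ) * I)) := by fun_prop
    exact Complex.continuous_re.comp (h3.mul hgc)
  have hG0 : ∀ s, G s ≠ 0 := by
    intro s h
    have h2 : cexp (-(n * s * I)) * g.eval (γ s) = 0 := Complex.ext h (hp1 s)
    rcases mul_eq_zero.mp h2 with h3 | h3
    · exact Complex.exp_ne_zero _ h3
    · exact hgne s h3
  obtain ⟨ε, hε, hεG⟩ : ∃ ε : ℝ, (ε = 1 ∨ ε = -1) ∧ ∀ s, 0 < ε * G s := by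
    rcases NORM_sign G hGc hG0 with h | h
    · exact ⟨1, Or.inl rfl, fun s => by rw [one_mul]; exact h s⟩
    · exact ⟨-1, Or.inr rfl, fun s => by have := h s; linarith⟩
  -- the length
  set L : ℝ := ∫ s in (0:ℝ)..(2 * Real.pi), ρ s * ‖g.eval (γ s)‖ ^ (-(1 / (n : ℝ))) with hL
  have hcont : Continuous fun s => ρ s * ‖g.eval (γ s)‖ ^ (-(1 / (n : ℝ))) := by
    refine hov.cont.mul ?_
    exact (hgc.norm).rpow_const fun s => Or.inl (norm_ne_zero_iff.mpr (hgne s))
  have hLpos : 0 < L := by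
    rw [hL]
    refine intervalIntegral.intervalIntegral_pos_of_pos (hcont.intervalIntegrable _ _) ?_
      (by positivity)
    intro s
    exact mul_pos (hov.pos s) (Real.rpow_pos_of_pos (norm_pos_iff.mpr (hgne s)) _)
  set T : ℝ := (L / (2 * Real.pi)) ^ n with hT
  have hb : 0 < L / (2 * Real.pi) := by positivity
  have hTpos : 0 < T := pow_pos hb n
  have hε0 : ε ≠ 0 := by rcases hε with h | h <;> rw [h] <;> norm_num
  have habs : |ε| = 1 := by rcases hε with h | h <;> rw [h] <;> norm_num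
  have ht0 : ε * T ≠ 0 := mul_ne_zero hε0 hTpos.ne'
  have htC : ((ε * T : ℝ) : ℂ) ≠ 0 := Complex.ofReal_ne_zero.mpr ht0
  refine ⟨ε * T, ht0, hov, hn, ?_, ?_, ?_, ?_, ?_, ?_⟩
  · rw [natDegree_C_mul htC, hdeg]
  · intro ζ hζ
    refine hins ζ ?_
    rw [IsRoot.def, eval_mul, eval_C] at hζ
    rcases mul_eq_zero.mp hζ with h | h
    · exact absurd h htC
    · exact h
  · intro s
    have h1 : cexp (-(n * s * I)) * (C ((ε * T : ℝ) : ℂ) * g).eval (γ s) =
        ((ε * T : ℝ) : ℂ) * (cexp (-(n * s * I)) * g.eval (γ s)) := by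
      rw [eval_mul, eval_C]
      ring
    rw [h1, Complex.re_ofReal_mul]
    have h2 := mul_pos hTpos (hεG s)
    have h3 : ε * T * (cexp (-(n * s * I)) * g.eval (γ s)).re = T * (ε * G s) := by
      rw [hG]
      ring
    rw [h3]
    exact h2
  · intro s
    have h1 : cexp (-(n * s * I)) * (C ((ε * T : ℝ) : ℂ) * g).eval (γ s) =
        ((ε * T : ℝ) : ℂ) * (cexp (-(n * s * I)) * g.eval (γ s)) := by
      rw [eval_mul, eval_C]
      ring
    rw [h1, Complex.im_ofReal_mul, hp1 s, mul_zero]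
  · intro s
    have h1 : cexp (-(((n : ℂ) - 2) * s * I)) *
        (starRingEnd ℂ (γ s) * (derivative (C ((ε * T : ℝ) : ℂ) * g)).eval (γ s) +
          (C ((ε * T : ℝ) : ℂ) * e).eval (γ s)) =
        ((ε * T : ℝ) : ℂ) * (cexp (-(((n : ℂ) - 2) * s * I)) *
          (starRingEnd ℂ (γ s) * (derivative g).eval (γ s) + e.eval (γ s))) := by
      rw [derivative_C_mul, eval_mul, eval_mul, eval_C]
      ring
    rw [h1, Complex.im_ofReal_mul, hp2 s, mul_zero]
  · have h1 : ∀ s, ρ s * ‖(C ((ε * T : ℝ) : ℂ) * g).eval (γ s)‖ ^ (-(1 / (n : ℝ))) =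
        T ^ (-(1 / (n : ℝ))) * (ρ s * ‖g.eval (γ s)‖ ^ (-(1 / (n : ℝ)))) := by
      intro s
      rw [eval_mul, eval_C, norm_mul, Complex.norm_real, Real.norm_eq_abs, abs_mul, habs, one_mul,
        abs_of_pos hTpos, Real.mul_rpow hTpos.le (norm_nonneg _)]
      ring
    rw [intervalIntegral.integral_congr (g := fun s => T ^ (-(1 / (n : ℝ))) *
      (ρ s * ‖g.eval (γ s)‖ ^ (-(1 / (n : ℝ))))) (fun s _ => h1 s),
      intervalIntegral.integral_const_mul, ← hL]
    have h2 : T ^ (-(1 / (n : ℝ))) = (L / (2 * Real.pi))⁻¹ := by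
      rw [hT, Real.rpow_neg (pow_nonneg hb.le n), one_div,
        Real.pow_rpow_inv_natCast hb.le (by omega)]
    rw [h2]
    field_simp

end H738PI
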