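import Pool.Agent.H738R2.PI.Defs

/-!
# PA: part A from its pieces
-/

open Complex Set Filter Topology Polynomial

namespace H738PI

theorem PA_reindex (N : ℕ) (F : ℕ → ℕ → ℂ) :
    ∑ j ∈ Finset.range (N + 1), ∑ l ∈ Finset.range (j + 1), F l (j - l)
      = ∑ i ∈ Finset.range (N + 1), ∑ k ∈ Finset.range (N + 1), if i + k ≤ N then F i k else 0 := by
  rw [Finset.sum_sigma', Finset.sum_sigma', ← Finset.sum_filter]
  refine Finset.sum_nbij' (fun x => ⟨x.2, x.1 - x.2⟩) (fun x => ⟨x.1 + x.2, x.1⟩) ?_ ?_ ?_ ?_ ?_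
  · rintro ⟨j, l⟩ h
    simp only [Finset.mem_sigma, Finset.mem_range, Finset.mem_filter] at h ⊢
    omega
  · rintro ⟨i, k⟩ h
    simp only [Finset.mem_sigma, Finset.mem_range, Finset.mem_filter] at h ⊢
    omega
  · rintro ⟨j, l⟩ h
    simp only [Finset.mem_sigma, Finset.mem_range] at h
    have : l + (j - l) = j := by omega
    simp [this]
  · rintro ⟨i, k⟩ h
    simp
  · rintro ⟨j, l⟩ h
    rfl

/-- the coefficients of a mode as a polynomial in `z`, `conj z` -/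
theorem PA_pol (hSP : StSP) (a : ℕ → ℝ → ℝ) (N : ℕ) (ha : Coef a) (m : ℤ) :
    ∃ C : ℕ → ℕ → ℂ, ∀ z, Fm a N m z = pol C N z := by
  refine ⟨fun i k => if i + k ≤ N then (1 / 2 : ℂ) ^ (i + k) * ((i + k).choose i : ℂ) *
    ∫ φ in (0:ℝ)..(2 * Real.pi),
      (a (i + k) φ : ℂ) * cexp (-(((m : ℂ) + 2 * (i : ℂ) - ((i + k : ℕ) : ℂ)) * φ * I)) else 0,
    fun z => ?_⟩
  rw [hSP a N ha m z, pol]
  have h := PA_reindex N (fun i k => (1 / 2 : ℂ) ^ (i + k) * ((i + k).choose i : ℂ) *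
    (∫ φ in (0:ℝ)..(2 * Real.pi),
      (a (i + k) φ : ℂ) * cexp (-(((m : ℂ) + 2 * (i : ℂ) - ((i + k : ℕ) : ℂ)) * φ * I)))
      * z ^ i * (starRingEnd ℂ z) ^ k)
  refine Eq.trans ?_ (h.trans ?_)
  · refine Finset.sum_congr rfl fun j _ => Finset.sum_congr rfl fun l hl => ?_
    have hlj : l + (j - l) = j := by
      have := Finset.mem_range.1 hl
      omega
    simp only [hlj]
    ring
  · refine Finset.sum_congr rfl fun i _ => Finset.sum_congr rfl fun k _ => ?_
    by_cases hik : i + k ≤ N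
    · simp only [hik, if_true]
    · simp only [hik, if_false, zero_mul]

theorem PA_conj (a : ℕ → ℝ → ℝ) (N : ℕ) (m : ℤ) (z : ℂ) :
    Fm a N (-m) z = starRingEnd ℂ (Fm a N m z) := by
  rw [Fm, Fm, ← intervalIntegral.intervalIntegral_conj]
  refine intervalIntegral.integral_congr fun φ _ => ?_
  simp only [map_mul, Complex.conj_ofReal, ← Complex.exp_conj, map_neg, Complex.conj_I,
    map_intCast]
  push_cast
  ring_nf

theorem tPA (hEV : StEV) (hSP : StSP) (hNET : StNET) (hIND : StIND) (hMODE : StMODE) : StPA := by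
  intro γ ρ a N hO ha hNC hInv
  have hre := hEV γ ρ a N hO ha hInv
  obtain ⟨M, hM⟩ := hNET γ ρ hO N
  have h1 : ∀ m : ℤ, (M : ℤ) < m → ∀ s, Fm a N m (γ s) = 0 := by
    intro m hm s
    obtain ⟨C, hC⟩ := PA_pol hSP a N ha m
    rw [hC]
    refine hM m (hm.le.trans (le_abs_self m)) C (fun s => ?_) s
    rw [← hC]
    exact hre m s
  have h2 := hIND γ ρ hO N a ha M h1
  refine hMODE γ ρ a N hO ha hNC hre ⟨M, fun m hm z => ?_⟩
  rcases le_or_gt 0 m with h0 | h0
  · exact h2 m (by rwa [abs_of_nonneg h0] at hm) z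
  · rw [abs_of_neg h0] at hm
    have h3 := h2 (-m) hm z
    have h4 := PA_conj a N (-m) z
    rw [neg_neg, h3, map_zero] at h4
    exact h4

end H738PI
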