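import Pool.Agent.H738R2.PI.Defs

/-!
# PAR: the uniformising parameter
-/

open Complex Set Filter Topology Polynomial

namespace H738PI

theorem PAR_rho_per {γ : ℝ → ℂ} {ρ : ℝ → ℝ} (h : Oval γ ρ) (s : ℝ) :
    ρ (s + 2 * Real.pi) = ρ s := by
  have h1 := h.der (s + 2 * Real.pi)
  have h2 : HasDerivAt (fun t : ℝ => γ (t + 2 * Real.pi))
      ((ρ (s + 2 * Real.pi) : ℂ) * I * cexp (((s + 2 * Real.pi : ℝ) : ℂ) * I)) s :=
    HasDerivAt.comp_add_const s (2 * Real.pi) h1
  have h3 : (fun t : ℝ => γ (t + 2 * Real.pi)) = γ := funext h.per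
  rw [h3] at h2
  have h4 := h2.unique (h.der s)
  have h5 : cexp (((s + 2 * Real.pi : ℝ) : ℂ) * I) = cexp (s * I) := by
    push_cast
    rw [add_mul]
    exact Complex.exp_periodic (s * I)
  rw [h5] at h4
  have h6 : cexp (s * I) ≠ 0 := Complex.exp_ne_zero _
  have h7 := mul_right_cancel₀ h6 h4
  have h8 := mul_right_cancel₀ I_ne_zero h7
  exact_mod_cast h8

theorem PAR_gne {γ : ℝ → ℂ} {ρ : ℝ → ℝ} {n : ℕ} {g e : ℂ[X]} (h : Dat γ ρ n g e) (s : ℝ) :
    0 < ‖g.eval (γ s)‖ := by
  rw [norm_pos_iff]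
  intro h0
  have h1 := h.pos s
  rw [h0, mul_zero] at h1
  simp at h1

theorem tPAR : StPAR := by
  intro γ ρ n g e h
  set κ : ℝ → ℝ := fun s => ρ s * ‖g.eval (γ s)‖ ^ (-(1 / (n : ℝ))) with hκ
  have hγc : Continuous γ := continuous_iff_continuousAt.mpr fun s => (h.ov.der s).continuousAt
  have hgc : Continuous fun s => ‖g.eval (γ s)‖ := (g.continuous.comp hγc).norm
  have hκc : Continuous κ := by
    refine h.ov.cont.mul ?_
    exact hgc.rpow_const fun s => Or.inl (PAR_gne h s).ne'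
  have hκpos : ∀ s, 0 < κ s := fun s => mul_pos (h.ov.pos s) (Real.rpow_pos_of_pos (PAR_gne h s) _)
  have hκper : Function.Periodic κ (2 * Real.pi) := by
    intro s
    simp only [hκ]
    rw [PAR_rho_per h.ov, h.ov.per]
  let S : ℝ → ℝ := fun s => ∫ t in (0:ℝ)..s, κ t
  have hSd : ∀ s, HasDerivAt S (κ s) s := fun s => (hκc.integral_hasStrictDerivAt 0 s).hasDerivAt
  have hSmono : StrictMono S := by
    refine strictMono_of_deriv_pos ?_
    intro s
    rw [(hSd s).deriv]
    exact hκpos s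
  have hScont : Continuous S := continuous_iff_continuousAt.mpr fun s => (hSd s).continuousAt
  have hSper : ∀ s, S (s + 2 * Real.pi) = S s + 2 * Real.pi := by
    intro s
    have h1 : ∫ t in (0:ℝ)..(s + 2 * Real.pi), κ t =
        (∫ t in (0:ℝ)..s, κ t) + ∫ t in s..(s + 2 * Real.pi), κ t :=
      (intervalIntegral.integral_add_adjacent_intervals (hκc.intervalIntegrable _ _)
        (hκc.intervalIntegrable _ _)).symm
    have h2 : ∫ t in s..(s + 2 * Real.pi), κ t = ∫ t in (0:ℝ)..(0 + 2 * Real.pi), κ t :=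
      hκper.intervalIntegral_add_eq s 0
    rw [zero_add] at h2
    change ∫ t in (0:ℝ)..(s + 2 * Real.pi), κ t = (∫ t in (0:ℝ)..s, κ t) + 2 * Real.pi
    rw [h1, h2]
    congr 1
    exact h.len
  have hSnat : ∀ k : ℕ, S (k * (2 * Real.pi)) = k * (2 * Real.pi) := by
    intro k
    induction k with
    | zero => simp [S]
    | succ k ih =>
      have h1 : ((k + 1 : ℕ) : ℝ) * (2 * Real.pi) = k * (2 * Real.pi) + 2 * Real.pi := by
        push_cast; ring
      rw [h1, hSper, ih]
  have hSneg : ∀ k : ℕ, S (-(k * (2 * Real.pi))) = -(k * (2 * Real.pi)) := by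
    intro k
    induction k with
    | zero => simp [S]
    | succ k ih =>
      have h1 : -(k * (2 * Real.pi)) = -(((k + 1 : ℕ) : ℝ) * (2 * Real.pi)) + 2 * Real.pi := by
        push_cast; ring
      rw [h1, hSper] at ih
      linarith
  have hSsurj : Function.Surjective S := by
    intro y
    have hpi : 0 < 2 * Real.pi := by positivity
    obtain ⟨k, hk⟩ := exists_nat_ge (|y| / (2 * Real.pi))
    have hk2 : |y| ≤ k * (2 * Real.pi) := by
      rw [div_le_iff₀ hpi] at hk
      exact hk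
    have h1 : ∃ a, S a ≤ y := ⟨-(k * (2 * Real.pi)), by rw [hSneg]; linarith [neg_abs_le y]⟩
    have h2 : ∃ b, y ≤ S b := ⟨k * (2 * Real.pi), by rw [hSnat]; linarith [le_abs_self y]⟩
    exact mem_range_of_exists_le_of_exists_ge hScont h1 h2
  let E : ℝ ≃o ℝ := hSmono.orderIsoOfSurjective S hSsurj
  have hE : ∀ x, S (E.symm x) = x := fun x => E.apply_symm_apply x
  have hcont : Continuous fun x => E.symm x := E.symm.continuous
  refine ⟨fun x => E.symm x, hcont, ?_, ?_⟩
  · intro x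
    apply hSmono.injective
    rw [hSper, hE, hE]
  · intro x
    have hd : HasDerivAt (fun x => E.symm x) (κ (E.symm x))⁻¹ x :=
      HasDerivAt.of_local_left_inverse hcont.continuousAt (hSd (E.symm x)) (hκpos _).ne'
        (Filter.Eventually.of_forall hE)
    have h1 := (h.ov.der (E.symm x)).scomp x hd
    have h2 : (κ (E.symm x))⁻¹ • ((ρ (E.symm x) : ℂ) * I * cexp ((E.symm x : ℝ) * I)) =
        I * cexp ((E.symm x : ℝ) * I) *
          ((‖g.eval (γ (E.symm x))‖ ^ (1 / (n : ℝ)) : ℝ) : ℂ) := by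
      have hg := PAR_gne h (E.symm x)
      have hρ := h.ov.pos (E.symm x)
      have h3 : (κ (E.symm x))⁻¹ * ρ (E.symm x) = ‖g.eval (γ (E.symm x))‖ ^ (1 / (n : ℝ)) := by
        simp only [hκ]
        rw [Real.rpow_neg hg.le, mul_inv, inv_inv]
        field_simp
      rw [Complex.real_smul, ← h3]
      push_cast
      ring
    rw [← h2]
    exact h1

end H738PI
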