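import Pool.Agent.H738R2.PI.Defs

set_option autoImplicit false

open Complex Set Filter Topology Polynomial

namespace H738PI

/-- values on the curve -/
theorem PB_val (γ : ℝ → ℂ) (ρ : ℝ → ℝ) (n : ℕ) (g e : ℂ[X]) (h : Dat γ ρ n g e) (s : ℝ) :
    0 < ‖g.eval (γ s)‖ ∧ g.eval (γ s) = cexp (n * s * I) * (‖g.eval (γ s)‖ : ℂ) := by
  have hp := h.pos s
  have hi := h.p1 s
  set w : ℂ := cexp (-(n * s * I)) * g.eval (γ s) with hw
  have hwr : w = ((w.re : ℝ) : ℂ) := by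
    apply Complex.ext
    · simp
    · simpa using hi
  have hg : g.eval (γ s) = cexp (n * s * I) * w := by
    rw [hw, ← mul_assoc, ← Complex.exp_add, add_neg_cancel, Complex.exp_zero, one_mul]
  have hnorm : ‖cexp ((n : ℂ) * s * I)‖ = 1 := by
    have : (n : ℂ) * s * I = (((n : ℝ) * s : ℝ) : ℂ) * I := by push_cast; ring
    rw [this, Complex.norm_exp_ofReal_mul_I]
  have hn2 : ‖g.eval (γ s)‖ = w.re := by
    rw [hg, norm_mul, hnorm, one_mul, hwr, Complex.norm_real, Complex.ofReal_re,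
      Real.norm_of_nonneg hp.le]
  refine ⟨by rw [hn2]; exact hp, ?_⟩
  rw [hn2, ← hwr]
  exact hg

theorem PB_surj (σ : ℝ → ℝ) (hc : Continuous σ)
    (hp : ∀ x, σ (x + 2 * Real.pi) = σ x + 2 * Real.pi) (s : ℝ) : ∃ x, σ x = s := by
  have h1 : ∀ k : ℕ, σ (k * (2 * Real.pi)) = σ 0 + k * (2 * Real.pi) := by
    intro k
    induction k with
    | zero => simp
    | succ k ih =>
      have := hp (k * (2 * Real.pi))
      rw [ih] at this
      push_cast
      rw [show ((k : ℝ) + 1) * (2 * Real.pi) = k * (2 * Real.pi) + 2 * Real.pi by ring, this]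
      ring
  have h2 : ∀ k : ℕ, σ (-(k * (2 * Real.pi))) = σ 0 - k * (2 * Real.pi) := by
    intro k
    induction k with
    | zero => simp
    | succ k ih =>
      have := hp (-(((k : ℝ) + 1) * (2 * Real.pi)))
      rw [show -(((k : ℝ) + 1) * (2 * Real.pi)) + 2 * Real.pi = -(k * (2 * Real.pi)) by ring,
        ih] at this
      push_cast
      linarith
  have hpi : (0:ℝ) < 2 * Real.pi := by positivity
  obtain ⟨k1, hk1⟩ := exists_nat_ge ((s - σ 0) / (2 * Real.pi))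
  obtain ⟨k2, hk2⟩ := exists_nat_ge ((σ 0 - s) / (2 * Real.pi))
  rw [div_le_iff₀ hpi] at hk1 hk2
  exact mem_range_of_exists_le_of_exists_ge hc ⟨_, by rw [h2 k2]; linarith⟩
    ⟨_, by rw [h1 k1]; linarith⟩

theorem tPB (hROOT : StROOT) (hNORM : StNORM) (hPAR : StPAR) (hCIRC : StCIRC) (hUP : StUP)
    (hGROW : StGROW) (hFOUR : StFOUR) (hALG : StALG) : StPB := by
  intro γ ρ n g0 e0 hov hn hg0 hdeg0 h1 h2
  obtain ⟨hd, hins⟩ := hROOT γ ρ hov n g0 hn hg0 hdeg0 h1
  obtain ⟨t, ht, hD⟩ := hNORM γ ρ hov n g0 e0 hn hd hins h1 h2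
  set g : ℂ[X] := C (t : ℂ) * g0 with hgdef
  set e : ℂ[X] := C (t : ℂ) * e0 with hedef
  obtain ⟨σ, hσ⟩ := hPAR γ ρ n g e hD
  by_cases hm : ∃ ζ, g.rootMultiplicity ζ = n
  · exact hCIRC γ ρ n g e hD hm
  push Not at hm
  have hgne : g ≠ 0 := by
    intro h
    have := hD.deg
    rw [h, natDegree_zero] at this
    omega
  have hlt : ∀ ζ, g.rootMultiplicity ζ < n := by
    intro ζ
    refine lt_of_le_of_ne ?_ (hm ζ)
    have h3 : g.rootMultiplicity ζ ≤ Multiset.card g.roots := by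
      rw [← count_roots]; exact Multiset.count_le_card _ _
    have h4 := g.card_roots'
    rw [hD.deg] at h4
    omega
  obtain ⟨A, hA, hgr⟩ := hGROW n g hn (le_of_eq hD.deg)
  -- bound for γ
  have hγc : Continuous γ := continuous_iff_continuousAt.mpr fun s => (hD.ov.der s).continuousAt
  obtain ⟨B0, hB0⟩ := (isCompact_Icc (a := (0:ℝ)) (b := 2 * Real.pi)).exists_bound_of_continuousOn
    hγc.continuousOn
  have hper : Function.Periodic γ (2 * Real.pi) := hD.ov.per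
  have hpi : (0:ℝ) < 2 * Real.pi := by positivity
  have hB : ∀ s, ‖γ s‖ ≤ B0 := by
    intro s
    obtain ⟨y, hy, hy2⟩ := hper.exists_mem_Ico₀ hpi s
    rw [hy2]
    exact hB0 y ⟨hy.1, hy.2.le⟩
  set f : ℝ → ℂ := fun x => γ (σ x) with hf
  have hfc : Continuous f := hγc.comp hσ.cont
  have hfp : ∀ x, f (x + 2 * Real.pi) = f x := by
    intro x
    simp only [hf]
    rw [hσ.per, hD.ov.per]
  obtain ⟨M, c, hc⟩ := hFOUR f A (B0 + 1) hfc hfp (by
    intro D hDpos
    obtain ⟨z, hz, hzx⟩ := hUP γ ρ n g e σ hD hσ hlt D hDpos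
    refine ⟨z, hz.1, hzx, ?_⟩
    intro u hu
    have := hgr (-D) D z (by linarith) hDpos hz u hu
    have h5 : ‖z (u.re : ℂ)‖ ≤ B0 := by rw [hzx]; exact hB _
    have h6 : (0:ℝ) < Real.exp (A * |u.im|) := Real.exp_pos _
    have h7 : (‖z (u.re : ℂ)‖ + 1) * Real.exp (A * |u.im|) ≤ (B0 + 1) * Real.exp (A * |u.im|) :=
      mul_le_mul_of_nonneg_right (by linarith) h6.le
    linarith)
  set f' : ℝ → ℂ := fun x => I * cexp (σ x * I) *
    ((‖g.eval (γ (σ x))‖ ^ (1 / (n : ℝ)) : ℝ) : ℂ) with hf'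
  have hn0 : (n : ℝ) ≠ 0 := by
    have : n ≠ 0 := by omega
    exact_mod_cast this
  have hf'n : ∀ x, (f' x) ^ n = I ^ n * g.eval (f x) := by
    intro x
    obtain ⟨hp, hv⟩ := PB_val γ ρ n g e hD (σ x)
    simp only [hf', hf]
    rw [mul_pow, mul_pow]
    have e1 : (((‖g.eval (γ (σ x))‖ ^ (1 / (n : ℝ)) : ℝ) : ℂ)) ^ n = (‖g.eval (γ (σ x))‖ : ℂ) := by
      rw [← Complex.ofReal_pow, ← Real.rpow_natCast, ← Real.rpow_mul hp.le,
        one_div_mul_cancel hn0, Real.rpow_one]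
    have e2 : (cexp ((σ x : ℂ) * I)) ^ n = cexp (n * (σ x : ℂ) * I) := by
      rw [← Complex.exp_nat_mul]; ring_nf
    rw [e1, e2]
    conv_rhs => rw [hv]
    ring
  have hf'0 : ∀ x, f' x ≠ 0 := by
    intro x
    obtain ⟨hp, _⟩ := PB_val γ ρ n g e hD (σ x)
    simp only [hf']
    refine mul_ne_zero (mul_ne_zero I_ne_zero (Complex.exp_ne_zero _)) ?_
    exact_mod_cast (Real.rpow_pos_of_pos hp _).ne'
  obtain ⟨c0, A', B', L, hL, hfin⟩ := hALG n g f f' M c hn hD.deg hc hσ.der hf'n (by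
    by_contra hcon
    push Not at hcon
    have hconst : f = fun _ => f 0 := funext fun x => hcon x 0
    have h8 := hσ.der 0
    have h9 : HasDerivAt f (f' 0) 0 := h8
    rw [hconst] at h9
    have := h9.unique (hasDerivAt_const (0:ℝ) (f 0))
    exact hf'0 0 this)
  refine ⟨c0, A', B', fun x => ?_⟩
  have hL' : (L : ℝ) ≠ 0 := by exact_mod_cast hL
  constructor
  · rintro ⟨s, rfl⟩
    obtain ⟨y, rfl⟩ := PB_surj σ hσ.cont hσ.per s
    refine ⟨cexp (L * y * I), ?_, ?_⟩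
    · have : (L : ℂ) * y * I = (((L : ℝ) * y : ℝ) : ℂ) * I := by push_cast; ring
      rw [this, Complex.norm_exp_ofReal_mul_I]
    · rw [← Complex.exp_neg]
      exact hfin y
  · rintro ⟨ζ, hζ, rfl⟩
    set y : ℝ := ζ.arg / L with hy
    have h10 : cexp (L * y * I) = ζ := by
      have h11 : (L : ℂ) * y * I = ((ζ.arg : ℝ) : ℂ) * I := by
        have : ((L : ℝ) * y : ℝ) = ζ.arg := by rw [hy]; field_simp
        rw [← this]; push_cast; ring
      rw [h11]
      have := Complex.norm_mul_exp_arg_mul_I ζ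
      rw [hζ, Complex.ofReal_one, one_mul] at this
      exact this
    refine ⟨σ y, ?_⟩
    have := hfin y
    simp only [hf] at this
    rw [this, Complex.exp_neg, h10]

end H738PI
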