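import Pool.Agent.H738R2.PI.Defs

open Complex Set Filter Topology Polynomial

namespace H738PI

theorem RAL_support {γ : ℝ → ℂ} {ρ : ℝ → ℝ} (h : Oval γ ρ) (s t : ℝ) (h1 : s < t)
    (h2 : t < s + 2 * Real.pi) : ((γ t - γ s) * cexp (-(s * I))).re < 0 := by
  have hd : ∀ x : ℝ, HasDerivAt (fun x : ℝ => ((γ x - γ s) * cexp (-(s * I))).re)
      (-(ρ x * Real.sin (x - s))) x := by
    intro x
    have e1 : HasDerivAt (fun x : ℝ => (γ x - γ s) * cexp (-(s * I)))
        (((ρ x : ℂ) * I * cexp (x * I)) * cexp (-(s * I))) x :=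
      ((h.der x).sub_const _).mul_const _
    have e2 := (Complex.reCLM.hasFDerivAt.comp_hasDerivAt x e1)
    have e3 : (Complex.reCLM (((ρ x : ℂ) * I * cexp (x * I)) * cexp (-(s * I))))
        = -(ρ x * Real.sin (x - s)) := by
      have : ((ρ x : ℂ) * I * cexp (x * I)) * cexp (-(s * I))
          = (ρ x : ℂ) * (I * cexp (((x - s : ℝ) : ℂ) * I)) := by
        rw [mul_assoc, mul_assoc, ← Complex.exp_add]
        congr 3
        push_cast
        ring
      rw [this, Complex.reCLM_apply, Complex.exp_mul_I, Complex.re_ofReal_mul,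
        ← Complex.ofReal_cos, ← Complex.ofReal_sin]
      simp [-Complex.ofReal_sub, -Complex.ofReal_sin, -Complex.ofReal_cos]
    rw [e3] at e2
    exact e2
  have hc : Continuous (fun x : ℝ => ((γ x - γ s) * cexp (-(s * I))).re) :=
    continuous_iff_continuousAt.2 fun x => (hd x).continuousAt
  rcases le_or_gt t (s + Real.pi) with h3 | h3
  · have hanti : StrictAntiOn (fun x : ℝ => ((γ x - γ s) * cexp (-(s * I))).re)
        (Set.Icc s (s + Real.pi)) := by
      apply strictAntiOn_of_deriv_neg (convex_Icc _ _) hc.continuousOn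
      intro x hx
      rw [interior_Icc] at hx
      rw [(hd x).deriv]
      have := Real.sin_pos_of_pos_of_lt_pi (x := x - s) (by linarith [hx.1]) (by linarith [hx.2])
      have := mul_pos (h.pos x) this
      linarith
    have := hanti (left_mem_Icc.2 (by linarith)) ⟨h1.le, h3⟩ h1
    simpa using this
  · have hmono : StrictMonoOn (fun x : ℝ => ((γ x - γ s) * cexp (-(s * I))).re)
        (Set.Icc (s + Real.pi) (s + 2 * Real.pi)) := by
      apply strictMonoOn_of_deriv_pos (convex_Icc _ _) hc.continuousOn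
      intro x hx
      rw [interior_Icc] at hx
      rw [(hd x).deriv]
      have h5 := Real.sin_neg_of_neg_of_neg_pi_lt (x := x - s - 2 * Real.pi)
        (by linarith [hx.2]) (by linarith [hx.1])
      rw [Real.sin_sub_two_pi] at h5
      have := mul_neg_of_pos_of_neg (h.pos x) h5
      linarith
    have := hmono ⟨h3.le, h2.le⟩ (right_mem_Icc.2 (by linarith)) h2
    simpa [h.per] using this

/-- the denominator -/
noncomputable def RAL_D (s t : ℝ) : ℂ :=
  2 * I * (Real.sin ((t - s) / 2) : ℂ) * cexp ((t + s) / 2 * I)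

theorem RAL_D_per (s t : ℝ) : RAL_D s (t + 2 * Real.pi) = RAL_D s t := by
  unfold RAL_D
  have h1 : Real.sin ((t + 2 * Real.pi - s) / 2) = -Real.sin ((t - s) / 2) := by
    rw [show (t + 2 * Real.pi - s) / 2 = (t - s) / 2 + Real.pi by ring, Real.sin_add_pi]
  have h2 : cexp ((((t + 2 * Real.pi : ℝ) : ℂ) + s) / 2 * I) = -cexp ((t + s) / 2 * I) := by
    rw [show ((((t + 2 * Real.pi : ℝ) : ℂ) + s) / 2 * I) = (t + s) / 2 * I + Real.pi * I by
      push_cast; ring, Complex.exp_add, Complex.exp_pi_mul_I]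
    ring
  rw [h1, h2]
  push_cast
  ring

theorem RAL_D_eq_zero {s t : ℝ} (h : RAL_D s t = 0) : ∃ k : ℤ, t = s + k * (2 * Real.pi) := by
  unfold RAL_D at h
  have h1 : (Real.sin ((t - s) / 2) : ℂ) = 0 := by
    by_contra hne
    exact (mul_ne_zero (mul_ne_zero (mul_ne_zero two_ne_zero I_ne_zero) hne)
      (Complex.exp_ne_zero _)) h
  have h2 : Real.sin ((t - s) / 2) = 0 := by exact_mod_cast h1
  obtain ⟨k, hk⟩ := Real.sin_eq_zero_iff.1 h2
  exact ⟨k, by linarith⟩

theorem RAL_D_der (s : ℝ) : HasDerivAt (RAL_D s) (I * cexp (s * I)) s := by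
  have h1 : HasDerivAt (fun t : ℝ => Real.sin ((t - s) / 2)) (Real.cos ((s - s) / 2) * (1 / 2)) s := by
    apply HasDerivAt.sin
    exact ((hasDerivAt_id s).sub_const s).div_const 2
  have h2 : HasDerivAt (fun t : ℝ => ((Real.sin ((t - s) / 2) : ℝ) : ℂ))
      ((Real.cos ((s - s) / 2) * (1 / 2) : ℝ) : ℂ) s := h1.ofReal_comp
  have h3 : HasDerivAt (fun t : ℝ => cexp (((t : ℂ) + s) / 2 * I))
      (cexp (((s : ℂ) + s) / 2 * I) * (1 / 2 * I)) s := by
    apply HasDerivAt.cexp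
    exact (((Complex.ofRealCLM.hasDerivAt (x := s)).add_const (s : ℂ)).div_const 2).mul_const I
  have h4 := ((h2.const_mul (2 * I)).mul h3)
  have h5 : (2 * I * ((Real.cos ((s - s) / 2) * (1 / 2) : ℝ) : ℂ) * cexp (((s : ℂ) + s) / 2 * I)
      + 2 * I * ((Real.sin ((s - s) / 2) : ℝ) : ℂ) * (cexp (((s : ℂ) + s) / 2 * I) * (1 / 2 * I)))
      = I * cexp (s * I) := by
    have : ((s : ℂ) + s) / 2 = s := by ring
    rw [this]
    simp
    ring
  rw [h5] at h4
  exact h4

theorem RAL_D_self (s : ℝ) : RAL_D s s = 0 := by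
  simp [RAL_D]

theorem RAL_D_key (s t : ℝ) : RAL_D s t * (cexp (-(t * I)) - cexp (-(s * I)))
    = ((4 * Real.sin ((t - s) / 2) ^ 2 : ℝ) : ℂ) := by
  unfold RAL_D
  have e1 : cexp ((t + s) / 2 * I) * cexp (-(t * I)) = cexp (-(((t - s) / 2 : ℝ) : ℂ) * I) := by
    rw [← Complex.exp_add]; congr 1; push_cast; ring
  have e2 : cexp ((t + s) / 2 * I) * cexp (-(s * I)) = cexp ((((t - s) / 2 : ℝ) : ℂ) * I) := by
    rw [← Complex.exp_add]; congr 1; push_cast; ring
  have e3 := Complex.two_sin (((t - s) / 2 : ℝ) : ℂ)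
  rw [← Complex.ofReal_sin] at e3
  have e4 : (2 * I * (Real.sin ((t - s) / 2) : ℂ) * cexp ((t + s) / 2 * I))
      * (cexp (-(t * I)) - cexp (-(s * I)))
      = (2 * (Real.sin ((t - s) / 2) : ℂ)) * ((cexp (-(((t - s) / 2 : ℝ) : ℂ) * I) -
        cexp ((((t - s) / 2 : ℝ) : ℂ) * I)) * I) := by
    rw [← e1, ← e2]; ring
  rw [e4, ← e3]
  push_cast
  ring

/-- the function `r` -/
noncomputable def RAL_r (γ : ℝ → ℂ) (ρ : ℝ → ℝ) (s t : ℝ) : ℂ :=
  if RAL_D s t = 0 then (ρ s : ℂ) else (γ t - γ s) / RAL_D s t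

theorem RAL_r_per {γ : ℝ → ℂ} {ρ : ℝ → ℝ} (h : Oval γ ρ) (s t : ℝ) :
    RAL_r γ ρ s (t + 2 * Real.pi) = RAL_r γ ρ s t := by
  unfold RAL_r
  rw [RAL_D_per, h.per]

theorem RAL_r_per_int {γ : ℝ → ℂ} {ρ : ℝ → ℝ} (h : Oval γ ρ) (s t : ℝ) (k : ℤ) :
    RAL_r γ ρ s (t + k * (2 * Real.pi)) = RAL_r γ ρ s t := by
  have hp : Function.Periodic (RAL_r γ ρ s) (2 * Real.pi) := fun x => RAL_r_per h s x
  exact (hp.int_mul k) t

theorem RAL_per_int {γ : ℝ → ℂ} {ρ : ℝ → ℝ} (h : Oval γ ρ) (t : ℝ) (k : ℤ) :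
    γ (t + k * (2 * Real.pi)) = γ t := by
  have hp : Function.Periodic γ (2 * Real.pi) := fun x => h.per x
  exact (hp.int_mul k) t

theorem RAL_r_eq {γ : ℝ → ℂ} {ρ : ℝ → ℝ} (h : Oval γ ρ) (s t : ℝ) :
    γ t - γ s = RAL_D s t * RAL_r γ ρ s t := by
  unfold RAL_r
  split_ifs with h0
  · obtain ⟨k, hk⟩ := RAL_D_eq_zero h0
    rw [h0, hk, RAL_per_int h]
    simp
  · field_simp

theorem RAL_cont_self {γ : ℝ → ℂ} {ρ : ℝ → ℝ} (h : Oval γ ρ) (s : ℝ) :
    ContinuousAt (RAL_r γ ρ s) s := by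
  rw [continuousAt_iff_punctured_nhds]
  have hr : RAL_r γ ρ s s = ρ s := by
    unfold RAL_r; rw [if_pos (RAL_D_self s)]
  rw [hr]
  have hne : I * cexp (s * I) ≠ 0 := mul_ne_zero I_ne_zero (Complex.exp_ne_zero _)
  have h1 : Tendsto (slope γ s) (𝓝[≠] s) (𝓝 ((ρ s : ℂ) * I * cexp (s * I))) :=
    hasDerivAt_iff_tendsto_slope.1 (h.der s)
  have h2 : Tendsto (slope (RAL_D s) s) (𝓝[≠] s) (𝓝 (I * cexp (s * I))) :=
    hasDerivAt_iff_tendsto_slope.1 (RAL_D_der s)
  have h3 := h1.div h2 hne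
  have h4 : (ρ s : ℂ) * I * cexp (s * I) / (I * cexp (s * I)) = ρ s := by
    rw [mul_assoc, mul_div_assoc, div_self hne, mul_one]
  rw [h4] at h3
  refine h3.congr' ?_
  have h5 : ∀ᶠ t in 𝓝[≠] s, RAL_D s t ≠ 0 := (RAL_D_der s).eventually_ne hne
  filter_upwards [h5, self_mem_nhdsWithin] with t ht hts
  have hts' : (t - s : ℝ) ≠ 0 := sub_ne_zero.2 hts
  have hts2 : ((t - s : ℝ) : ℂ) ≠ 0 := by exact_mod_cast hts'
  unfold RAL_r
  rw [if_neg ht]
  simp only [Pi.div_apply, slope_def_module, RAL_D_self, sub_zero]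
  rw [Complex.real_smul, Complex.real_smul, mul_div_mul_left]
  exact_mod_cast inv_ne_zero hts'

theorem RAL_cont {γ : ℝ → ℂ} {ρ : ℝ → ℝ} (h : Oval γ ρ) (s : ℝ) :
    Continuous (RAL_r γ ρ s) := by
  rw [continuous_iff_continuousAt]
  intro t
  by_cases h0 : RAL_D s t = 0
  · obtain ⟨k, hk⟩ := RAL_D_eq_zero h0
    have h1 : RAL_r γ ρ s = (RAL_r γ ρ s) ∘ (fun x => x - k * (2 * Real.pi)) := by
      funext x
      have := RAL_r_per_int h s (x - k * (2 * Real.pi)) k
      simp only [sub_add_cancel] at this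
      exact this
    rw [h1]
    apply ContinuousAt.comp
    · rw [show t - k * (2 * Real.pi) = s by linarith]
      exact RAL_cont_self h s
    · fun_prop
  · have hD : Continuous (RAL_D s) := by
      unfold RAL_D
      fun_prop
    have hγ : Continuous γ := continuous_iff_continuousAt.2 fun x => (h.der x).continuousAt
    have h1 : ContinuousAt (fun t => (γ t - γ s) / RAL_D s t) t :=
      ContinuousAt.div (by fun_prop) hD.continuousAt h0
    refine h1.congr ?_
    filter_upwards [hD.continuousAt.eventually_ne h0] with x hx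
    unfold RAL_r
    rw [if_neg hx]

theorem RAL_pos {γ : ℝ → ℂ} {ρ : ℝ → ℝ} (h : Oval γ ρ) (s t : ℝ) :
    0 < (RAL_r γ ρ s t).re := by
  by_cases h0 : RAL_D s t = 0
  · unfold RAL_r
    rw [if_pos h0]
    simpa using h.pos s
  -- reduce to the fundamental interval
  obtain ⟨k, ⟨hk1, hk2⟩, -⟩ := existsUnique_sub_zsmul_mem_Ico (Real.two_pi_pos) (t - s) 0
  rw [zsmul_eq_mul] at hk1 hk2
  set t' := t - k * (2 * Real.pi) with ht'
  have e1 : t = t' + k * (2 * Real.pi) := by rw [ht']; ring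
  have e2 : RAL_r γ ρ s t = RAL_r γ ρ s t' := by
    rw [e1, RAL_r_per_int h]
  have e3 : RAL_D s t' ≠ 0 := by
    intro h3
    apply h0
    have hp : Function.Periodic (RAL_D s) (2 * Real.pi) := fun x => RAL_D_per s x
    rw [e1, (hp.int_mul k) t', h3]
  rw [e2]
  have h1 : s < t' := by
    rcases eq_or_lt_of_le (show s ≤ t' by rw [ht']; linarith) with h | h
    · exfalso; apply e3; rw [← h]; exact RAL_D_self s
    · exact h
  have h2 : t' < s + 2 * Real.pi := by rw [ht']; linarith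
  have h3 := RAL_support h s t' h1 h2
  have h4 := RAL_support h t' (s + 2 * Real.pi) h2 (by linarith)
  rw [h.per] at h4
  have h5 := RAL_D_key s t'
  have h6 := RAL_r_eq h s t'
  have h7 : (γ t' - γ s) * (cexp (-(t' * I)) - cexp (-(s * I)))
      = ((4 * Real.sin ((t' - s) / 2) ^ 2 : ℝ) : ℂ) * RAL_r γ ρ s t' := by
    rw [h6, ← h5]; ring
  have h8 := congrArg Complex.re h7
  rw [Complex.re_ofReal_mul] at h8
  have h9 : ((γ t' - γ s) * (cexp (-(t' * I)) - cexp (-(s * I)))).re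
      = - ((γ s - γ t') * cexp (-(t' * I))).re - ((γ t' - γ s) * cexp (-(s * I))).re := by
    rw [← Complex.neg_re, ← Complex.sub_re]
    congr 1
    ring
  rw [h9] at h8
  have h10 : 0 < 4 * Real.sin ((t' - s) / 2) ^ 2 * (RAL_r γ ρ s t').re := by
    rw [← h8]; linarith
  exact (pos_iff_pos_of_mul_pos h10).1
    (lt_of_le_of_ne (by positivity) (fun h => by rw [← h] at h10; simp at h10))

theorem tRAL : StRAL := by
  intro γ ρ h s
  refine ⟨RAL_r γ ρ s, RAL_cont h s, fun t => RAL_r_per h s t, fun t => RAL_pos h s t, ?_⟩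
  intro t
  exact RAL_r_eq h s t

end H738PI
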