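import Pool.Agent.H738R2.PI.Defs

/-! Task RF: local `n`-th root of the regular part of `i^n g`. -/

open Complex Set Filter Topology Polynomial

namespace H738PI

theorem tRF : StRF := by
  intro n g z0 hn hg
  obtain ⟨g1, hg1, hnd⟩ := Polynomial.exists_eq_pow_rootMultiplicity_mul_and_not_dvd g hg z0
  have hg10 : g1.eval z0 ≠ 0 := by
    intro h
    exact hnd (Polynomial.dvd_iff_isRoot.2 h)
  obtain ⟨c0, hc0⟩ := IsAlgClosed.exists_pow_nat_eq (g1.eval z0) (show 0 < n by omega)
  have hc00 : c0 ≠ 0 := by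
    intro h
    rw [h, zero_pow (by omega)] at hc0
    exact hg10 hc0.symm
  -- the ball
  have hq : Continuous (fun x : ℂ => g1.eval x / g1.eval z0) :=
    (g1.continuous).div_const _
  have hmem : (fun x : ℂ => g1.eval x / g1.eval z0) ⁻¹' (Complex.slitPlane) ∈ 𝓝 z0 := by
    apply hq.continuousAt.preimage_mem_nhds
    apply Complex.isOpen_slitPlane.mem_nhds
    rw [div_self hg10]
    exact Complex.one_mem_slitPlane
  obtain ⟨r, hr, hb⟩ := Metric.mem_nhds_iff.1 hmem
  refine ⟨r, hr, fun x => I * c0 * (g1.eval x / g1.eval z0) ^ ((n:ℂ)⁻¹), ?_, ?_⟩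
  · intro x hx
    have hs : g1.eval x / g1.eval z0 ∈ Complex.slitPlane := hb hx
    have h1 : DifferentiableAt ℂ (fun x : ℂ => g1.eval x / g1.eval z0) x :=
      (g1.differentiable.differentiableAt).div_const _
    exact ((h1.cpow (differentiableAt_const _) hs).const_mul (I * c0)).differentiableWithinAt
  · intro x hx
    have hs : g1.eval x / g1.eval z0 ∈ Complex.slitPlane := hb hx
    have hne : g1.eval x / g1.eval z0 ≠ 0 := Complex.slitPlane_ne_zero hs
    constructor
    · apply mul_ne_zero (mul_ne_zero I_ne_zero hc00)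
      rw [Ne, Complex.cpow_eq_zero_iff]
      rintro ⟨h, -⟩
      exact hne h
    · have h1 : ((g1.eval x / g1.eval z0) ^ ((n:ℂ)⁻¹)) ^ n = g1.eval x / g1.eval z0 :=
        Complex.cpow_nat_inv_pow _ (by omega)
      have h2 : g.eval x = (x - z0) ^ (g.rootMultiplicity z0) * g1.eval x := by
        conv_lhs => rw [hg1]
        simp
      rw [h2, mul_pow, mul_pow, h1, hc0]
      field_simp

end H738PI
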