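import Pool.Agent.H738R2.PI.Defs

set_option autoImplicit false
set_option linter.all false

open Complex Set Filter Topology Polynomial

namespace H738PI

/-- polar representation with a signed radius -/
def ROOT_Rep (f : ℝ → ℂ) (κ : ℝ) : Prop :=
  ∃ (R θ : ℝ → ℝ), Continuous R ∧ Dense {t | R t ≠ 0} ∧ Continuous θ ∧
    (∀ t, θ (t + 2 * Real.pi) = θ t) ∧
    ∀ t : ℝ, f t = (R t : ℂ) * cexp (((κ * t + θ t : ℝ) : ℂ) * I)

theorem ROOT_mul {f g : ℝ → ℂ} {κ μ : ℝ} (hf : ROOT_Rep f κ) (hg : ROOT_Rep g μ) :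
    ROOT_Rep (fun t => f t * g t) (κ + μ) := by
  obtain ⟨R, θ, h1, h2, h3, h4, h5⟩ := hf
  obtain ⟨R', θ', h1', h2', h3', h4', h5'⟩ := hg
  refine ⟨fun t => R t * R' t, fun t => θ t + θ' t, h1.mul h1', ?_, h3.add h3', ?_, ?_⟩
  · have e : {t | R t * R' t ≠ 0} = {t | R t ≠ 0} ∩ {t | R' t ≠ 0} := by
      ext t; simp [mul_ne_zero_iff]
    rw [e]
    exact h2.inter_of_isOpen_left h2' (isOpen_ne_fun h1 continuous_const)
  · intro t
    simp only [h4, h4']
  · intro t
    simp only [h5, h5']
    have e : cexp ((((κ + μ) * t + (θ t + θ' t) : ℝ) : ℂ) * I) =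
        cexp (((κ * t + θ t : ℝ) : ℂ) * I) * cexp (((μ * t + θ' t : ℝ) : ℂ) * I) := by
      rw [← Complex.exp_add]
      congr 1
      push_cast
      ring
    rw [e]
    push_cast
    ring

theorem ROOT_const (c : ℂ) (hc : c ≠ 0) : ROOT_Rep (fun _ => c) 0 := by
  refine ⟨fun _ => ‖c‖, fun _ => c.arg, continuous_const, ?_, continuous_const,
    fun _ => rfl, fun t => ?_⟩
  · have : {t : ℝ | ‖c‖ ≠ 0} = univ := by
      ext t; simp [hc]
    rw [this]; exact dense_univ
  · have h := Complex.norm_mul_exp_arg_mul_I c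
    simp only [zero_mul, zero_add]
    exact h.symm

/-- a function with positive real part -/
theorem ROOT_pos {q : ℝ → ℂ} (hq : Continuous q) (hp : ∀ t, q (t + 2 * Real.pi) = q t)
    (hr : ∀ t, 0 < (q t).re) : ROOT_Rep q 0 := by
  refine ⟨fun t => ‖q t‖, fun t => (q t).arg, hq.norm, ?_, ?_, ?_, ?_⟩
  · have : {t : ℝ | ‖q t‖ ≠ 0} = univ := by
      ext t
      simp only [mem_setOf_eq, mem_univ, iff_true, ne_eq, norm_eq_zero]
      intro h
      have := hr t
      rw [h] at this
      simp at this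
    rw [this]; exact dense_univ
  · rw [continuous_iff_continuousAt]
    intro t
    have h1 : ContinuousAt Complex.arg (q t) :=
      Complex.continuousAt_arg (Or.inl (hr t))
    exact ContinuousAt.comp (f := q) h1 hq.continuousAt
  · intro t
    simp only [hp]
  · intro t
    have h := Complex.norm_mul_exp_arg_mul_I (q t)
    simp only [zero_mul, zero_add]
    exact h.symm

theorem ROOT_rot (κ : ℝ) : ROOT_Rep (fun t => cexp ((κ * t : ℝ) * I)) κ := by
  refine ⟨fun _ => 1, fun _ => 0, continuous_const, ?_, continuous_const,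
    fun _ => rfl, fun t => ?_⟩
  · have : {t : ℝ | (1:ℝ) ≠ 0} = univ := by
      ext t; simp
    rw [this]; exact dense_univ
  · simp

theorem ROOT_real {S : ℝ → ℝ} (hS : Continuous S) (hd : Dense {t | S t ≠ 0}) :
    ROOT_Rep (fun t => (S t : ℂ)) 0 := by
  refine ⟨S, fun _ => 0, hS, hd, continuous_const, fun _ => rfl, fun t => ?_⟩
  simp

theorem ROOT_congr {f g : ℝ → ℂ} {κ : ℝ} (h : ∀ t, g t = f t) (hf : ROOT_Rep f κ) :
    ROOT_Rep g κ := by
  have : g = f := funext h
  rw [this]; exact hf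

theorem ROOT_sin (s : ℝ) : Dense {t : ℝ | Real.sin ((t - s) / 2) ≠ 0} := by
  have hc : (Set.range (fun k : ℤ => s + 2 * (k * Real.pi))).Countable := countable_range _
  have hd := hc.dense_compl ℝ
  refine hd.mono ?_
  intro t ht h0
  apply ht
  rw [Real.sin_eq_zero_iff] at h0
  obtain ⟨k, hk⟩ := h0
  exact ⟨k, by simp only; linarith⟩

theorem ROOT_one (hGEO : StGEO) (hRAL : StRAL) {γ : ℝ → ℂ} {ρ : ℝ → ℝ} (ov : Oval γ ρ) (ζ : ℂ) :
    ∃ κ : ℝ, ROOT_Rep (fun t => γ t - ζ) κ ∧ κ ≤ 1 ∧ (κ = 1 → Ins γ ζ) := by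
  have hγ : Continuous γ := by
    rw [continuous_iff_continuousAt]
    exact fun s => (ov.der s).continuousAt
  obtain ⟨_, _, g3, _, g5, _, _, _, _⟩ := hGEO γ ρ ov
  by_cases hI : Ins γ ζ
  · refine ⟨1, ?_, le_rfl, fun _ => hI⟩
    have h1 : ROOT_Rep (fun t : ℝ => (γ t - ζ) * cexp (-(t * I))) 0 := by
      apply ROOT_pos
      · exact (hγ.sub continuous_const).mul (by fun_prop)
      · intro t
        rw [ov.per]
        congr 1
        rw [show -(((t + 2 * Real.pi : ℝ) : ℂ) * I) = -(t * I) - 2 * Real.pi * I by push_cast; ring,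
          Complex.exp_sub, Complex.exp_two_pi_mul_I, div_one]
      · exact hI
    have h2 := ROOT_mul (ROOT_rot 1) h1
    rw [add_zero] at h2
    refine ROOT_congr (fun t => ?_) h2
    have : cexp (((1 * t : ℝ) : ℂ) * I) * cexp (-(t * I)) = 1 := by
      rw [← Complex.exp_add]; simp
    calc γ t - ζ = (γ t - ζ) * (cexp (((1 * t : ℝ) : ℂ) * I) * cexp (-(t * I))) := by
          rw [this, mul_one]
      _ = _ := by ring
  · by_cases hO : Out γ ζ
    · obtain ⟨s, hs⟩ := g5 ζ hO
      refine ⟨0, ?_, by norm_num, fun h => absurd h (by norm_num)⟩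
      have h1 : ROOT_Rep (fun t : ℝ => (ζ - γ t) * cexp (-(s * I))) 0 := by
        apply ROOT_pos
        · exact (continuous_const.sub hγ).mul continuous_const
        · intro t
          rw [ov.per]
        · exact hs
      have h2 := ROOT_mul (ROOT_const (- cexp (s * I)) (by
        simp [Complex.exp_ne_zero])) h1
      rw [add_zero] at h2
      refine ROOT_congr (fun t => ?_) h2
      have : cexp (s * I) * cexp (-(s * I)) = 1 := by
        rw [← Complex.exp_add]; simp
      calc γ t - ζ = (γ t - ζ) * (cexp (s * I) * cexp (-(s * I))) := by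
            rw [this, mul_one]
        _ = _ := by ring
    · obtain ⟨s, rfl⟩ := g3 ζ hI hO
      obtain ⟨r, r1, r2, r3, r4⟩ := hRAL γ ρ ov s
      refine ⟨1 / 2, ?_, by norm_num, fun h => absurd h (by norm_num)⟩
      have h1 := ROOT_pos r1 r2 r3
      have h2 := ROOT_mul (ROOT_const (2 * I * cexp (s / 2 * I)) (by
        simp [Complex.exp_ne_zero])) (ROOT_mul (ROOT_real (S := fun t => Real.sin ((t - s) / 2))
          (by fun_prop) (ROOT_sin s)) (ROOT_mul (ROOT_rot (1 / 2)) h1))
      rw [show (0 : ℝ) + (0 + (1 / 2 + 0)) = 1 / 2 by ring] at h2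
      refine ROOT_congr (fun t => ?_) h2
      rw [r4 t]
      rw [show ((t : ℂ) + s) / 2 * I = s / 2 * I + ((1 / 2 * t : ℝ) : ℂ) * I by push_cast; ring,
        Complex.exp_add]
      ring

theorem ROOT_multi (hGEO : StGEO) (hRAL : StRAL) {γ : ℝ → ℂ} {ρ : ℝ → ℝ} (ov : Oval γ ρ)
    (m : Multiset ℂ) :
    ∃ κ : ℝ, ROOT_Rep (fun t => (m.map (fun ζ => γ t - ζ)).prod) κ ∧ κ ≤ m.card ∧
      (κ = m.card → ∀ ζ ∈ m, Ins γ ζ) := by
  induction m using Multiset.induction_on with
  | empty =>
    refine ⟨0, ?_, by simp, fun _ ζ hζ => absurd hζ (Multiset.notMem_zero ζ)⟩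
    refine ROOT_congr (fun t => ?_) (ROOT_const 1 one_ne_zero)
    simp
  | cons ζ m ih =>
    obtain ⟨κ, h1, h2, h3⟩ := ih
    obtain ⟨μ, h4, h5, h6⟩ := ROOT_one hGEO hRAL ov ζ
    refine ⟨μ + κ, ?_, ?_, ?_⟩
    · refine ROOT_congr (fun t => ?_) (ROOT_mul h4 h1)
      simp
    · rw [Multiset.card_cons]; push_cast; linarith
    · intro h
      rw [Multiset.card_cons] at h
      push_cast at h
      have e1 : μ = 1 := by linarith
      have e2 : κ = m.card := by linarith
      intro z hz
      rw [Multiset.mem_cons] at hz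
      rcases hz with rfl | hz
      · exact h6 e1
      · exact h3 e2 z hz

theorem tROOT (hGEO : StGEO) (hRAL : StRAL) : StROOT := by
  intro γ ρ ov n g hn hg hdeg hP
  have hsp : g.Splits := IsAlgClosed.splits g
  have hcard : g.roots.card = g.natDegree := hsp.natDegree_eq_card_roots.symm
  obtain ⟨κ, h1, h2, h3⟩ := ROOT_multi hGEO hRAL ov g.roots
  have hlc : g.leadingCoeff ≠ 0 := leadingCoeff_ne_zero.mpr hg
  have heval : ∀ t, g.eval (γ t) = g.leadingCoeff * (g.roots.map (fun ζ => γ t - ζ)).prod := by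
    intro t
    conv_lhs => rw [hsp.eq_prod_roots]
    rw [eval_mul, eval_C, eval_multiset_prod, Multiset.map_map]
    congr 2
    apply Multiset.map_congr rfl
    intro ζ _
    simp
  have h4 := ROOT_mul (ROOT_mul (ROOT_rot (-(n : ℝ))) (ROOT_const g.leadingCoeff hlc)) h1
  have h5 : ROOT_Rep (fun t => cexp (-(n * t * I)) * g.eval (γ t)) (-(n:ℝ) + 0 + κ) := by
    refine ROOT_congr (fun t => ?_) h4
    rw [heval t]
    rw [show ((-(n:ℝ) * t : ℝ) : ℂ) * I = -(n * t * I) by push_cast; ring]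
    ring
  obtain ⟨R, θ, r1, r2, r3, r4, r5⟩ := h5
  have hsin : ∀ t, Real.sin ((-(n:ℝ) + 0 + κ) * t + θ t) = 0 := by
    have hd : ∀ t ∈ {t | R t ≠ 0}, Real.sin ((-(n:ℝ) + 0 + κ) * t + θ t) = 0 := by
      intro t ht
      have h6 := hP t
      simp only at r5
      rw [r5 t, Complex.im_ofReal_mul, Complex.exp_ofReal_mul_I_im] at h6
      exact (mul_eq_zero.mp h6).resolve_left ht
    have hc1 : Continuous (fun t => Real.sin ((-(n:ℝ) + 0 + κ) * t + θ t)) := by fun_prop
    have := Continuous.ext_on r2 hc1 (continuous_const (y := (0:ℝ))) (fun t ht => hd t ht)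
    intro t
    exact congrFun this t
  have hκ : κ = n := by
    by_contra hne
    set F : ℝ → ℝ := fun t => (-(n:ℝ) + 0 + κ) * t + θ t with hF
    have hFc : Continuous F := by fun_prop
    have hF0 : F (0 + 2 * Real.pi) ≠ F 0 := by
      simp only [hF, r4]
      intro h
      apply hne
      have hpi := Real.pi_pos
      have : (-(n:ℝ) + 0 + κ) * (2 * Real.pi) = 0 := by linarith
      have h7 := (mul_eq_zero.mp this).resolve_right (by positivity)
      linarith
    have key : ∀ a b : ℝ, F a < F b → False := by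
      intro a b hab
      set v : ℝ := F a + min 1 (F b - F a) with hv
      have hm : 0 < min 1 (F b - F a) := lt_min one_pos (by linarith)
      have hm1 : min 1 (F b - F a) ≤ 1 := min_le_left _ _
      have hm2 : min 1 (F b - F a) ≤ F b - F a := min_le_right _ _
      have hmem : v ∈ Set.range F := by
        have hpre : IsPreconnected (Set.range F) := isPreconnected_range hFc
        exact hpre.Icc_subset (mem_range_self a) (mem_range_self b) ⟨by linarith, by linarith⟩
      obtain ⟨t, ht⟩ := hmem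
      have s1 : Real.sin (F t) = 0 := hsin t
      have s2 : Real.sin (F a) = 0 := hsin a
      have s3 : Real.sin (F t - F a) = 0 := by
        rw [Real.sin_sub, s1, s2]; ring
      have s4 : 0 < Real.sin (F t - F a) := by
        apply Real.sin_pos_of_pos_of_lt_pi
        · rw [ht]; linarith
        · rw [ht]
          have := Real.pi_gt_three
          linarith
      linarith
    rcases lt_or_gt_of_ne hF0 with h | h
    · exact key _ _ h
    · exact key _ _ h
  have h7 : (n : ℝ) ≤ g.natDegree := by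
    rw [← hκ, ← hcard]; exact h2
  have h8 : g.natDegree = n := le_antisymm hdeg (by exact_mod_cast h7)
  refine ⟨h8, fun ζ hζ => ?_⟩
  refine h3 ?_ ζ ?_
  · rw [hκ, hcard, h8]
  · rw [mem_roots hg]; exact hζ

end H738PI
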