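import Pool.Agent.H738R2.PI.Defs

/-! Task SOLX: the differential equation propagates. -/

open Complex Set Filter Topology Polynomial

namespace H738PI

theorem SOLX_open (a b : ℝ) : IsOpen (strip a b) := by
  have h1 : IsOpen {u : ℂ | a < u.im} := isOpen_lt continuous_const Complex.continuous_im
  have h2 : IsOpen {u : ℂ | u.im < b} := isOpen_lt Complex.continuous_im continuous_const
  exact h1.inter h2

theorem SOLX_convex (a b : ℝ) : Convex ℝ (strip a b) := by
  have h1 : Convex ℝ {u : ℂ | a < u.im} := convex_halfSpace_im_gt a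
  have h2 : Convex ℝ {u : ℂ | u.im < b} := convex_halfSpace_im_lt b
  exact h1.inter h2

theorem tSOLX : StSOLX := by
  intro n g z a b a' b' haa hab hbb hz hsol
  refine ⟨hz, ?_⟩
  have hsub : strip a' b' ⊆ strip a b := fun u hu => ⟨haa.trans_lt hu.1, hu.2.trans_le hbb⟩
  have hzan : AnalyticOnNhd ℂ z (strip a b) := hz.analyticOnNhd (SOLX_open a b)
  have hdan : AnalyticOnNhd ℂ (deriv z) (strip a b) := hzan.deriv
  set f : ℂ → ℂ := fun u => (deriv z u) ^ n - I ^ n * g.eval (z u) with hf
  have hfan : AnalyticOnNhd ℂ f (strip a b) := by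
    intro u hu
    have h1 : AnalyticAt ℂ (fun u => (deriv z u) ^ n) u := (hdan u hu).pow n
    have h2 : AnalyticAt ℂ (fun u => g.eval (z u)) u := by
      have hg : AnalyticAt ℂ (fun x : ℂ => g.eval x) (z u) :=
        (g.differentiable.analyticAt (z u))
      exact hg.comp (hzan u hu)
    exact h1.sub (analyticAt_const.mul h2)
  -- a point of the small strip
  set p : ℂ := ⟨0, (a' + b') / 2⟩ with hp
  have hpS : p ∈ strip a' b' := ⟨by simp [hp]; linarith, by simp [hp]; linarith⟩
  have hev : f =ᶠ[𝓝 p] 0 := by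
    filter_upwards [(SOLX_open a' b').mem_nhds hpS] with u hu
    simp only [hf, Pi.zero_apply]
    rw [hsol.2 u hu, sub_self]
  have hzero := hfan.eqOn_zero_of_preconnected_of_eventuallyEq_zero
    (SOLX_convex a b).isPreconnected (hsub hpS) hev
  intro u hu
  have := hzero hu
  simp only [hf, Pi.zero_apply] at this
  exact sub_eq_zero.1 this

end H738PI
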