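import Pool.Agent.H738R2.PI.Defs

open Complex Set Filter Topology Polynomial

namespace H738PI

lemma STAY_strip_open (a b : ℝ) : IsOpen (strip a b) := by
  unfold strip
  exact (isOpen_lt continuous_const Complex.continuous_im).inter
    (isOpen_lt Complex.continuous_im continuous_const)

/-- positivity of a function with positive derivative, to the right -/
lemma STAY_pos_right {h : ℝ → ℝ} {m : ℝ} (hd : HasDerivAt h m 0) (h0 : h 0 = 0) (hm : 0 < m) :
    ∃ ε > 0, ∀ t, 0 < t → t < ε → 0 < h t := by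
  have h1 := hasDerivAt_iff_tendsto_slope.mp hd
  have h2 : ∀ᶠ t in 𝓝[≠] (0:ℝ), 0 < slope h 0 t := h1.eventually (lt_mem_nhds hm)
  rw [eventually_nhdsWithin_iff] at h2
  rw [Metric.eventually_nhds_iff] at h2
  obtain ⟨ε, hε, h3⟩ := h2
  refine ⟨ε, hε, fun t ht1 ht2 => ?_⟩
  have h4 := h3 (y := t) (by rw [Real.dist_eq, sub_zero, abs_of_pos ht1]; exact ht2)
    (by simp [ht1.ne'])
  rw [slope_def_field, h0, sub_zero, sub_zero] at h4
  have := mul_pos h4 ht1
  rwa [div_mul_cancel₀ _ ht1.ne'] at this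

lemma STAY_roots_finite (n : ℕ) (hn : 1 ≤ n) : {w : ℂ | w ^ n = 1}.Finite := by
  apply Set.Finite.subset (Finset.finite_toSet (Polynomial.nthRoots n (1:ℂ)).toFinset)
  intro w hw
  rw [Finset.mem_coe, Multiset.mem_toFinset, Polynomial.mem_nthRoots (by omega)]
  exact hw

lemma STAY_const (n : ℕ) (hn : 1 ≤ n) (T : ℝ) (hT : 0 ≤ T) (χ : ℝ → ℂ)
    (hc : ContinuousOn χ (Icc 0 T)) (h1 : ∀ t ∈ Icc 0 T, (χ t) ^ n = 1) : χ T = χ 0 := by
  exact (isPreconnected_Icc (a := (0:ℝ)) (b := T)).constant_of_mapsTo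
    (STAY_roots_finite n hn).isDiscrete hc (fun t ht => h1 t ht) ⟨hT, le_rfl⟩ ⟨le_rfl, hT⟩

theorem tSTAY (hGEO : StGEO) (hBR : StBR) : StSTAY := by
  intro γ ρ n g e σ c c' z hD hP hc hc' hS hz u hu1 hu2
  obtain ⟨hG1, hG2, hG3, hG4, hG5, hG6, hG7, hG8, hG9⟩ := hGEO γ ρ hD.ov
  obtain ⟨Φ, hΦc, hΦn, hΦγ⟩ := hBR γ ρ n g e hD
  have hn := hD.hn
  set x : ℝ := u.re with hx
  set t0 : ℝ := -u.im with ht0
  have ht0pos : 0 < t0 := by rw [ht0]; linarith
  have ht0c : t0 < c := by rw [ht0]; linarith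
  have hu : u = (x : ℂ) - t0 * I := by
    apply Complex.ext <;> simp [hx, ht0]
  -- roots are inside
  have hgne : ∀ ζ, ¬ Ins γ ζ → g.eval ζ ≠ 0 := fun ζ h h0 => h (hD.ins ζ h0)
  -- the path
  set ζ : ℝ → ℂ := fun t => z ((x : ℂ) - t * I) with hζ
  have hmem : ∀ t : ℝ, -c' < t → t < c → ((x : ℂ) - t * I) ∈ strip (-c) c' := by
    intro t h1 h2
    simp only [strip, mem_setOf_eq, sub_im, ofReal_im, mul_im, ofReal_re, I_im, mul_one, I_re,
      mul_zero, add_zero, zero_sub]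
    constructor <;> linarith
  have hzd : ∀ v ∈ strip (-c) c', DifferentiableAt ℂ z v := fun v hv =>
    hS.1.differentiableAt ((STAY_strip_open _ _).mem_nhds hv)
  have hζd : ∀ t : ℝ, -c' < t → t < c →
      HasDerivAt ζ (deriv z ((x : ℂ) - t * I) * (-I)) t := by
    intro t h1 h2
    have h3 : HasDerivAt (fun t : ℝ => (x : ℂ) - t * I) (-I) t := by
      have h4 : HasDerivAt (fun t : ℝ => (t : ℂ)) 1 t := (hasDerivAt_id t).ofReal_comp
      have h5 := (h4.mul_const I).const_sub (x : ℂ)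
      simpa using h5
    exact HasDerivAt.comp t (hzd _ (hmem t h1 h2)).hasDerivAt h3
  have hdzc : ContinuousOn (deriv z) (strip (-c) c') :=
    (hS.1.deriv (STAY_strip_open _ _)).continuousOn
  have hζc : ContinuousOn ζ (Icc 0 t0) := fun t ht =>
    (hζd t (by linarith [ht.1]) (by linarith [ht.2])).continuousAt.continuousWithinAt
  have hζ0 : ζ 0 = γ (σ x) := by
    simp only [hζ]
    rw [← hz x]
    simp
  -- the derivative on the real axis
  set m : ℝ → ℝ := fun s => ‖g.eval (γ s)‖ ^ (1 / (n : ℝ)) with hm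
  have hmpos : ∀ s, 0 < m s := fun s =>
    Real.rpow_pos_of_pos (norm_pos_iff.mpr (hgne _ (hG6 s))) _
  have hdz : deriv z x = I * cexp (σ x * I) * (m (σ x) : ℂ) := by
    have h1 : HasDerivAt (fun t : ℝ => z (t : ℂ)) (deriv z (x : ℂ)) x := by
      have h2 : (x : ℂ) ∈ strip (-c) c' := by
        have := hmem 0 (by linarith) (by linarith)
        simpa using this
      have h3 : HasDerivAt (fun t : ℝ => (t : ℂ)) 1 x := (hasDerivAt_id x).ofReal_comp
      have h4 := HasDerivAt.comp x (hzd _ h2).hasDerivAt h3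
      rw [mul_one] at h4
      exact h4
    have h2 : (fun t : ℝ => z (t : ℂ)) = fun t => γ (σ t) := funext hz
    rw [h2] at h1
    exact h1.unique (hP.der x)
  have hexp : ∀ s : ℝ, cexp (s * I) * cexp (-(s * I)) = 1 := by
    intro s
    rw [← Complex.exp_add, add_neg_cancel, Complex.exp_zero]
  -- Out for small times
  have hsmall : ∃ ε > 0, ∀ t, 0 < t → t < ε → Out γ (ζ t) := by
    have h1 := hζd 0 (by linarith) hc
    have h2 : HasDerivAt (fun t => (ζ t - γ (σ x)) * cexp (-(σ x * I)))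
        (deriv z ((x : ℂ) - (0 : ℝ) * I) * (-I) * cexp (-(σ x * I))) 0 :=
      (h1.sub_const _).mul_const _
    have h3 : deriv z ((x : ℂ) - (0 : ℝ) * I) * (-I) * cexp (-(σ x * I)) = (m (σ x) : ℂ) := by
      have h4 : (x : ℂ) - (0 : ℝ) * I = x := by simp
      rw [h4, hdz]
      calc I * cexp (σ x * I) * (m (σ x) : ℂ) * (-I) * cexp (-(σ x * I))
          = -(I * I) * (cexp (σ x * I) * cexp (-(σ x * I))) * (m (σ x) : ℂ) := by ring
        _ = (m (σ x) : ℂ) := by rw [hexp, I_mul_I]; ring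
    rw [h3] at h2
    have h4 : HasDerivAt (fun t => ((ζ t - γ (σ x)) * cexp (-(σ x * I))).re) (m (σ x)) 0 := by
      have := Complex.reCLM.hasFDerivAt.comp_hasDerivAt (0:ℝ) h2
      rw [Complex.reCLM_apply, ofReal_re] at this
      exact this
    obtain ⟨ε, hε, h5⟩ := STAY_pos_right h4 (by simp [hζ0]) (hmpos _)
    refine ⟨ε, hε, fun t ht1 ht2 => ⟨σ x, ?_⟩⟩
    have h6 := h5 t ht1 ht2
    have h7 : (γ (σ x) - ζ t) * cexp (-(σ x * I)) = -((ζ t - γ (σ x)) * cexp (-(σ x * I))) := by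
      ring
    rw [h7, neg_re]
    linarith
  obtain ⟨ε, hε, hsm⟩ := hsmall
  -- the first bad time
  by_contra hcon
  rw [hu] at hcon
  set S : Set ℝ := {t | t ∈ Icc 0 t0 ∧ (0 < t ∧ ¬ Out γ (ζ t))} with hSdef
  have hSne : S.Nonempty := ⟨t0, ⟨ht0pos.le, le_rfl⟩, ht0pos, hcon⟩
  have hSbdd : BddBelow S := ⟨0, fun t ht => ht.1.1⟩
  set T : ℝ := sInf S with hT
  have hTε : ε ≤ T := by
    apply le_csInf hSne
    intro t ht
    by_contra h
    exact ht.2.2 (hsm t ht.2.1 (not_le.mp h))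
  have hTpos : 0 < T := lt_of_lt_of_le hε hTε
  have hTt0 : T ≤ t0 := csInf_le hSbdd ⟨⟨ht0pos.le, le_rfl⟩, ht0pos, hcon⟩
  have hTc : T < c := lt_of_le_of_lt hTt0 ht0c
  have hout : ∀ t, 0 < t → t < T → Out γ (ζ t) := by
    intro t h1 h2
    by_contra h3
    exact absurd (csInf_le hSbdd ⟨⟨h1.le, by linarith⟩, h1, h3⟩) (not_le.mpr h2)
  have hζcT : ∀ t, 0 ≤ t → t ≤ T → ContinuousAt ζ t := fun t h1 h2 =>
    (hζd t (by linarith) (by linarith)).continuousAt
  have hTout : ¬ Out γ (ζ T) := by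
    intro h
    have h1 : ∀ᶠ t in 𝓝 T, Out γ (ζ t) := (hζcT T hTpos.le le_rfl).eventually
      (hG9.mem_nhds h)
    rw [Metric.eventually_nhds_iff] at h1
    obtain ⟨δ, hδ, h2⟩ := h1
    obtain ⟨t, ht, htT⟩ := exists_lt_of_csInf_lt hSne (show sInf S < T + δ by linarith)
    have h3 : T ≤ t := csInf_le hSbdd ht
    exact ht.2.2 (h2 (by rw [Real.dist_eq, abs_of_nonneg (by linarith)]; linarith))
  -- not inside on [0, T]
  have hnins : ∀ t ∈ Icc 0 T, ¬ Ins γ (ζ t) := by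
    intro t ht
    rcases eq_or_lt_of_le ht.1 with h | h
    · rw [← h, hζ0]; exact hG6 _
    rcases eq_or_lt_of_le ht.2 with h' | h'
    · -- limit
      have h1 : Tendsto ζ (𝓝[<] T) (𝓝 (ζ T)) :=
        (hζcT T hTpos.le le_rfl).tendsto.mono_left nhdsWithin_le_nhds
      rw [h']
      refine hG8.mem_of_tendsto h1 ?_
      have h2 : Ioo 0 T ∈ 𝓝[<] T := Ioo_mem_nhdsLT hTpos
      filter_upwards [h2] with t ht
      exact hG4 _ (hout t ht.1 ht.2)
    · exact hG4 _ (hout t h h')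
  obtain ⟨s1, hs1⟩ := hG3 (ζ T) (hnins T ⟨hTpos.le, le_rfl⟩) hTout
  -- the branch
  have hχ : deriv z ((x : ℂ) - T * I) / Φ (ζ T) = deriv z ((x : ℂ) - (0:ℝ) * I) / Φ (ζ 0) := by
    have hΦne : ∀ t ∈ Icc 0 T, Φ (ζ t) ≠ 0 := by
      intro t ht h0
      have h1 := hΦn (ζ t) (hnins t ht)
      rw [h0, zero_pow (by omega)] at h1
      have h2 : I ^ n * g.eval (ζ t) ≠ 0 :=
        mul_ne_zero (pow_ne_zero _ I_ne_zero) (hgne _ (hnins t ht))
      exact h2 h1.symm
    apply STAY_const n hn T hTpos.le (fun t => deriv z ((x : ℂ) - t * I) / Φ (ζ t))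
    · apply ContinuousOn.div
      · have h1 : ContinuousOn (fun t : ℝ => (x : ℂ) - t * I) (Icc 0 T) := by fun_prop
        exact hdzc.comp h1 (fun t ht => hmem t (by linarith [ht.1]) (by linarith [ht.2]))
      · exact hΦc.comp (fun t ht => (hζcT t ht.1 ht.2).continuousWithinAt)
          (fun t ht => hnins t ht)
      · exact hΦne
    · intro t ht
      have h1 := hΦn (ζ t) (hnins t ht)
      have h2 := hS.2 _ (hmem t (by linarith [ht.1]) (by linarith [ht.2]))
      rw [div_pow, h1, h2]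
      have h3 : I ^ n * g.eval (ζ t) ≠ 0 :=
        mul_ne_zero (pow_ne_zero _ I_ne_zero) (hgne _ (hnins t ht))
      exact div_self h3
  have hΦs : ∀ s, Φ (γ s) = I * cexp (s * I) * (m s : ℂ) := hΦγ
  have hΦs0 : ∀ s, Φ (γ s) ≠ 0 := by
    intro s
    rw [hΦs]
    exact mul_ne_zero (mul_ne_zero I_ne_zero (Complex.exp_ne_zero _))
      (by exact_mod_cast (hmpos s).ne')
  have hdT : deriv z ((x : ℂ) - T * I) = I * cexp (s1 * I) * (m s1 : ℂ) := by
    have h4 : (x : ℂ) - (0 : ℝ) * I = x := by simp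
    rw [h4, hζ0, hdz, hΦs, hs1, ← hΦs (σ x), div_self (hΦs0 _), div_eq_one_iff_eq (hΦs0 _)] at hχ
    rw [hχ, hΦs]
  -- the contradiction at T
  have hζT : HasDerivAt ζ (cexp (s1 * I) * (m s1 : ℂ)) T := by
    have h1 := hζd T (by linarith) hTc
    rw [hdT] at h1
    convert h1 using 1
    calc cexp (s1 * I) * (m s1 : ℂ) = -(I * I) * (cexp (s1 * I) * (m s1 : ℂ)) := by
          rw [I_mul_I]; ring
      _ = I * cexp (s1 * I) * (m s1 : ℂ) * (-I) := by ring
  -- the sequence of witnesses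
  have hwit : ∀ k : ℕ, ∃ s ∈ Icc (0:ℝ) (2 * Real.pi),
      ((γ s - ζ (T - T / (k + 2))) * cexp (-(s * I))).re < 0 := by
    intro k
    have hk : (0:ℝ) < k + 2 := by positivity
    have h1 : 0 < T / (k + 2) := by positivity
    have h2 : T / (k + 2) < T := by
      rw [div_lt_iff₀ hk]
      nlinarith
    obtain ⟨s, hs⟩ := hout (T - T / (k + 2)) (by linarith) (by linarith)
    have hper : Function.Periodic
        (fun s : ℝ => ((γ s - ζ (T - T / (k + 2))) * cexp (-(s * I))).re) (2 * Real.pi) := by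
      intro s
      simp only
      rw [hD.ov.per s]
      have h3 : cexp (-(((s + 2 * Real.pi : ℝ) : ℂ) * I)) = cexp (-(s * I)) := by
        have h4 : -(((s + 2 * Real.pi : ℝ) : ℂ) * I) = -(s * I) - 2 * Real.pi * I := by
          push_cast; ring
        rw [h4, Complex.exp_sub, Complex.exp_two_pi_mul_I, div_one]
      rw [h3]
    obtain ⟨s', hs', hss⟩ := hper.exists_mem_Ico₀ (by positivity) s
    exact ⟨s', ⟨hs'.1, hs'.2.le⟩, by simpa only [← hss] using hs⟩
  choose sk hsk1 hsk2 using hwit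
  obtain ⟨s2, hs2, φ, hφ, hlim⟩ := (isCompact_Icc (a := (0:ℝ)) (b := 2 * Real.pi)).tendsto_subseq
    hsk1
  set tk : ℕ → ℝ := fun k => T - T / ((φ k : ℕ) + 2 : ℝ) with htk
  have htk_lt : ∀ k, tk k < T := by
    intro k
    have : 0 < T / ((φ k : ℕ) + 2 : ℝ) := by positivity
    simp only [htk]; linarith
  have htk_lim : Tendsto tk atTop (𝓝 T) := by
    have h1 : Tendsto (fun k : ℕ => T / ((k : ℝ) + 2)) atTop (𝓝 0) := by
      apply Tendsto.div_atTop tendsto_const_nhds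
      exact tendsto_atTop_add_const_right _ _ tendsto_natCast_atTop_atTop
    have h2 := (h1.comp hφ.tendsto_atTop).const_sub T
    simpa [htk] using h2
  -- limit of the inequality
  have hζlim : Tendsto (fun k => ζ (tk k)) atTop (𝓝 (γ s1)) := by
    rw [← hs1]
    exact (hζcT T hTpos.le le_rfl).tendsto.comp htk_lim
  have hγc : Continuous γ := continuous_iff_continuousAt.mpr (fun s => (hD.ov.der s).continuousAt)
  have hexpc : Tendsto (fun k => cexp (-(((sk (φ k) : ℝ) : ℂ) * I))) atTop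
      (𝓝 (cexp (-(s2 * I)))) := by
    have h1 : Continuous (fun s : ℝ => cexp (-((s : ℂ) * I))) := by fun_prop
    exact (h1.tendsto s2).comp hlim
  have hle : ((γ s2 - γ s1) * cexp (-(s2 * I))).re ≤ 0 := by
    have h1 : Tendsto (fun k => ((γ (sk (φ k)) - ζ (tk k)) *
        cexp (-(((sk (φ k) : ℝ) : ℂ) * I))).re) atTop
        (𝓝 ((γ s2 - γ s1) * cexp (-(s2 * I))).re) := by
      apply (Complex.continuous_re.tendsto _).comp
      exact (((hγc.tendsto s2).comp hlim).sub hζlim).mul hexpc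
    exact le_of_tendsto' h1 (fun k => (hsk2 (φ k)).le)
  have hmod : ∃ k : ℤ, s1 = s2 + k * (2 * Real.pi) := by
    by_contra h
    have h1 := hG2 s2 s1 h
    have h2 : (γ s2 - γ s1) * cexp (-(s2 * I)) = -((γ s1 - γ s2) * cexp (-(s2 * I))) := by ring
    rw [h2, neg_re] at hle
    linarith
  have hexp12 : cexp (s1 * I) * cexp (-(s2 * I)) = 1 := by
    obtain ⟨k, hk⟩ := hmod
    rw [← Complex.exp_add, hk, Complex.exp_eq_one_iff]
    exact ⟨k, by push_cast; ring⟩
  -- slopes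
  have hslope : Tendsto (fun k => (slope ζ T (tk k) * cexp (-(((sk (φ k) : ℝ) : ℂ) * I))).re) atTop
      (𝓝 (m s1)) := by
    have h1 := hasDerivAt_iff_tendsto_slope.mp hζT
    have h2 : Tendsto tk atTop (𝓝[≠] T) :=
      tendsto_nhdsWithin_iff.mpr ⟨htk_lim, Eventually.of_forall (fun k => (htk_lt k).ne)⟩
    have h3 := (h1.comp h2).mul hexpc
    have h4 : cexp (s1 * I) * (m s1 : ℂ) * cexp (-(s2 * I)) = (m s1 : ℂ) := by
      calc cexp (s1 * I) * (m s1 : ℂ) * cexp (-(s2 * I))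
          = (cexp (s1 * I) * cexp (-(s2 * I))) * (m s1 : ℂ) := by ring
        _ = (m s1 : ℂ) := by rw [hexp12, one_mul]
    rw [h4] at h3
    have h5 := (Complex.continuous_re.tendsto _).comp h3
    rw [ofReal_re] at h5
    exact h5
  have hneg : ∀ k, (slope ζ T (tk k) * cexp (-(((sk (φ k) : ℝ) : ℂ) * I))).re ≤ 0 := by
    intro k
    have h1 := hsk2 (φ k)
    have h2 : ¬ ((γ (sk (φ k)) - ζ T) * cexp (-(((sk (φ k) : ℝ) : ℂ) * I))).re < 0 :=
      fun h => hTout ⟨_, h⟩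
    have h3 : ((ζ T - ζ (tk k)) * cexp (-(((sk (φ k) : ℝ) : ℂ) * I))).re ≤ 0 := by
      have h4 : (ζ T - ζ (tk k)) * cexp (-(((sk (φ k) : ℝ) : ℂ) * I)) =
          (γ (sk (φ k)) - ζ (tk k)) * cexp (-(((sk (φ k) : ℝ) : ℂ) * I)) -
          (γ (sk (φ k)) - ζ T) * cexp (-(((sk (φ k) : ℝ) : ℂ) * I)) := by ring
      rw [h4, sub_re]
      push Not at h2
      have h1' : ((γ (sk (φ k)) - ζ (tk k)) * cexp (-(((sk (φ k) : ℝ) : ℂ) * I))).re < 0 := h1
      linarith
    have h5 : slope ζ T (tk k) * cexp (-(((sk (φ k) : ℝ) : ℂ) * I)) =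
        (((T - tk k)⁻¹ : ℝ) : ℂ) * ((ζ T - ζ (tk k)) * cexp (-(((sk (φ k) : ℝ) : ℂ) * I))) := by
      rw [slope_def_module, Complex.real_smul]
      have h6 : (((tk k - T)⁻¹ : ℝ) : ℂ) = -(((T - tk k)⁻¹ : ℝ) : ℂ) := by
        rw [← neg_sub T (tk k), inv_neg]
        push_cast
        ring
      rw [h6]
      ring
    rw [h5, Complex.re_ofReal_mul]
    apply mul_nonpos_of_nonneg_of_nonpos _ h3
    have := htk_lt k
    exact inv_nonneg.mpr (by linarith)
  have hfin := le_of_tendsto' hslope hneg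
  have := hmpos s1
  linarith

end H738PI
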