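import Pool.Agent.H738R2.PI.Defs

open Complex Set Filter Topology Polynomial

namespace H738PI

theorem STRIP_eval_ne {γ : ℝ → ℂ} {ρ : ℝ → ℝ} {n : ℕ} {g e : ℂ[X]} (hD : Dat γ ρ n g e) (s : ℝ) :
    g.eval (γ s) ≠ 0 := by
  intro h
  have := hD.pos s
  rw [h] at this
  simp at this

/-- `g (γ s) = e^{ins} ‖g (γ s)‖` -/
theorem STRIP_eval_eq {γ : ℝ → ℂ} {ρ : ℝ → ℝ} {n : ℕ} {g e : ℂ[X]} (hD : Dat γ ρ n g e) (s : ℝ) :
    g.eval (γ s) = cexp (n * s * I) * (‖g.eval (γ s)‖ : ℂ) := by
  have h1 := hD.p1 s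
  have h2 := hD.pos s
  set w := cexp (-(n * s * I)) * g.eval (γ s) with hw
  have hre : w = (w.re : ℂ) := by
    apply Complex.ext <;> simp [h1]
  have hn : ‖w‖ = ‖g.eval (γ s)‖ := by
    rw [hw, norm_mul, Complex.norm_exp]
    simp
  have hnw : ‖w‖ = w.re := by
    rw [hre, Complex.norm_real]
    simp only [Real.norm_eq_abs, ofReal_re]
    exact abs_of_pos h2
  have hww : w = (‖g.eval (γ s)‖ : ℂ) := by
    rw [← hn, hnw]; exact hre
  rw [← hww, hw, ← mul_assoc, ← Complex.exp_add]
  simp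

theorem STRIP_pow {γ : ℝ → ℂ} {ρ : ℝ → ℝ} {n : ℕ} {g e : ℂ[X]} (hD : Dat γ ρ n g e) (s : ℝ) :
    (I * cexp (s * I) * ((‖g.eval (γ s)‖ ^ (1 / (n : ℝ)) : ℝ) : ℂ)) ^ n = I ^ n * g.eval (γ s) := by
  have hn : n ≠ 0 := by have := hD.hn; omega
  rw [mul_pow, mul_pow, ← Complex.exp_nat_mul, mul_assoc]
  congr 1
  conv_rhs => rw [STRIP_eval_eq hD s]
  rw [← Complex.ofReal_pow]
  congr 1
  · congr 1; ring
  · congr 1
    rw [← Real.rpow_natCast, ← Real.rpow_mul (norm_nonneg _)]
    rw [one_div, inv_mul_cancel₀ (by exact_mod_cast hn), Real.rpow_one]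

theorem STRIP_id {f h : ℂ → ℂ} {U : Set ℂ} (hU : IsOpen U) (hc : IsPreconnected U)
    (hf : DifferentiableOn ℂ f U) (hh : DifferentiableOn ℂ h U) (m : ℝ) (hm : (m : ℂ) ∈ U)
    (he : ∀ᶠ t : ℝ in 𝓝 m, f t = h t) : EqOn f h U := by
  apply AnalyticOnNhd.eqOn_of_preconnected_of_frequently_eq (hf.analyticOnNhd hU)
    (hh.analyticOnNhd hU) hc hm
  have hT : Tendsto (fun t : ℝ => (t : ℂ)) (𝓝[≠] m) (𝓝[≠] (m : ℂ)) := by
    apply tendsto_nhdsWithin_of_tendsto_nhds_of_eventually_within
    · exact (Complex.continuous_ofReal.tendsto m).mono_left nhdsWithin_le_nhds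
    · filter_upwards [self_mem_nhdsWithin] with t ht
      simpa using ht
  apply hT.frequently
  exact (he.filter_mono nhdsWithin_le_nhds).frequently


/-- local solutions agree with the curve on the real interval -/
theorem STRIP_real (hLUR : StLUR) {n : ℕ} {g : ℂ[X]} (hn : 1 ≤ n) {E : ℂ → ℂ} {x r : ℝ}
    (hr : 0 < r) (hE : Sol n g E (Metric.ball (x : ℂ) r)) {f f' : ℝ → ℂ}
    (hf : ∀ t, HasDerivAt f (f' t) t) (hf' : Continuous f')
    (hode : ∀ t, (f' t) ^ n = I ^ n * g.eval (f t)) (hg : ∀ t, g.eval (f t) ≠ 0)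
    (h0 : E x = f x) (h1 : deriv E x = f' x) :
    ∀ t ∈ Ioo (x - r) (x + r), ∀ᶠ s : ℝ in 𝓝 t, E s = f s := by
  have hmem : ∀ t ∈ Ioo (x - r) (x + r), (t : ℂ) ∈ Metric.ball (x : ℂ) r := by
    intro t ht
    rw [Metric.mem_ball, Complex.dist_of_im_eq (by simp), Real.dist_eq]
    simp only [ofReal_re]
    rw [abs_lt]; constructor <;> linarith [ht.1, ht.2]
  have hdiff : ∀ t ∈ Ioo (x - r) (x + r), HasDerivAt (fun s : ℝ => E s) (deriv E t) t := by
    intro t ht
    exact ((hE.1.differentiableAt (Metric.isOpen_ball.mem_nhds (hmem t ht))).hasDerivAt).comp_ofReal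
  have hdc : ContinuousOn (deriv E) (Metric.ball (x : ℂ) r) :=
    (hE.1.deriv Metric.isOpen_ball).continuousOn
  have hcd : ∀ t ∈ Ioo (x - r) (x + r), ContinuousAt (fun s : ℝ => deriv E s) t := by
    intro t ht
    have := hdc.continuousAt (Metric.isOpen_ball.mem_nhds (hmem t ht))
    exact ContinuousAt.comp (f := fun s : ℝ => (s : ℂ)) this Complex.continuous_ofReal.continuousAt
  have hfc : Continuous f := continuous_iff_continuousAt.2 fun t => (hf t).continuousAt
  -- local uniqueness at a point where values and derivatives agree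
  have key : ∀ t ∈ Ioo (x - r) (x + r), E t = f t → deriv E t = f' t →
      ∀ᶠ s : ℝ in 𝓝 t, E s = f s := by
    intro t ht h0 h1
    have := hLUR n g t (fun s => E s) f (fun s => deriv E s) f' hn ?_ ?_ (hcd t ht)
      hf'.continuousAt h0 h1 (by simpa [h0] using hg t)
    · exact this
    · filter_upwards [isOpen_Ioo.mem_nhds ht] with s hs
      exact ⟨hdiff s hs, hE.2 s (hmem s hs)⟩
    · exact Eventually.of_forall fun s => ⟨hf s, hode s⟩
  have hder : ∀ t ∈ Ioo (x - r) (x + r), (∀ᶠ s : ℝ in 𝓝 t, E s = f s) →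
      E t = f t ∧ deriv E t = f' t := by
    intro t ht he
    refine ⟨he.self_of_nhds, ?_⟩
    exact (hdiff t ht).unique ((hf t).congr_of_eventuallyEq he)
  have hsub : Ioo (x - r) (x + r) ⊆ {t : ℝ | ∀ᶠ s : ℝ in 𝓝 t, E s = f s} := by
    apply isPreconnected_Ioo.subset_of_closure_inter_subset isOpen_setOfPred_eventually_nhds
    · refine ⟨x, ⟨by linarith, by linarith⟩, ?_⟩
      exact key x ⟨by linarith, by linarith⟩ h0 h1
    · rintro t ⟨htc, ht⟩
      rw [mem_closure_iff_frequently] at htc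
      have hfr : ∃ᶠ s : ℝ in 𝓝 t, E s = f s ∧ deriv E s = f' s := by
        refine (htc.and_eventually (isOpen_Ioo.mem_nhds ht)).mono ?_
        rintro s ⟨hs1, hs2⟩
        exact hder s hs2 hs1
      apply key t ht
      · exact tendsto_nhds_unique_of_frequently_eq (hdiff t ht).continuousAt
          hfc.continuousAt (hfr.mono fun s hs => hs.1)
      · exact tendsto_nhds_unique_of_frequently_eq (hcd t ht)
          hf'.continuousAt (hfr.mono fun s hs => hs.2)
  exact fun t ht => hsub ht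

theorem tSTRIP (hUNIF : StUNIF) (hLUR : StLUR) : StSTRIP := by
  intro γ ρ n g e σ hD hP
  have hn := hD.hn
  have hg0 : g ≠ 0 := by
    intro h; exact STRIP_eval_ne hD 0 (by simp [h])
  have hγc : Continuous γ := continuous_iff_continuousAt.2 fun t => (hD.ov.der t).continuousAt
  have hK : IsCompact (range γ) := by
    refine Function.Periodic.compact_of_continuous (c := 2 * Real.pi) ?_ (by positivity) hγc
    exact hD.ov.per
  obtain ⟨r, hr, hU⟩ := hUNIF n g (range γ) hn hg0 hK (by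
    rintro _ ⟨s, rfl⟩
    have : g.rootMultiplicity (γ s) = 0 :=
      Polynomial.rootMultiplicity_eq_zero (STRIP_eval_ne hD s)
    rw [this]
    exact ⟨by omega, by simp⟩)
  set f : ℝ → ℂ := fun x => γ (σ x) with hfdef
  set f' : ℝ → ℂ := fun x => I * cexp (σ x * I) *
    ((‖g.eval (γ (σ x))‖ ^ (1 / (n : ℝ)) : ℝ) : ℂ) with hf'def
  have hf : ∀ t, HasDerivAt f (f' t) t := hP.der
  have hfc : Continuous f := continuous_iff_continuousAt.2 fun t => (hf t).continuousAt
  have hf' : Continuous f' := by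
    rw [hf'def]
    have h1 : Continuous fun x : ℝ => ‖g.eval (γ (σ x))‖ ^ (1 / (n : ℝ)) := by
      apply Continuous.rpow_const
      · exact (g.continuous.comp (hγc.comp hP.cont)).norm
      · intro x; right; positivity
    have h2 := hP.cont
    fun_prop
  have hode : ∀ t, (f' t) ^ n = I ^ n * g.eval (f t) := fun t => STRIP_pow hD (σ t)
  have hgf : ∀ t, g.eval (f t) ≠ 0 := fun t => STRIP_eval_ne hD (σ t)
  have hfper : ∀ x, f (x + 2 * Real.pi) = f x := by
    intro x; simp only [hfdef]; rw [hP.per, hD.ov.per]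
  choose E hE using fun x : ℝ => hU (x : ℂ) (f x) (f' x) ⟨σ x, rfl⟩ (hgf x) (hode x)
  have hEr : ∀ x : ℝ, ∀ t ∈ Ioo (x - r) (x + r), ∀ᶠ s : ℝ in 𝓝 t, E x s = f s := by
    intro x
    exact STRIP_real hLUR hn hr (hE x).1 hf hf' hode hgf (hE x).2.1 (hE x).2.2
  -- agreement on overlaps
  have hov : ∀ a b : ℝ, ∀ u ∈ Metric.ball (a : ℂ) r ∩ Metric.ball (b : ℂ) r, E a u = E b u := by
    intro a b u hu
    have hab : |a - b| < 2 * r := by
      have h1 : dist (a : ℂ) (b : ℂ) < 2 * r := by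
        have h3 := dist_triangle (a : ℂ) u b
        have h4 : dist (a : ℂ) u < r := by rw [dist_comm]; exact hu.1
        have h5 : dist u (b : ℂ) < r := hu.2
        linarith
      rwa [Complex.dist_of_im_eq (by simp), Real.dist_eq] at h1
    rw [abs_lt] at hab
    set m : ℝ := (a + b) / 2 with hm
    have hma : m ∈ Ioo (a - r) (a + r) := by constructor <;> (rw [hm]; linarith [hab.1, hab.2])
    have hmb : m ∈ Ioo (b - r) (b + r) := by constructor <;> (rw [hm]; linarith [hab.1, hab.2])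
    have hmem : ∀ c : ℝ, m ∈ Ioo (c - r) (c + r) → (m : ℂ) ∈ Metric.ball (c : ℂ) r := by
      intro c hc
      rw [Metric.mem_ball, Complex.dist_of_im_eq (by simp), Real.dist_eq]
      simp only [ofReal_re]
      rw [abs_lt]; constructor <;> linarith [hc.1, hc.2]
    have := STRIP_id (f := E a) (h := E b) (U := Metric.ball (a : ℂ) r ∩ Metric.ball (b : ℂ) r)
      (Metric.isOpen_ball.inter Metric.isOpen_ball)
      ((convex_ball _ _).inter (convex_ball _ _)).isPreconnected
      ((hE a).1.1.mono inter_subset_left) ((hE b).1.1.mono inter_subset_right) m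
      ⟨hmem a hma, hmem b hmb⟩ (by
        filter_upwards [hEr a m hma, hEr b m hmb] with t h1 h2
        rw [h1, h2])
    exact this hu
  -- the glued function
  set z : ℂ → ℂ := fun u => E u.re u with hz
  have hself : ∀ u : ℂ, |u.im| < r → u ∈ Metric.ball (u.re : ℂ) r := by
    intro u hu
    rw [Metric.mem_ball, Complex.dist_of_re_eq (by simp), Real.dist_eq]
    simpa using hu
  have hzE : ∀ a : ℝ, ∀ u ∈ Metric.ball (a : ℂ) r, z u = E a u := by
    intro a u hu
    have hui : |u.im| < r := by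
      have h1 : |(u - a).im| ≤ ‖u - a‖ := Complex.abs_im_le_norm _
      have h2 : ‖u - a‖ < r := by simpa [dist_eq_norm] using hu
      simp at h1
      linarith
    exact hov u.re a u ⟨hself u hui, hu⟩
  have hzev : ∀ u : ℂ, |u.im| < r → z =ᶠ[𝓝 u] E u.re := by
    intro u hu
    filter_upwards [Metric.isOpen_ball.mem_nhds (hself u hu)] with v hv
    exact hzE u.re v hv
  have hsol : ∀ u : ℂ, |u.im| < r → DifferentiableAt ℂ z u ∧ (deriv z u) ^ n = I ^ n * g.eval (z u) := by
    intro u hu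
    have h1 := hzev u hu
    have h2 : DifferentiableAt ℂ (E u.re) u :=
      (hE u.re).1.1.differentiableAt (Metric.isOpen_ball.mem_nhds (hself u hu))
    refine ⟨h1.differentiableAt_iff.2 h2, ?_⟩
    rw [h1.deriv_eq]
    exact (hE u.re).1.2 u (hself u hu)
  have hzR : ∀ x : ℝ, z x = f x := fun x => (hE x).2.1
  -- periodicity
  have hper : ∀ u : ℂ, |u.im| < r → z (u + (2 * Real.pi : ℝ)) = z u := by
    intro u hu
    set a := u.re with ha
    have h1 : DifferentiableOn ℂ (fun v => E (a + 2 * Real.pi) (v + (2 * Real.pi : ℝ)))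
        (Metric.ball (a : ℂ) r) := by
      apply (hE (a + 2 * Real.pi)).1.1.comp (by fun_prop)
      intro v hv
      rw [Metric.mem_ball] at hv ⊢
      rw [dist_eq_norm] at hv ⊢
      convert hv using 2
      push_cast; ring
    have h2 := STRIP_id (f := fun v => E (a + 2 * Real.pi) (v + (2 * Real.pi : ℝ))) (h := E a)
      (U := Metric.ball (a : ℂ) r) Metric.isOpen_ball (convex_ball _ _).isPreconnected h1
      (hE a).1.1 a (Metric.mem_ball_self hr) (by
        have h3 := hEr a a ⟨by linarith, by linarith⟩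
        have h4 := hEr (a + 2 * Real.pi) (a + 2 * Real.pi) ⟨by linarith, by linarith⟩
        have h5 : Tendsto (fun t : ℝ => t + 2 * Real.pi) (𝓝 a) (𝓝 (a + 2 * Real.pi)) := by
          apply Continuous.tendsto; fun_prop
        filter_upwards [h3, h5.eventually h4] with t h6 h7
        rw [h6, ← hfper, ← h7]
        push_cast; rfl)
    have h6 := h2 (hself u hu)
    have h7 : z (u + (2 * Real.pi : ℝ)) = E (a + 2 * Real.pi) (u + (2 * Real.pi : ℝ)) := by
      simp only [hz]
      congr 1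
    rw [h7]; exact h6
  -- nonvanishing
  have hopen : IsOpen {u : ℂ | |u.im| < r ∧ g.eval (z u) ≠ 0} := by
    rw [isOpen_iff_mem_nhds]
    rintro u ⟨hu, hgu⟩
    have h1 : ContinuousAt (fun v => g.eval (z v)) u :=
      g.continuous.continuousAt.comp (hsol u hu).1.continuousAt
    have h2 : ∀ᶠ v in 𝓝 u, |v.im| < r := by
      have : Continuous fun v : ℂ => |v.im| := by fun_prop
      exact this.continuousAt.eventually (gt_mem_nhds hu)
    filter_upwards [h1.eventually_ne hgu, h2] with v hv1 hv2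
    exact ⟨hv2, hv1⟩
  have hcomp : IsCompact ((fun x : ℝ => (x : ℂ)) '' Icc 0 (2 * Real.pi)) :=
    isCompact_Icc.image Complex.continuous_ofReal
  obtain ⟨δ, hδ, hth⟩ := hcomp.exists_thickening_subset_open hopen (by
    rintro _ ⟨x, -, rfl⟩
    refine ⟨by simpa using hr, ?_⟩
    change g.eval (z x) ≠ 0
    rw [hzR]; exact hgf x)
  refine ⟨min r δ, lt_min hr hδ, z, ⟨?_, ?_⟩, hzR, ?_⟩
  · intro u hu
    have : |u.im| < r := abs_lt.2 ⟨by linarith [hu.1, min_le_left r δ], by linarith [hu.2, min_le_left r δ]⟩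
    exact (hsol u this).1.differentiableWithinAt
  · intro u hu
    have : |u.im| < r := abs_lt.2 ⟨by linarith [hu.1, min_le_left r δ], by linarith [hu.2, min_le_left r δ]⟩
    exact (hsol u this).2
  · intro u hu
    have hur : |u.im| < r := abs_lt.2 ⟨by linarith [hu.1, min_le_left r δ], by linarith [hu.2, min_le_left r δ]⟩
    have huδ : |u.im| < δ := abs_lt.2 ⟨by linarith [hu.1, min_le_right r δ], by linarith [hu.2, min_le_right r δ]⟩
    have hp : Function.Periodic (fun x : ℝ => z ((x : ℂ) + u.im * I)) (2 * Real.pi) := by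
      intro x
      have := hper ((x : ℂ) + u.im * I) (by simpa using hur)
      change z (((x + 2 * Real.pi : ℝ) : ℂ) + u.im * I) = z ((x : ℂ) + u.im * I)
      rw [← this]
      congr 1
      push_cast; ring
    obtain ⟨y, hy, hy2⟩ := hp.exists_mem_Ico₀ (by positivity) u.re
    have h3 : z u = z ((y : ℂ) + u.im * I) := by
      have : (u.re : ℂ) + u.im * I = u := Complex.re_add_im u
      simp only [this] at hy2
      exact hy2
    rw [h3]
    have h4 : (y : ℂ) + u.im * I ∈ Metric.thickening δ ((fun x : ℝ => (x : ℂ)) '' Icc 0 (2 * Real.pi)) := by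
      rw [Metric.mem_thickening_iff]
      refine ⟨(y : ℂ), ⟨y, ⟨hy.1, hy.2.le⟩, rfl⟩, ?_⟩
      rw [dist_eq_norm]
      simpa using huδ
    exact (hth h4).2

end H738PI
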