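import Pool.Agent.H738R2.PI.Defs

open Complex Set Filter Topology Polynomial

namespace H738PI

theorem SUP_coef {a : ℕ → ℝ → ℝ} (ha : Coef a) : Coef (da a) := by
  refine ⟨fun j => ?_, fun j s => ?_⟩
  · unfold da
    exact continuous_const.mul (ha.cont (j + 1))
  · unfold da
    rw [ha.per (j + 1) s]

theorem SUP_zero (a : ℕ → ℝ → ℝ) (N : ℕ) (m : ℤ) :
    Fm a N m 0 = ∫ φ in (0:ℝ)..(2 * Real.pi), (a 0 φ : ℂ) * cexp (-(m * φ * I)) := by
  unfold Fm
  congr 1
  funext φ
  congr 2
  unfold Kf
  rw [Finset.sum_eq_single 0]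
  · simp
  · intro j _ hj
    simp [zero_pow hj]
  · intro h
    exact absurd (Finset.mem_range.2 (Nat.succ_pos N)) h

/-- the modes of the derivative vanish -/
theorem SUP_step (hDV : StDV) (a : ℕ → ℝ → ℝ) (N : ℕ) (ha : Coef a) (m : ℤ)
    (h : ∀ z, Fm a (N + 1) m z = 0) (z : ℂ) :
    Fm (da a) N (m + 1) z = 0 ∧ Fm (da a) N (m - 1) z = 0 := by
  have key : ∀ v : ℂ, v * Fm (da a) N (m + 1) z + starRingEnd ℂ v * Fm (da a) N (m - 1) z = 0 := by
    intro v
    have h1 := hDV a N ha (fun t : ℝ => z + (t : ℂ) * v) (fun _ => v) continuous_const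
      (fun s => by
        have h2 : HasDerivAt (fun t : ℝ => (t : ℂ)) 1 s := Complex.ofRealCLM.hasDerivAt
        have h3 := (h2.mul_const v).const_add z
        simpa using h3) m 0
    have h4 : (fun t : ℝ => Fm a (N + 1) m (z + (t : ℂ) * v)) = fun _ => 0 := by
      funext t
      exact h _
    rw [h4] at h1
    have h5 := h1.unique (hasDerivAt_const (0 : ℝ) (0 : ℂ))
    simp only [ofReal_zero, zero_mul, add_zero] at h5
    have h6 : (2 : ℂ) ≠ 0 := two_ne_zero
    rw [div_eq_zero_iff] at h5
    rcases h5 with h5 | h5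
    · exact h5
    · exact absurd h5 h6
  have k1 := key 1
  have k2 := key I
  rw [map_one, one_mul, one_mul] at k1
  rw [conj_I] at k2
  have k3 : I * (Fm (da a) N (m + 1) z - Fm (da a) N (m - 1) z) = 0 := by
    rw [← k2]
    ring
  have k4 : Fm (da a) N (m + 1) z - Fm (da a) N (m - 1) z = 0 := by
    rcases mul_eq_zero.1 k3 with h | h
    · exact absurd h I_ne_zero
    · exact h
  constructor
  · linear_combination (1 / 2 : ℂ) * k1 + (1 / 2 : ℂ) * k4
  · linear_combination (1 / 2 : ℂ) * k1 - (1 / 2 : ℂ) * k4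

theorem tSUP (hDV : StDV) : StSUP := by
  intro N
  induction N with
  | zero =>
    intro a _ n h j hj k hk
    obtain rfl : j = 0 := by omega
    rw [← SUP_zero a 0 k]
    apply h k
    simpa using hk
  | succ N ih =>
    intro a ha n h j hj k hk
    rcases Nat.eq_zero_or_pos j with rfl | hj0
    · rw [← SUP_zero a (N + 1) k]
      apply h k
      simpa using hk
    · obtain ⟨j', rfl⟩ : ∃ j', j = j' + 1 := ⟨j - 1, by omega⟩
      have h1 : ∀ m : ℤ, n - 1 < |m| → ∀ z, Fm (da a) N m z = 0 := by
        intro m hm z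
        rcases le_or_gt 0 m with h0 | h0
        · have h2 := (SUP_step hDV a N ha (m + 1)
            (h (m + 1) (by rw [abs_of_nonneg h0] at hm; rw [abs_of_nonneg (by omega)]; omega)) z).2
          rwa [add_sub_cancel_right] at h2
        · have h2 := (SUP_step hDV a N ha (m - 1)
            (h (m - 1) (by rw [abs_of_neg h0] at hm; rw [abs_of_neg (by omega)]; omega)) z).1
          rwa [sub_add_cancel] at h2
      have h3 := ih (da a) (SUP_coef ha) (n - 1) h1 j' (by omega) k (by push_cast at hk; omega)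
      have h4 : ∫ φ in (0:ℝ)..(2 * Real.pi), (da a j' φ : ℂ) * cexp (-(k * φ * I)) =
          ((j' : ℂ) + 1) *
            ∫ φ in (0:ℝ)..(2 * Real.pi), (a (j' + 1) φ : ℂ) * cexp (-(k * φ * I)) := by
        rw [← intervalIntegral.integral_const_mul]
        congr 1
        funext φ
        unfold da
        push_cast
        ring
      rw [h4] at h3
      have h5 : ((j' : ℂ) + 1) ≠ 0 := by exact_mod_cast Nat.succ_ne_zero j'
      rcases mul_eq_zero.1 h3 with h6 | h6
      · exact absurd h6 h5
      · exact h6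

end H738PI
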