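import Pool.Agent.H738R2.PI.Defs

open Complex Set Filter Topology Polynomial

namespace H738PI

theorem UNIF_mono {n : ℕ} {g : ℂ[X]} {z : ℂ → ℂ} {S T : Set ℂ} (h : Sol n g z T) (hST : S ⊆ T) :
    Sol n g z S := ⟨h.1.mono hST, fun u hu => h.2 u (hST hu)⟩

theorem tUNIF (hLE : StLE) : StUNIF := by
  intro n g K hn hg hK hgood
  refine hK.induction_on (p := fun s : Set ℂ => ∃ r > 0, ∀ (u1 z1 d1 : ℂ), z1 ∈ s →
      g.eval z1 ≠ 0 → d1 ^ n = I ^ n * g.eval z1 →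
      ∃ z : ℂ → ℂ, Sol n g z (Metric.ball u1 r) ∧ z u1 = z1 ∧ deriv z u1 = d1) ?_ ?_ ?_ ?_
  · exact ⟨1, one_pos, fun u1 z1 d1 h => absurd h (Set.notMem_empty _)⟩
  · rintro s t hst ⟨r, hr, h⟩
    exact ⟨r, hr, fun u1 z1 d1 hz => h u1 z1 d1 (hst hz)⟩
  · rintro s t ⟨r, hr, h⟩ ⟨r', hr', h'⟩
    refine ⟨min r r', lt_min hr hr', fun u1 z1 d1 hz h1 h2 => ?_⟩
    rcases hz with hz | hz
    · obtain ⟨z, hz1, hz2⟩ := h u1 z1 d1 hz h1 h2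
      exact ⟨z, UNIF_mono hz1 (Metric.ball_subset_ball (min_le_left _ _)), hz2⟩
    · obtain ⟨z, hz1, hz2⟩ := h' u1 z1 d1 hz h1 h2
      exact ⟨z, UNIF_mono hz1 (Metric.ball_subset_ball (min_le_right _ _)), hz2⟩
  · intro z0 hz0
    obtain ⟨h1, h2⟩ := hgood z0 hz0
    obtain ⟨r, hr, h⟩ := hLE n g z0 hn hg h1 h2
    refine ⟨Metric.ball z0 r, mem_nhdsWithin_of_mem_nhds (Metric.ball_mem_nhds z0 hr), r, hr,
      fun u1 z1 d1 hz hg1 hd => h u1 z1 d1 ?_ hg1 hd⟩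
    rwa [Metric.mem_ball, dist_eq_norm] at hz

end H738PI
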