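import Pool.Agent.H738R2.PI.Defs

/-!
# Task UP: continuation to arbitrarily wide strips
-/

open Complex Set Filter Topology Polynomial

namespace H738PI

lemma UP_strip_open (a b : ℝ) : IsOpen (strip a b) :=
  (isOpen_lt continuous_const Complex.continuous_im).inter
    (isOpen_lt Complex.continuous_im continuous_const)

lemma UP_strip_convex (a b : ℝ) : Convex ℝ (strip a b) := by
  have h1 : strip a b = Complex.imCLM ⁻¹' Set.Ioo a b := by
    ext u; rfl
  rw [h1]
  exact (convex_Ioo a b).linear_preimage Complex.imCLM.toLinearMap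

lemma UP_strip_mono {a b a' b' : ℝ} (ha : a ≤ a') (hb : b' ≤ b) : strip a' b' ⊆ strip a b :=
  fun _ hu => ⟨ha.trans_lt hu.1, hu.2.trans_le hb⟩

lemma UP_sol_mono {n : ℕ} {g : ℂ[X]} {z : ℂ → ℂ} {S T : Set ℂ} (h : Sol n g z T) (hST : S ⊆ T) :
    Sol n g z S := ⟨h.1.mono hST, fun u hu => h.2 u (hST hu)⟩

lemma UP_sol_congr {n : ℕ} {g : ℂ[X]} {z y : ℂ → ℂ} {S : Set ℂ} (hS : IsOpen S)
    (h : Sol n g z S) (he : EqOn y z S) : Sol n g y S := by
  refine ⟨h.1.congr he, fun u hu => ?_⟩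
  have h1 : y =ᶠ[𝓝 u] z := he.eventuallyEq_of_mem (hS.mem_nhds hu)
  rw [h1.deriv_eq, he hu]
  exact h.2 u hu

lemma UP_real_mem {a b : ℝ} (ha : a < 0) (hb : 0 < b) (x : ℝ) : (x : ℂ) ∈ strip a b := by
  constructor <;> simp [ha, hb]

lemma UP_refl_deriv {y : ℂ → ℂ} {u : ℂ} (h : DifferentiableAt ℂ y (starRingEnd ℂ u)) :
    HasDerivAt (refl y) (starRingEnd ℂ (deriv y (starRingEnd ℂ u))) u := by
  have h1 := h.hasDerivAt.conj_conj
  have e : refl y = fun x => starRingEnd ℂ (y (starRingEnd ℂ x)) := rfl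
  rw [e]
  simpa [Function.comp_def] using h1

lemma UP_g_ne {γ : ℝ → ℂ} {ρ : ℝ → ℝ} {n : ℕ} {g e : ℂ[X]} (hD : Dat γ ρ n g e) (s : ℝ) :
    g.eval (γ s) ≠ 0 := by
  intro h
  have := hD.pos s
  rw [h, mul_zero] at this
  simp at this

lemma UP_gne0 {γ : ℝ → ℂ} {ρ : ℝ → ℝ} {n : ℕ} {g e : ℂ[X]} (hD : Dat γ ρ n g e) : g ≠ 0 := by
  rintro rfl
  exact UP_g_ne hD 0 (by simp)

lemma UP_bdd {γ : ℝ → ℂ} {ρ : ℝ → ℝ} (hO : Oval γ ρ) : ∃ M : ℝ, 0 ≤ M ∧ ∀ s, ‖γ s‖ ≤ M := by
  have hc : Continuous γ := continuous_iff_continuousAt.2 fun s => (hO.der s).continuousAt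
  have hp : Function.Periodic γ (2 * Real.pi) := hO.per
  obtain ⟨M, hM⟩ := (isCompact_Icc (a := (0 : ℝ)) (b := 2 * Real.pi)).exists_bound_of_continuousOn
    hc.continuousOn
  refine ⟨max M 0, le_max_right _ _, fun s => ?_⟩
  obtain ⟨t, ht, hs⟩ := hp.exists_mem_Ico₀ (by positivity) s
  rw [hs]
  exact (hM t ⟨ht.1, ht.2.le⟩).trans (le_max_left _ _)

/-- in every small ball inside the strip there is a point with `g (z u) ≠ 0` -/
lemma UP_dense {n : ℕ} {g : ℂ[X]} {z : ℂ → ℂ} {a b : ℝ} (ha : a < 0) (hb : 0 < b)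
    (hz : Sol n g z (strip a b)) (h0 : g.eval (z 0) ≠ 0) {c : ℂ} {r : ℝ} (hr : 0 < r)
    (hsub : Metric.ball c r ⊆ strip a b) : ∃ u ∈ Metric.ball c r, g.eval (z u) ≠ 0 := by
  by_contra hcon
  push Not at hcon
  have hd : DifferentiableOn ℂ (fun u => g.eval (z u)) (strip a b) :=
    (g.differentiable).comp_differentiableOn hz.1
  have han := hd.analyticOnNhd (UP_strip_open a b)
  have hc : c ∈ strip a b := hsub (Metric.mem_ball_self hr)
  have hev : (fun u => g.eval (z u)) =ᶠ[𝓝 c] 0 := by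
    filter_upwards [Metric.ball_mem_nhds c hr] with u hu
    exact hcon u hu
  have := han.eqOn_zero_of_preconnected_of_eventuallyEq_zero (UP_strip_convex a b).isPreconnected
    hc hev
  have h1 := this (x := (0 : ℂ)) (by simpa using UP_real_mem ha hb 0)
  exact h0 h1

theorem tUP (hDOWN : StDOWN) (hUNIF : StUNIF) (hEXT : StEXT) (hSOLX : StSOLX) (hGLUE : StGLUE)
    (hGROW : StGROW) (hBAD : StBAD) (hIDE : StIDE) : StUP := by
  classical
  intro γ ρ n g e σ hD hP hmult D0 hD0
  obtain ⟨c, hc, hdown⟩ := hDOWN γ ρ n g e σ hD hP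
  have hg0 := UP_gne0 hD
  -- we may enlarge D
  set D := D0 + c with hDdef
  have hDc : c ≤ D := by linarith
  have hDpos : 0 < D := by linarith
  set D1 := D + 1 + c with hD1
  obtain ⟨y, hy, hyr, hyne⟩ := hdown D1 (by linarith)
  obtain ⟨A, hA, hgrow⟩ := hGROW n g hD.hn hD.deg.le
  obtain ⟨M, hM0, hM⟩ := UP_bdd hD.ov
  set B := (M + 1) * Real.exp (A * D1) with hB
  have hB0 : 0 ≤ B := by positivity
  -- bound for all solutions
  have hbound : ∀ (b : ℝ) (z : ℂ → ℂ), 0 < b → b ≤ D1 → Sol n g z (strip (-D) b) →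
      (∀ x : ℝ, z x = γ (σ x)) → ∀ u ∈ strip (-D) b, ‖z u‖ ≤ B := by
    intro b z hb hbD hz hzr u hu
    have h1 := hgrow (-D) b z (by linarith) hb hz u hu
    have h2 : ‖z (u.re : ℂ)‖ ≤ M := by rw [hzr]; exact hM _
    have h3 : |u.im| ≤ D1 := by
      rw [abs_le]
      constructor
      · have := hu.1; linarith
      · have := hu.2; linarith
    have h4 : Real.exp (A * |u.im|) ≤ Real.exp (A * D1) :=
      Real.exp_le_exp.2 (mul_le_mul_of_nonneg_left h3 hA.le)
    have h5 : (‖z (u.re : ℂ)‖ + 1) * Real.exp (A * |u.im|) ≤ B :=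
      mul_le_mul (by linarith) h4 (Real.exp_pos _).le (by linarith)
    linarith
  -- the reflected solution
  have hconjmem : ∀ u ∈ strip (-c) D1, starRingEnd ℂ u ∈ strip (-D1) c := by
    intro u hu
    constructor
    · rw [Complex.conj_im]; have := hu.2; linarith
    · rw [Complex.conj_im]; have := hu.1; linarith
  have hyd : ∀ u ∈ strip (-c) D1, DifferentiableAt ℂ y (starRingEnd ℂ u) := fun u hu =>
    hy.1.differentiableAt ((UP_strip_open _ _).mem_nhds (hconjmem u hu))
  have hw1 : DifferentiableOn ℂ (refl y) (strip (-c) D1) := fun u hu =>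
    (UP_refl_deriv (hyd u hu)).differentiableAt.differentiableWithinAt
  have hw2 : ∀ u ∈ strip (-c) D1, (cpol g).eval (refl y u) ≠ 0 ∧ deriv (refl y) u ≠ 0 := by
    intro u hu
    have h1 := hyne _ (hconjmem u hu)
    constructor
    · unfold cpol refl
      rw [eval_map, eval₂_hom]
      simpa using h1
    · rw [(UP_refl_deriv (hyd u hu)).deriv]
      intro h2
      have h3 : deriv y (starRingEnd ℂ u) = 0 := by simpa using h2
      have h4 := hy.2 _ (hconjmem u hu)
      rw [h3, zero_pow (by have := hD.hn; omega)] at h4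
      exact mul_ne_zero (pow_ne_zero _ I_ne_zero) h1 h4.symm
  -- bad points
  have hbadε : ∀ z0 : ℂ, ¬ (n - g.rootMultiplicity z0) ∣ n → ∃ ε > 0,
      ∀ (u1 : ℂ) (z w : ℂ → ℂ),
      (∀ᶠ u in 𝓝 u1, DifferentiableAt ℂ z u ∧ (deriv z u) ^ n = I ^ n * g.eval (z u)) →
      g.eval (z u1) ≠ 0 → ‖z u1 - z0‖ < ε →
      DifferentiableOn ℂ w (Metric.ball u1 c) →
      (∀ u ∈ Metric.ball u1 c, (cpol g).eval (w u) ≠ 0 ∧ deriv w u ≠ 0) →
      (∀ᶠ u in 𝓝 u1, Id2 g e z w u) → False := fun z0 hz0 =>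
    hBAD n g e z0 hD.hn hg0 (hmult z0) hz0 c hc
  choose! ε hε hbad using hbadε
  set S : Finset ℂ := g.roots.toFinset.filter fun z0 => ¬ (n - g.rootMultiplicity z0) ∣ n with hS
  set K : Set ℂ := Metric.closedBall 0 B \ ⋃ z0 ∈ S, Metric.ball z0 (ε z0) with hK
  have hKc : IsCompact K := by
    apply (isCompact_closedBall (0 : ℂ) B).diff
    apply isOpen_biUnion
    intro z0 _
    exact Metric.isOpen_ball
  have hKgood : ∀ z0 ∈ K, g.rootMultiplicity z0 < n ∧ (n - g.rootMultiplicity z0) ∣ n := by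
    intro z0 hz0
    refine ⟨hmult z0, ?_⟩
    by_contra hb
    have hroot : z0 ∈ S := by
      rw [hS, Finset.mem_filter]
      refine ⟨?_, hb⟩
      rw [Multiset.mem_toFinset, mem_roots hg0]
      by_contra hnr
      apply hb
      have : g.rootMultiplicity z0 = 0 := rootMultiplicity_eq_zero hnr
      rw [this, Nat.sub_zero]
    apply hz0.2
    simp only [Set.mem_iUnion]
    exact ⟨z0, hroot, Metric.mem_ball_self (hε z0 hb)⟩
  obtain ⟨r0, hr0, hunif⟩ := hUNIF n g K hD.hn hg0 hKc hKgood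
  set r := min r0 c with hr
  have hrpos : 0 < r := lt_min hr0 hc
  have hrc : r ≤ c := min_le_right _ _
  have hrr0 : r ≤ r0 := min_le_left _ _
  -- the step
  have step : ∀ b : ℝ, c ≤ b → b ≤ D → (∃ z : ℂ → ℂ, Sol n g z (strip (-D) b) ∧
      ∀ x : ℝ, z x = γ (σ x)) → ∃ z : ℂ → ℂ, Sol n g z (strip (-D) (b + r / 2)) ∧
      ∀ x : ℝ, z x = γ (σ x) := by
    rintro b hcb hbD ⟨z, hz, hzr⟩
    have hbpos : 0 < b := by linarith
    have hneg : -D < 0 := by linarith
    have hz0 : g.eval (z 0) ≠ 0 := by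
      have := hzr 0
      rw [Complex.ofReal_zero] at this
      rw [this]
      exact UP_g_ne hD _
    have hid := hIDE γ ρ n g e σ c b D1 z y hD hP hc hbpos (by linarith)
      (UP_sol_mono hz (UP_strip_mono (by linarith) le_rfl)) hy hzr hyr
    obtain ⟨v, hvd, hve⟩ := hGLUE (-D) b (r / 2) z (by linarith) (by linarith) hz.1 (by
      intro x
      -- the centre
      set c0 : ℂ := (x : ℂ) + ((b - r / 4 : ℝ) : ℂ) * I with hc0
      have hc0im : c0.im = b - r / 4 := by simp [hc0]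
      have hsub : Metric.ball c0 (r / 8) ⊆ strip (-D) b := by
        intro u hu
        rw [Metric.mem_ball, dist_eq_norm] at hu
        have h1 : |(u - c0).im| < r / 8 := (Complex.abs_im_le_norm _).trans_lt hu
        rw [Complex.sub_im, hc0im, abs_lt] at h1
        constructor
        · linarith [h1.1]
        · linarith [h1.2]
      obtain ⟨u1, hu1, hgu1⟩ := UP_dense hneg hbpos hz hz0 (by linarith) hsub
      have hu1s := hsub hu1
      have hu1im : b - r / 4 - r / 8 < u1.im ∧ u1.im < b := by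
        rw [Metric.mem_ball, dist_eq_norm] at hu1
        have h1 : |(u1 - c0).im| < r / 8 := (Complex.abs_im_le_norm _).trans_lt hu1
        rw [Complex.sub_im, hc0im, abs_lt] at h1
        exact ⟨by linarith [h1.1], hu1s.2⟩
      have hnear : ∀ᶠ u in 𝓝 u1, u ∈ strip (-D) b := (UP_strip_open _ _).mem_nhds hu1s
      have hu1c : u1 ∈ strip (-c) b := ⟨by linarith [hu1im.1], hu1im.2⟩
      have hnearc : ∀ᶠ u in 𝓝 u1, u ∈ strip (-c) b := (UP_strip_open _ _).mem_nhds hu1c
      have hballw : Metric.ball u1 c ⊆ strip (-c) D1 := by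
        intro u hu
        rw [Metric.mem_ball, dist_eq_norm] at hu
        have h1 : |(u - u1).im| < c := (Complex.abs_im_le_norm _).trans_lt hu
        rw [Complex.sub_im, abs_lt] at h1
        constructor
        · linarith [h1.1, hu1im.1]
        · linarith [h1.2, hu1im.2]
      have hzK : z u1 ∈ K := by
        refine ⟨?_, ?_⟩
        · rw [mem_closedBall_zero_iff]
          exact hbound b z hbpos (by linarith) hz hzr u1 hu1s
        · simp only [Set.mem_iUnion, not_exists]
          intro z0 hz0S hmem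
          rw [hS, Finset.mem_filter] at hz0S
          rw [Metric.mem_ball, dist_eq_norm] at hmem
          refine hbad z0 hz0S.2 u1 z (refl y) ?_ hgu1 hmem (hw1.mono hballw)
            (fun u hu => hw2 u (hballw hu)) ?_
          · filter_upwards [hnear] with u hu
            exact ⟨hz.1.differentiableAt ((UP_strip_open _ _).mem_nhds hu), hz.2 u hu⟩
          · filter_upwards [hnearc] with u hu
            exact hid u hu
      obtain ⟨E, hE, hE1, hE2⟩ := hunif u1 (z u1) (deriv z u1) hzK hgu1 (hz.2 u1 hu1s)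
      have hEr : Sol n g E (Metric.ball u1 r) := UP_sol_mono hE (Metric.ball_subset_ball hrr0)
      have hext := hEXT n g u1 z E (-D) b r hD.hn hrpos hz hu1s hgu1 hEr hE1 hE2
      have hball : Metric.ball ((x : ℂ) + b * I) (r / 2) ⊆ Metric.ball u1 r := by
        intro u hu
        rw [Metric.mem_ball] at hu hu1 ⊢
        have h1 : dist ((x : ℂ) + b * I) c0 ≤ r / 4 := by
          rw [dist_eq_norm]
          have e1 : (x : ℂ) + b * I - c0 = ((r / 4 : ℝ) : ℂ) * I := by
            rw [hc0]; push_cast; ring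
          rw [e1, norm_mul, Complex.norm_I, mul_one, Complex.norm_real, Real.norm_eq_abs,
            abs_of_pos (by linarith)]
        have h2 := dist_triangle u ((x : ℂ) + b * I) u1
        have h3 := dist_triangle ((x : ℂ) + b * I) c0 u1
        rw [dist_comm] at hu1
        linarith
      exact ⟨E, hEr.1.mono hball, fun u hu hus => hext u (hball hu) hus⟩)
    have hvS : Sol n g v (strip (-D) b) := UP_sol_congr (UP_strip_open _ _) hz hve
    refine ⟨v, hSOLX n g v (-D) (b + r / 2) (-D) b le_rfl (by linarith) (by linarith) hvd hvS, ?_⟩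
    intro x
    rw [hve (UP_real_mem hneg hbpos x), hzr]
  -- base
  have base : ∃ z : ℂ → ℂ, Sol n g z (strip (-D) c) ∧ ∀ x : ℝ, z x = γ (σ x) :=
    ⟨y, UP_sol_mono hy (UP_strip_mono (by linarith) le_rfl), hyr⟩
  have iter : ∀ m : ℕ, ∃ b : ℝ, min (c + m * (r / 2)) D ≤ b ∧ c ≤ b ∧
      ∃ z : ℂ → ℂ, Sol n g z (strip (-D) b) ∧ ∀ x : ℝ, z x = γ (σ x) := by
    intro m
    induction m with
    | zero => exact ⟨c, by simp, le_rfl, base⟩
    | succ m ih =>
      obtain ⟨b, hb1, hb2, hb3⟩ := ih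
      rcases le_or_gt b D with h | h
      · refine ⟨b + r / 2, ?_, by linarith, step b hb2 h hb3⟩
        push_cast
        rcases min_le_iff.1 hb1 with h1 | h1
        · exact (min_le_left _ _).trans (by linarith)
        · exact (min_le_right _ _).trans (by linarith)
      · exact ⟨b, (min_le_right _ _).trans h.le, hb2, hb3⟩
  obtain ⟨m, hm⟩ := exists_nat_ge ((D - c) / (r / 2))
  obtain ⟨b, hb1, _, z, hz, hzr⟩ := iter m
  have hbD : D ≤ b := by
    have h1 : D ≤ c + m * (r / 2) := by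
      rw [div_le_iff₀ (by linarith)] at hm
      linarith
    rw [min_eq_right h1] at hb1
    exact hb1
  exact ⟨z, UP_sol_mono hz (UP_strip_mono (by linarith) (by linarith)), hzr⟩

end H738PI
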