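import Pool.Agent.H738R2.PI.AN
import Pool.Agent.H738R2.PI.BAD
import Pool.Agent.H738R2.PI.BADX
import Pool.Agent.H738R2.PI.BR
import Pool.Agent.H738R2.PI.CH
import Pool.Agent.H738R2.PI.CIRC
import Pool.Agent.H738R2.PI.DOWN
import Pool.Agent.H738R2.PI.DV
import Pool.Agent.H738R2.PI.ELL
import Pool.Agent.H738R2.PI.EV
import Pool.Agent.H738R2.PI.EXT
import Pool.Agent.H738R2.PI.FOUR
import Pool.Agent.H738R2.PI.GEO
import Pool.Agent.H738R2.PI.GLUE
import Pool.Agent.H738R2.PI.GROW
import Pool.Agent.H738R2.PI.IDE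
import Pool.Agent.H738R2.PI.IND
import Pool.Agent.H738R2.PI.INV
import Pool.Agent.H738R2.PI.LE
import Pool.Agent.H738R2.PI.LU
import Pool.Agent.H738R2.PI.LUR
import Pool.Agent.H738R2.PI.MODE
import Pool.Agent.H738R2.PI.NET
import Pool.Agent.H738R2.PI.NORM
import Pool.Agent.H738R2.PI.PA
import Pool.Agent.H738R2.PI.PAR
import Pool.Agent.H738R2.PI.PB
import Pool.Agent.H738R2.PI.RAL
import Pool.Agent.H738R2.PI.RF
import Pool.Agent.H738R2.PI.ROOT
import Pool.Agent.H738R2.PI.SOLX
import Pool.Agent.H738R2.PI.SP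
import Pool.Agent.H738R2.PI.STAY
import Pool.Agent.H738R2.PI.STRIP
import Pool.Agent.H738R2.PI.SUP
import Pool.Agent.H738R2.PI.UNIF
import Pool.Agent.H738R2.PI.UP
import Pool.Agent.H738R2.PI.ALG

/-!
Final assembly.  Proofs of the modules: helpers 64, 92, 121, 131, 155, 202, 205, 227, 284, 329,
338, 368, 423, 477, 584, 634, 675, 738, 880, 910, 921, 956, 971.
-/

namespace H738PI

theorem allEXT : StEXT := tEXT tLU
theorem allLE : StLE := tLE tRF tINV
theorem allUNIF : StUNIF := tUNIF allLE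
theorem allSTRIP : StSTRIP := tSTRIP allUNIF tLUR
theorem allBR : StBR := tBR
theorem allSTAY : StSTAY := tSTAY tGEO allBR
theorem allDOWN : StDOWN :=
  tDOWN allSTRIP allUNIF tGEO allSTAY tGROW allEXT tGLUD tSOLX
theorem allBAD : StBAD := tBAD tRF tLU tBADX
theorem allUP : StUP := tUP allDOWN allUNIF allEXT tSOLX tGLUE tGROW allBAD tIDE
theorem allROOT : StROOT := tROOT tGEO tRAL
theorem allNORM : StNORM := tNORM tGEO
theorem allPB : StPB := tPB allROOT allNORM tPAR tCIRC allUP tGROW tFOUR tALG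
theorem allIND : StIND := tIND tDV tSP tCH
theorem allSUP : StSUP := tSUP tDV
theorem allMODE : StMODE := tMODE tSP allSUP
theorem allPA : StPA := tPA tEV tSP tNET allIND allMODE

/-- whole phase space, continuous coefficients -/
theorem main : StMain := by
  intro γ ρ a N hO hC hNC hI
  obtain ⟨n, g, e, hn, hg, hdeg, h1, h2⟩ := allPA γ ρ a N hO hC hNC hI
  exact tELL γ ρ hO (allPB γ ρ n g e hO hn hg hdeg h1 h2)

/-- near the boundary, real analytic coefficients -/
theorem mainNear : StMainNear := by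
  intro γ ρ a N hO hC hA hNC hI
  exact main γ ρ a N hO hC hNC (tAN γ a N hA hI)

end H738PI
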