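import Pool.Agent.H738R2.PI.Defs

open Complex Set Filter Topology Polynomial ComplexConjugate

namespace H738PI

lemma IDE_isOpen (a b : ℝ) : IsOpen (strip a b) := by
  have h1 : IsOpen {u : ℂ | a < u.im} := isOpen_lt continuous_const Complex.continuous_im
  have h2 : IsOpen {u : ℂ | u.im < b} := isOpen_lt Complex.continuous_im continuous_const
  exact h1.inter h2

lemma IDE_convex (a b : ℝ) : Convex ℝ (strip a b) := by
  have h1 : Convex ℝ {u : ℂ | a < u.im} := convex_halfSpace_im_gt a
  have h2 : Convex ℝ {u : ℂ | u.im < b} := convex_halfSpace_im_lt b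
  exact h1.inter h2

lemma IDE_eval_cpol (q : ℂ[X]) (x : ℂ) : (cpol q).eval (conj x) = conj (q.eval x) := by
  unfold cpol
  rw [Polynomial.eval_map, Polynomial.eval₂_at_apply]

lemma IDE_refl_deriv (y : ℂ → ℂ) (u : ℂ) : deriv (refl y) u = conj (deriv y (conj u)) := by
  have : refl y = conj ∘ y ∘ conj := rfl
  rw [this, deriv_conj_conj]; rfl

/-- complex derivative of a solution at a real point -/
lemma IDE_deriv_real (γ : ℝ → ℂ) (n : ℕ) (g : ℂ[X]) (σ : ℝ → ℝ) (hP : Par γ n g σ) (z : ℂ → ℂ)
    (x : ℝ) (hz : DifferentiableAt ℂ z x) (hzr : ∀ x : ℝ, z x = γ (σ x)) :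
    deriv z x = I * cexp (σ x * I) * ((‖g.eval (γ (σ x))‖ ^ (1 / (n : ℝ)) : ℝ) : ℂ) := by
  have h1 : HasDerivAt (fun t : ℝ => z t) (deriv z x) x := hz.hasDerivAt.comp_ofReal
  have h2 : (fun t : ℝ => z t) = fun t : ℝ => γ (σ t) := funext hzr
  rw [h2] at h1
  exact h1.unique (hP.der x)

theorem tIDE : StIDE := by
  intro γ ρ n g e σ c b D z y hD hP hc hb hbD hz hy hzr hyr
  have hSo := IDE_isOpen (-c) b
  have hSc : IsPreconnected (strip (-c) b) := (IDE_convex (-c) b).isPreconnected
  have hza : AnalyticOnNhd ℂ z (strip (-c) b) := hz.1.analyticOnNhd hSo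
  have hw : DifferentiableOn ℂ (refl y) (strip (-c) b) := by
    intro u hu
    have h1 : conj u ∈ strip (-D) c := by
      constructor
      · rw [Complex.conj_im]; have := hu.2; linarith
      · rw [Complex.conj_im]; have := hu.1; linarith
    have h2 : DifferentiableAt ℂ y (conj u) :=
      hy.1.differentiableAt ((IDE_isOpen _ _).mem_nhds h1)
    have h3 := h2.conj_conj
    rw [Complex.conj_conj] at h3
    exact h3.differentiableWithinAt
  have hwa : AnalyticOnNhd ℂ (refl y) (strip (-c) b) := hw.analyticOnNhd hSo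
  have hq : ∀ (q : ℂ[X]) (f : ℂ → ℂ), AnalyticOnNhd ℂ f (strip (-c) b) →
      AnalyticOnNhd ℂ (fun u => q.eval (f u)) (strip (-c) b) := by
    intro q f hf u hu
    have h := AnalyticAt.aeval_polynomial (hf u hu) q
    simpa [Polynomial.coe_aeval_eq_eval] using h
  have hLa : AnalyticOnNhd ℂ (fun u => (cpol g).eval (refl y u) *
      (refl y u * (derivative g).eval (z u) + e.eval (z u)) * (deriv z u) ^ 2) (strip (-c) b) :=
    ((hq _ _ hwa).mul ((hwa.mul (hq _ _ hza)).add (hq _ _ hza))).mul (hza.deriv.pow 2)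
  have hRa : AnalyticOnNhd ℂ (fun u => g.eval (z u) * (z u *
      (derivative (cpol g)).eval (refl y u) + (cpol e).eval (refl y u)) * (deriv (refl y) u) ^ 2)
      (strip (-c) b) :=
    ((hq _ _ hza).mul ((hza.mul (hq _ _ hwa)).add (hq _ _ hwa))).mul (hwa.deriv.pow 2)
  have h0 : (0 : ℂ) ∈ strip (-c) b := by
    constructor
    · simpa using hc
    · simpa using hb
  -- equality at real points
  have hreal : ∀ x : ℝ, Id2 g e z (refl y) x := by
    intro x
    have hx : (x : ℂ) ∈ strip (-c) b := by
      constructor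
      · simpa using hc
      · simpa using hb
    have hx' : (x : ℂ) ∈ strip (-D) c := by
      constructor
      · simp only [Complex.ofReal_im]; linarith
      · simpa using hc
    have hdz := IDE_deriv_real γ n g σ hP z x (hz.1.differentiableAt (hSo.mem_nhds hx)) hzr
    have hdy := IDE_deriv_real γ n g σ hP y x
      (hy.1.differentiableAt ((IDE_isOpen _ _).mem_nhds hx')) hyr
    have hdw : deriv (refl y) x = conj (deriv y x) := by
      rw [IDE_refl_deriv, Complex.conj_ofReal]
    have hwx : refl y x = conj (γ (σ x)) := by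
      unfold refl
      rw [Complex.conj_ofReal, hyr]
    unfold Id2
    rw [hdw, hdz, hdy, hwx, hzr]
    set s := σ x with hs
    set Z := γ s with hZ
    set m : ℝ := ‖g.eval Z‖ ^ (1 / (n : ℝ)) with hm
    have hdc : derivative (cpol g) = cpol (derivative g) := by
      unfold cpol; rw [Polynomial.derivative_map]
    rw [hdc, IDE_eval_cpol, IDE_eval_cpol, IDE_eval_cpol]
    set a := cexp (-(n * s * I)) with ha
    set bb := cexp (s * I) with hbb
    have haa : a * conj a = 1 := by
      rw [ha, ← Complex.exp_conj, ← Complex.exp_add]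
      have : -((n : ℂ) * s * I) + conj (-((n : ℂ) * s * I)) = 0 := by
        simp
      rw [this, Complex.exp_zero]
    have hbbb : bb * conj bb = 1 := by
      rw [hbb, ← Complex.exp_conj, ← Complex.exp_add]
      have : (s : ℂ) * I + conj ((s : ℂ) * I) = 0 := by
        simp
      rw [this, Complex.exp_zero]
    have hG : conj (a * g.eval Z) = a * g.eval Z := by
      rw [Complex.conj_eq_iff_im]
      exact hD.p1 s
    have hgZ : conj (g.eval Z) = a * (a * g.eval Z) := by
      rw [map_mul] at hG
      calc conj (g.eval Z) = (a * conj a) * conj (g.eval Z) := by rw [haa, one_mul]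
        _ = a * (conj a * conj (g.eval Z)) := by ring
        _ = _ := by rw [hG]
    set Q := conj Z * (derivative g).eval Z + e.eval Z with hQ
    have hcc : cexp (-(((n : ℂ) - 2) * s * I)) = bb ^ 2 * a := by
      rw [hbb, ha, ← Complex.exp_nat_mul, ← Complex.exp_add]
      congr 1; push_cast; ring
    have hR : conj (bb ^ 2 * a * Q) = bb ^ 2 * a * Q := by
      rw [Complex.conj_eq_iff_im, ← hcc]
      exact hD.p2 s
    have hQc : conj Q = bb ^ 4 * a ^ 2 * Q := by
      rw [map_mul, map_mul, map_pow] at hR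
      have h4 : (bb * conj bb) ^ 2 * (a * conj a) = 1 := by rw [haa, hbbb]; norm_num
      calc conj Q = ((bb * conj bb) ^ 2 * (a * conj a)) * conj Q := by rw [h4, one_mul]
        _ = bb ^ 2 * a * (conj bb ^ 2 * conj a * conj Q) := by ring
        _ = _ := by rw [hR]; ring
    have hQc' : Z * conj ((derivative g).eval Z) + conj (e.eval Z) = conj Q := by
      rw [hQ, map_add, map_mul, Complex.conj_conj]
    rw [hQc', hQc, hgZ]
    have hIm : conj (I * bb * (m : ℂ)) = -(I * conj bb * m) := by
      rw [map_mul, map_mul, Complex.conj_I, Complex.conj_ofReal]; ring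
    rw [hIm]
    have hI2 : I ^ 2 = -1 := Complex.I_sq
    have hb2 : bb ^ 2 * conj bb ^ 2 = 1 := by rw [← mul_pow, hbbb, one_pow]
    linear_combination (- g.eval Z * bb ^ 2 * a ^ 2 * Q * I ^ 2 * m ^ 2) * hb2
  have hfreq : ∃ᶠ u in 𝓝[≠] (0 : ℂ), (fun u => (cpol g).eval (refl y u) *
      (refl y u * (derivative g).eval (z u) + e.eval (z u)) * (deriv z u) ^ 2) u
      = (fun u => g.eval (z u) * (z u *
      (derivative (cpol g)).eval (refl y u) + (cpol e).eval (refl y u)) * (deriv (refl y) u) ^ 2) u := by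
    have ht : Tendsto (fun k : ℕ => (((1 : ℝ) / (k + 1) : ℝ) : ℂ)) atTop (𝓝[≠] (0 : ℂ)) := by
      refine tendsto_nhdsWithin_iff.mpr ⟨?_, Filter.Eventually.of_forall fun k => ?_⟩
      · have h := (tendsto_one_div_add_atTop_nhds_zero_nat (𝕜 := ℝ))
        have h2 := (Complex.continuous_ofReal.tendsto 0).comp h
        simpa [Function.comp_def] using h2
      · simp only [mem_compl_iff, mem_singleton_iff, Complex.ofReal_eq_zero]
        positivity
    refine ht.frequently (Filter.Frequently.of_forall fun k => ?_)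
    exact hreal _
  exact fun u hu => hLa.eqOn_of_preconnected_of_frequently_eq hRa hSc h0 hfreq hu

end H738PI
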