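import Pool.Agent.H738R2.PI.Defs

open Complex Set Filter Topology Polynomial

namespace H738PI

theorem SP_point (a : ℕ → ℝ → ℝ) (N : ℕ) (m : ℤ) (z : ℂ) (φ : ℝ) :
    (Kf a N z φ : ℂ) * cexp (-(m * φ * I)) =
      ∑ j ∈ Finset.range (N + 1), ∑ l ∈ Finset.range (j + 1),
        (1 / 2 : ℂ) ^ j * (j.choose l : ℂ) * z ^ l * (starRingEnd ℂ z) ^ (j - l) *
          ((a j φ : ℂ) * cexp (-((m + 2 * l - j) * φ * I))) := by
  unfold Kf
  rw [Complex.ofReal_sum, Finset.sum_mul]
  apply Finset.sum_congr rfl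
  intro j _
  have hre : (((z * cexp (-(φ * I))).re : ℝ) : ℂ) =
      (1 / 2 : ℂ) * (z * cexp (-(φ * I)) + (starRingEnd ℂ z) * cexp (φ * I)) := by
    rw [Complex.re_eq_add_conj, map_mul, ← Complex.exp_conj, map_neg, map_mul, Complex.conj_ofReal,
      Complex.conj_I]
    have : -((φ : ℂ) * -I) = φ * I := by ring
    rw [this]
    ring
  rw [Complex.ofReal_mul, Complex.ofReal_pow, hre, mul_pow, add_pow, Finset.mul_sum,
    Finset.mul_sum, Finset.sum_mul]
  apply Finset.sum_congr rfl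
  intro l hl
  have hlj : l ≤ j := Nat.lt_succ_iff.1 (Finset.mem_range.1 hl)
  rw [mul_pow, mul_pow, ← Complex.exp_nat_mul, ← Complex.exp_nat_mul, Nat.cast_sub hlj]
  have hexp : cexp (-((m + 2 * l - j) * φ * I)) =
      cexp ((l : ℂ) * -(φ * I)) * cexp (((j : ℂ) - l) * (φ * I)) * cexp (-(m * φ * I)) := by
    rw [← Complex.exp_add, ← Complex.exp_add]
    congr 1
    ring
  rw [hexp]
  ring

theorem tSP : StSP := by
  intro a N ha m z
  unfold Fm
  have h1 : ∀ φ : ℝ, (Kf a N z φ : ℂ) * cexp (-(m * φ * I)) =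
      ∑ j ∈ Finset.range (N + 1), ∑ l ∈ Finset.range (j + 1),
        (1 / 2 : ℂ) ^ j * (j.choose l : ℂ) * z ^ l * (starRingEnd ℂ z) ^ (j - l) *
          ((a j φ : ℂ) * cexp (-((m + 2 * l - j) * φ * I))) := SP_point a N m z
  simp only [h1]
  have hc : ∀ j l : ℕ, Continuous (fun φ : ℝ => (1 / 2 : ℂ) ^ j * (j.choose l : ℂ) * z ^ l *
      (starRingEnd ℂ z) ^ (j - l) * ((a j φ : ℂ) * cexp (-((m + 2 * l - j) * φ * I)))) := by
    intro j l
    have := ha.cont j
    fun_prop
  rw [intervalIntegral.integral_finset_sum]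
  · apply Finset.sum_congr rfl
    intro j _
    rw [intervalIntegral.integral_finset_sum]
    · apply Finset.sum_congr rfl
      intro l _
      rw [intervalIntegral.integral_const_mul]
    · intro l _
      exact (hc j l).intervalIntegrable _ _
  · intro j _
    exact (continuous_finset_sum _ fun l _ => hc j l).intervalIntegrable _ _

end H738PI
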